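import Pool.Graph.R_seed8.TH315.LO.Fin

/-!
# Determinants of block operators

Algebraic identities for `τ log`, in a C*-algebra with a tracial state.
-/

set_option autoImplicit false
set_option linter.unusedSectionVars false
open scoped ComplexConjugate InnerProductSpace Topology
open Filter MeasureTheory

namespace Pool.Agent.H21.And
open Pool.Agent.H712R5.BO Pool.Agent.W611.RO Pool.Agent.TH322.AC Pool.Agent.TH315.LO

section
variable {A : Type} [CStarAlgebra A]

/-- `τ log a` -/
noncomputable def dt (τ : A →L[ℂ] ℂ) (a : A) : ℝ := (τ (CFC.log a)).re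

/-- positive invertible elements -/
def SP (a : A) : Prop := ∃ W : A, IsUnit W ∧ a = star W * W

theorem SP.exp {a : A} (h : SP a) : Ex (CFC.log a) = a ∧ star (CFC.log a) = CFC.log a := by
  obtain ⟨W, hW, rfl⟩ := h
  let := CStarAlgebra.spectralOrder A
  have := CStarAlgebra.spectralOrderedRing A
  let _ : NormedAlgebra ℚ A := NormedAlgebra.restrictScalars ℚ ℂ A
  have hpos : IsStrictlyPositive (star W * W) := ⟨star_mul_self_nonneg _, hW.star.mul hW⟩
  exact ⟨CFC.exp_log _ hpos, IsSelfAdjoint.log⟩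

theorem log_Ex (h : A) (hh : star h = h) : CFC.log (Ex h) = h := by
  let _ : NormedAlgebra ℚ A := NormedAlgebra.restrictScalars ℚ ℂ A
  exact CFC.log_exp h hh

theorem SP.Ex (h : A) (hh : star h = h) : SP (Ex h) := by
  let _ : NormedAlgebra ℚ A := NormedAlgebra.restrictScalars ℚ ℂ A
  refine ⟨Pool.Agent.TH315.LO.Ex ((1/2:ℝ) • h), NormedSpace.isUnit_exp _, ?_⟩
  rw [Ex_star h hh, Ex_add]
  norm_num

theorem SP.root {a : A} (h : SP a) : ∃ W : A, IsUnit W ∧ star W = W ∧ W * W = a ∧ SP W ∧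
    (∀ b : A, Commute b a → Commute b W) := by
  let _ : NormedAlgebra ℚ A := NormedAlgebra.restrictScalars ℚ ℂ A
  obtain ⟨h1, h2⟩ := h.exp
  have h3 : star ((1/2:ℝ) • CFC.log a) = (1/2:ℝ) • CFC.log a := by
    rw [star_smul, h2, star_trivial]
  refine ⟨Pool.Agent.TH315.LO.Ex ((1/2:ℝ) • CFC.log a), NormedSpace.isUnit_exp _,
    Ex_star _ h2 _, ?_, SP.Ex _ h3, ?_⟩
  · rw [Ex_add]
    norm_num
    exact h1
  · intro b hb
    have h4 : Commute (CFC.log a) b := by
      unfold CFC.log
      exact (hb.symm.cfc_real _)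
    have h5 : Commute b ((1/2:ℝ) • CFC.log a) := (h4.symm).smul_right _
    exact h5.exp_right

theorem SP.unit {a : A} (h : SP a) : IsUnit a := by
  obtain ⟨W, hW, rfl⟩ := h
  exact hW.star.mul hW

theorem SP.sa {a : A} (h : SP a) : star a = a := by
  obtain ⟨W, hW, rfl⟩ := h
  rw [star_mul, star_star]

theorem SP.conj {a : A} (h : SP a) {Z : A} (hZ : IsUnit Z) : SP (star Z * a * Z) := by
  obtain ⟨W, hW, rfl⟩ := h
  refine ⟨W * Z, hW.mul hZ, ?_⟩
  rw [star_mul]
  simp only [mul_assoc]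

theorem SP.reg (X : A) {δ : ℝ} (hδ : 0 < δ) : SP (algebraMap ℝ A δ + star X * X) := by
  obtain ⟨h1, h2⟩ := Ex_logd X hδ
  rw [← h1]
  exact SP.Ex _ h2

theorem spec_unit {a : A} (h : SP a) : ∃ c : ℝ, 0 < c ∧ spectrum ℝ a ⊆ Set.Ici c := by
  obtain ⟨W, hW, rfl⟩ := h
  have h0 : spectrum ℝ (star W * W) ⊆ Set.Icc 0 (‖W‖ ^ 2) := spec_le W le_rfl
  have hu : IsUnit (star W * W) := hW.star.mul hW
  have hc : IsCompact (spectrum ℝ (star W * W)) :=
    ContinuousFunctionalCalculus.isCompact_spectrum _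
  rcases (spectrum ℝ (star W * W)).eq_empty_or_nonempty with he | hne
  · exact ⟨1, one_pos, by rw [he]; exact Set.empty_subset _⟩
  · obtain ⟨x, hx, hmin⟩ := hc.exists_isMinOn hne continuousOn_id
    have hx0 : x ≠ 0 := by
      rintro rfl
      exact (spectrum.zero_notMem_iff ℝ).2 hu hx
    refine ⟨x, lt_of_le_of_ne (h0 hx).1 hx0.symm, fun y hy => hmin hy⟩

theorem dt_star (τ : A →L[ℂ] ℂ) (hτ : TrSt τ) {Z : A} (hZ : IsUnit Z) :
    dt τ (star Z * Z) = dt τ (Z * star Z) := by
  obtain ⟨c₁, hc₁, h1⟩ := spec_unit ⟨Z, hZ, rfl⟩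
  obtain ⟨c₂, hc₂, h2⟩ := spec_unit (a := Z * star Z) ⟨star Z, hZ.star, by rw [star_star]⟩
  set c := min c₁ c₂ with hc
  have hc0 : 0 < c := lt_min hc₁ hc₂
  have e1 : CFC.log (star Z * Z) = cfc (fun x : ℝ => Real.log (max x c)) (star Z * Z) := by
    unfold CFC.log
    refine cfc_congr fun x hx => ?_
    show Real.log x = Real.log (max x c)
    rw [max_eq_left ((min_le_left _ _).trans (h1 hx))]
  have e2 : CFC.log (Z * star Z) = cfc (fun x : ℝ => Real.log (max x c)) (Z * star Z) := by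
    unfold CFC.log
    refine cfc_congr fun x hx => ?_
    show Real.log x = Real.log (max x c)
    rw [max_eq_left ((min_le_right _ _).trans (h2 hx))]
  unfold dt
  rw [e1, e2, tau_cfc_comm τ hτ Z]
  refine ContinuousOn.log (by fun_prop) fun x _ => ?_
  exact (lt_of_lt_of_le hc0 (le_max_right _ _)).ne'

theorem dt_conj (τ : A →L[ℂ] ℂ) (hτ : TrSt τ) {a Z : A} (ha : SP a) (hZ : IsUnit Z) :
    dt τ (star Z * a * Z) = dt τ a + dt τ (star Z * Z) := by
  let _ : NormedAlgebra ℚ A := NormedAlgebra.restrictScalars ℚ ℂ A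
  obtain ⟨h1, h2⟩ := ha.exp
  have hb : SP (Z * star Z) := ⟨star Z, hZ.star, by rw [star_star]⟩
  obtain ⟨h3, h4⟩ := hb.exp
  have h5 := logdet_mul_exp τ hτ (CFC.log (Z * star Z)) (CFC.log a) h4 h2
  set W := Pool.Agent.TH315.LO.Ex ((1/2:ℝ) • CFC.log a) with hW
  have hWu : IsUnit W := NormedSpace.isUnit_exp _
  have hWs : star W = W := Ex_star _ h2 _
  have hWW : W * W = a := by
    rw [hW, Ex_add]
    norm_num
    exact h1
  rw [h3] at h5
  have h6 : dt τ (star (W * Z) * (W * Z)) = dt τ ((W * Z) * star (W * Z)) :=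
    dt_star τ hτ (hWu.mul hZ)
  have e1 : star (W * Z) * (W * Z) = star Z * a * Z := by
    rw [star_mul, hWs, ← hWW]
    simp only [mul_assoc]
  have e2 : (W * Z) * star (W * Z) = W * (Z * star Z) * W := by
    rw [star_mul, hWs]
    simp only [mul_assoc]
  rw [e1, e2] at h6
  rw [h6, dt_star τ hτ hZ]
  unfold dt
  linarith

theorem dt_mul (τ : A →L[ℂ] ℂ) (hτ : TrSt τ) {a b : A} (ha : SP a) (hb : SP b)
    (hab : Commute a b) : dt τ (a * b) = dt τ a + dt τ b := by
  obtain ⟨W, hWu, hWs, hWW, -, hcom⟩ := hb.root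
  have h1 := dt_conj τ hτ ha hWu
  rw [hWs, hWW, (hcom a hab).symm.eq, mul_assoc, hWW] at h1
  exact h1

theorem dt_one (τ : A →L[ℂ] ℂ) : dt τ (1 : A) = 0 := by
  unfold dt
  rw [CFC.log_one, map_zero, Complex.zero_re]

theorem dt_inv (τ : A →L[ℂ] ℂ) (hτ : TrSt τ) {a b : A} (ha : SP a) (hb : SP b)
    (hab : a * b = 1) : dt τ b = - dt τ a := by
  have hu := ha.unit
  have hba : b * a = 1 := by
    obtain ⟨u, hu⟩ := hu
    rw [← hu] at hab ⊢
    have h0 : b = ↑u⁻¹ := by
      rw [← mul_one (↑u⁻¹ : A), ← hab, Units.inv_mul_cancel_left]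
    rw [h0, u.inv_mul]
  have h1 := dt_mul τ hτ ha hb (show a * b = b * a by rw [hab, hba])
  rw [hab, dt_one] at h1
  linarith

theorem exp_nil (N : A) (hN : N * N = 0) : NormedSpace.exp N = 1 + N := by
  let _ : NormedAlgebra ℚ A := NormedAlgebra.restrictScalars ℚ ℂ A
  rw [NormedSpace.exp_eq_tsum ℂ]
  show ∑' n : ℕ, ((n.factorial : ℂ)⁻¹) • N ^ n = 1 + N
  rw [tsum_eq_sum (s := Finset.range 2)]
  · rw [Finset.sum_range_succ, Finset.sum_range_one, pow_zero, pow_one]
    norm_num
  · intro n hn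
    obtain ⟨k, rfl⟩ : ∃ k, n = k + 2 := ⟨n - 2, by
      rw [Finset.mem_range] at hn
      omega⟩
    rw [pow_add, sq, hN, mul_zero, smul_zero]

theorem dt_nil (τ : A →L[ℂ] ℂ) (hτ : TrSt τ) (N : A) (hN : N * N = 0) (hN2 : τ N = 0) :
    dt τ (star (1 + N) * (1 + N)) = 0 := by
  have hB2 : P_B2 := t_B2 t_B2a t_B1
  have h1 := t_B13 hB2 A τ hτ N
  rw [hN2, Complex.zero_re, mul_zero, exp_nil N hN] at h1
  exact h1

theorem unit_nil (N : A) (hN : N * N = 0) : IsUnit (1 + N) := by
  let _ : NormedAlgebra ℚ A := NormedAlgebra.restrictScalars ℚ ℂ A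
  rw [← exp_nil N hN]
  exact NormedSpace.isUnit_exp _

theorem SP.of_pos [PartialOrder A] [StarOrderedRing A] {a : A} (h : IsStrictlyPositive a) :
    SP a := by
  let _ : NormedAlgebra ℚ A := NormedAlgebra.restrictScalars ℚ ℂ A
  have h1 : Pool.Agent.TH315.LO.Ex (CFC.log a) = a := CFC.exp_log _ h
  have h2 : star (CFC.log a) = CFC.log a := IsSelfAdjoint.log
  rw [← h1]
  exact SP.Ex _ h2

theorem SP.pos [PartialOrder A] [StarOrderedRing A] {a : A} (h : SP a) :
    IsStrictlyPositive a := by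
  obtain ⟨W, hW, rfl⟩ := h
  exact ⟨star_mul_self_nonneg _, hW.star.mul hW⟩

theorem SP.add {a : A} (h : SP a) (Q : A) : SP (a + star Q * Q) := by
  let := CStarAlgebra.spectralOrder A
  have := CStarAlgebra.spectralOrderedRing A
  exact SP.of_pos (IsStrictlyPositive.add_nonneg h.pos (star_mul_self_nonneg _))

theorem SP.alg {c : ℝ} (hc : 0 < c) : SP (algebraMap ℝ A c) := by
  have h := SP.reg (0 : A) hc
  rwa [star_zero, zero_mul, add_zero] at h

theorem SP.one : SP (1 : A) := ⟨1, isUnit_one, by rw [star_one, mul_one]⟩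

/-- the projections `P`, `Q = 1 - P`, the block `Y = X Q`, and `K = (δ + |Y|²)⁻¹` -/
structure Blk (δ : ℝ) (X P Q Y K : A) : Prop where
  pos : 0 < δ
  sa : star P = P
  idem : P * P = P
  hQ : Q = 1 - P
  hY : Y = X * Q
  hK : (algebraMap ℝ A δ + star Y * Y) * K = 1

section blk
variable {δ : ℝ} {X P Q Y K : A} (h : Blk δ X P Q Y K)
include h

theorem Blk.QQ : Q * Q = Q := by
  rw [h.hQ, sub_mul, one_mul, mul_sub, mul_one, h.idem, sub_self, sub_zero]

theorem Blk.sQ : star Q = Q := by rw [h.hQ, star_sub, star_one, h.sa]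

theorem Blk.PQ : P * Q = 0 := by rw [h.hQ, mul_sub, mul_one, h.idem, sub_self]

theorem Blk.QP : Q * P = 0 := by rw [h.hQ, sub_mul, one_mul, h.idem, sub_self]

theorem Blk.PaddQ : P + Q = 1 := by rw [h.hQ, add_sub_cancel]

theorem Blk.YQ : Y * Q = Y := by rw [h.hY, mul_assoc, h.QQ]

theorem Blk.YP : Y * P = 0 := by rw [h.hY, mul_assoc, h.QP, mul_zero]

theorem Blk.QY : Q * star Y = star Y := by
  have := congrArg star h.YQ
  rwa [star_mul, h.sQ] at this

theorem Blk.PY : P * star Y = 0 := by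
  have := congrArg star h.YP
  rwa [star_mul, h.sa, star_zero] at this

theorem Blk.K' : K * (algebraMap ℝ A δ + star Y * Y) = 1 := by
  obtain ⟨u, hu⟩ := (SP.reg Y h.pos).unit
  have h1 := h.hK
  rw [← hu] at h1 ⊢
  have h0 : K = ↑u⁻¹ := by
    rw [← mul_one (↑u⁻¹ : A), ← h1, Units.inv_mul_cancel_left]
  rw [h0, u.inv_mul]

theorem Blk.sK : star K = K := by
  have h1 := congrArg star h.hK
  rw [star_mul, (SP.reg Y h.pos).sa, star_one] at h1
  calc star K = star K * ((algebraMap ℝ A δ + star Y * Y) * K) := by rw [h.hK, mul_one]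
    _ = K := by rw [← mul_assoc, h1, one_mul]

/-- `K` commutes with everything which commutes with `δ + |Y|²` -/
theorem Blk.comK {b : A} (hb : b * (star Y * Y) = star Y * Y * b) : b * K = K * b := by
  have h1 : b * (algebraMap ℝ A δ + star Y * Y) = (algebraMap ℝ A δ + star Y * Y) * b := by
    rw [mul_add, add_mul, hb, Algebra.commutes]
  calc b * K = K * (algebraMap ℝ A δ + star Y * Y) * b * K := by rw [h.K', one_mul]
    _ = K * (b * ((algebraMap ℝ A δ + star Y * Y) * K)) := by
        rw [mul_assoc K, ← h1]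
        simp only [mul_assoc]
    _ = K * b := by rw [h.hK, mul_one]

theorem Blk.PK : P * K = K * P := h.comK (by
  rw [← mul_assoc, h.PY, zero_mul, mul_assoc, h.YP, mul_zero])

theorem Blk.QK : Q * K = K * Q := h.comK (by
  rw [← mul_assoc, h.QY, mul_assoc, h.YQ])

end blk

/-- the Schur complement -/
def Rr (Y K : A) : A := 1 - Y * K * star Y

/-- the block `P (δ + X* R X) P + Q` -/
noncomputable def Vv (δ : ℝ) (X P Q Y K : A) : A :=
  P * (algebraMap ℝ A δ + star X * Rr Y K * X) * P + Q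

noncomputable def Nn (X P Y K : A) : A := K * star Y * X * P

noncomputable def Dd (δ : ℝ) (P Q Y : A) : A := (algebraMap ℝ A δ + star Y * Y) * Q + P

section blk2
variable {δ : ℝ} {X P Q Y K : A} (h : Blk δ X P Q Y K)
include h

theorem Blk.sR : star (Rr Y K) = Rr Y K := by
  unfold Rr
  rw [star_sub, star_one, star_mul, star_mul, star_star, h.sK, mul_assoc]

theorem Blk.YR : star Y * Rr Y K = algebraMap ℝ A δ * (K * star Y) := by
  unfold Rr
  have h1 := h.hK
  rw [add_mul] at h1
  have h2 : star Y * Y * K = 1 - algebraMap ℝ A δ * K := eq_sub_of_add_eq' h1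
  rw [mul_sub, mul_one]
  have h3 : star Y * (Y * K * star Y) = (star Y * Y * K) * star Y := by simp only [mul_assoc]
  rw [h3, h2, sub_mul, one_mul, sub_sub_cancel, mul_assoc]

theorem Blk.RR : Rr Y K = star (Rr Y K) * Rr Y K
    + algebraMap ℝ A δ * (star (K * star Y) * (K * star Y)) := by
  rw [h.sR]
  have h1 : Rr Y K * Rr Y K = Rr Y K - Y * K * (star Y * Rr Y K) := by
    nth_rewrite 1 [Rr]
    rw [sub_mul, one_mul]
    simp only [mul_assoc]
  rw [h1, h.YR, star_mul, star_star, h.sK]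
  have h2 : Y * K * (algebraMap ℝ A δ * (K * star Y)) = algebraMap ℝ A δ * (Y * K * (K * star Y)) := by
    rw [← mul_assoc (Y * K), ← Algebra.commutes δ (Y * K)]
    simp only [mul_assoc]
  rw [h2, sub_add_cancel]

theorem Blk.QN : Q * Nn X P Y K = Nn X P Y K := by
  unfold Nn
  simp only [← mul_assoc]
  rw [h.QK, mul_assoc K Q, h.QY]

theorem Blk.PN : P * Nn X P Y K = 0 := by
  rw [← h.QN, ← mul_assoc, h.PQ, zero_mul]

theorem Blk.NP : Nn X P Y K * P = Nn X P Y K := by
  unfold Nn
  rw [mul_assoc, h.idem]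

theorem Blk.NN : Nn X P Y K * Nn X P Y K = 0 := by
  nth_rewrite 1 [← h.NP]
  rw [mul_assoc, h.PN, mul_zero]

theorem Blk.tN (τ : A →L[ℂ] ℂ) (hτ : TrSt τ) : τ (Nn X P Y K) = 0 := by
  rw [← h.NP, hτ.tr, h.PN, map_zero]

/-- the product of the two diagonal blocks -/
theorem Blk.DV : Dd δ P Q Y * Vv δ X P Q Y K = (algebraMap ℝ A δ + star Y * Y) * Q
    + P * (algebraMap ℝ A δ + star X * Rr Y K * X) * P := by
  unfold Dd Vv
  generalize algebraMap ℝ A δ + star X * Rr Y K * X = S
  generalize algebraMap ℝ A δ + star Y * Y = E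
  have e1 : E * Q * (P * S * P) = 0 := by
    rw [mul_assoc E, ← mul_assoc Q, ← mul_assoc Q, h.QP, zero_mul, zero_mul, mul_zero]
  have e2 : P * (P * S * P) = P * S * P := by
    rw [← mul_assoc P, ← mul_assoc P, h.idem]
  rw [mul_add, add_mul, add_mul, e1, e2, mul_assoc E, h.QQ, h.PQ, zero_add, add_zero, add_comm]

theorem Blk.VD : Vv δ X P Q Y K * Dd δ P Q Y = (algebraMap ℝ A δ + star Y * Y) * Q
    + P * (algebraMap ℝ A δ + star X * Rr Y K * X) * P := by
  unfold Dd Vv
  generalize algebraMap ℝ A δ + star X * Rr Y K * X = S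
  have e0 : Q * ((algebraMap ℝ A δ + star Y * Y) * Q) = (algebraMap ℝ A δ + star Y * Y) * Q := by
    rw [← mul_assoc, mul_add, ← Algebra.commutes, ← mul_assoc, h.QY, add_mul, mul_assoc _ Q,
      h.QQ, add_mul]
  have e3 : P * ((algebraMap ℝ A δ + star Y * Y) * Q) = 0 := by
    rw [← e0, ← mul_assoc P, h.PQ, zero_mul]
  have e1 : P * S * P * ((algebraMap ℝ A δ + star Y * Y) * Q) = 0 := by
    rw [mul_assoc (P * S), e3, mul_zero]
  have e2 : P * S * P * P = P * S * P := by
    rw [mul_assoc (P * S), h.idem]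
  rw [add_mul, mul_add, mul_add, e1, e2, e0, h.QP, add_zero, zero_add, add_comm]

theorem Blk.comDV : Commute (Dd δ P Q Y) (Vv δ X P Q Y K) := by
  unfold Commute SemiconjBy
  rw [h.DV, h.VD]

theorem Blk.sDV : star (Dd δ P Q Y * Vv δ X P Q Y K) = Dd δ P Q Y * Vv δ X P Q Y K := by
  rw [h.DV]
  have e0 : Q * (algebraMap ℝ A δ + star Y * Y) = (algebraMap ℝ A δ + star Y * Y) * Q := by
    rw [mul_add, ← Algebra.commutes, ← mul_assoc, h.QY, add_mul, mul_assoc _ Y, h.YQ]
  rw [star_add, star_mul, star_mul, star_mul, h.sQ, h.sa, (SP.reg Y h.pos).sa, e0, star_add,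
    star_mul, star_mul, star_star, h.sR, (SP.alg h.pos).sa]
  simp only [mul_assoc]

theorem Blk.TN : Dd δ P Q Y * Vv δ X P Q Y K * Nn X P Y K = star Y * X * P := by
  rw [h.DV, add_mul, mul_assoc _ P, h.PN, mul_zero, add_zero, mul_assoc _ Q, h.QN]
  unfold Nn
  simp only [← mul_assoc]
  rw [h.hK, one_mul]

/-- the block factorization -/
theorem Blk.fac : algebraMap ℝ A δ + star X * X
    = star (1 + Nn X P Y K) * (Dd δ P Q Y * Vv δ X P Q Y K) * (1 + Nn X P Y K) := by
  have h1 := h.TN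
  have h2 := congrArg star h1
  rw [star_mul, h.sDV, star_mul, star_mul, star_star, h.sa] at h2
  set N := Nn X P Y K with hN
  set T := Dd δ P Q Y * Vv δ X P Q Y K with hT
  have h3 : star N * T * N = P * star X * Y * K * star Y * X * P := by
    rw [h2, hN]
    unfold Nn
    simp only [mul_assoc]
  have h4 : star (1 + N) * T * (1 + N) = T + T * N + star N * T + star N * T * N := by
    rw [star_add, star_one]
    noncomm_ring
  rw [h4, h3, h1, h2, hT, h.DV]
  unfold Rr
  have hX : X = X * P + Y := by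
    rw [h.hY, ← mul_add, h.PaddQ, mul_one]
  have hXX : star X * X = P * star X * X * P + P * star X * Y + star Y * X * P + star Y * Y := by
    have : star X = P * star X + star Y := by
      conv_lhs => rw [hX]
      rw [star_add, star_mul, h.sa]
    have e1 : star X * X = (P * star X + star Y) * (X * P + Y) := by
      rw [← this, ← hX]
    rw [e1]
    noncomm_ring
  have h5 : P * (algebraMap ℝ A δ + star X * (1 - Y * K * star Y) * X) * P
      = algebraMap ℝ A δ * P + P * star X * X * P - P * star X * Y * K * star Y * X * P := by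
    have e1 : P * (algebraMap ℝ A δ + star X * (1 - Y * K * star Y) * X) * P
        = P * algebraMap ℝ A δ * P + P * star X * X * P
          - P * star X * Y * K * star Y * X * P := by
      noncomm_ring
    rw [e1, ← Algebra.commutes δ P, mul_assoc (algebraMap ℝ A δ), h.idem]
  have h6 : (algebraMap ℝ A δ + star Y * Y) * Q = algebraMap ℝ A δ * Q + star Y * Y := by
    rw [add_mul, mul_assoc _ Y, h.YQ]
  have h7 : algebraMap ℝ A δ = algebraMap ℝ A δ * P + algebraMap ℝ A δ * Q := by
    rw [← mul_add, h.PaddQ, mul_one]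
  have h8 : P * (star X * Y) = P * star X * Y := by rw [mul_assoc]
  rw [h5, h6, hXX]
  nth_rewrite 1 [h7]
  rw [h8]
  abel

theorem Blk.swap_pos (hδ : 0 < δ) : SP (algebraMap ℝ A δ * Q + P) ∧
    SP (algebraMap ℝ A δ * P + Q) := by
  have key : ∀ P Q : A, star P = P → star Q = Q → P * P = P → Q * Q = Q → P * Q = 0 → Q * P = 0 →
      P + Q = 1 → SP (algebraMap ℝ A δ * Q + P) := by
    intro P Q hP hQ hPP hQQ hPQ hQP h1
    have hs : (0:ℝ) < Real.sqrt δ := Real.sqrt_pos.2 hδ
    have e1 : ∀ a b : ℝ, (algebraMap ℝ A a * Q + P) * (algebraMap ℝ A b * Q + P)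
        = algebraMap ℝ A (a * b) * Q + P := by
      intro a b
      have e2 : algebraMap ℝ A a * Q * (algebraMap ℝ A b * Q) = algebraMap ℝ A (a * b) * Q := by
        rw [mul_assoc, ← mul_assoc Q, ← Algebra.commutes b Q, mul_assoc _ Q, hQQ, ← mul_assoc,
          ← map_mul]
      have e3 : P * (algebraMap ℝ A b * Q) = 0 := by
        rw [← mul_assoc, ← Algebra.commutes b P, mul_assoc, hPQ, mul_zero]
      have e4 : algebraMap ℝ A a * Q * P = 0 := by
        rw [mul_assoc, hQP, mul_zero]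
      rw [add_mul, mul_add, mul_add, e2, e3, e4, hPP, add_zero, zero_add]
    refine ⟨algebraMap ℝ A (Real.sqrt δ) * Q + P, ?_, ?_⟩
    · refine ⟨⟨algebraMap ℝ A (Real.sqrt δ) * Q + P, algebraMap ℝ A (Real.sqrt δ)⁻¹ * Q + P,
        ?_, ?_⟩, rfl⟩
      · rw [e1, mul_inv_cancel₀ hs.ne', map_one, one_mul, add_comm, h1]
      · rw [e1, inv_mul_cancel₀ hs.ne', map_one, one_mul, add_comm, h1]
    · have e2 : star (algebraMap ℝ A (Real.sqrt δ) * Q + P) = algebraMap ℝ A (Real.sqrt δ) * Q + P := by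
        rw [star_add, star_mul, hP, hQ, (SP.alg hs).sa, ← Algebra.commutes]
      rw [e2, e1, Real.mul_self_sqrt hδ.le]
  exact ⟨key P Q h.sa h.sQ h.idem h.QQ h.PQ h.QP h.PaddQ,
    key Q P h.sQ h.sa h.QQ h.idem h.QP h.PQ (by rw [add_comm, h.PaddQ])⟩

theorem Blk.spD : SP (Dd δ P Q Y) := by
  have h6 : Dd δ P Q Y = (algebraMap ℝ A δ * Q + P) + star Y * Y := by
    unfold Dd
    rw [add_mul, mul_assoc _ Y, h.YQ]
    abel
  rw [h6]
  exact (h.swap_pos h.pos).1.add Y

theorem Blk.V_eq : Vv δ X P Q Y K = algebraMap ℝ A δ * P + Q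
    + star (Rr Y K * X * P) * (Rr Y K * X * P)
    + star (algebraMap ℝ A (Real.sqrt δ) * Nn X P Y K)
      * (algebraMap ℝ A (Real.sqrt δ) * Nn X P Y K) := by
  have hs : (0:ℝ) < Real.sqrt δ := Real.sqrt_pos.2 h.pos
  have e1 : star (algebraMap ℝ A (Real.sqrt δ) * Nn X P Y K)
      * (algebraMap ℝ A (Real.sqrt δ) * Nn X P Y K)
      = algebraMap ℝ A δ * (star (Nn X P Y K) * Nn X P Y K) := by
    rw [star_mul, (SP.alg hs).sa, ← Algebra.commutes, mul_assoc, ← mul_assoc (star _),
      ← Algebra.commutes, mul_assoc, ← mul_assoc, ← map_mul, Real.mul_self_sqrt h.pos.le]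
  have e2 : star (Rr Y K * X * P) * (Rr Y K * X * P)
      = P * star X * (star (Rr Y K) * Rr Y K) * X * P := by
    rw [star_mul, star_mul, h.sa]
    simp only [mul_assoc]
  have e3 : star (Nn X P Y K) * Nn X P Y K
      = P * star X * (star (K * star Y) * (K * star Y)) * X * P := by
    unfold Nn
    rw [star_mul, star_mul, h.sa]
    simp only [mul_assoc]
  have e4 : P * star X * Rr Y K * X * P = P * star X * (star (Rr Y K) * Rr Y K) * X * P
      + algebraMap ℝ A δ * (P * star X * (star (K * star Y) * (K * star Y)) * X * P) := by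
    conv_lhs => rw [h.RR]
    generalize star (Rr Y K) * Rr Y K = U
    generalize star (K * star Y) * (K * star Y) = W
    have e5 : P * star X * (algebraMap ℝ A δ * W) = algebraMap ℝ A δ * (P * star X * W) := by
      rw [← mul_assoc, ← Algebra.commutes δ (P * star X)]
      simp only [mul_assoc]
    rw [mul_add, e5]
    simp only [add_mul, mul_assoc]
  rw [e1, e2, e3]
  unfold Vv
  rw [mul_add, add_mul, ← Algebra.commutes δ P, mul_assoc _ P P, h.idem]
  have e6 : P * (star X * Rr Y K * X) * P = P * star X * Rr Y K * X * P := by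
    simp only [mul_assoc]
  rw [e6, e4]
  abel

theorem Blk.spV : SP (Vv δ X P Q Y K) := by
  rw [h.V_eq]
  exact ((h.swap_pos h.pos).2.add _).add _

/-- **the determinant of `δ + |X|²` in terms of the blocks** -/
theorem Blk.dt_eq (τ : A →L[ℂ] ℂ) (hτ : TrSt τ) :
    dt τ (algebraMap ℝ A δ + star X * X) = dt τ (Dd δ P Q Y) + dt τ (Vv δ X P Q Y K) := by
  have hsp : SP (Dd δ P Q Y * Vv δ X P Q Y K) := by
    obtain ⟨W, hWu, hWs, hWW, -, hcom⟩ := h.spV.root
    have h1 := h.spD.conj hWu
    rwa [hWs, (hcom _ h.comDV).symm.eq, mul_assoc, hWW] at h1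
  rw [h.fac, dt_conj τ hτ hsp (unit_nil _ h.NN), dt_nil τ hτ _ h.NN (h.tN τ hτ), add_zero,
    dt_mul τ hτ h.spD h.spV h.comDV]

/-- the inverse of `V` -/
theorem Blk.VH {G : A} (hG : (algebraMap ℝ A δ + star X * X) * G = 1) :
    Vv δ X P Q Y K * (P * G * P + Q) = 1 := by
  have hX : X = X * P + Y := by
    rw [h.hY, ← mul_add, h.PaddQ, mul_one]
  have hQX : Q * star X = star Y := by
    rw [h.hY, star_mul, h.sQ]
  -- the lower left block
  have h1 : (algebraMap ℝ A δ + star Y * Y) * (Q * G * P) = -(star Y * X * P * G * P) := by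
    have e1 : Q * ((algebraMap ℝ A δ + star X * X) * G) * P = 0 := by
      rw [hG, mul_one, h.QP]
    have e2 : Q * ((algebraMap ℝ A δ + star X * X) * G) * P
        = algebraMap ℝ A δ * (Q * G * P) + star Y * X * G * P := by
      rw [← hQX, add_mul, mul_add, add_mul, ← mul_assoc, ← Algebra.commutes δ Q]
      simp only [mul_assoc]
    have e3 : star Y * X * G * P = star Y * X * P * G * P + star Y * Y * (Q * G * P) := by
      conv_lhs => rw [hX]
      have : star Y * Y * (Q * G * P) = star Y * (Y * Q) * G * P := by simp only [mul_assoc]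
      rw [this, h.YQ, mul_add, add_mul, add_mul]
      simp only [mul_assoc]
    rw [e2, e3] at e1
    rw [add_mul]
    rw [eq_neg_iff_add_eq_zero, ← e1]
    abel
  have h2 : Q * G * P = -(K * star Y * X * P * G * P) := by
    have e1 := congrArg (fun Z => K * Z) h1
    simp only [← mul_assoc, mul_neg] at e1
    rw [h.K', one_mul] at e1
    exact e1
  have h3 : P * ((algebraMap ℝ A δ + star X * X) * G) * P = P := by
    rw [hG, mul_one, h.idem]
  have h4 : P * ((algebraMap ℝ A δ + star X * X) * G) * P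
      = algebraMap ℝ A δ * (P * G * P) + P * star X * X * P * G * P
        - P * star X * Y * K * star Y * X * P * G * P := by
    have e1 : P * ((algebraMap ℝ A δ + star X * X) * G) * P
        = algebraMap ℝ A δ * (P * G * P) + P * star X * X * G * P := by
      rw [add_mul, mul_add, add_mul, ← mul_assoc, ← Algebra.commutes δ P]
      simp only [mul_assoc]
    have e2 : P * star X * X * G * P
        = P * star X * X * P * G * P + P * star X * Y * (Q * G * P) := by
      have : P * star X * Y * (Q * G * P) = P * star X * (Y * Q) * G * P := by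
        simp only [mul_assoc]
      rw [this, h.YQ]
      have hx2 : P * star X * X = P * star X * (X * P + Y) := by rw [← hX]
      conv_lhs => rw [hx2]
      simp only [add_mul, mul_add, mul_assoc]
    rw [e1, e2, h2, mul_neg, ← sub_eq_add_neg]
    simp only [← mul_assoc]
    abel
  rw [h4] at h3
  have h5 : Vv δ X P Q Y K * (P * G * P + Q)
      = P * (algebraMap ℝ A δ + star X * Rr Y K * X) * P * G * P + Q := by
    unfold Vv
    generalize algebraMap ℝ A δ + star X * Rr Y K * X = S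
    have e1 : P * S * P * (P * G * P) = P * S * P * G * P := by
      have : P * S * P * (P * G * P) = P * S * (P * P) * G * P := by simp only [mul_assoc]
      rw [this, h.idem]
    have e2 : P * S * P * Q = 0 := by rw [mul_assoc, h.PQ, mul_zero]
    have e3 : Q * (P * G * P) = 0 := by rw [← mul_assoc, ← mul_assoc, h.QP, zero_mul, zero_mul]
    rw [mul_add, add_mul, add_mul, e1, e2, e3, h.QQ, add_zero, zero_add]
  have h6 : P * (algebraMap ℝ A δ + star X * Rr Y K * X) * P * G * P = P := by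
    unfold Rr
    have e1 : P * (algebraMap ℝ A δ + star X * (1 - Y * K * star Y) * X) * P * G * P
        = P * algebraMap ℝ A δ * P * G * P + P * star X * X * P * G * P
          - P * star X * Y * K * star Y * X * P * G * P := by
      noncomm_ring
    rw [e1, ← Algebra.commutes δ P]
    have e2 : algebraMap ℝ A δ * P * P * G * P = algebraMap ℝ A δ * (P * G * P) := by
      have : algebraMap ℝ A δ * P * P * G * P = algebraMap ℝ A δ * (P * P * G * P) := by
        simp only [mul_assoc]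
      rw [this, h.idem]
    rw [e2]
    exact h3
  rw [h5, h6, h.PaddQ]

end blk2

end
end Pool.Agent.H21.And
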