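import Pool.Agent.H21.And9

/-!
# Comparison of the determinants of two random potentials
-/

set_option autoImplicit false
set_option linter.unusedSectionVars false
open scoped ComplexConjugate InnerProductSpace Topology
open Filter MeasureTheory

namespace Pool.Agent.H21.And
open Pool.Agent.H712R5.BO Pool.Agent.W611.RO Pool.Agent.TH322.AC Pool.Agent.TH315.LO

section
variable {G Ω H M : Type} [Group G] [Countable G] [MeasurableSpace Ω] [MulAction G Ω]
  [NormedAddCommGroup H] [InnerProductSpace ℂ H] [CompleteSpace H] [MeasurableSpace M]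
  {P : Measure Ω} [IsProbabilityMeasure P] {b : HilbertBasis G ℂ H}
  {L : G → unitary (H →L[ℂ] H)} {κ : Measure M} [IsProbabilityMeasure κ]

open Classical in
/-- the potential: `a'` if the second coordinate of the mark is in `T`, and `a` otherwise -/
noncomputable def pot (a a' : Ω × M → ℂ) (T : Set ℝ) (x : Env Ω G (M × ℝ)) : ℂ :=
  if (x.2 1).2 ∈ T then a' (x.1, (x.2 1).1) else a (x.1, (x.2 1).1)

theorem pot_meas {a a' : Ω × M → ℂ} (ha : Measurable a) (ha' : Measurable a') {T : Set ℝ}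
    (hT : MeasurableSet T) : Measurable (pot (G := G) a a' T) := by
  classical
  unfold pot
  have h1 : Measurable (fun x : Env Ω G (M × ℝ) => x.2 1) :=
    (measurable_pi_apply 1).comp measurable_snd
  have h2 : Measurable (fun x : Env Ω G (M × ℝ) => (x.1, (x.2 1).1)) :=
    Measurable.prodMk measurable_fst (measurable_fst.comp h1)
  refine Measurable.ite ?_ (ha'.comp h2) (ha.comp h2)
  exact (measurable_snd.comp h1) hT

theorem pot_bd {a a' : Ω × M → ℂ} {B : ℝ} (hB : ∀ y, ‖a y‖ ≤ B) (hB' : ∀ y, ‖a' y‖ ≤ B)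
    (T : Set ℝ) (x : Env Ω G (M × ℝ)) : ‖pot a a' T x‖ ≤ B := by
  unfold pot
  split_ifs
  · exact hB' _
  · exact hB _

/-- `X` is the field `A` plus `W` times the potential -/
def IsX (b : HilbertBasis G ℂ H) (L : G → unitary (H →L[ℂ] H)) (A W : CF (Ω := Ω) b L)
    (a a' : Ω × M → ℂ) (T : Set ℝ) (X : CF (Ω := Env Ω G (M × ℝ)) b L) : Prop :=
  ∀ x k, ev b L x X (b k) = ev b L x.1 A (b k) + pot a a' T (k⁻¹ • x) • ev b L x.1 W (b k)

theorem exists_X (hL : Reg b L) (hm : ∀ g : G, Measurable fun ω : Ω => g • ω)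
    (A W : CF (Ω := Ω) b L) {a a' : Ω × M → ℂ} (ha : Measurable a) (ha' : Measurable a') {B : ℝ}
    (hB0 : 0 ≤ B) (hB : ∀ y, ‖a y‖ ≤ B) (hB' : ∀ y, ‖a' y‖ ≤ B) {T : Set ℝ}
    (hT : MeasurableSet T) :
    ∃ X : CF (Ω := Env Ω G (M × ℝ)) b L, IsX b L A W a a' T X ∧ ‖X‖ ≤ ‖A‖ + ‖W‖ * B := by
  have hm' : ∀ g : G, Measurable fun x : Env Ω G (M × ℝ) => g • x := fun g =>
    Measurable.prodMk ((hm g).comp measurable_fst) ((sh_meas g).comp measurable_snd)
  obtain ⟨A', hA'⟩ := exists_up (E := M × ℝ) A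
  obtain ⟨W', hW'⟩ := exists_up (E := M × ℝ) W
  obtain ⟨D, hD, -⟩ := exists_D hL hm' (pot_meas ha ha' hT) (pot_bd hB hB' T)
  refine ⟨A' + W' * D, fun x k => ?_, ?_⟩
  · rw [map_add, _root_.add_apply, hA', map_mul]
    show _ + ev b L x W' (ev b L x D (b k)) = _
    rw [hD, map_smul, hW']
  · have h1 : ‖A'‖ ≤ ‖A‖ := cf_norm_le (norm_nonneg A) fun x => by
      rw [hA']
      exact ev_norm b L x.1 A
    have h2 : ‖W'‖ ≤ ‖W‖ := cf_norm_le (norm_nonneg W) fun x => by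
      rw [hW']
      exact ev_norm b L x.1 W
    have h3 := hD.norm_le hB0 (pot_bd hB hB' T)
    calc ‖A' + W' * D‖ ≤ ‖A'‖ + ‖W' * D‖ := norm_add_le _ _
      _ ≤ ‖A'‖ + ‖W'‖ * ‖D‖ := by
          gcongr
          exact norm_mul_le _ _
      _ ≤ ‖A‖ + ‖W‖ * B := by gcongr

theorem sh_inv_one {E : Type} (k : G) (m : G → E) : sh k⁻¹ m 1 = m k := by
  unfold sh
  rw [inv_inv, mul_one]

open Classical in
theorem pot_at (a a' : Ω × M → ℂ) (T : Set ℝ) (k : G) (x : Env Ω G (M × ℝ)) :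
    pot a a' T (k⁻¹ • x) = if (x.2 k).2 ∈ T then a' (k⁻¹ • x.1, (x.2 k).1)
      else a (k⁻¹ • x.1, (x.2 k).1) := by
  unfold pot
  rw [smul_env]
  simp only [sh_inv_one]

/-- the sites whose second coordinate is in `J` -/
def WJ (Ω G M : Type) [Group G] (J : Set ℝ) : Set (Env Ω G (M × ℝ)) := {x | (x.2 1).2 ∈ J}

theorem WJ_at (J : Set ℝ) (k : G) (x : Env Ω G (M × ℝ)) :
    k⁻¹ • x ∈ WJ Ω G M J ↔ (x.2 k).2 ∈ J := by
  unfold WJ
  show ((k⁻¹ • x).2 1).2 ∈ J ↔ _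
  rw [smul_env]
  simp only [sh_inv_one]

theorem WJ_meas {J : Set ℝ} (hJ : MeasurableSet J) : MeasurableSet (WJ Ω G M J) := by
  have h1 : Measurable (fun x : Env Ω G (M × ℝ) => (x.2 1).2) :=
    measurable_snd.comp ((measurable_pi_apply 1).comp measurable_snd)
  exact h1 hJ

theorem WJ_real {J : Set ℝ} (hJ : MeasurableSet J) :
    (PK (G := G) P (κ.prod Un)).real (WJ Ω G M J) = Un.real J := by
  classical
  have h1 : (PK (G := G) P (κ.prod Un)).real (WJ Ω G M J)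
      = ∫ x, iJ J 1 x * 1 ∂(PK (G := G) P (κ.prod Un)) := by
    have h2 : ∀ x : Env Ω G (M × ℝ), iJ J 1 x * 1
        = (WJ Ω G M J).indicator (fun _ => (1:ℝ)) x := by
      intro x
      rw [mul_one]
      unfold iJ
      by_cases h : (x.2 1).2 ∈ J
      · rw [Set.indicator_of_mem h, Set.indicator_of_mem (show x ∈ WJ Ω G M J from h)]
      · rw [Set.indicator_of_notMem h, Set.indicator_of_notMem (show x ∉ WJ Ω G M J from h)]
    simp_rw [h2]
    rw [integral_indicator (WJ_meas hJ), setIntegral_const, smul_eq_mul, mul_one]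
  have hi : Integrable (fun x : Env Ω G (M × ℝ) => iJ J 1 x * 1) (PK P (κ.prod Un)) :=
    Integrable.of_bound ((iJ_meas hJ 1).mul measurable_const).aestronglyMeasurable 1
      (Eventually.of_forall (prod_bd (fun _ => by rw [norm_one]) J 1))
  rw [h1, rs_int (1 : G) _ hi]
  have h3 : ∀ x : Env Ω G (M × ℝ), ∫ e, iJ J 1 (rs 1 (x, e)) * 1 ∂(κ.prod Un) = Un.real J := by
    intro x
    have h4 : ∀ e : M × ℝ, iJ J 1 (rs 1 (x, e)) * 1 = (1:ℝ) * J.indicator (fun _ => (1:ℝ)) e.2 := by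
      intro e
      unfold iJ
      rw [rs_self, mul_one, one_mul]
    simp_rw [h4]
    rw [integral_prod_mul (μ := κ) (ν := Un) (fun _ : M => (1:ℝ)) (J.indicator fun _ => (1:ℝ)),
      integral_indicator hJ, setIntegral_const, smul_eq_mul, mul_one]
    simp
  simp_rw [h3]
  simp

theorem one_sub_at {J : Set ℝ} {p : CF (Ω := Env Ω G (M × ℝ)) b L}
    (hp : IsPr b L (WJ Ω G M J) p) (x : Env Ω G (M × ℝ)) (k : G) [Decidable ((x.2 k).2 ∈ J)] :
    ev b L x (1 - p) (b k) = if (x.2 k).2 ∈ J then 0 else b k := by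
  rw [map_sub, map_one]
  show b k - ev b L x p (b k) = _
  rw [hp x k]
  by_cases h : (x.2 k).2 ∈ J
  · rw [if_pos h, if_pos ((WJ_at J k x).2 h), sub_self]
  · rw [if_neg h, if_neg (fun h' => h ((WJ_at J k x).1 h')), sub_zero]

theorem exists_blocks (hL : Reg b L) (hm : ∀ g : G, Measurable fun ω : Ω => g • ω)
    {A W : CF (Ω := Ω) b L} {a a' : Ω × M → ℂ} {T T' J : Set ℝ} (hJ : MeasurableSet J)
    (hTJ : ∀ u, u ∉ J → (u ∈ T ↔ u ∈ T')) {X X' : CF (Ω := Env Ω G (M × ℝ)) b L}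
    (hX : IsX b L A W a a' T X) (hX' : IsX b L A W a a' T' X') {δ : ℝ} (hδ : 0 < δ) :
    ∃ p K : CF (Ω := Env Ω G (M × ℝ)) b L, IsPr b L (WJ Ω G M J) p ∧
      Blk δ X p (1 - p) (X * (1 - p)) K ∧ Blk δ X' p (1 - p) (X * (1 - p)) K := by
  classical
  have hm' : ∀ g : G, Measurable fun x : Env Ω G (M × ℝ) => g • x := fun g =>
    Measurable.prodMk ((hm g).comp measurable_fst) ((sh_meas g).comp measurable_snd)
  obtain ⟨p, hp, hps, hpp⟩ := exists_Pr hL hm' (WJ_meas (Ω := Ω) (G := G) (M := M) hJ)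
  obtain ⟨K, hK⟩ := exists_blk hδ X p hps hpp
  refine ⟨p, K, hp, hK, ⟨hδ, hps, hpp, rfl, ?_, hK.hK⟩⟩
  refine cf_ext fun x => ?_
  rw [map_mul, map_mul]
  refine op_ext (b := b) fun k => ?_
  show ev b L x X (ev b L x (1 - p) (b k)) = ev b L x X' (ev b L x (1 - p) (b k))
  rw [one_sub_at hp]
  by_cases h : (x.2 k).2 ∈ J
  · rw [if_pos h, map_zero, map_zero]
  · rw [if_neg h, hX, hX', pot_at, pot_at]
    congr 2
    by_cases h2 : (x.2 k).2 ∈ T
    · rw [if_pos h2, if_pos ((hTJ _ h).1 h2)]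
    · rw [if_neg h2, if_neg (fun h3 => h2 ((hTJ _ h).2 h3))]

/-- the field does not depend on the second coordinates beyond `q` -/
theorem X_indep {A W : CF (Ω := Ω) b L} {a a' : Ω × M → ℂ} {q : ℝ}
    {X : CF (Ω := Env Ω G (M × ℝ)) b L} (hX : IsX b L A W a a' (Set.Iio q) X) (j : G)
    (x : Env Ω G (M × ℝ)) (m : M) (u : ℝ) (hu : q ≤ u) :
    ev b L (rs j (x, (m, u))) X = ev b L (rs j (x, (m, q))) X := by
  classical
  refine op_ext (b := b) fun k => ?_
  rw [hX, hX, pot_at, pot_at]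
  have e1 : (rs j (x, (m, u))).1 = x.1 := rfl
  have e2 : (rs j (x, (m, q))).1 = x.1 := rfl
  rw [e1, e2]
  by_cases hk : k = j
  · subst hk
    have h1 : (m, u).2 ∉ Set.Iio q := fun h => absurd hu (not_le.2 h)
    have h2 : (m, q).2 ∉ Set.Iio q := fun h => absurd h (lt_irrefl q)
    rw [rs_self, rs_self, if_neg h1, if_neg h2]
  · rw [rs_ne hk, rs_ne hk]

/-- the block `Y` does not depend on the mark at `1`, if this site is removed -/
theorem Y_indep {A W : CF (Ω := Ω) b L} {a a' : Ω × M → ℂ} {T J : Set ℝ}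
    {X p : CF (Ω := Env Ω G (M × ℝ)) b L} (hX : IsX b L A W a a' T X)
    (hp : IsPr b L (WJ Ω G M J) p) (x : Env Ω G (M × ℝ)) {e e' : M × ℝ} (he : e.2 ∈ J)
    (he' : e'.2 ∈ J) :
    ev b L (rs 1 (x, e)) (X * (1 - p)) = ev b L (rs 1 (x, e')) (X * (1 - p)) := by
  classical
  rw [map_mul, map_mul]
  refine op_ext (b := b) fun k => ?_
  show ev b L _ X (ev b L _ (1 - p) (b k)) = ev b L _ X (ev b L _ (1 - p) (b k))
  rw [one_sub_at hp, one_sub_at hp]
  by_cases hk : k = 1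
  · subst hk
    rw [rs_self, rs_self, if_pos he, if_pos he', map_zero, map_zero]
  · rw [rs_ne hk, rs_ne hk]
    by_cases h : (x.2 k).2 ∈ J
    · rw [if_pos h, map_zero, map_zero]
    · rw [if_neg h, hX, hX, pot_at, pot_at, rs_ne hk, rs_ne hk]
      rfl

theorem R_indep {A W : CF (Ω := Ω) b L} {a a' : Ω × M → ℂ} {T J : Set ℝ}
    {X p K : CF (Ω := Env Ω G (M × ℝ)) b L} (hX : IsX b L A W a a' T X)
    (hp : IsPr b L (WJ Ω G M J) p) {δ : ℝ} (h : Blk δ X p (1 - p) (X * (1 - p)) K)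
    (x : Env Ω G (M × ℝ)) {e e' : M × ℝ} (he : e.2 ∈ J) (he' : e'.2 ∈ J) :
    ev b L (rs 1 (x, e)) (Rr (X * (1 - p)) K) = ev b L (rs 1 (x, e')) (Rr (X * (1 - p)) K) := by
  have hY := Y_indep hX hp x he he'
  have hK := ev_inv (b := b) (L := L) (SP.reg (X * (1 - p)) h.pos).unit h.hK
    (x := rs 1 (x, e)) (y := rs 1 (x, e')) (by
      rw [map_add, map_add, ev_alg, ev_alg, map_mul (ev b L _) (star _), map_star, hY,
        map_mul (ev b L _) (star _), map_star])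
  unfold Rr
  rw [map_sub, map_sub, map_one, map_one, map_mul (ev b L _) _ (star _),
    map_mul (ev b L _) _ (star _), map_star, map_star, map_mul (ev b L _) _ K,
    map_mul (ev b L _) _ K, hY, hK]


/-- the values of the diagonal Schur complement -/
theorem sf_at {A W : CF (Ω := Ω) b L} {a a' : Ω × M → ℂ} {T : Set ℝ}
    {X : CF (Ω := Env Ω G (M × ℝ)) b L} (hX : IsX b L A W a a' T X) (δ : ℝ)
    (R : CF (Ω := Env Ω G (M × ℝ)) b L) (x : Env Ω G (M × ℝ)) (e : M × ℝ)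
    [Decidable (e.2 ∈ T)] :
    sf b L δ X R (rs 1 (x, e)) = δ + (⟪ev b L x.1 A (b 1)
        + (if e.2 ∈ T then a' (x.1, e.1) else a (x.1, e.1)) • ev b L x.1 W (b 1),
      ev b L (rs 1 (x, e)) R (ev b L x.1 A (b 1)
        + (if e.2 ∈ T then a' (x.1, e.1) else a (x.1, e.1)) • ev b L x.1 W (b 1))⟫_ℂ).re := by
  unfold sf
  rw [hX, pot_at, rs_self]
  have e1 : (rs 1 (x, e)).1 = x.1 := rfl
  have e2 : (1:G)⁻¹ • x.1 = x.1 := by rw [inv_one, one_smul]
  rw [e1, e2]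
  congr

/-- **the main term** -/
theorem main_term {A W : CF (Ω := Ω) b L} {a a' : Ω × M → ℂ}
    {K₀ : ℝ} (hK00 : 0 ≤ K₀) (hK₀ : ∀ (ω : Ω) (γ α : ℝ) (z : ℂ), 0 < γ → 0 < α →
      ∫ m, (Real.log (γ + α * ‖a' (ω, m) - z‖ ^ 2) - Real.log (γ + α * ‖a (ω, m) - z‖ ^ 2)) ∂κ
        ≤ K₀) {q q' : ℝ} (hq : q < q')
    {X X' p K : CF (Ω := Env Ω G (M × ℝ)) b L} (hX : IsX b L A W a a' (Set.Iio q) X)
    (hX' : IsX b L A W a a' (Set.Iio q') X') (hp : IsPr b L (WJ Ω G M (Set.Ico q q')) p)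
    {δ : ℝ} (h : Blk δ X p (1 - p) (X * (1 - p)) K) :
    ∫ x in WJ Ω G M (Set.Ico q q'), (Real.log (sf b L δ X' (Rr (X * (1 - p)) K) x)
      - Real.log (sf b L δ X (Rr (X * (1 - p)) K) x)) ∂(PK P (κ.prod Un))
      ≤ Un.real (Set.Ico q q') * K₀ := by
  classical
  set J := Set.Ico q q' with hJ
  have hJm : MeasurableSet J := measurableSet_Ico
  set R := Rr (X * (1 - p)) K with hR
  set f : Env Ω G (M × ℝ) → ℝ := fun x => Real.log (sf b L δ X' R x)
      - Real.log (sf b L δ X R x) with hf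
  have hfi : Integrable f (PK P (κ.prod Un)) := (sf_int h _).sub (sf_int h _)
  have hJf : ∀ x, iJ J 1 x * f x = (WJ Ω G M J).indicator f x := by
    intro x
    unfold iJ
    by_cases h1 : (x.2 1).2 ∈ J
    · rw [Set.indicator_of_mem h1, Set.indicator_of_mem (show x ∈ WJ Ω G M J from h1), one_mul]
    · rw [Set.indicator_of_notMem h1, Set.indicator_of_notMem (show x ∉ WJ Ω G M J from h1),
        zero_mul]
  have hi : Integrable (fun x => iJ J 1 x * f x) (PK P (κ.prod Un)) := by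
    simp_rw [hJf]
    exact hfi.indicator (WJ_meas hJm)
  have e0 : ∫ x in WJ Ω G M J, f x ∂(PK P (κ.prod Un))
      = ∫ x, iJ J 1 x * f x ∂(PK P (κ.prod Un)) := by
    rw [← integral_indicator (WJ_meas hJm)]
    simp_rw [hJf]
  rw [e0, rs_int (1 : G) _ hi]
  have hin : ∀ x : Env Ω G (M × ℝ), ∫ e, iJ J 1 (rs 1 (x, e)) * f (rs 1 (x, e)) ∂(κ.prod Un)
      ≤ Un.real J * K₀ := by
    intro x
    set e₀ : M × ℝ := ((x.2 1).1, q) with he₀
    have he₀J : e₀.2 ∈ J := ⟨le_rfl, hq⟩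
    set R₀ := ev b L (rs 1 (x, e₀)) R with hR₀
    have hR₀s : star R₀ = R₀ := by
      rw [hR₀, ← map_star, hR, h.sR]
    have hR₀n : ∀ v, 0 ≤ (⟪v, R₀ v⟫_ℂ).re := by
      intro v
      have hδ := h.pos
      rw [hR₀, hR, R_form h]
      positivity
    have hval0 : ∀ e : M × ℝ, e.2 ∈ J → f (rs 1 (x, e))
        = Real.log (δ + (⟪ev b L x.1 A (b 1) + a' (x.1, e.1) • ev b L x.1 W (b 1),
            R₀ (ev b L x.1 A (b 1) + a' (x.1, e.1) • ev b L x.1 W (b 1))⟫_ℂ).re)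
          - Real.log (δ + (⟪ev b L x.1 A (b 1) + a (x.1, e.1) • ev b L x.1 W (b 1),
            R₀ (ev b L x.1 A (b 1) + a (x.1, e.1) • ev b L x.1 W (b 1))⟫_ℂ).re) := by
      intro e he
      have hRe : ev b L (rs 1 (x, e)) R = R₀ := R_indep hX hp h x he he₀J
      have h1 : e.2 ∉ Set.Iio q := fun h' => absurd he.1 (not_le.2 h')
      have h2 : e.2 ∈ Set.Iio q' := he.2
      show Real.log (sf b L δ X' R (rs 1 (x, e))) - Real.log (sf b L δ X R (rs 1 (x, e))) = _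
      rw [sf_at hX, sf_at hX', hRe, if_neg h1, if_pos h2]
    by_cases hW0 : ev b L x.1 W (b 1) = 0
    · have hval : ∀ e : M × ℝ, iJ J 1 (rs 1 (x, e)) * f (rs 1 (x, e)) = 0 := by
        intro e
        unfold iJ
        rw [rs_self]
        by_cases he : e.2 ∈ J
        · rw [hval0 e he, hW0, smul_zero, smul_zero, sub_self, mul_zero]
        · rw [Set.indicator_of_notMem he, zero_mul]
      simp_rw [hval]
      rw [integral_zero]
      exact mul_nonneg measureReal_nonneg hK00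
    have hR₀p : 0 < (⟪ev b L x.1 W (b 1), R₀ (ev b L x.1 W (b 1))⟫_ℂ).re := R_pos h _ hW0
    obtain ⟨γ, α, z₀, hγ, hα, hquad⟩ := quad hR₀s hR₀n hR₀p (ev b L x.1 A (b 1)) h.pos
    have hval : ∀ e : M × ℝ, iJ J 1 (rs 1 (x, e)) * f (rs 1 (x, e))
        = (Real.log (γ + α * ‖a' (x.1, e.1) - z₀‖ ^ 2)
          - Real.log (γ + α * ‖a (x.1, e.1) - z₀‖ ^ 2)) * J.indicator (fun _ => (1:ℝ)) e.2 := by
      intro e
      unfold iJ
      rw [rs_self]
      by_cases he : e.2 ∈ J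
      · rw [Set.indicator_of_mem he, one_mul, mul_one, hval0 e he, hquad, hquad]
      · rw [Set.indicator_of_notMem he, zero_mul, mul_zero]
    simp_rw [hval]
    rw [integral_prod_mul (μ := κ) (ν := Un) (fun m : M =>
      Real.log (γ + α * ‖a' (x.1, m) - z₀‖ ^ 2) - Real.log (γ + α * ‖a (x.1, m) - z₀‖ ^ 2))
      (J.indicator fun _ => (1:ℝ)), integral_indicator hJm, setIntegral_const, smul_eq_mul,
      mul_one, mul_comm]
    exact mul_le_mul_of_nonneg_left (hK₀ x.1 γ α z₀ hγ hα) measureReal_nonneg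
  have hi2 : Integrable (fun x => ∫ e, iJ J 1 (rs 1 (x, e)) * f (rs 1 (x, e)) ∂(κ.prod Un))
      (PK P (κ.prod Un)) :=
    ((rs_mp (P := P) (κ := κ.prod Un) (1 : G)).integrable_comp_of_integrable
      hi).integral_prod_left
  calc ∫ x, ∫ e, iJ J 1 (rs 1 (x, e)) * f (rs 1 (x, e)) ∂(κ.prod Un) ∂(PK P (κ.prod Un))
      ≤ ∫ _ : Env Ω G (M × ℝ), Un.real J * K₀ ∂(PK P (κ.prod Un)) :=
        integral_mono hi2 (integrable_const _) hin
    _ = Un.real J * K₀ := by simp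

end
end Pool.Agent.H21.And
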