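import Pool.Agent.H21.And10

/-!
# Comparison of the determinants of two random potentials: the theorem
-/

set_option autoImplicit false
set_option linter.unusedSectionVars false
open scoped ComplexConjugate InnerProductSpace Topology
open Filter MeasureTheory

namespace Pool.Agent.H21.And
open Pool.Agent.H712R5.BO Pool.Agent.W611.RO Pool.Agent.TH322.AC Pool.Agent.TH315.LO

section
variable {G Ω H M : Type} [Group G] [Countable G] [MeasurableSpace Ω] [MulAction G Ω]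
  [NormedAddCommGroup H] [InnerProductSpace ℂ H] [CompleteSpace H] [MeasurableSpace M]
  {P : Measure Ω} [IsProbabilityMeasure P] {b : HilbertBasis G ℂ H}
  {L : G → unitary (H →L[ℂ] H)} {κ : Measure M} [IsProbabilityMeasure κ]

/-- `τ log (δ + |X|²)` over the marked space -/
noncomputable def FX (P : Measure Ω) [IsProbabilityMeasure P] (κ : Measure M)
    [IsProbabilityMeasure κ] (b : HilbertBasis G ℂ H) (L : G → unitary (H →L[ℂ] H)) (δ : ℝ)
    (X : CF (Ω := Env Ω G (M × ℝ)) b L) : ℝ :=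
  dt (tau (PK P (κ.prod Un)) b L)
    (algebraMap ℝ (CF (Ω := Env Ω G (M × ℝ)) b L) δ + star X * X)

theorem env_rough (hL : Reg b L) (hP : ∀ g : G, MeasurePreserving (fun ω : Ω => g • ω) P P)
    {A W : CF (Ω := Ω) b L} {a a' : Ω × M → ℂ} {T T' J : Set ℝ} (hJ : MeasurableSet J)
    (hTJ : ∀ u, u ∉ J → (u ∈ T ↔ u ∈ T')) {X X' : CF (Ω := Env Ω G (M × ℝ)) b L}
    (hX : IsX b L A W a a' T X) (hX' : IsX b L A W a a' T' X') {δ : ℝ} (hδ : 0 < δ) :
    FX P κ b L δ X' ≤ FX P κ b L δ X + Un.real J * (Real.log (δ + ‖X'‖ ^ 2) - Real.log δ) := by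
  have hτ : TrSt (tau (PK P (κ.prod Un)) b L) :=
    t_TR G (Env Ω G (M × ℝ)) H _ b L hL (env_mp hP)
  obtain ⟨p, K, hp, h1, h2⟩ := exists_blocks hL (fun g => (hP g).measurable) hJ hTJ hX hX' hδ
  obtain ⟨u, hu⟩ := (SP.reg X hδ).unit
  have h3 := rough hτ h1 h2 (WJ_meas hJ) hp (G' := ↑u⁻¹) (by rw [← hu, u.mul_inv])
  rw [WJ_real hJ] at h3
  exact h3

theorem env_step (hL : Reg b L) (hP : ∀ g : G, MeasurePreserving (fun ω : Ω => g • ω) P P)
    {A W : CF (Ω := Ω) b L} {a a' : Ω × M → ℂ}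
    {K₀ : ℝ} (hK00 : 0 ≤ K₀) (hK₀ : ∀ (ω : Ω) (γ α : ℝ) (z : ℂ), 0 < γ → 0 < α →
      ∫ m, (Real.log (γ + α * ‖a' (ω, m) - z‖ ^ 2) - Real.log (γ + α * ‖a (ω, m) - z‖ ^ 2)) ∂κ
        ≤ K₀) {q q' : ℝ} (h0 : 0 ≤ q) (hq : q < q') (hq1 : q' ≤ 1)
    {X X' : CF (Ω := Env Ω G (M × ℝ)) b L} (hX : IsX b L A W a a' (Set.Iio q) X)
    (hX' : IsX b L A W a a' (Set.Iio q') X') {δ : ℝ} (hδ : 0 < δ) :
    FX P κ b L δ X' ≤ FX P κ b L δ X + (q' - q) * K₀
      + (δ + ‖X‖ ^ 2 + 1) ^ 2 * (((q' - q) / (1 - q)) ^ 2 * (δ⁻¹) ^ 2) := by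
  have hm := fun g => (hP g).measurable
  have hτ : TrSt (tau (PK P (κ.prod Un)) b L) :=
    t_TR G (Env Ω G (M × ℝ)) H _ b L hL (env_mp hP)
  set J := Set.Ico q q' with hJ
  have hJm : MeasurableSet J := measurableSet_Ico
  have hTJ : ∀ u, u ∉ J → (u ∈ Set.Iio q ↔ u ∈ Set.Iio q') := by
    intro u hu
    constructor
    · intro h
      exact lt_trans h hq
    · intro h
      by_contra h'
      exact hu ⟨not_lt.1 h', h⟩
  obtain ⟨p, K, hp, h1, h2⟩ := exists_blocks hL hm hJm hTJ hX hX' hδ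
  obtain ⟨u, hu⟩ := (SP.reg X hδ).unit
  have hG : (algebraMap ℝ (CF (Ω := Env Ω G (M × ℝ)) b L) δ + star X * X) * ↑u⁻¹ = 1 := by
    rw [← hu, u.mul_inv]
  set G' : CF (Ω := Env Ω G (M × ℝ)) b L := ↑u⁻¹ with hG'
  have h1q : 0 < 1 - q := by linarith
  have hUJ : Un.real J = q' - q := Un_Ico h0 hq.le hq1
  have hx : ∀ k : G, k ≠ 1 → ∫ x in WJ Ω G M J, off b L (WJ Ω G M J) G' x k
      ∂(PK P (κ.prod Un)) ≤ ((q' - q) / (1 - q)) ^ 2
        * ∫ x, ‖⟪b k, ev b L x G' (b 1)⟫_ℂ‖ ^ 2 ∂(PK P (κ.prod Un)) := by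
    intro k hk
    set g : Env Ω G (M × ℝ) → ℝ := fun x => ‖⟪b k, ev b L x G' (b 1)⟫_ℂ‖ ^ 2 with hg
    have hgm : Measurable g := ((ev_meas b L G' _ _).norm).pow_const 2
    have hgi : ∀ (j : G) (x : Env Ω G (M × ℝ)) (m : M) (u : ℝ), q ≤ u →
        g (rs j (x, (m, u))) = g (rs j (x, (m, q))) := by
      intro j x m u hu
      have e1 := X_indep hX j x m u hu
      have e2 := ev_inv (b := b) (L := L) (SP.reg X hδ).unit hG
        (x := rs j (x, (m, u))) (y := rs j (x, (m, q))) (by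
          rw [map_add, map_add, ev_alg, ev_alg, map_mul, map_mul, map_star, map_star, e1])
      show ‖⟪b k, ev b L _ G' (b 1)⟫_ℂ‖ ^ 2 = ‖⟪b k, ev b L _ G' (b 1)⟫_ℂ‖ ^ 2
      rw [e2]
    have h3 := two_sites (P := P) (κ := κ) hgm (C := ‖G'‖ ^ 2) (fun x => by
      rw [Real.norm_of_nonneg (by positivity)]
      exact entry_le G' x k) (fun x => by positivity) hk hgi hJm (fun u hu => hu.1)
    rw [Un_Ici h0 (hq.le.trans hq1), hUJ] at h3
    have h4 : ∫ x in WJ Ω G M J, off b L (WJ Ω G M J) G' x k ∂(PK P (κ.prod Un))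
        = ∫ x, iJ J 1 x * (iJ J k x * g x) ∂(PK P (κ.prod Un)) := by
      rw [← integral_indicator (WJ_meas hJm)]
      refine integral_congr_ae (Eventually.of_forall fun x => ?_)
      classical
      show (WJ Ω G M J).indicator (fun x => off b L (WJ Ω G M J) G' x k) x
        = iJ J 1 x * (iJ J k x * g x)
      unfold iJ
      by_cases h5 : (x.2 1).2 ∈ J
      · rw [Set.indicator_of_mem h5, Set.indicator_of_mem (show x ∈ WJ Ω G M J from h5), one_mul]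
        unfold off
        by_cases h6 : (x.2 k).2 ∈ J
        · rw [Set.indicator_of_mem h6, one_mul, if_pos ⟨hk, (WJ_at J k x).2 h6⟩]
        · rw [Set.indicator_of_notMem h6, zero_mul, if_neg (fun h7 => h6 ((WJ_at J k x).1 h7.2))]
      · rw [Set.indicator_of_notMem h5, Set.indicator_of_notMem (show x ∉ WJ Ω G M J from h5),
          zero_mul]
    rw [h4, div_pow, div_mul_eq_mul_div, le_div_iff₀ (by positivity), mul_comm]
    exact h3
  have h5 := step hτ (fun g => (env_mp (κ := κ.prod Un) hP g).measurable) h1 h2 (WJ_meas hJm) hp hG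
    (c := ((q' - q) / (1 - q)) ^ 2) (by positivity) hx
  have h6 := main_term (P := P) hK00 hK₀ hq hX hX' hp h1
  rw [← hJ, hUJ] at h6
  unfold FX
  linarith

/-- finitely many steps -/
theorem steps (hL : Reg b L) (hP : ∀ g : G, MeasurePreserving (fun ω : Ω => g • ω) P P)
    {A W : CF (Ω := Ω) b L} {a a' : Ω × M → ℂ} (ha : Measurable a) (ha' : Measurable a') {B : ℝ}
    (hB0 : 0 ≤ B) (hB : ∀ y, ‖a y‖ ≤ B) (hB' : ∀ y, ‖a' y‖ ≤ B)
    {K₀ : ℝ} (hK00 : 0 ≤ K₀) (hK₀ : ∀ (ω : Ω) (γ α : ℝ) (z : ℂ), 0 < γ → 0 < α →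
      ∫ m, (Real.log (γ + α * ‖a' (ω, m) - z‖ ^ 2) - Real.log (γ + α * ‖a (ω, m) - z‖ ^ 2)) ∂κ
        ≤ K₀) {δ : ℝ} (hδ : 0 < δ) {η : ℝ} (hη : 0 < η) (hη1 : η < 1) {n : ℕ} (hn : 0 < n)
    {X : CF (Ω := Env Ω G (M × ℝ)) b L} (hX : IsX b L A W a a' (Set.Iio 0) X) (j : ℕ) (hj : j ≤ n)
    {Y : CF (Ω := Env Ω G (M × ℝ)) b L} (hY : IsX b L A W a a' (Set.Iio ((1 - η) * j / n)) Y) :
    FX P κ b L δ Y ≤ FX P κ b L δ X + j * ((1 - η) / n * K₀
      + (δ + (‖A‖ + ‖W‖ * B) ^ 2 + 1) ^ 2 * ((1 / (n * η)) ^ 2 * (δ⁻¹) ^ 2)) := by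
  have hn0 : (0:ℝ) < n := Nat.cast_pos.2 hn
  have h1η : 0 < 1 - η := by linarith
  induction j generalizing Y with
  | zero =>
    have h1 : Y = X := by
      refine cf_ext fun x => op_ext (b := b) fun k => ?_
      rw [hY, hX]
      norm_num
    rw [h1, Nat.cast_zero, zero_mul, add_zero]
  | succ j ih =>
    have hjn : j ≤ n := (Nat.le_succ j).trans hj
    obtain ⟨Z, hZ, hZn⟩ := exists_X hL (fun g => (hP g).measurable) A W ha ha' hB0 hB hB'
      (measurableSet_Iio (a := (1 - η) * j / n))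
    have h1 := ih hjn hZ
    have hjn' : (j : ℝ) + 1 ≤ n := by exact_mod_cast hj
    have h0 : 0 ≤ (1 - η) * j / n := by positivity
    have e1 : (1 - η) * ((j + 1 : ℕ) : ℝ) / n - (1 - η) * j / n = (1 - η) / n := by
      push_cast
      ring
    have hlt : (1 - η) * j / n < (1 - η) * ((j + 1 : ℕ) : ℝ) / n := by
      have : 0 < (1 - η) / n := by positivity
      linarith
    have hle' : (1 - η) * ((j + 1 : ℕ) : ℝ) / n ≤ 1 - η := by
      rw [div_le_iff₀ hn0]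
      push_cast
      exact mul_le_mul_of_nonneg_left hjn' h1η.le
    have hle : (1 - η) * ((j + 1 : ℕ) : ℝ) / n ≤ 1 := by linarith
    have h2 := env_step hL hP hK00 hK₀ h0 hlt hle hZ hY hδ
    rw [e1] at h2
    have h3 : ((1 - η) / n / (1 - (1 - η) * j / n)) ^ 2 ≤ (1 / (n * η)) ^ 2 := by
      have h4 : η ≤ 1 - (1 - η) * j / n := by linarith
      have h5 : (1 - η) / n / (1 - (1 - η) * j / n) ≤ 1 / n / η := by
        have : 1 - η ≤ 1 := by linarith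
        gcongr
      have h6 : 0 ≤ (1 - η) / n / (1 - (1 - η) * j / n) := by
        have : 0 < 1 - (1 - η) * j / n := hη.trans_le h4
        positivity
      rw [div_div 1 (n:ℝ) η] at h5
      gcongr
    have h4 : (δ + ‖Z‖ ^ 2 + 1) ^ 2 * (((1 - η) / n / (1 - (1 - η) * j / n)) ^ 2 * (δ⁻¹) ^ 2)
        ≤ (δ + (‖A‖ + ‖W‖ * B) ^ 2 + 1) ^ 2 * ((1 / (n * η)) ^ 2 * (δ⁻¹) ^ 2) := by
      gcongr
    push_cast
    linarith

/-- **comparison of the determinants** -/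
theorem comparison (hL : Reg b L) (hP : ∀ g : G, MeasurePreserving (fun ω : Ω => g • ω) P P)
    {A W : CF (Ω := Ω) b L} {a a' : Ω × M → ℂ} (ha : Measurable a) (ha' : Measurable a') {B : ℝ}
    (hB0 : 0 ≤ B) (hB : ∀ y, ‖a y‖ ≤ B) (hB' : ∀ y, ‖a' y‖ ≤ B)
    {K₀ : ℝ} (hK00 : 0 ≤ K₀) (hK₀ : ∀ (ω : Ω) (γ α : ℝ) (z : ℂ), 0 < γ → 0 < α →
      ∫ m, (Real.log (γ + α * ‖a' (ω, m) - z‖ ^ 2) - Real.log (γ + α * ‖a (ω, m) - z‖ ^ 2)) ∂κ
        ≤ K₀) {δ : ℝ} (hδ : 0 < δ)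
    {X X' : CF (Ω := Env Ω G (M × ℝ)) b L} (hX : IsX b L A W a a' ∅ X)
    (hX' : IsX b L A W a a' Set.univ X') :
    FX P κ b L δ X' ≤ FX P κ b L δ X + K₀ := by
  have hm := fun g => (hP g).measurable
  set D : ℝ := ‖A‖ + ‖W‖ * B with hD
  set C₁ : ℝ := (δ + D ^ 2 + 1) ^ 2 * (δ⁻¹) ^ 2 with hC₁
  have hC₁0 : 0 ≤ C₁ := by positivity
  set C₂ : ℝ := Real.log (δ + ‖X'‖ ^ 2) - Real.log δ with hC₂
  obtain ⟨X₀, hX₀, -⟩ := exists_X hL hm A W ha ha' hB0 hB hB' (measurableSet_Iio (a := (0:ℝ)))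
  -- the first change has measure zero
  have hfirst : FX P κ b L δ X₀ ≤ FX P κ b L δ X := by
    have h1 := env_rough (κ := κ) hL hP (J := Set.Iio (0:ℝ)) measurableSet_Iio (fun u hu => by
      constructor
      · intro h
        exact absurd h (Set.notMem_empty u)
      · intro h
        exact absurd h hu) hX hX₀ hδ
    rw [Un_Iio, zero_mul, add_zero] at h1
    exact h1
  have key : ∀ (η : ℝ) (n : ℕ), 0 < η → η < 1 → 0 < n →
      FX P κ b L δ X' ≤ FX P κ b L δ X + (1 - η) * K₀ + C₁ / (n * η ^ 2) + η * C₂ := by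
    intro η n hη hη1 hn
    have hn0 : (0:ℝ) < n := Nat.cast_pos.2 hn
    obtain ⟨Y, hY, -⟩ := exists_X hL hm A W ha ha' hB0 hB hB'
      (measurableSet_Iio (a := (1 - η) * (n:ℝ) / n))
    have h1 := steps (κ := κ) hL hP ha ha' hB0 hB hB' hK00 hK₀ hδ hη hη1 hn hX₀ n le_rfl hY
    have e1 : (1 - η) * (n:ℝ) / n = 1 - η := by field_simp
    rw [e1] at hY
    have h2 := env_rough (κ := κ) hL hP (J := Set.Ici (1 - η)) (T' := Set.univ) measurableSet_Ici
      (fun u hu => by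
        constructor
        · intro _
          exact Set.mem_univ u
        · intro _
          exact Set.notMem_Ici.1 hu) hY hX' hδ
    rw [Un_Ici (by linarith) (by linarith)] at h2
    have e2 : (n:ℝ) * ((1 - η) / n * K₀ + (δ + (‖A‖ + ‖W‖ * B) ^ 2 + 1) ^ 2
        * ((1 / (n * η)) ^ 2 * (δ⁻¹) ^ 2)) = (1 - η) * K₀ + C₁ / (n * η ^ 2) := by
      rw [hC₁, hD]
      field_simp
    rw [e2] at h1
    have e3 : 1 - (1 - η) = η := by ring
    rw [e3] at h2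
    linarith
  refine le_of_forall_pos_le_add fun ε hε => ?_
  set η : ℝ := min (1 / 2) (ε / (2 * (|K₀| + |C₂| + 1))) with hη
  have hη0 : 0 < η := by
    rw [hη]
    refine lt_min (by norm_num) (by positivity)
  have hη1 : η < 1 := by
    have := min_le_left (1 / 2 : ℝ) (ε / (2 * (|K₀| + |C₂| + 1)))
    rw [← hη] at this
    linarith
  have hη2 : η * (|K₀| + |C₂|) ≤ ε / 2 := by
    have h1 := min_le_right (1 / 2 : ℝ) (ε / (2 * (|K₀| + |C₂| + 1)))
    rw [← hη] at h1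
    calc η * (|K₀| + |C₂|) ≤ η * (|K₀| + |C₂| + 1) :=
          mul_le_mul_of_nonneg_left (by linarith) hη0.le
      _ ≤ ε / (2 * (|K₀| + |C₂| + 1)) * (|K₀| + |C₂| + 1) := by gcongr
      _ = ε / 2 := by field_simp
  obtain ⟨n, hn⟩ := exists_nat_gt (C₁ / (η ^ 2 * (ε / 2)))
  have hnpos : 0 < n := by
    rcases Nat.eq_zero_or_pos n with h0 | h0
    · rw [h0, Nat.cast_zero] at hn
      have : 0 ≤ C₁ / (η ^ 2 * (ε / 2)) := by positivity
      linarith
    · exact h0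
  have hn0 : (0:ℝ) < n := Nat.cast_pos.2 hnpos
  have h1 := key η n hη0 hη1 hnpos
  have h2 : C₁ / (n * η ^ 2) ≤ ε / 2 := by
    rw [div_lt_iff₀ (by positivity)] at hn
    rw [div_le_iff₀ (by positivity)]
    nlinarith
  have h3 : -(η * K₀) + η * C₂ ≤ ε / 2 := by
    have e1 : -K₀ ≤ |K₀| := neg_le_abs K₀
    have e2 : C₂ ≤ |C₂| := le_abs_self C₂
    have e3 : η * (-K₀ + C₂) ≤ η * (|K₀| + |C₂|) := by gcongr
    linarith
  linarith

end
end Pool.Agent.H21.And
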