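import Pool.Agent.H21.Prp

/-!
# Pencils: almost every complex and almost every real parameter
-/

set_option autoImplicit false
set_option linter.unusedSectionVars false
open scoped ComplexConjugate InnerProductSpace Topology
open Filter MeasureTheory

namespace Pool.Agent.H21.Smv
open Pool.Agent.H712R5.BO Pool.Agent.W611.RO

section
variable {A : Type} [CStarAlgebra A]

theorem not_good_zero {τ : A →L[ℂ] ℂ} (hτ : TrSt τ) : ¬ Good τ (0 : A) := by
  rintro ⟨c, κ, h1, h2⟩
  have hn : ‖(0 : A) - c • (1 : A)‖ ≤ ‖c‖ := by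
    rw [zero_sub, norm_neg, norm_smul]
    have h1 : ‖(1 : A)‖ ≤ 1 := by
      rcases subsingleton_or_nontrivial A with hA | hA
      · rw [Subsingleton.elim (1 : A) 0, norm_zero]; exact zero_le_one
      · exact CStarRing.norm_one.le
    exact mul_le_of_le_one_right (norm_nonneg _) h1
  have h3 : ∀ δ : ℝ, 0 < δ → Real.exp (2 * κ) ≤ δ + ‖c‖ ^ 2 := by
    intro δ hδ
    have h4 := (h2 δ hδ).trans (uu_le τ hτ _ hδ hn)
    rwa [Real.le_log_iff_exp_le (by positivity)] at h4
  have h5 : Real.exp (2 * κ) ≤ ‖c‖ ^ 2 := by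
    refine le_of_forall_pos_le_add fun δ hδ => ?_
    have := h3 δ hδ
    linarith
  have h6 : Real.exp (2 * κ) = Real.exp κ ^ 2 := by
    rw [← Real.exp_nat_mul]; norm_num
  rw [h6] at h5
  have h7 := pow_le_pow_left₀ (norm_nonneg c) h1.le 2
  have h8 : ‖c‖ ^ 2 < Real.exp κ ^ 2 := pow_lt_pow_left₀ h1 (norm_nonneg _) two_ne_zero
  linarith

/-- the good parameters form a measurable set -/
theorem good_meas {τ : A →L[ℂ] ℂ} (hτ : TrSt τ) (Y : ℂ → A) (hY : Continuous Y) :
    MeasurableSet {t : ℂ | Good τ (Y t)} := by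
  set F : ℚ → ℕ → Set ℂ := fun κ m => {t : ℂ | ∃ c : Metric.closedBall (0:ℂ)
    (Real.exp κ - 1 / ((m : ℝ) + 1)), ∀ n : ℕ,
      2 * (κ : ℝ) ≤ uu τ (1 / ((n : ℝ) + 1)) (Y t - (c : ℂ) • (1 : A))} with hF
  have hFc : ∀ κ m, IsClosed (F κ m) := by
    intro κ m
    have h1 : IsClosed {p : Metric.closedBall (0:ℂ) (Real.exp κ - 1 / ((m : ℝ) + 1)) × ℂ |
        ∀ n : ℕ, 2 * (κ : ℝ) ≤ uu τ (1 / ((n : ℝ) + 1)) (Y p.2 - (p.1 : ℂ) • (1 : A))} := by
      simp only [Set.ofPred_forall]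
      refine isClosed_iInter fun n => isClosed_le continuous_const ?_
      refine (uu_cont τ (by positivity)).comp ?_
      exact (hY.comp continuous_snd).sub
        ((continuous_subtype_val.comp continuous_fst).smul continuous_const)
    have : CompactSpace (Metric.closedBall (0:ℂ) (Real.exp κ - 1 / ((m : ℝ) + 1))) :=
      isCompact_iff_compactSpace.1 (isCompact_closedBall _ _)
    have h2 := isClosedMap_snd_of_compactSpace _ h1
    convert h2 using 1
    ext t
    constructor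
    · rintro ⟨c, hc⟩
      exact ⟨(c, t), hc, rfl⟩
    · rintro ⟨⟨c, t'⟩, hc, rfl⟩
      exact ⟨c, hc⟩
  have hG : {t : ℂ | Good τ (Y t)} = ⋃ κ : ℚ, ⋃ m : ℕ, F κ m := by
    ext t
    simp only [Set.mem_iUnion]
    constructor
    · rintro ⟨c, κ, h1, h2⟩
      obtain ⟨κ', hκ1, hκ2⟩ : ∃ κ' : ℚ, (κ' : ℝ) < κ ∧ ‖c‖ < Real.exp κ' := by
        have ho : ∀ᶠ x in 𝓝 κ, ‖c‖ < Real.exp x :=
          Real.continuous_exp.continuousAt.eventually (lt_mem_nhds h1)
        obtain ⟨ε, hε, hb⟩ := Metric.eventually_nhds_iff.1 ho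
        obtain ⟨q, hq1, hq2⟩ := exists_rat_btwn (show κ - ε < κ by linarith)
        exact ⟨q, hq2, hb (by rw [Real.dist_eq, abs_lt]; constructor <;> linarith)⟩
      obtain ⟨m, hm⟩ := exists_nat_one_div_lt (sub_pos.2 hκ2)
      refine ⟨κ', m, ⟨c, ?_⟩, fun n => ?_⟩
      · rw [mem_closedBall_zero_iff]
        linarith
      · have := h2 (1 / ((n : ℝ) + 1)) (by positivity)
        linarith
    · rintro ⟨κ, m, ⟨c, hc⟩, h2⟩
      refine ⟨c, κ, ?_, fun δ hδ => ?_⟩
      · rw [mem_closedBall_zero_iff] at hc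
        have : (0:ℝ) < 1 / ((m : ℝ) + 1) := by positivity
        linarith
      · obtain ⟨n, hn⟩ := exists_nat_one_div_lt hδ
        exact (h2 n).trans (uu_mono τ hτ _ (by positivity) hn.le)
  rw [hG]
  exact MeasurableSet.iUnion fun κ => MeasurableSet.iUnion fun m => (hFc κ m).measurableSet

/-- almost every complex parameter -/
theorem plane {τ : A →L[ℂ] ℂ} (hτ : TrSt τ) (Y : ℂ → A) (hY : Differentiable ℂ Y) (t₀ : ℂ)
    (hG : Good τ (Y t₀)) : ∀ᵐ t : ℂ, Good τ (Y t) := by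
  have h1 : ∀ w : ℂ, ∀ᵐ θ ∂hm, Good τ (Y (t₀ + w * ee θ)) := by
    intro w
    have hd : Differentiable ℂ fun z : ℂ => Y (t₀ + w * z) :=
      hY.comp ((differentiable_id.const_mul w).const_add t₀)
    exact prop τ hτ (fun z => Y (t₀ + w * z)) hd (by simpa using hG)
  have hmeas : MeasurableSet {x : ℂ × Cir | Good τ (Y (t₀ + x.1 * ee x.2))} := by
    have h2 : Continuous fun x : ℂ × Cir => t₀ + x.1 * ee x.2 :=
      continuous_const.add (continuous_fst.mul (ee_cont.comp continuous_snd))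
    exact h2.measurable (good_meas hτ Y hY.continuous)
  have h3 : ∀ᵐ θ ∂hm, ∀ᵐ w : ℂ, Good τ (Y (t₀ + w * ee θ)) :=
    (Measure.ae_ae_comm (μ := (volume : Measure ℂ)) (ν := hm) hmeas).1 (Eventually.of_forall h1)
  obtain ⟨θ, hθ⟩ := h3.exists
  set f : ℂ → ℂ := fun w => t₀ + w * ee θ with hf
  have h4 : {t : ℂ | ¬ Good τ (Y t)} ⊆ f '' {w : ℂ | ¬ Good τ (Y (f w))} := by
    intro t ht
    refine ⟨(t - t₀) / ee θ, ?_, ?_⟩
    · show ¬ Good τ (Y (f ((t - t₀) / ee θ)))
      have : f ((t - t₀) / ee θ) = t := by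
        rw [hf]
        dsimp only
        rw [div_mul_cancel₀ _ (ee_ne θ)]
        ring
      rw [this]
      exact ht
    · rw [hf]
      dsimp only
      rw [div_mul_cancel₀ _ (ee_ne θ)]
      ring
  have h5 : volume (f '' {w : ℂ | ¬ Good τ (Y (f w))}) = 0 := by
    refine addHaar_image_eq_zero_of_differentiableOn_of_addHaar_eq_zero (μ := volume) ?_ hθ
    have : Differentiable ℝ f := by
      rw [hf]
      fun_prop
    exact this.differentiableOn
  exact measure_mono_null h4 h5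

/-- the parametrization of the real line -/
theorem real_par (t₁ : ℂ) (x : ℝ) (hx : Real.sin (Real.pi * x) ≠ 0) :
    t₁ - conj t₁ * ee (x : Cir) = (1 - ee (x : Cir)) *
      ((t₁.re - t₁.im * (Real.cos (Real.pi * x) / Real.sin (Real.pi * x)) : ℝ) : ℂ) := by
  have h1 : ee (x : Cir) = (Real.cos (Real.pi * x) + Real.sin (Real.pi * x) * Complex.I) ^ 2 := by
    unfold ee
    rw [fourier_coe_apply]
    have : (2 * (Real.pi : ℂ) * Complex.I * ((1 : ℤ) : ℂ) * (x : ℂ) / ((1 : ℝ) : ℂ))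
        = (2 : ℕ) * ((Real.pi * x : ℝ) * Complex.I) := by
      push_cast
      ring
    rw [this, Complex.exp_nat_mul, Complex.exp_mul_I]
    push_cast
    rfl
  set s : ℝ := Real.sin (Real.pi * x) with hs
  set c : ℝ := Real.cos (Real.pi * x) with hc
  have hsc : (s : ℂ) ^ 2 + (c : ℂ) ^ 2 = 1 := by
    exact_mod_cast Real.sin_sq_add_cos_sq (Real.pi * x)
  have hs0 : (s : ℂ) ≠ 0 := by exact_mod_cast hx
  have hI : Complex.I ^ 2 = -1 := Complex.I_sq
  rw [h1]
  have e1 : t₁ = t₁.re + t₁.im * Complex.I := (Complex.re_add_im t₁).symm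
  have e2 : conj t₁ = t₁.re - t₁.im * Complex.I := by
    apply Complex.ext <;> simp
  rw [e2]
  nth_rewrite 1 [e1]
  push_cast
  field_simp
  linear_combination (t₁.im : ℂ) * (c + s * Complex.I) * (s ^ 2 * hI - hsc)

/-- almost every real parameter -/
theorem real_line {τ : A →L[ℂ] ℂ} (hτ : TrSt τ) (A₀ B₀ : A) (t₁ : ℂ) (him : t₁.im ≠ 0)
    (hG : Good τ (A₀ + t₁ • B₀)) : ∀ᵐ t : ℝ, Good τ (A₀ + (t : ℂ) • B₀) := by
  set Y : ℂ → A := fun w => (1 - w) • A₀ + (t₁ - conj t₁ * w) • B₀ with hY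
  have hYd : Differentiable ℂ Y := by
    rw [hY]
    fun_prop
  have h1 : ∀ᵐ θ ∂hm, Good τ (Y (ee θ)) := prop τ hτ Y hYd (by
    rw [hY]
    simpa using hG)
  -- transfer to the interval
  have h2 : ∀ᵐ x : ℝ ∂(volume.restrict (Set.Ioc (0:ℝ) (0 + 1))), Good τ (Y (ee (x : Cir))) := by
    have hmp := UnitAddCircle.measurePreserving_mk 0
    have hvol : (volume : Measure UnitAddCircle) = hm := by
      have := AddCircle.volume_eq_smul_haarAddCircle (T := 1)
      simpa using this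
    have h1' : ∀ᵐ θ ∂(volume : Measure UnitAddCircle), Good τ (Y (ee θ)) := by
      rw [hvol]; exact h1
    exact hmp.quasiMeasurePreserving.ae h1'
  set φ : ℝ → ℝ := fun x =>
    t₁.re - t₁.im * (Real.cos (Real.pi * x) / Real.sin (Real.pi * x)) with hφ
  set N : Set ℝ := {x | x ∈ Set.Ioo (0:ℝ) 1 ∧ ¬ Good τ (Y (ee (x : Cir)))} with hN
  have hsin : ∀ x ∈ Set.Ioo (0:ℝ) 1, Real.sin (Real.pi * x) ≠ 0 := by
    intro x hx
    refine (Real.sin_pos_of_pos_of_lt_pi (mul_pos Real.pi_pos hx.1) ?_).ne'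
    have := Real.pi_pos
    nlinarith [hx.2]
  have hN0 : volume N = 0 := by
    rw [zero_add, ae_restrict_iff' measurableSet_Ioc] at h2
    refine measure_mono_null ?_ h2
    intro x hx hcon
    exact hx.2 (hcon ⟨hx.1.1, hx.1.2.le⟩)
  have hsub : {t : ℝ | ¬ Good τ (A₀ + (t : ℂ) • B₀)} ⊆ φ '' N := by
    intro t ht
    -- the preimage
    set r : ℝ := (t₁.re - t) / t₁.im with hr
    set x : ℝ := 1 / 2 - Real.arctan r / Real.pi with hx
    have hpi := Real.pi_pos
    have hx1 : Real.pi * x = Real.pi / 2 - Real.arctan r := by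
      rw [hx, mul_sub, mul_div_cancel₀ _ hpi.ne']
      ring
    have hx01 : x ∈ Set.Ioo (0:ℝ) 1 := by
      have h3 := Real.arctan_lt_pi_div_two r
      have h4 := Real.neg_pi_div_two_lt_arctan r
      constructor
      · have : 0 < Real.pi * x := by rw [hx1]; linarith
        exact (mul_pos_iff_of_pos_left hpi).1 this
      · have : Real.pi * x < Real.pi * 1 := by rw [hx1]; linarith
        exact lt_of_mul_lt_mul_left this hpi.le
    have hφx : φ x = t := by
      rw [hφ]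
      dsimp only
      rw [hx1, Real.cos_pi_div_two_sub, Real.sin_pi_div_two_sub, ← Real.tan_eq_sin_div_cos,
        Real.tan_arctan, hr, mul_div_cancel₀ _ him]
      ring
    refine ⟨x, ⟨hx01, fun hgood => ht ?_⟩, hφx⟩
    have h3 := real_par t₁ x (hsin x hx01)
    have h4 : (t₁.re - t₁.im * (Real.cos (Real.pi * x) / Real.sin (Real.pi * x)) : ℝ) = t := hφx
    rw [h4] at h3
    have h5 : Y (ee (x : Cir)) = (1 - ee (x : Cir)) • (A₀ + (t : ℂ) • B₀) := by
      rw [hY]
      dsimp only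
      rw [h3, smul_add, smul_smul]
    rw [h5] at hgood
    by_cases h0 : (1 : ℂ) - ee (x : Cir) = 0
    · rw [h0, zero_smul] at hgood
      exact absurd hgood (not_good_zero hτ)
    · exact hgood.of_smul hτ h0
  have hφd : DifferentiableOn ℝ φ N := by
    intro x hx
    refine DifferentiableAt.differentiableWithinAt ?_
    have h3 := hsin x hx.1
    rw [hφ]
    exact ((differentiableAt_const _).sub ((differentiableAt_const _).mul
      (DifferentiableAt.div (by fun_prop) (by fun_prop) h3)))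
  have h6 : volume (φ '' N) = 0 :=
    addHaar_image_eq_zero_of_differentiableOn_of_addHaar_eq_zero (μ := volume) hφd hN0
  exact measure_mono_null hsub h6

/-- **Pencils.** -/
theorem pencil {τ : A →L[ℂ] ℂ} (hτ : TrSt τ) (A₀ B₀ : A) (s₀ t₀ : ℂ)
    (hG : Good τ (s₀ • A₀ + t₀ • B₀)) :
    (∀ᵐ t : ℂ, Good τ (A₀ + t • B₀)) ∧ ∀ᵐ t : ℝ, Good τ (A₀ + (t : ℂ) • B₀) := by
  -- a good parameter
  obtain ⟨t₁, ht₁⟩ : ∃ t₁ : ℂ, Good τ (A₀ + t₁ • B₀) := by
    by_cases hs : s₀ = 0
    · subst hs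
      rw [zero_smul, zero_add] at hG
      have ht0 : t₀ ≠ 0 := by
        rintro rfl
        rw [zero_smul] at hG
        exact not_good_zero hτ hG
      have hB : Good τ B₀ := hG.of_smul hτ ht0
      have h1 := plane hτ (fun s : ℂ => s • A₀ + B₀) (by fun_prop) 0 (by simpa using hB)
      have h2 : ∀ᵐ s : ℂ, s ≠ 0 := by
        rw [ae_iff]
        simp
      obtain ⟨s, hs1, hs2⟩ := (h1.and h2).exists
      refine ⟨s⁻¹, ?_⟩
      have h3 : s • A₀ + B₀ = s • (A₀ + s⁻¹ • B₀) := by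
        rw [smul_add, smul_smul, mul_inv_cancel₀ hs2, one_smul]
      rw [h3] at hs1
      exact hs1.of_smul hτ hs2
    · refine ⟨t₀ / s₀, ?_⟩
      have h3 : s₀ • A₀ + t₀ • B₀ = s₀ • (A₀ + (t₀ / s₀) • B₀) := by
        rw [smul_add, smul_smul, mul_div_cancel₀ _ hs]
      rw [h3] at hG
      exact hG.of_smul hτ hs
  have h1 := plane hτ (fun t : ℂ => A₀ + t • B₀) (by fun_prop) t₁ ht₁
  refine ⟨h1, ?_⟩
  -- a good parameter off the real line
  have h2 : ∀ᵐ t : ℂ, t.im ≠ 0 := by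
    have h3 : volume {t : ℂ | t.im = 0} = 0 := by
      have h4 : {t : ℂ | t.im = 0} = ((LinearMap.ker Complex.imLm : Submodule ℝ ℂ) : Set ℂ) := by
        ext t
        simp
      rw [h4]
      refine Measure.addHaar_submodule _ _ ?_
      intro htop
      have : Complex.I ∈ LinearMap.ker Complex.imLm := by rw [htop]; trivial
      rw [LinearMap.mem_ker] at this
      simp at this
    rw [ae_iff]
    simpa using h3
  obtain ⟨t₂, ht₂, him⟩ := (h1.and h2).exists
  exact real_line hτ A₀ B₀ t₂ him ht₂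

end
end Pool.Agent.H21.Smv
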