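import Pool.Agent.H21.Net2
import Pool.Agent.H21.Pl

/-!
# Random operators on the coset spaces of an equivariant field of subgroups: operators given by entries
-/

set_option autoImplicit false
set_option linter.unusedSectionVars false
open scoped ComplexConjugate InnerProductSpace Topology ENNReal
open Filter MeasureTheory

namespace Pool.Agent.H21.Net
open Pool.Agent.H712R5.BO Pool.Agent.W611.RO
open Pool.Agent.H21.DAbs

/-- homomorphisms and logarithms -/
theorem map_logC {A B : Type} [CStarAlgebra A] [CStarAlgebra B] (φ : A →⋆ₐ[ℂ] B)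
    (hφ : Continuous φ) (S : A) {δ : ℝ} (hδ : 0 < δ) :
    φ (CFC.log (algebraMap ℝ A δ + star S * S))
      = CFC.log (algebraMap ℝ B δ + star (φ S) * φ S) := by
  unfold CFC.log
  have h0 : φ (algebraMap ℝ A δ + star S * S) = algebraMap ℝ B δ + star (φ S) * φ S := by
    rw [map_add, map_mul, map_star]
    have h1 : φ (algebraMap ℝ A δ) = algebraMap ℝ B δ := by
      rw [IsScalarTower.algebraMap_apply ℝ ℂ A, IsScalarTower.algebraMap_apply ℝ ℂ B,
        AlgHomClass.commutes]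
    rw [h1]
  rw [StarAlgHom.map_cfc φ Real.log _
    (Smv.cont_low _ hδ) hφ (Smv.sa_low _ δ) (by rw [h0]; exact Smv.sa_low _ δ), h0]

section
variable {G Ω : Type} [Group G] [MulAction G Ω] [Countable G] [MeasurableSpace Ω]
variable {N : Ω → Subgroup G}

/-- covariance of the coefficients gives covariance of the operators -/
theorem cov_of_coef (hN : SubField N) (T : ∀ ω, Hil N ω →L[ℂ] Hil N ω)
    (hcov : ∀ (k g h : G) (ω : Ω), cf T g h (k • ω) = cf T (g * k) (h * k) ω)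
    (k : G) (ω : Ω) (x : Hil N ω) : T (k • ω) (U hN k ω x) = U hN k ω (T ω x) := by
  -- the weak form on basis vectors
  have h1 : ∀ g h : G, ⟪bv N g (k • ω), T (k • ω) (U hN k ω (bv N h ω))⟫_ℂ
      = ⟪bv N g (k • ω), U hN k ω (T ω (bv N h ω))⟫_ℂ := by
    intro g h
    have e1 : bv N h ω = bv N (h * k⁻¹ * k) ω := by rw [inv_mul_cancel_right]
    rw [e1, U_bv]
    have e2 : ⟪bv N g (k • ω), U hN k ω (T ω (bv N (h * k⁻¹ * k) ω))⟫_ℂ
        = cf T (g * k) (h * k⁻¹ * k) ω := by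
      rw [← U_bv hN k g ω, LinearIsometryEquiv.inner_map_map]
      rfl
    rw [e2, ← hcov]
    rfl
  set Uc : Hil N ω →L[ℂ] Hil N (k • ω) :=
    ((U hN k ω).toContinuousLinearEquiv : Hil N ω →L[ℂ] Hil N (k • ω)) with hUc
  have hUca : ∀ y, Uc y = U hN k ω y := fun y => rfl
  set D : Hil N ω →L[ℂ] Hil N (k • ω) := (T (k • ω)).comp Uc - Uc.comp (T ω) with hD
  have hDa : ∀ y, D y = T (k • ω) (U hN k ω y) - U hN k ω (T ω y) := fun y => rfl
  have h2 : ∀ g, (ContinuousLinearMap.adjoint D) (bv N g (k • ω)) = 0 := by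
    intro g
    refine bv_total N ω _ fun h => ?_
    rw [ContinuousLinearMap.adjoint_inner_left, hDa, inner_sub_right, h1, sub_self]
  have h3 : D x = 0 := by
    refine bv_total N (k • ω) _ fun g => ?_
    rw [← inner_conj_symm]
    have h4 : ⟪bv N g (k • ω), D x⟫_ℂ = 0 := by
      rw [← ContinuousLinearMap.adjoint_inner_left, h2, inner_zero_left]
    rw [h4, map_zero]
  rw [hDa] at h3
  exact sub_eq_zero.1 h3

/-- bounded measurable covariant families are elements of the algebra -/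
theorem exists_KF (hN : SubField N) (T : ∀ ω, Hil N ω →L[ℂ] Hil N ω) (C : ℝ)
    (hC : ∀ ω, ‖T ω‖ ≤ C) (hm : ∀ g h, Measurable (cf T g h))
    (hcov : ∀ (k g h : G) (ω : Ω), cf T g h (k • ω) = cf T (g * k) (h * k) ω) :
    ∃ S : KF hN, (∀ ω, ev hN ω S = T ω) ∧ (0 ≤ C → ‖S‖ ≤ C) := by
  have hmem : Memℓp T ∞ := memℓp_infty ⟨C, by
    rintro _ ⟨ω, rfl⟩
    exact hC ω⟩
  set S₀ : FA N := (⟨T, hmem⟩ : lp (fun ω => Hil N ω →L[ℂ] Hil N ω) ∞) with hS₀
  have hv : ∀ ω, vl S₀ ω = T ω := fun ω => rfl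
  refine ⟨⟨S₀, ⟨fun g h => ?_, fun k ω x => ?_⟩⟩, fun ω => rfl, fun hC0 => ?_⟩
  · have : cf (vl S₀) g h = cf T g h := rfl
    rw [this]
    exact hm g h
  · rw [hv, hv]
    exact cov_of_coef hN T hcov k ω x
  · show ‖(⟨T, hmem⟩ : lp (fun ω => Hil N ω →L[ℂ] Hil N ω) ∞)‖ ≤ C
    exact lp.norm_le_of_forall_le hC0 hC

theorem ev_cont (hN : SubField N) (ω : Ω) : Continuous (ev hN ω : KF hN →⋆ₐ[ℂ] _) :=
  AddMonoidHomClass.continuous_of_bound (ev hN ω : KF hN →⋆ₐ[ℂ] _) 1 fun a => by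
    rw [one_mul]; exact ev_norm hN ω a

/-- the values of the logarithms -/
theorem ev_log (hN : SubField N) (S : KF hN) {δ : ℝ} (hδ : 0 < δ) (ω : Ω) :
    ev hN ω (CFC.log (algebraMap ℝ (KF hN) δ + star S * S))
      = CFC.log (algebraMap ℝ (Hil N ω →L[ℂ] Hil N ω) δ
        + star (ev hN ω S) * ev hN ω S) :=
  map_logC (ev hN ω) (ev_cont hN ω) S hδ

theorem ev_sub_smul (hN : SubField N) (S : KF hN) (c : ℂ) (ω : Ω) :
    ev hN ω (S - c • (1 : KF hN)) = ev hN ω S - c • 1 := by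
  rw [map_sub, map_smul, map_one]

/-- the regularized determinants as integrals -/
theorem uu_int (P : Measure Ω) [IsProbabilityMeasure P] (hN : SubField N) (S : KF hN) (c : ℂ)
    {δ : ℝ} (hδ : 0 < δ) : Smv.uu (tauN P hN) δ (S - c • (1 : KF hN))
      = ∫ ω, (⟪bv N 1 ω, CFC.log (algebraMap ℝ (Hil N ω →L[ℂ] Hil N ω) δ
        + star (ev hN ω S - c • 1) * (ev hN ω S - c • 1)) (bv N 1 ω)⟫_ℂ).re ∂P := by
  unfold Smv.uu
  rw [tauN_apply]
  have h1 := (integral_re (co_int P hN (CFC.log (algebraMap ℝ (KF hN) δ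
    + star (S - c • (1 : KF hN)) * (S - c • (1 : KF hN)))) 1 1)).symm
  refine h1.trans (integral_congr_ae (Eventually.of_forall fun ω => ?_))
  show (co hN (CFC.log (algebraMap ℝ (KF hN) δ
    + star (S - c • (1 : KF hN)) * (S - c • (1 : KF hN)))) 1 1 ω).re = _
  unfold co
  rw [ev_log hN _ hδ, ev_sub_smul]

/-- the moments as integrals -/
theorem mom_int (P : Measure Ω) [IsProbabilityMeasure P] (hN : SubField N) (S : KF hN) (n : ℕ) :
    tauN P hN (S ^ n) = ∫ ω, ⟪bv N 1 ω, ((ev hN ω S) ^ n) (bv N 1 ω)⟫_ℂ ∂P := by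
  rw [tauN_apply]
  refine integral_congr_ae (Eventually.of_forall fun ω => ?_)
  show co hN (S ^ n) 1 1 ω = _
  unfold co
  rw [map_pow]

/-- **The dichotomy** in the algebra. -/
theorem dich (P : Measure Ω) [IsProbabilityMeasure P] (hN : SubField N) (hE : Erg G P)
    (S : KF hN) : (∀ᵐ ω ∂P, HasHyp (ev hN ω S)) ∨
      ((∀ n, tauN P hN (S ^ n) = (tauN P hN S) ^ n) ∧
        ∀ (c : ℂ) (κ : ℝ), (∀ δ : ℝ, 0 < δ → 2 * κ ≤ Smv.uu (tauN P hN) δ (S - c • (1 : KF hN))) →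
          Real.exp κ ≤ ‖tauN P hN S - c‖) := by
  by_cases h : ∀ᵐ ω ∂P, HasHyp (ev hN ω S)
  · exact Or.inl h
  · right
    refine ⟨fun n => ?_, fun c κ hdet => ?_⟩
    · by_contra hn
      exact h (DCrit.moment_hyp (t_DT P hN hE) S n hn)
    · by_contra hn
      push Not at hn
      exact h (DCrit.det_hyp (t_DT P hN hE) S c κ hn hdet)

end
end Pool.Agent.H21.Net
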