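import Pool.Agent.H21.Cap
import Pool.Agent.H21.NetMain

/-!
# Nondegenerate elements in analytic families
-/

set_option autoImplicit false
set_option linter.unusedSectionVars false
open scoped ComplexConjugate InnerProductSpace Topology ENNReal
open Filter MeasureTheory

namespace Pool.Agent.H21.Fam
open Pool.Agent.H712R5.BO Pool.Agent.W611.RO
open Pool.Agent.H21.Smv Pool.Agent.H21.DAbs

/-- bounded logarithmic potential -/
def BP (ν : Measure ℂ) : Prop :=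
  ∃ C : ℝ, ∀ t : ℂ, ∫⁻ s, ENNReal.ofReal (-Real.log ‖t - s‖) ∂ν ≤ ENNReal.ofReal C

/-- no atoms -/
theorem BP.atom {ν : Measure ℂ} (h : BP ν) (s : ℂ) : ν {s} = 0 := by
  obtain ⟨C, hC⟩ := h
  by_contra hne
  -- evaluate the potential near the atom
  have h1 : ∀ L : ℝ, 0 < L → ENNReal.ofReal L * ν {s} ≤ ENNReal.ofReal C := by
    intro L hL
    have h2 := hC (s + ((Real.exp (-L) : ℝ) : ℂ))
    refine le_trans ?_ h2
    have h3 : ∫⁻ x in {s}, ENNReal.ofReal (-Real.log ‖s + ((Real.exp (-L) : ℝ) : ℂ) - x‖) ∂ν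
        ≤ ∫⁻ x, ENNReal.ofReal (-Real.log ‖s + ((Real.exp (-L) : ℝ) : ℂ) - x‖) ∂ν :=
      setLIntegral_le_lintegral _ _
    refine le_trans (le_of_eq ?_) h3
    rw [lintegral_singleton]
    congr 2
    rw [add_sub_cancel_left, Complex.norm_real, Real.norm_eq_abs, abs_of_pos (Real.exp_pos _),
      Real.log_exp, neg_neg]
  by_cases htop : ν {s} = ∞
  · have h2 := h1 1 one_pos
    rw [htop, ENNReal.ofReal_one, one_mul] at h2
    exact absurd (top_le_iff.1 h2) ENNReal.ofReal_ne_top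
  · set a : ℝ := (ν {s}).toReal with ha
    have ha0 : 0 < a := ENNReal.toReal_pos hne htop
    have h2 := h1 ((|C| + 1) / a) (by positivity)
    have h3 : ν {s} = ENNReal.ofReal a := (ENNReal.ofReal_toReal htop).symm
    rw [h3, ← ENNReal.ofReal_mul (by positivity), div_mul_cancel₀ _ ha0.ne'] at h2
    have h4 : ENNReal.ofReal (|C| + 1) ≤ ENNReal.ofReal |C| :=
      h2.trans (ENNReal.ofReal_le_ofReal (le_abs_self C))
    rw [ENNReal.ofReal_le_ofReal_iff (abs_nonneg _)] at h4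
    linarith

/-- zero sets of entire functions are null -/
theorem BP.zeros {ν : Measure ℂ} (h : BP ν) (f : ℂ → ℂ) (hf : Differentiable ℂ f) (t₀ : ℂ)
    (h₀ : f t₀ ≠ 0) : ∀ᵐ t ∂ν, f t ≠ 0 := by
  rw [ae_iff]
  simp only [ne_eq, not_not]
  have han : AnalyticOnNhd ℂ f Set.univ := fun z _ =>
    Complex.analyticAt_iff_eventually_differentiableAt.2 (Eventually.of_forall fun w => hf w)
  refine measure_null_of_locally_null _ fun x hx => ⟨{x}, ?_, h.atom x⟩
  rcases (han x (Set.mem_univ x)).eventually_eq_zero_or_eventually_ne_zero with h1 | h1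
  · exfalso
    have h2 := han.eqOn_zero_of_preconnected_of_eventuallyEq_zero isPreconnected_univ
      (Set.mem_univ x) h1
    exact h₀ (h2 (Set.mem_univ t₀))
  · rw [mem_nhdsWithin_iff_eventually]
    rw [eventually_nhdsWithin_iff] at h1
    filter_upwards [h1] with y hy hy2
    by_contra hne
    exact hy hne hy2

section
variable {A : Type} [CStarAlgebra A]

/-- nondegenerate elements -/
def ND (τ : A →L[ℂ] ℂ) (S : A) : Prop :=
  (∃ n : ℕ, τ (S ^ n) ≠ τ S ^ n) ∨ Good τ (S - τ S • (1 : A))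

theorem ND.smul {τ : A →L[ℂ] ℂ} (hτ : TrSt τ) {S : A} (h : ND τ S) {z : ℂ} (hz : z ≠ 0) :
    ND τ (z • S) := by
  rcases h with ⟨n, hn⟩ | h
  · left
    refine ⟨n, fun h => hn ?_⟩
    rw [smul_pow, map_smul, map_smul, smul_eq_mul, smul_eq_mul, mul_pow] at h
    exact mul_left_cancel₀ (pow_ne_zero n hz) h
  · right
    have h1 := h.smul hτ hz
    have e1 : z • S - τ (z • S) • (1 : A) = z • (S - τ S • (1 : A)) := by
      rw [map_smul, smul_sub, smul_smul, smul_eq_mul]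
    rw [e1]
    exact h1

theorem diff_mom (τ : A →L[ℂ] ℂ) {Y : ℂ → A} (hY : Differentiable ℂ Y) (n : ℕ) :
    Differentiable ℂ fun t => τ (Y t ^ n) - τ (Y t) ^ n := by
  have h1 : Differentiable ℂ fun t => τ (Y t ^ n) := τ.differentiable.comp (hY.pow n)
  have h2 : Differentiable ℂ fun t => τ (Y t) := τ.differentiable.comp hY
  exact h1.sub (h2.pow n)

theorem diff_cen (τ : A →L[ℂ] ℂ) {Y : ℂ → A} (hY : Differentiable ℂ Y) :
    Differentiable ℂ fun t => Y t - τ (Y t) • (1 : A) := by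
  have h2 : Differentiable ℂ fun t => τ (Y t) := τ.differentiable.comp hY
  exact hY.sub (h2.smul_const _)

/-- **Nondegenerate elements in analytic families.** -/
theorem ND.polar {τ : A →L[ℂ] ℂ} (hτ : TrSt τ) {Y : ℂ → A} (hY : Differentiable ℂ Y) {t₀ : ℂ}
    (h : ND τ (Y t₀)) (ν : Measure ℂ) [IsFiniteMeasure ν] (hν : BP ν) : ∀ᵐ t ∂ν, ND τ (Y t) := by
  rcases h with ⟨n, hn⟩ | h
  · filter_upwards [hν.zeros _ (diff_mom τ hY n) t₀ (sub_ne_zero.2 hn)] with t ht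
    exact Or.inl ⟨n, sub_ne_zero.1 ht⟩
  · obtain ⟨C, hC⟩ := hν
    have h1 := Cap.polar hτ _ (diff_cen τ hY) t₀ h ν (abs_nonneg C) fun t =>
      (hC t).trans (ENNReal.ofReal_le_ofReal (le_abs_self C))
    filter_upwards [h1] with t ht
    exact Or.inr ht

/-- a nonzero nondegenerate parameter -/
theorem ND.nonzero {τ : A →L[ℂ] ℂ} (hτ : TrSt τ) {Y : ℂ → A} (hY : Differentiable ℂ Y)
    (h : ND τ (Y 0)) : ∃ s : ℂ, s ≠ 0 ∧ ND τ (Y s) := by
  rcases h with ⟨n, hn⟩ | h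
  · have h1 : ∀ᶠ t in 𝓝 (0:ℂ), τ (Y t ^ n) - τ (Y t) ^ n ≠ 0 :=
      (diff_mom τ hY n).continuous.continuousAt.eventually_ne (sub_ne_zero.2 hn)
    have h2 : ∀ᶠ t in 𝓝[≠] (0:ℂ), τ (Y t ^ n) - τ (Y t) ^ n ≠ 0 := h1.filter_mono nhdsWithin_le_nhds
    obtain ⟨s, hs1, hs2⟩ := (h2.and eventually_mem_nhdsWithin).exists
    exact ⟨s, hs2, Or.inl ⟨n, sub_ne_zero.1 hs1⟩⟩
  · have h1 := plane hτ _ (diff_cen τ hY) 0 h
    have h2 : ∀ᵐ s : ℂ, s ≠ 0 := by
      rw [ae_iff]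
      simp
    obtain ⟨s, hs1, hs2⟩ := (h1.and h2).exists
    exact ⟨s, hs2, Or.inr hs1⟩

/-- homogeneous polynomial families -/
noncomputable def fm (S : ℕ → A) (d : ℕ) (s t : ℂ) : A :=
  ∑ j ∈ Finset.range (d + 1), (s ^ (d - j) * t ^ j) • S j

theorem fm_scale (S : ℕ → A) (d : ℕ) (z s t : ℂ) : fm S d (z * s) (z * t) = z ^ d • fm S d s t := by
  unfold fm
  rw [Finset.smul_sum]
  refine Finset.sum_congr rfl fun j hj => ?_
  rw [smul_smul]
  congr 1
  have h1 : j ≤ d := Nat.lt_succ_iff.1 (Finset.mem_range.1 hj)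
  have h2 : z ^ d = z ^ (d - j) * z ^ j := by rw [← pow_add, Nat.sub_add_cancel h1]
  rw [mul_pow, mul_pow, h2]
  ring

theorem fm_diff₁ (S : ℕ → A) (d : ℕ) (t : ℂ) : Differentiable ℂ fun s => fm S d s t := by
  unfold fm
  fun_prop

theorem fm_diff₂ (S : ℕ → A) (d : ℕ) (s : ℂ) : Differentiable ℂ fun t => fm S d s t := by
  unfold fm
  fun_prop

/-- **Homogeneous polynomial families.** -/
theorem ND.poly {τ : A →L[ℂ] ℂ} (hτ : TrSt τ) (S : ℕ → A) (d : ℕ) (s₀ t₀ : ℂ)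
    (h : ND τ (fm S d s₀ t₀)) (ν : Measure ℂ) [IsFiniteMeasure ν] (hν : BP ν) :
    ∀ᵐ t ∂ν, ND τ (fm S d 1 t) := by
  -- a parameter with nonzero first coordinate
  obtain ⟨s₁, hs₁, h1⟩ : ∃ s : ℂ, s ≠ 0 ∧ ND τ (fm S d s t₀) := by
    by_cases hs : s₀ = 0
    · subst hs
      exact ND.nonzero hτ (fm_diff₁ S d t₀) h
    · exact ⟨s₀, hs, h⟩
  have h2 : ND τ (fm S d 1 (s₁⁻¹ * t₀)) := by
    have h3 := fm_scale S d s₁⁻¹ s₁ t₀
    rw [inv_mul_cancel₀ hs₁] at h3
    rw [h3]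
    exact h1.smul hτ (pow_ne_zero _ (inv_ne_zero hs₁))
  exact ND.polar hτ (fm_diff₂ S d 1) h2 ν hν

end

section
variable {G Ω : Type} [Group G] [MulAction G Ω] [Countable G] [MeasurableSpace Ω]
variable {N : Ω → Subgroup G}
open Pool.Agent.H21.Net

theorem ND.hyp (P : Measure Ω) [IsProbabilityMeasure P] (hN : SubField N) (hE : Erg G P)
    (S : KF hN) (h : ND (tauN P hN) S) : ∀ᵐ ω ∂P, HasHyp (ev hN ω S) := by
  rcases h with ⟨n, hn⟩ | ⟨c, κ, h1, h2⟩
  · exact DCrit.moment_hyp (t_DT P hN hE) S n hn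
  · refine DCrit.det_hyp (t_DT P hN hE) S (tauN P hN S + c) κ ?_ fun δ hδ => ?_
    · rw [sub_add_cancel_left, norm_neg]
      exact h1
    · have h3 := h2 δ hδ
      have e1 : S - (tauN P hN S + c) • (1 : KF hN)
          = S - tauN P hN S • (1 : KF hN) - c • (1 : KF hN) := by
        rw [add_smul]
        abel
      rw [e1]
      exact h3

end
end Pool.Agent.H21.Fam
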