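import Pool.Agent.H21.And11
import Pool.Agent.H21.Fam

/-!
# Logarithmic potentials, and maps between marked spaces
-/

set_option autoImplicit false
set_option linter.unusedSectionVars false
open scoped ComplexConjugate InnerProductSpace Topology ENNReal
open Filter MeasureTheory

namespace Pool.Agent.H21.And
open Pool.Agent.H712R5.BO Pool.Agent.W611.RO Pool.Agent.TH322.AC Pool.Agent.TH315.LO
open Pool.Agent.H21.Smv Pool.Agent.H21.Fam

theorem log_compare {u w z : ℂ} {B₁ γ α : ℝ} (hB : 0 ≤ B₁) (hu : ‖u‖ ≤ 1) (hw : ‖w‖ ≤ B₁)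
    (hγ : 0 < γ) (hα : 0 < α) (hwz : w ≠ z) :
    Real.log (γ + α * ‖u - z‖ ^ 2) - Real.log (γ + α * ‖w - z‖ ^ 2)
      ≤ Real.log (2 + 2 * (1 + B₁) ^ 2) + 2 * max (-Real.log ‖z - w‖) 0 := by
  set t : ℝ := ‖w - z‖ with ht
  have ht0 : 0 < t := norm_pos_iff.2 (sub_ne_zero.2 hwz)
  have htz : ‖z - w‖ = t := norm_sub_rev z w
  have h1 : ‖u - z‖ ^ 2 ≤ 2 * t ^ 2 + 2 * (1 + B₁) ^ 2 := by
    have e1 : ‖u - z‖ ≤ (1 + B₁) + t := by
      calc ‖u - z‖ = ‖(u - w) + (w - z)‖ := by rw [sub_add_sub_cancel]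
        _ ≤ ‖u - w‖ + ‖w - z‖ := norm_add_le _ _
        _ ≤ (‖u‖ + ‖w‖) + t := by
            gcongr
            exact norm_sub_le _ _
        _ ≤ (1 + B₁) + t := by gcongr
    have e2 : ‖u - z‖ ^ 2 ≤ ((1 + B₁) + t) ^ 2 := by gcongr
    nlinarith [sq_nonneg ((1 + B₁) - t)]
  set c : ℝ := 2 + 2 * (1 + B₁) ^ 2 with hc
  have hc0 : 0 < c := by positivity
  have hD : 0 < γ + α * t ^ 2 := by positivity
  have h2 : γ + α * ‖u - z‖ ^ 2 ≤ (γ + α * t ^ 2) * (2 + 2 * (1 + B₁) ^ 2 / t ^ 2) := by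
    have e1 : (γ + α * t ^ 2) * (2 + 2 * (1 + B₁) ^ 2 / t ^ 2)
        = 2 * γ + 2 * α * t ^ 2 + 2 * γ * (1 + B₁) ^ 2 / t ^ 2 + 2 * α * (1 + B₁) ^ 2 := by
      field_simp
      ring
    have e2 : 0 ≤ 2 * γ * (1 + B₁) ^ 2 / t ^ 2 := by positivity
    have e3 : α * ‖u - z‖ ^ 2 ≤ α * (2 * t ^ 2 + 2 * (1 + B₁) ^ 2) := by gcongr
    rw [e1]
    nlinarith
  have h3 : 2 + 2 * (1 + B₁) ^ 2 / t ^ 2 ≤ c * Real.exp (2 * max (-Real.log t) 0) := by
    rcases le_total 1 t with h | h
    · have e1 : (1:ℝ) ≤ Real.exp (2 * max (-Real.log t) 0) := by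
        rw [Real.one_le_exp_iff]
        positivity
      have e2 : 2 * (1 + B₁) ^ 2 / t ^ 2 ≤ 2 * (1 + B₁) ^ 2 :=
        div_le_self (by positivity) (one_le_pow₀ h)
      calc 2 + 2 * (1 + B₁) ^ 2 / t ^ 2 ≤ c * 1 := by rw [hc]; linarith
        _ ≤ c * Real.exp (2 * max (-Real.log t) 0) := by gcongr
    · have e0 : max (-Real.log t) 0 = -Real.log t :=
        max_eq_left (by have := Real.log_nonpos ht0.le h; linarith)
      have e1 : Real.exp (2 * max (-Real.log t) 0) = 1 / t ^ 2 := by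
        rw [e0, mul_neg, Real.exp_neg, mul_comm, Real.exp_mul, Real.exp_log ht0, one_div]
        norm_num
      have e2 : (1:ℝ) ≤ 1 / t ^ 2 := by
        rw [le_div_iff₀ (by positivity), one_mul]
        exact pow_le_one₀ ht0.le h
      rw [e1, hc]
      have e3 : 2 * (1 + B₁) ^ 2 / t ^ 2 = 2 * (1 + B₁) ^ 2 * (1 / t ^ 2) := by ring
      rw [e3]
      nlinarith
  have h4 : Real.log (γ + α * ‖u - z‖ ^ 2)
      ≤ Real.log ((γ + α * t ^ 2) * (c * Real.exp (2 * max (-Real.log t) 0))) := by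
    refine Real.log_le_log (by positivity) (h2.trans ?_)
    gcongr
  rw [Real.log_mul hD.ne' (by positivity), Real.log_mul hc0.ne' (Real.exp_pos _).ne',
    Real.log_exp] at h4
  rw [htz]
  linarith

section
variable {N : Type} [MeasurableSpace N] {ρ : Measure N} [IsProbabilityMeasure ρ]

open Classical in
/-- the constant in the comparison of a potential with one which is bounded by one on `I` -/
theorem compare_int {w u : N → ℂ} (hw : Measurable w) (hu : Measurable u) {B₁ : ℝ} (hB : 0 ≤ B₁)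
    (hwB : ∀ m, ‖w m‖ ≤ B₁) (hu1 : ∀ m, ‖u m‖ ≤ 1) {I : Set N} (hI : MeasurableSet I)
    {C : ℝ} (hC0 : 0 ≤ C)
    (hC : ∀ t : ℂ, ∫⁻ m in I, ENNReal.ofReal (-Real.log ‖t - w m‖) ∂ρ ≤ ENNReal.ofReal C)
    {γ α : ℝ} (hγ : 0 < γ) (hα : 0 < α) (z : ℂ) :
    ∫ m, (Real.log (γ + α * ‖(if m ∈ I then u m else w m) - z‖ ^ 2)
      - Real.log (γ + α * ‖w m - z‖ ^ 2)) ∂ρ
      ≤ Real.log (2 + 2 * (1 + B₁) ^ 2) + 2 * C := by
  have hwI : Measurable fun m => if m ∈ I then u m else w m := Measurable.ite hI hu hw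
  have hlog2 : 0 ≤ Real.log (2 + 2 * (1 + B₁) ^ 2) := Real.log_nonneg (by nlinarith [sq_nonneg (1 + B₁)])
  -- no atoms
  have hatom : ∀ᵐ m ∂(ρ.restrict I), w m ≠ z := by
    have hBP : BP ((ρ.restrict I).map w) := by
      refine ⟨C, fun t => ?_⟩
      rw [lintegral_map (by fun_prop) hw]
      exact hC t
    have h1 := hBP.atom z
    rw [Measure.map_apply hw (measurableSet_singleton z)] at h1
    exact measure_eq_zero_iff_ae_notMem.1 h1
  have hatom' : ∀ᵐ m ∂ρ, m ∈ I → w m ≠ z := (ae_restrict_iff' hI).1 hatom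
  -- the bound
  set g : N → ℝ := fun m => Real.log (2 + 2 * (1 + B₁) ^ 2)
    + 2 * I.indicator (fun m => max (-Real.log ‖z - w m‖) 0) m with hg
  have hmm : Measurable fun m => max (-Real.log ‖z - w m‖) 0 := by fun_prop
  have hpos : ∫⁻ m, ENNReal.ofReal (I.indicator (fun m => max (-Real.log ‖z - w m‖) 0) m) ∂ρ
      ≤ ENNReal.ofReal C := by
    refine le_of_eq_of_le ?_ (hC z)
    rw [← lintegral_indicator hI]
    refine lintegral_congr fun m => ?_
    by_cases h : m ∈ I
    · rw [Set.indicator_of_mem h, Set.indicator_of_mem h]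
      rcases le_total 0 (-Real.log ‖z - w m‖) with h1 | h1
      · rw [max_eq_left h1]
      · rw [max_eq_right h1, ENNReal.ofReal_zero, ENNReal.ofReal_of_nonpos h1]
    · rw [Set.indicator_of_notMem h, Set.indicator_of_notMem h, ENNReal.ofReal_zero]
  have hnn : ∀ m, 0 ≤ I.indicator (fun m => max (-Real.log ‖z - w m‖) 0) m := fun m =>
    Set.indicator_nonneg (fun _ _ => le_max_right _ _) m
  have hgi1 : Integrable (I.indicator (fun m => max (-Real.log ‖z - w m‖) 0)) ρ := by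
    refine ⟨(hmm.indicator hI).aestronglyMeasurable, ?_⟩
    rw [hasFiniteIntegral_iff_ofReal (Eventually.of_forall hnn)]
    exact hpos.trans_lt ENNReal.ofReal_lt_top
  have hgi : Integrable g ρ := (integrable_const _).add (hgi1.const_mul 2)
  have hg2 : ∫ m, I.indicator (fun m => max (-Real.log ‖z - w m‖) 0) m ∂ρ ≤ C := by
    rw [integral_eq_lintegral_of_nonneg_ae (Eventually.of_forall hnn)
      (hmm.indicator hI).aestronglyMeasurable]
    exact ENNReal.toReal_le_of_le_ofReal hC0 hpos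
  -- integrability of the logarithms
  have hli : ∀ v : N → ℂ, Measurable v → (∀ m, ‖v m‖ ≤ 1 + B₁) →
      Integrable (fun m => Real.log (γ + α * ‖v m - z‖ ^ 2)) ρ := by
    intro v hv hvb
    have hmv : Measurable fun m => Real.log (γ + α * ‖v m - z‖ ^ 2) := by fun_prop
    refine Integrable.of_bound hmv.aestronglyMeasurable
      (max |Real.log γ| |Real.log (γ + α * (1 + B₁ + ‖z‖) ^ 2)|) (Eventually.of_forall fun m => ?_)
    have h1 : γ ≤ γ + α * ‖v m - z‖ ^ 2 := by
      have : 0 ≤ α * ‖v m - z‖ ^ 2 := by positivity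
      linarith
    have h2 : γ + α * ‖v m - z‖ ^ 2 ≤ γ + α * (1 + B₁ + ‖z‖) ^ 2 := by
      have : ‖v m - z‖ ≤ 1 + B₁ + ‖z‖ := (norm_sub_le _ _).trans (by gcongr; exact hvb m)
      gcongr
    exact abs_le_max_abs_abs (Real.log_le_log hγ h1) (Real.log_le_log (hγ.trans_le h1) h2)
  have hi1 := hli _ hwI (fun m => by
    split_ifs
    · exact (hu1 m).trans (by linarith)
    · exact (hwB m).trans (by linarith))
  have hi2 := hli w hw (fun m => (hwB m).trans (by linarith))
  calc ∫ m, (Real.log (γ + α * ‖(if m ∈ I then u m else w m) - z‖ ^ 2)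
      - Real.log (γ + α * ‖w m - z‖ ^ 2)) ∂ρ ≤ ∫ m, g m ∂ρ := by
        refine integral_mono_ae (hi1.sub hi2) hgi ?_
        filter_upwards [hatom'] with m hm
        show Real.log (γ + α * ‖(if m ∈ I then u m else w m) - z‖ ^ 2)
          - Real.log (γ + α * ‖w m - z‖ ^ 2) ≤ g m
        rw [hg]
        dsimp only
        by_cases h : m ∈ I
        · rw [if_pos h, Set.indicator_of_mem h]
          exact log_compare hB (hu1 m) (hwB m) hγ hα (hm h)
        · rw [if_neg h, Set.indicator_of_notMem h, sub_self, mul_zero, add_zero]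
          exact hlog2
    _ = Real.log (2 + 2 * (1 + B₁) ^ 2)
        + 2 * ∫ m, I.indicator (fun m => max (-Real.log ‖z - w m‖) 0) m ∂ρ := by
        rw [hg, integral_add (integrable_const _) (hgi1.const_mul 2), integral_const_mul]
        simp
    _ ≤ Real.log (2 + 2 * (1 + B₁) ^ 2) + 2 * C := by gcongr

end

section
variable {Ω G E E' : Type} [Group G] [MeasurableSpace Ω] [MulAction G Ω] [MeasurableSpace E]
  [MeasurableSpace E']
  {P : Measure Ω} [IsProbabilityMeasure P] {κ : Measure E} [IsProbabilityMeasure κ]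
  {κ' : Measure E'} [IsProbabilityMeasure κ']

/-- changing the marks -/
def mk (φ : E → E') (x : Env Ω G E) : Env Ω G E' := (x.1, fun k => φ (x.2 k))

theorem mk_mp {φ : E → E'} (hφ : MeasurePreserving φ κ κ') :
    MeasurePreserving (mk φ : Env Ω G E → Env Ω G E') (PK P κ) (PK P κ') := by
  have h1 : MeasurePreserving (fun (m : G → E) (k : G) => φ (m k))
      (Measure.infinitePi fun _ : G => κ) (Measure.infinitePi fun _ : G => κ') := by
    refine ⟨?_, ?_⟩
    · rw [measurable_pi_iff]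
      intro k
      exact hφ.measurable.comp (measurable_pi_apply k)
    · rw [Measure.infinitePi_map_pi (fun _ : G => κ) (fun _ => hφ.measurable)]
      simp_rw [hφ.map_eq]
  exact (MeasurePreserving.id P).prod h1

theorem fst_mp : MeasurePreserving (fun x : Env Ω G E => x.1) (PK P κ) P :=
  measurePreserving_fst

end
end Pool.Agent.H21.And
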