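import Pool.Agent.H21.And12
import Pool.Agent.H21.Crit

/-!
# Random potentials: lower bounds for the determinants
-/

set_option autoImplicit false
set_option linter.unusedSectionVars false
open scoped ComplexConjugate InnerProductSpace Topology ENNReal
open Filter MeasureTheory

namespace Pool.Agent.H21.And
open Pool.Agent.H712R5.BO Pool.Agent.W611.RO Pool.Agent.TH322.AC Pool.Agent.TH315.LO
open Pool.Agent.H21.Smv Pool.Agent.H21.Fam

/-- the marks: a complex number, an angle, and a number in `[0, 1)` -/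
abbrev MM : Type := (ℂ × Cir) × ℝ

/-- their law -/
noncomputable abbrev km (μ : Measure ℂ) : Measure (ℂ × Cir) := μ.prod hm

/-- rotation of the angle -/
noncomputable def rot (η : Cir) (e : MM) : MM := ((e.1.1, e.1.2 + η), e.2)

theorem rot_mp (μ : Measure ℂ) [IsProbabilityMeasure μ] (η : Cir) :
    MeasurePreserving (rot η) ((km μ).prod Un) ((km μ).prod Un) :=
  ((MeasurePreserving.id μ).prod (measurePreserving_add_right hm η)).prod (MeasurePreserving.id Un)

theorem fst_fst_mp (μ : Measure ℂ) [IsProbabilityMeasure μ] :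
    MeasurePreserving (fun e : MM => e.1.1) ((km μ).prod Un) μ :=
  (measurePreserving_fst (μ := μ) (ν := hm)).comp
    (measurePreserving_fst (μ := μ.prod hm) (ν := Un))

open Classical in
/-- truncation -/
noncomputable def cl (R : ℝ) (z : ℂ) : ℂ := if ‖z‖ ≤ R then z else 0

theorem cl_meas (R : ℝ) : Measurable (cl R) := by
  classical
  unfold cl
  exact Measurable.ite (measurableSet_le (by fun_prop) measurable_const) measurable_id
    measurable_const

theorem cl_bd {R : ℝ} (hR : 0 ≤ R) (z : ℂ) : ‖cl R z‖ ≤ R := by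
  unfold cl
  split_ifs with h
  · exact h
  · rwa [norm_zero]

theorem cl_of {R : ℝ} {z : ℂ} (h : ‖z‖ ≤ R) : cl R z = z := by
  unfold cl
  rw [if_pos h]

section
variable {G Ω H : Type} [Group G] [Countable G] [MeasurableSpace Ω] [MulAction G Ω]
  [NormedAddCommGroup H] [InnerProductSpace ℂ H] [CompleteSpace H]
  {P : Measure Ω} [IsProbabilityMeasure P] {b : HilbertBasis G ℂ H}
  {L : G → unitary (H →L[ℂ] H)} {μ : Measure ℂ} [IsProbabilityMeasure μ]

theorem uu_unimod {A : Type} [CStarAlgebra A] (τ : A →L[ℂ] ℂ) (hτ : TrSt τ) (X : A) {δ : ℝ}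
    (hδ : 0 < δ) (η : Cir) : uu τ δ (ee η • X) = uu τ δ X := by
  rw [uu_smul τ hτ X hδ _ (ee_ne η), ee_norm, Real.log_one, mul_zero, zero_add, one_pow, div_one]

theorem uu_mul_unit {A : Type} [CStarAlgebra A] (τ : A →L[ℂ] ℂ) (hτ : TrSt τ) (X U : A) {δ : ℝ}
    (hδ : 0 < δ) (h1 : star U * U = 1) (h2 : U * star U = 1) : uu τ δ (X * U) = uu τ δ X := by
  have hU : IsUnit U := ⟨⟨U, star U, h2, h1⟩, rfl⟩
  have e1 : algebraMap ℝ A δ + star (X * U) * (X * U)
      = star U * (algebraMap ℝ A δ + star X * X) * U := by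
    rw [mul_add, add_mul, ← Algebra.commutes, mul_assoc (algebraMap ℝ A δ), h1, mul_one, star_mul]
    simp only [mul_assoc]
  have e2 := dt_conj τ hτ (SP.reg X hδ) hU
  rw [← e1, h1, dt_one, add_zero] at e2
  exact e2

/-- diagonal unitaries -/
theorem IsD.unitary {a : Ω → ℂ} {U : CF (Ω := Ω) b L} (h : IsD b L a U)
    (ha : ∀ ω, ‖a ω‖ = 1) : star U * U = 1 ∧ U * star U = 1 := by
  have hs : ∀ (ω : Ω) (k : G), star (ev b L ω U) (b k) = conj (a (k⁻¹ • ω)) • b k := by
    intro ω k
    refine b.repr.injective ?_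
    refine lp.ext (funext fun j => ?_)
    rw [b.repr_apply_apply, b.repr_apply_apply, ContinuousLinearMap.star_eq_adjoint,
      ContinuousLinearMap.adjoint_inner_right, h ω j, inner_smul_left, inner_smul_right]
    by_cases hjk : j = k
    · rw [hjk]
    · have : ⟪b j, b k⟫_ℂ = 0 := b.orthonormal.2 hjk
      rw [this, mul_zero, mul_zero]
  have h1 : ∀ ω, conj (a ω) * a ω = 1 := by
    intro ω
    rw [← Complex.normSq_eq_conj_mul_self, Complex.normSq_eq_norm_sq, ha]
    norm_num
  constructor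
  · refine cf_ext fun ω => op_ext (b := b) fun k => ?_
    rw [map_mul, map_star, map_one]
    show star (ev b L ω U) (ev b L ω U (b k)) = b k
    rw [h, map_smul, hs, smul_smul, mul_comm, h1, one_smul]
  · refine cf_ext fun ω => op_ext (b := b) fun k => ?_
    rw [map_mul, map_star, map_one]
    show ev b L ω U (star (ev b L ω U) (b k)) = b k
    rw [hs, map_smul, h, smul_smul, h1, one_smul]

/-- **random coefficients with bounded potential: the lower bound** -/
theorem low_B (hL : Reg b L) (hP : ∀ g : G, MeasurePreserving (fun ω : Ω => g • ω) P P)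
    (A W : CF (Ω := Ω) b L) {κW : ℝ} (hW : ∀ δ : ℝ, 0 < δ → 2 * κW ≤ uu (tau P b L) δ W)
    {a : Ω × (ℂ × Cir) → ℂ} {X' : CF (Ω := Env Ω G MM) b L}
    (hX' : IsX b L A W a (fun y => ee y.2.2) Set.univ X') {δ : ℝ} (hδ : 0 < δ) :
    2 * κW ≤ FX P (km μ) b L δ X' := by
  classical
  have hm0 := fun g => (hP g).measurable
  have hmp := env_mp (κ := (km μ).prod Un) hP
  set τ := tau (PK (G := G) P ((km μ).prod Un)) b L with hτ
  have hτ' : TrSt τ := t_TR G (Env Ω G MM) H _ b L hL hmp
  obtain ⟨A', hA'⟩ := exists_up (E := MM) A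
  obtain ⟨W', hW'⟩ := exists_up (E := MM) W
  have hum : Measurable (fun x : Env Ω G MM => ee (x.2 1).1.2) :=
    ee_cont.measurable.comp (measurable_snd.comp (measurable_fst.comp
      ((measurable_pi_apply 1).comp measurable_snd)))
  obtain ⟨U, hU, -⟩ := exists_D (b := b) hL (fun g => (hmp g).measurable) hum (B := 1)
    (fun x => (ee_norm _).le)
  have hUat : ∀ (x : Env Ω G MM) (k : G), ev b L x U (b k) = ee (x.2 k).1.2 • b k := by
    intro x k
    rw [hU x k, smul_env]
    simp only [sh_inv_one]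
  have hX : X' = A' + W' * U := by
    refine cf_ext fun x => op_ext (b := b) fun k => ?_
    rw [hX' x k, pot_at, if_pos (Set.mem_univ _), map_add, map_mul]
    show _ = ev b L x A' (b k) + ev b L x W' (ev b L x U (b k))
    rw [hA', hUat, map_smul, hW']
  have hrot : ∀ η : Cir, uu τ δ (ee η • A' + W' * U) = uu τ δ X' := by
    intro η
    have e1 : ee η • A' + W' * U = ee η • (A' + ee (-η) • (W' * U)) := by
      rw [smul_add, smul_smul, ← ee_add, add_neg_cancel]
      have : ee 0 = 1 := by
        have := ee_coe 0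
        simpa using this
      rw [this, one_smul]
    rw [e1, uu_unimod τ hτ' _ hδ]
    refine dt_pull (mk_mp (P := P) (G := G) (rot_mp μ (-η))) X' _ (fun x => ?_) hδ
    rw [hX]
    refine op_ext (b := b) fun k => ?_
    rw [map_add, map_add, map_smul, map_mul]
    show ev b L x A' (b k) + ee (-η) • ev b L x W' (ev b L x U (b k))
      = ev b L (mk (rot (-η)) x) A' (b k)
        + ev b L (mk (rot (-η)) x) (W' * U) (b k)
    rw [map_mul]
    show _ = ev b L (mk (rot (-η)) x) A' (b k)
        + ev b L (mk (rot (-η)) x) W' (ev b L (mk (rot (-η)) x) U (b k))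
    rw [hUat, hUat, hA', hA', map_smul, map_smul, hW', hW', smul_smul]
    have e2 : (mk (rot (-η)) x : Env Ω G MM).1 = x.1 := rfl
    have e3 : ee ((mk (rot (-η)) x : Env Ω G MM).2 k).1.2 = ee (-η) * ee (x.2 k).1.2 := by
      show ee ((x.2 k).1.2 + -η) = _
      rw [ee_add, mul_comm]
    rw [e2, e3]
  have h1 := smv τ hτ' (fun s : ℂ => s • A' + W' * U) (by fun_prop) hδ
  simp only [zero_smul, zero_add, hrot] at h1
  have h2 : ∫ _ : Cir, uu τ δ X' ∂hm = uu τ δ X' := by simp
  rw [h2] at h1
  obtain ⟨u1, u2⟩ := IsD.unitary hU (fun x => ee_norm _)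
  rw [uu_mul_unit τ hτ' W' U hδ u1 u2] at h1
  have h3 : uu τ δ W' = uu (tau P b L) δ W :=
    dt_pull (fst_mp (P := P) (κ := (km μ).prod Un) (G := G)) W W' hW' hδ
  rw [h3] at h1
  exact (hW δ hδ).trans h1

end
end Pool.Agent.H21.And
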