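import Pool.Agent.H21.And13

/-!
# Random potentials: hyperinvariant subspaces
-/

set_option autoImplicit false
set_option linter.unusedSectionVars false
open scoped ComplexConjugate InnerProductSpace Topology ENNReal
open Filter MeasureTheory

namespace Pool.Agent.H21.And
open Pool.Agent.H712R5.BO Pool.Agent.W611.RO Pool.Agent.TH322.AC Pool.Agent.TH315.LO
open Pool.Agent.H21.Smv Pool.Agent.H21.Fam

section
variable {G Ω H : Type} [Group G] [Countable G] [MeasurableSpace Ω] [MulAction G Ω]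
  [NormedAddCommGroup H] [InnerProductSpace ℂ H] [CompleteSpace H]
  {P : Measure Ω} [IsProbabilityMeasure P] {b : HilbertBasis G ℂ H}
  {L : G → unitary (H →L[ℂ] H)} {μ : Measure ℂ} [IsProbabilityMeasure μ]

/-- the field `A + W diag(ξ)` over the space with complex marks -/
def IsT (b : HilbertBasis G ℂ H) (L : G → unitary (H →L[ℂ] H)) (A W : CF (Ω := Ω) b L) (R : ℝ)
    (T : CF (Ω := Env Ω G ℂ) b L) : Prop :=
  ∀ x k, ev b L x T (b k) = ev b L x.1 A (b k) + cl R (x.2 k) • ev b L x.1 W (b k)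

theorem exists_T (hL : Reg b L) (hm : ∀ g : G, Measurable fun ω : Ω => g • ω)
    (A W : CF (Ω := Ω) b L) {R : ℝ} (hR : 0 ≤ R) : ∃ T, IsT b L A W R T := by
  have hm' : ∀ g : G, Measurable fun x : Env Ω G ℂ => g • x := fun g =>
    Measurable.prodMk ((hm g).comp measurable_fst) ((sh_meas g).comp measurable_snd)
  obtain ⟨A', hA'⟩ := exists_up (E := ℂ) A
  obtain ⟨W', hW'⟩ := exists_up (E := ℂ) W
  have hcm : Measurable (fun x : Env Ω G ℂ => cl R (x.2 1)) :=
    (cl_meas R).comp ((measurable_pi_apply 1).comp measurable_snd)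
  obtain ⟨D, hD, -⟩ := exists_D (b := b) hL hm' hcm (B := R) (fun x => cl_bd hR _)
  refine ⟨A' + W' * D, fun x k => ?_⟩
  rw [map_add, _root_.add_apply, hA', map_mul]
  show _ + ev b L x W' (ev b L x D (b k)) = _
  rw [hD, map_smul, hW', smul_env]
  simp only [sh_inv_one]

/-- **random coefficients with bounded potential: a lower bound for all determinants** -/
theorem low_T (hL : Reg b L) (hP : ∀ g : G, MeasurePreserving (fun ω : Ω => g • ω) P P)
    (W : CF (Ω := Ω) b L) {κW : ℝ} (hW : ∀ δ : ℝ, 0 < δ → 2 * κW ≤ uu (tau P b L) δ W)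
    {R : ℝ} (hR : 0 ≤ R) (hμR : ∀ᵐ z ∂μ, ‖z‖ ≤ R) (hμ : BP μ) :
    ∃ κ' : ℝ, ∀ (A : CF (Ω := Ω) b L) (Z : CF (Ω := Env Ω G ℂ) b L), IsT b L A W R Z →
      ∀ δ : ℝ, 0 < δ → 2 * κ' ≤ uu (tau (PK (G := G) P μ) b L) δ Z := by
  classical
  have hm0 := fun g => (hP g).measurable
  obtain ⟨C', hC'⟩ := hμ
  set C : ℝ := max C' 0 with hC
  have hC0 : 0 ≤ C := le_max_right _ _
  have hCμ : ∀ t : ℂ, ∫⁻ s, ENNReal.ofReal (-Real.log ‖t - s‖) ∂μ ≤ ENNReal.ofReal C := fun t =>
    (hC' t).trans (ENNReal.ofReal_le_ofReal (le_max_left _ _))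
  set K₀ : ℝ := Real.log (2 + 2 * (1 + R) ^ 2) + 2 * C with hK₀
  have hK00 : 0 ≤ K₀ := by
    have : 0 ≤ Real.log (2 + 2 * (1 + R) ^ 2) := Real.log_nonneg (by nlinarith [sq_nonneg (1 + R)])
    positivity
  set a : Ω × (ℂ × Cir) → ℂ := fun y => cl R y.2.1 with ha
  set a' : Ω × (ℂ × Cir) → ℂ := fun y => ee y.2.2 with ha'
  have ham : Measurable a := (cl_meas R).comp (measurable_fst.comp measurable_snd)
  have ham' : Measurable a' := ee_cont.measurable.comp (measurable_snd.comp measurable_snd)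
  have hcmp : ∀ (ω : Ω) (γ α : ℝ) (z : ℂ), 0 < γ → 0 < α →
      ∫ m, (Real.log (γ + α * ‖a' (ω, m) - z‖ ^ 2)
        - Real.log (γ + α * ‖a (ω, m) - z‖ ^ 2)) ∂(km μ) ≤ K₀ := by
    intro ω γ α z hγ hα
    have h1 := compare_int (ρ := km μ) (w := fun m : ℂ × Cir => cl R m.1)
      (u := fun m => ee m.2) ((cl_meas R).comp measurable_fst)
      (ee_cont.measurable.comp measurable_snd) hR (fun m => cl_bd hR _) (fun m => (ee_norm _).le)
      (I := Set.univ) MeasurableSet.univ hC0 (fun t => ?_) hγ hα z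
    · simpa using h1
    · rw [Measure.restrict_univ]
      have h2 : ∫⁻ m, ENNReal.ofReal (-Real.log ‖t - cl R m.1‖) ∂(km μ)
          = ∫⁻ z, ENNReal.ofReal (-Real.log ‖t - cl R z‖) ∂μ := by
        have h3 := (measurePreserving_fst (μ := μ) (ν := hm)).lintegral_comp
          (f := fun z => ENNReal.ofReal (-Real.log ‖t - cl R z‖))
          (by have := cl_meas R; fun_prop)
        exact h3
      rw [h2]
      refine le_of_eq_of_le (lintegral_congr_ae ?_) (hCμ t)
      filter_upwards [hμR] with z hz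
      rw [cl_of hz]
  refine ⟨κW - K₀ / 2, fun A Z hZ δ hδ => ?_⟩
  obtain ⟨X, hX, -⟩ := exists_X hL hm0 A W ham ham' (B := max R 1)
    (le_max_of_le_left hR) (fun y => (cl_bd hR _).trans (le_max_left _ _))
    (fun y => (ee_norm _).le.trans (le_max_right _ _)) (MeasurableSet.empty (α := ℝ))
  obtain ⟨X', hX', -⟩ := exists_X hL hm0 A W ham ham' (B := max R 1)
    (le_max_of_le_left hR) (fun y => (cl_bd hR _).trans (le_max_left _ _))
    (fun y => (ee_norm _).le.trans (le_max_right _ _)) (MeasurableSet.univ (α := ℝ))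
  have h1 := comparison (P := P) (κ := km μ) hL hP ham ham' (B := max R 1)
    (le_max_of_le_left hR) (fun y => (cl_bd hR _).trans (le_max_left _ _))
    (fun y => (ee_norm _).le.trans (le_max_right _ _)) hK00 hcmp hδ hX hX'
  have h2 := low_B (μ := μ) hL hP A W hW hX' hδ
  have h3 : FX P (km μ) b L δ X = uu (tau (PK (G := G) P μ) b L) δ Z := by
    refine dt_pull (mk_mp (P := P) (G := G) (fst_fst_mp μ)) Z X (fun x => ?_) hδ
    refine op_ext (b := b) fun k => ?_
    rw [hX, hZ, pot_at, if_neg (Set.notMem_empty _)]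
    rfl
  rw [h3] at h1
  linarith

/-- the determinants of an invertible element -/
theorem uu_unit_low {B : Type} [CStarAlgebra B] (τ : B →L[ℂ] ℂ) (hτ : TrSt τ) {V : B}
    (hV : IsUnit V) {δ : ℝ} (hδ : 0 < δ) : dt τ (star V * V) ≤ uu τ δ V := by
  let := CStarAlgebra.spectralOrder B
  have := CStarAlgebra.spectralOrderedRing B
  obtain ⟨-, hmono⟩ := t_D1 B τ hτ
  refine hmono _ _ ⟨star_mul_self_nonneg _, hV.star.mul hV⟩ ?_
  have h1 : (0 : B) ≤ algebraMap ℝ B δ := by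
    have := algebraMap_mono B hδ.le
    rwa [map_zero] at this
  exact le_add_of_nonneg_left h1

/-- **random coefficients with bounded potential** -/
theorem hyp_B [Infinite G] (hL : Reg b L) (hE : Erg G P) (A W V V' : CF (Ω := Ω) b L)
    (hV1 : V' * V = 1) (hV2 : V * V' = 1) {κW : ℝ}
    (hW : ∀ δ : ℝ, 0 < δ → 2 * κW ≤ uu (tau P b L) δ W) {R : ℝ} (hR : 0 ≤ R)
    (hμR : ∀ᵐ z ∂μ, ‖z‖ ≤ R) (hμ : BP μ) {T Z : CF (Ω := Env Ω G ℂ) b L} (hZ : IsT b L 0 W R Z)
    (hT : ∀ x, ev b L x T = ev b L x.1 A + ev b L x Z * ev b L x.1 V) :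
    ∀ᵐ x ∂(PK (G := G) P μ), HasHyp (ev b L x T) := by
  have hP := hE.mp
  obtain ⟨κ', hκ'⟩ := low_T (μ := μ) hL hP W hW hR hμR hμ
  set τ := tau (PK (G := G) P μ) b L with hτ'
  have hτ : TrSt τ := t_TR G (Env Ω G ℂ) H _ b L hL (env_mp hP)
  obtain ⟨Vu, hVu⟩ := exists_up (E := ℂ) V
  obtain ⟨Vu', hVu'⟩ := exists_up (E := ℂ) V'
  have hu1 : Vu' * Vu = 1 := cf_ext fun x => by
    rw [map_mul, hVu, hVu', ← map_mul, hV1, map_one, map_one]
  have hu2 : Vu * Vu' = 1 := cf_ext fun x => by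
    rw [map_mul, hVu, hVu', ← map_mul, hV2, map_one, map_one]
  have hVunit : IsUnit Vu := ⟨⟨Vu, Vu', hu2, hu1⟩, rfl⟩
  refine Pool.Agent.H21.Crit.det_hyp hL (erg_env hE) T (τ T)
    (κ' + dt τ (star Vu * Vu) / 2) (by rw [sub_self, norm_zero]; exact Real.exp_pos _)
    (fun δ hδ => ?_)
  set c : ℂ := τ T with hc
  obtain ⟨Au, hAu⟩ := exists_up (E := ℂ) ((A - c • 1) * V')
  have hIs : IsT b L ((A - c • 1) * V') W R (Au + Z) := by
    intro x k
    rw [map_add, _root_.add_apply, hAu, hZ, map_zero]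
    show _ + ((0 : H →L[ℂ] H) (b k) + _) = _
    rw [_root_.zero_apply, zero_add]
  have hfac : T - c • 1 = (Au + Z) * Vu := by
    refine cf_ext fun x => ?_
    rw [map_sub, map_smul, map_one, hT, map_mul, map_add, hAu, hVu, add_mul, ← map_mul, mul_assoc,
      hV1, mul_one, map_sub, map_smul, map_one]
    abel
  obtain ⟨ε, ε', hε, hε', hmul⟩ := logdet_mul τ hτ (Au + Z) Vu hδ
  have h1 := hκ' _ _ hIs ε hε
  have h2 := uu_unit_low τ hτ hVunit hε'
  show 2 * (κ' + dt τ (star Vu * Vu) / 2) ≤ uu τ δ (T - c • 1)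
  rw [hfac]
  unfold uu at h1 h2 ⊢
  linarith

end
end Pool.Agent.H21.And
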