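import Pool.Agent.H21.And14
import Pool.Graph.R_seed8.W493.RO.Lead

/-!
# Random potentials which are nonpolar at some sites
-/

set_option autoImplicit false
set_option linter.unusedSectionVars false
open scoped ComplexConjugate InnerProductSpace Topology ENNReal
open Filter MeasureTheory

namespace Pool.Agent.H21.And
open Pool.Agent.H712R5.BO Pool.Agent.W611.RO Pool.Agent.TH322.AC Pool.Agent.TH315.LO
open Pool.Agent.H21.Smv Pool.Agent.H21.Fam

/-- the sites whose value is replaced: `ω ∈ Sα` and `ξ ∈ S₀` -/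
def In {Ω : Type} (Sα : Set Ω) (S₀ : Set ℂ) : Set (Ω × (ℂ × Cir)) := {y | y.1 ∈ Sα ∧ y.2.1 ∈ S₀}

theorem In_meas {Ω : Type} [MeasurableSpace Ω] {Sα : Set Ω} {S₀ : Set ℂ} (hα : MeasurableSet Sα)
    (h₀ : MeasurableSet S₀) : MeasurableSet (In Sα S₀) :=
  (measurable_fst hα).inter ((measurable_fst.comp measurable_snd) h₀)

section
variable {Ω : Type} [MeasurableSpace Ω]

/-- the potential -/
noncomputable def aA (α : Ω → ℂ) (R : ℝ) (c : ℂ) (y : Ω × (ℂ × Cir)) : ℂ :=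
  α y.1 * cl R y.2.1 - c

open Classical in
/-- the modified potential -/
noncomputable def aA' (α : Ω → ℂ) (R : ℝ) (Sα : Set Ω) (S₀ : Set ℂ) (c : ℂ)
    (y : Ω × (ℂ × Cir)) : ℂ :=
  if y ∈ In Sα S₀ then ee y.2.2 else aA α R c y

theorem aA_meas {α : Ω → ℂ} (hα : Measurable α) (R : ℝ) (c : ℂ) : Measurable (aA α R c) :=
  ((hα.comp measurable_fst).mul ((cl_meas R).comp (measurable_fst.comp measurable_snd))).sub
    measurable_const

theorem aA'_meas {α : Ω → ℂ} (hα : Measurable α) (R : ℝ) {Sα : Set Ω} {S₀ : Set ℂ}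
    (hSα : MeasurableSet Sα) (hS₀ : MeasurableSet S₀) (c : ℂ) :
    Measurable (aA' α R Sα S₀ c) := by
  classical
  exact Measurable.ite (In_meas hSα hS₀) (ee_cont.measurable.comp
    (measurable_snd.comp measurable_snd)) (aA_meas hα R c)

theorem aA_bd {α : Ω → ℂ} {Bα R Cc : ℝ} (hR : 0 ≤ R) (hBα : 0 ≤ Bα) (hα : ∀ ω, ‖α ω‖ ≤ Bα) {c : ℂ}
    (hc : ‖c‖ ≤ Cc) (y : Ω × (ℂ × Cir)) : ‖aA α R c y‖ ≤ Bα * R + Cc := by
  unfold aA
  refine (norm_sub_le _ _).trans ?_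
  rw [norm_mul]
  have h1 := hα y.1
  have h2 := cl_bd hR y.2.1
  gcongr

theorem aA'_bd {α : Ω → ℂ} {Bα R Cc : ℝ} (hR : 0 ≤ R) (hBα : 0 ≤ Bα) (hα : ∀ ω, ‖α ω‖ ≤ Bα) {c : ℂ}
    (hc : ‖c‖ ≤ Cc) (Sα : Set Ω) (S₀ : Set ℂ) (y : Ω × (ℂ × Cir)) :
    ‖aA' α R Sα S₀ c y‖ ≤ max (Bα * R + Cc) 1 := by
  unfold aA'
  split_ifs
  · exact (ee_norm _).le.trans (le_max_right _ _)
  · exact (aA_bd hR hBα hα hc y).trans (le_max_left _ _)

theorem log_scale {α s : ℂ} {a₀ : ℝ} (ha₀ : 0 < a₀) (hα : a₀ ≤ ‖α‖) :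
    ENNReal.ofReal (-Real.log ‖α * s‖) ≤ ENNReal.ofReal |Real.log a₀|
      + ENNReal.ofReal (-Real.log ‖s‖) := by
  by_cases hs : s = 0
  · rw [hs, mul_zero, norm_zero, Real.log_zero, neg_zero, ENNReal.ofReal_zero]
    exact bot_le
  · have h1 : 0 < ‖s‖ := norm_pos_iff.2 hs
    have h2 : 0 < ‖α‖ := ha₀.trans_le hα
    refine le_trans (ENNReal.ofReal_le_ofReal ?_) ENNReal.ofReal_add_le
    rw [norm_mul, Real.log_mul h2.ne' h1.ne']
    have h3 := Real.log_le_log ha₀ hα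
    have h4 := neg_le_abs (Real.log a₀)
    linarith

/-- the comparison constant -/
theorem cmp_A {μ : Measure ℂ} [IsProbabilityMeasure μ] {α : Ω → ℂ}
    {Bα R Cc : ℝ} (hR : 0 ≤ R) (hBα : 0 ≤ Bα) (hα : ∀ ω, ‖α ω‖ ≤ Bα) (hCc : 0 ≤ Cc) {a₀ : ℝ}
    (ha₀ : 0 < a₀) {Sα : Set Ω} (hSα : ∀ ω ∈ Sα, a₀ ≤ ‖α ω‖) {S₀ : Set ℂ}
    (hS₀ : MeasurableSet S₀) (hS₀R : ∀ z ∈ S₀, ‖z‖ ≤ R) {Cμ : ℝ} (hCμ0 : 0 ≤ Cμ)
    (hCμ : ∀ t : ℂ, ∫⁻ s in S₀, ENNReal.ofReal (-Real.log ‖t - s‖) ∂μ ≤ ENNReal.ofReal Cμ)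
    {c : ℂ} (hc : ‖c‖ ≤ Cc) (ω : Ω) (γ α' : ℝ) (z : ℂ) (hγ : 0 < γ) (hα' : 0 < α') :
    ∫ m, (Real.log (γ + α' * ‖aA' α R Sα S₀ c (ω, m) - z‖ ^ 2)
        - Real.log (γ + α' * ‖aA α R c (ω, m) - z‖ ^ 2)) ∂(km μ)
      ≤ Real.log (2 + 2 * (1 + (Bα * R + Cc)) ^ 2) + 2 * (|Real.log a₀| + Cμ) := by
  classical
  set I : Set (ℂ × Cir) := {m | (ω, m) ∈ In Sα S₀} with hI
  have hIm : MeasurableSet I := by
    by_cases hω : ω ∈ Sα
    · have : I = Prod.fst ⁻¹' S₀ := by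
        ext m
        exact ⟨fun h => h.2, fun h => ⟨hω, h⟩⟩
      rw [this]
      exact measurable_fst hS₀
    · have : I = ∅ := by
        ext m
        exact ⟨fun h => absurd h.1 hω, fun h => absurd h (Set.notMem_empty m)⟩
      rw [this]
      exact MeasurableSet.empty
  have h1 := compare_int (ρ := km μ) (w := fun m : ℂ × Cir => α ω * cl R m.1 - c)
    (u := fun m => ee m.2) ((((cl_meas R).comp measurable_fst).const_mul _).sub measurable_const)
    (ee_cont.measurable.comp measurable_snd) (B₁ := Bα * R + Cc) (by positivity)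
    (fun m => aA_bd hR hBα hα hc (ω, m)) (fun m => (ee_norm _).le) hIm
    (C := |Real.log a₀| + Cμ) (by positivity) (fun t => ?_) hγ hα' z
  · exact h1
  · by_cases hω : ω ∈ Sα
    · have hI1 : I = Prod.fst ⁻¹' S₀ := by
        ext m
        exact ⟨fun h => h.2, fun h => ⟨hω, h⟩⟩
      have hα0 : α ω ≠ 0 := norm_pos_iff.1 (ha₀.trans_le (hSα ω hω))
      have hfm : Measurable (fun s : ℂ => ENNReal.ofReal (-Real.log ‖t - (α ω * cl R s - c)‖)) := by
        have := cl_meas R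
        fun_prop
      have h2 : ∫⁻ m in I, ENNReal.ofReal (-Real.log ‖t - (α ω * cl R m.1 - c)‖) ∂(km μ)
          = ∫⁻ s in S₀, ENNReal.ofReal (-Real.log ‖t - (α ω * cl R s - c)‖) ∂μ := by
        rw [hI1]
        exact ((measurePreserving_fst (μ := μ) (ν := hm)).restrict_preimage hS₀).lintegral_comp hfm
      rw [h2]
      calc ∫⁻ s in S₀, ENNReal.ofReal (-Real.log ‖t - (α ω * cl R s - c)‖) ∂μ
          ≤ ∫⁻ s in S₀, (ENNReal.ofReal |Real.log a₀|
            + ENNReal.ofReal (-Real.log ‖(t + c) / α ω - s‖)) ∂μ := by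
            refine setLIntegral_mono' hS₀ fun s hs => ?_
            rw [cl_of (hS₀R s hs)]
            have e1 : t - (α ω * s - c) = α ω * ((t + c) / α ω - s) := by
              field_simp
              ring
            rw [e1]
            exact log_scale ha₀ (hSα ω hω)
        _ = ENNReal.ofReal |Real.log a₀| * μ S₀
            + ∫⁻ s in S₀, ENNReal.ofReal (-Real.log ‖(t + c) / α ω - s‖) ∂μ := by
            rw [lintegral_add_left measurable_const, setLIntegral_const]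
        _ ≤ ENNReal.ofReal |Real.log a₀| * 1 + ENNReal.ofReal Cμ := by
            gcongr
            · exact prob_le_one
            · exact hCμ _
        _ = ENNReal.ofReal (|Real.log a₀| + Cμ) := by
            rw [mul_one, ENNReal.ofReal_add (abs_nonneg _) hCμ0]
    · have : I = ∅ := by
        ext m
        exact ⟨fun h => absurd h.1 hω, fun h => absurd h (Set.notMem_empty m)⟩
      rw [this, Measure.restrict_empty, lintegral_zero_measure]
      exact bot_le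

end

section
variable {G Ω H : Type} [Group G] [Countable G] [MeasurableSpace Ω] [MulAction G Ω]
  [NormedAddCommGroup H] [InnerProductSpace ℂ H] [CompleteSpace H]
  {P : Measure Ω} [IsProbabilityMeasure P] {b : HilbertBasis G ℂ H}
  {L : G → unitary (H →L[ℂ] H)} {μ : Measure ℂ} [IsProbabilityMeasure μ]

theorem prob_in {Sα : Set Ω} {S₀ : Set ℂ} (hSα : MeasurableSet Sα) (hS₀ : MeasurableSet S₀) :
    MeasurableSet {x : Env Ω G MM | (x.1, (x.2 1).1) ∈ In Sα S₀} ∧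
    (PK (G := G) P ((km μ).prod Un)).real {x : Env Ω G MM | (x.1, (x.2 1).1) ∈ In Sα S₀}
      = P.real Sα * μ.real S₀ := by
  set S' : Set (G → MM) := {m | (m 1).1.1 ∈ S₀} with hS'
  have hS'm : MeasurableSet S' :=
    (measurable_fst.comp (measurable_fst.comp (measurable_pi_apply 1))) hS₀
  have h1 : {x : Env Ω G MM | (x.1, (x.2 1).1) ∈ In Sα S₀} = Sα ×ˢ S' := rfl
  have h2 : (Measure.infinitePi fun _ : G => (km μ).prod Un) S' = μ S₀ := by
    have h3 : S' = (Function.eval (1:G)) ⁻¹' ((fun e : MM => e.1.1) ⁻¹' S₀) := rfl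
    rw [h3, (measurePreserving_eval_infinitePi (fun _ : G => (km μ).prod Un) (1:G)).measure_preimage
      (((fst_fst_mp μ).measurable hS₀).nullMeasurableSet),
      (fst_fst_mp μ).measure_preimage hS₀.nullMeasurableSet]
  rw [h1]
  refine ⟨hSα.prod hS'm, ?_⟩
  show (P.prod (Measure.infinitePi fun _ : G => (km μ).prod Un)).real (Sα ×ˢ S') = _
  rw [measureReal_prod_prod]
  congr 1
  unfold Measure.real
  rw [h2]

/-- **the lower bound, in the mean over a circle** -/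
theorem low_A (hL : Reg b L) (hP : ∀ g : G, MeasurePreserving (fun ω : Ω => g • ω) P P)
    (A : CF (Ω := Ω) b L) {α : Ω → ℂ} (hαm : Measurable α) {Bα R : ℝ} (hR : 0 ≤ R)
    (hBα : 0 ≤ Bα) (hα : ∀ ω, ‖α ω‖ ≤ Bα) {Sα : Set Ω} (hSα : MeasurableSet Sα) {S₀ : Set ℂ}
    (hS₀ : MeasurableSet S₀) (c₀ : ℂ) {r : ℝ} (hr : 0 < r) {δ : ℝ} (hδ : 0 < δ)
    {X' : Cir → CF (Ω := Env Ω G MM) b L}
    (hX' : ∀ ζ, IsX b L A 1 (aA α R (c₀ + r * ee ζ)) (aA' α R Sα S₀ (c₀ + r * ee ζ)) Set.univ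
      (X' ζ)) :
    Integrable (fun ζ => FX P (km μ) b L δ (X' ζ)) hm ∧
    2 * (1 - P.real Sα * μ.real S₀) * Real.log r ≤ ∫ ζ, FX P (km μ) b L δ (X' ζ) ∂hm := by
  classical
  have hm0 := fun g => (hP g).measurable
  have hmp := env_mp (κ := (km μ).prod Un) hP
  set τ := tau (PK (G := G) P ((km μ).prod Un)) b L with hτ
  have hτ' : TrSt τ := t_TR G (Env Ω G MM) H _ b L hL hmp
  obtain ⟨A', hA'⟩ := exists_up (E := MM) A
  -- the two potentials
  set J : Set (Env Ω G MM) := {x | (x.1, (x.2 1).1) ∈ In Sα S₀} with hJ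
  obtain ⟨hJm, hJp⟩ := prob_in (G := G) (P := P) (μ := μ) hSα hS₀
  rw [← hJ] at hJm hJp
  have hx1 : Measurable (fun x : Env Ω G MM => x.2 1) :=
    (measurable_pi_apply 1).comp measurable_snd
  set d₁ : Env Ω G MM → ℂ := fun x => if x ∈ J then 0 else α x.1 * cl R (x.2 1).1.1 - c₀ with hd₁
  set d₂ : Env Ω G MM → ℂ := fun x => if x ∈ J then ee (x.2 1).1.2 else -(r : ℂ) with hd₂
  have hd₁m : Measurable d₁ := by
    refine Measurable.ite hJm measurable_const ?_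
    exact ((hαm.comp measurable_fst).mul ((cl_meas R).comp
      (measurable_fst.comp (measurable_fst.comp hx1)))).sub measurable_const
  have hd₂m : Measurable d₂ := by
    refine Measurable.ite hJm ?_ measurable_const
    exact ee_cont.measurable.comp (measurable_snd.comp (measurable_fst.comp hx1))
  obtain ⟨D₁, hD₁, -⟩ := exists_D (b := b) hL (fun g => (hmp g).measurable) hd₁m
    (B := Bα * R + ‖c₀‖) (fun x => by
      rw [hd₁]
      dsimp only
      split_ifs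
      · rw [norm_zero]; positivity
      · exact aA_bd hR hBα hα le_rfl (x.1, (x.2 1).1))
  obtain ⟨D₂, hD₂, hD₂W⟩ := exists_D (b := b) hL (fun g => (hmp g).measurable) hd₂m
    (B := max 1 r) (fun x => by
      rw [hd₂]
      dsimp only
      split_ifs
      · exact (ee_norm _).le.trans (le_max_left _ _)
      · rw [norm_neg, Complex.norm_real, Real.norm_of_nonneg hr.le]
        exact le_max_right _ _)
  have hJat : ∀ (x : Env Ω G MM) (k : G), k⁻¹ • x ∈ J ↔ (k⁻¹ • x.1, (x.2 k).1) ∈ In Sα S₀ := by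
    intro x k
    show ((k⁻¹ • x).1, ((k⁻¹ • x).2 1).1) ∈ In Sα S₀ ↔ _
    rw [smul_env]
    simp only [sh_inv_one]
  have hD₁at : ∀ (x : Env Ω G MM) (k : G), ev b L x D₁ (b k)
      = (if (k⁻¹ • x.1, (x.2 k).1) ∈ In Sα S₀ then 0
        else α (k⁻¹ • x.1) * cl R (x.2 k).1.1 - c₀) • b k := by
    intro x k
    rw [hD₁ x k, hd₁]
    dsimp only
    by_cases h : (k⁻¹ • x.1, (x.2 k).1) ∈ In Sα S₀
    · rw [if_pos h, if_pos ((hJat x k).2 h)]
    · rw [if_neg h, if_neg (fun h' => h ((hJat x k).1 h')), smul_env]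
      simp only [sh_inv_one]
  have hD₂at : ∀ (x : Env Ω G MM) (k : G), ev b L x D₂ (b k)
      = (if (k⁻¹ • x.1, (x.2 k).1) ∈ In Sα S₀ then ee (x.2 k).1.2 else -(r : ℂ)) • b k := by
    intro x k
    rw [hD₂ x k, hd₂]
    dsimp only
    by_cases h : (k⁻¹ • x.1, (x.2 k).1) ∈ In Sα S₀
    · rw [if_pos h, if_pos ((hJat x k).2 h), smul_env]
      simp only [sh_inv_one]
    · rw [if_neg h, if_neg (fun h' => h ((hJat x k).1 h'))]
  have hee0 : ee 0 = 1 := by
    have := ee_coe 0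
    simpa using this
  -- rotation
  have hrot : ∀ ζ : Cir, FX P (km μ) b L δ (X' ζ) = uu τ δ (ee (-ζ) • (A' + D₁) + D₂) := by
    intro ζ
    have e0 : FX P (km μ) b L δ (X' ζ) = uu τ δ (ee (-ζ) • X' ζ) := by
      rw [uu_unimod τ hτ' _ hδ]
      rfl
    rw [e0]
    refine dt_pull (mk_mp (P := P) (G := G) (rot_mp μ (-ζ))) _ _ (fun x => ?_) hδ
    refine op_ext (b := b) fun k => ?_
    rw [map_smul, map_add, map_smul, map_add]
    show ee (-ζ) • ev b L x (X' ζ) (b k)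
      = ee (-ζ) • (ev b L (mk (rot (-ζ)) x) A' (b k) + ev b L (mk (rot (-ζ)) x) D₁ (b k))
        + ev b L (mk (rot (-ζ)) x) D₂ (b k)
    rw [hX' ζ x k, pot_at, if_pos (Set.mem_univ _), hA', hD₁at, hD₂at, map_one]
    have e2 : (mk (rot (-ζ)) x : Env Ω G MM).1 = x.1 := rfl
    have e3 : ((mk (rot (-ζ)) x : Env Ω G MM).2 k).1 = ((x.2 k).1.1, (x.2 k).1.2 + -ζ) := rfl
    have e4 : ((k⁻¹ • x.1, ((x.2 k).1.1, (x.2 k).1.2 + -ζ)) : Ω × (ℂ × Cir)) ∈ In Sα S₀
        ↔ (k⁻¹ • x.1, (x.2 k).1) ∈ In Sα S₀ := Iff.rfl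
    rw [e2, e3]
    show ee (-ζ) • (ev b L x.1 A (b k) + aA' α R Sα S₀ (c₀ + r * ee ζ) (k⁻¹ • x.1, (x.2 k).1) • b k)
      = _
    unfold aA'
    by_cases h : (k⁻¹ • x.1, (x.2 k).1) ∈ In Sα S₀
    · rw [if_pos h, if_pos (e4.2 h), if_pos (e4.2 h), zero_smul, add_zero, smul_add, smul_smul]
      congr 2
      show ee (-ζ) * ee (x.2 k).1.2 = ee ((x.2 k).1.2 + -ζ)
      rw [ee_add, mul_comm]
    · rw [if_neg h, if_neg (fun h' => h (e4.1 h')), if_neg (fun h' => h (e4.1 h'))]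
      unfold aA
      have e5 : ee (-ζ) * (r * ee ζ) = r := by
        have : ee (-ζ) * ee ζ = 1 := by rw [← ee_add, neg_add_cancel, hee0]
        calc ee (-ζ) * (r * ee ζ) = r * (ee (-ζ) * ee ζ) := by ring
          _ = r := by rw [this, mul_one]
      rw [smul_add, smul_add, smul_smul, smul_smul, add_assoc, ← add_smul]
      congr 2
      show ee (-ζ) * (α (k⁻¹ • x.1) * cl R (x.2 k).1.1 - (c₀ + r * ee ζ))
        = ee (-ζ) * (α (k⁻¹ • x.1) * cl R (x.2 k).1.1 - c₀) + -(r : ℂ)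
      calc ee (-ζ) * (α (k⁻¹ • x.1) * cl R (x.2 k).1.1 - (c₀ + r * ee ζ))
          = ee (-ζ) * (α (k⁻¹ • x.1) * cl R (x.2 k).1.1 - c₀) - ee (-ζ) * (r * ee ζ) := by ring
        _ = _ := by rw [e5]; ring
  have hcont : Continuous (fun ζ : Cir => uu τ δ (ee ζ • (A' + D₁) + D₂)) :=
    (uu_cont τ hδ).comp ((ee_cont.smul continuous_const).add continuous_const)
  have hcontn : Continuous (fun ζ : Cir => uu τ δ (ee (-ζ) • (A' + D₁) + D₂)) :=
    hcont.comp continuous_neg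
  constructor
  · simp_rw [hrot]
    exact hcontn.integrable_of_hasCompactSupport (HasCompactSupport.of_compactSpace _)
  simp_rw [hrot]
  have h1 : ∫ ζ : Cir, uu τ δ (ee (-ζ) • (A' + D₁) + D₂) ∂hm
      = ∫ ζ : Cir, uu τ δ (ee ζ • (A' + D₁) + D₂) ∂hm :=
    integral_neg_eq_self (fun ζ : Cir => uu τ δ (ee ζ • (A' + D₁) + D₂)) hm
  rw [h1]
  have h2 := smv τ hτ' (fun s : ℂ => s • (A' + D₁) + D₂) (by fun_prop) hδ
  simp only [zero_smul, zero_add] at h2
  refine le_trans ?_ h2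
  -- the diagonal field
  have hlog : ∀ x, Real.log ‖d₂ x‖ = Jᶜ.indicator (fun _ => Real.log r) x := by
    intro x
    rw [hd₂]
    dsimp only
    by_cases h : x ∈ J
    · rw [if_pos h, ee_norm, Real.log_one, Set.indicator_of_notMem
        (show x ∉ Jᶜ from fun h' => (Set.mem_compl_iff J x).1 h' h)]
    · rw [if_neg h, norm_neg, Complex.norm_real, Real.norm_of_nonneg hr.le,
        Set.indicator_of_mem (show x ∈ Jᶜ from h)]
  have h3 := Pool.Agent.W493.RO.Lead.t_LEAD G (Env Ω G MM) H _ b L hL hmp 1 d₂ D₂ hD₂W hd₂m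
    (Eventually.of_forall fun x => by
      rw [hd₂]
      dsimp only
      split_ifs
      · exact ee_ne _
      · exact neg_ne_zero.2 (Complex.ofReal_ne_zero.2 hr.ne'))
    (by
      simp_rw [hlog]
      exact (integrable_const _).indicator hJm.compl) 1 δ hδ
  simp_rw [hlog] at h3
  rw [integral_indicator hJm.compl, setIntegral_const, smul_eq_mul, measureReal_compl hJm, hJp,
    pow_one, Nat.cast_one, mul_one] at h3
  have h4 : (PK (G := G) P ((km μ).prod Un)).real Set.univ = 1 := by simp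
  rw [h4, ← mul_assoc] at h3
  exact h3

end
end Pool.Agent.H21.And
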