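import Pool.Agent.H21.And15

/-!
# Random potentials which are nonpolar at some sites: hyperinvariant subspaces
-/

set_option autoImplicit false
set_option linter.unusedSectionVars false
open scoped ComplexConjugate InnerProductSpace Topology ENNReal
open Filter MeasureTheory

namespace Pool.Agent.H21.And
open Pool.Agent.H712R5.BO Pool.Agent.W611.RO Pool.Agent.TH322.AC Pool.Agent.TH315.LO
open Pool.Agent.H21.Smv Pool.Agent.H21.Fam

section
variable {G Ω H : Type} [Group G] [Countable G] [MeasurableSpace Ω] [MulAction G Ω]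
  [NormedAddCommGroup H] [InnerProductSpace ℂ H] [CompleteSpace H]
  {P : Measure Ω} [IsProbabilityMeasure P] {b : HilbertBasis G ℂ H}
  {L : G → unitary (H →L[ℂ] H)} {μ : Measure ℂ} [IsProbabilityMeasure μ]

theorem exists_low {α : Ω → ℂ} (hαm : Measurable α) (hα0 : ¬ ∀ᵐ ω ∂P, α ω = 0) :
    ∃ a₀ : ℝ, 0 < a₀ ∧ MeasurableSet {ω | a₀ ≤ ‖α ω‖} ∧ 0 < P.real {ω | a₀ ≤ ‖α ω‖} := by
  by_contra hcon
  push Not at hcon
  apply hα0
  have h1 : ∀ n : ℕ, ∀ᵐ ω ∂P, ¬ (1 / ((n:ℝ) + 1) ≤ ‖α ω‖) := by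
    intro n
    have hm : MeasurableSet {ω | 1 / ((n:ℝ) + 1) ≤ ‖α ω‖} :=
      measurableSet_le measurable_const hαm.norm
    have h2 := hcon (1 / ((n:ℝ) + 1)) (by positivity) hm
    have h3 : P.real {ω | 1 / ((n:ℝ) + 1) ≤ ‖α ω‖} = 0 := le_antisymm h2 measureReal_nonneg
    exact measure_eq_zero_iff_ae_notMem.1 ((measureReal_eq_zero_iff (measure_ne_top _ _)).1 h3)
  filter_upwards [ae_all_iff.2 h1] with ω hω
  by_contra hne
  obtain ⟨n, hn⟩ := exists_nat_one_div_lt (norm_pos_iff.2 hne)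
  exact hω n hn.le

/-- **random potentials which are nonpolar at some sites** -/
theorem hyp_A [Infinite G] (hL : Reg b L) (hE : Erg G P) (A W : CF (Ω := Ω) b L) {α : Ω → ℂ}
    (hαm : Measurable α) {Bα R : ℝ} (hR : 0 ≤ R) (hBα : 0 ≤ Bα) (hα : ∀ ω, ‖α ω‖ ≤ Bα)
    (hα0 : ¬ ∀ᵐ ω ∂P, α ω = 0) (hW : IsD b L α W) {S₀ : Set ℂ} (hS₀ : MeasurableSet S₀)
    (hS₀R : ∀ z ∈ S₀, ‖z‖ ≤ R) (hS₀μ : 0 < μ.real S₀) (hBP : BP (μ.restrict S₀))
    {T : CF (Ω := Env Ω G ℂ) b L} (hT : IsT b L A W R T) :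
    ∀ᵐ x ∂(PK (G := G) P μ), HasHyp (ev b L x T) := by
  classical
  have hP := hE.mp
  have hm0 := fun g => (hP g).measurable
  obtain ⟨a₀, ha₀, hSαm, hSαP⟩ := exists_low hαm hα0
  set Sα : Set Ω := {ω | a₀ ≤ ‖α ω‖} with hSα
  obtain ⟨C', hC'⟩ := hBP
  set Cμ : ℝ := max C' 0 with hCμ'
  have hCμ0 : 0 ≤ Cμ := le_max_right _ _
  have hCμ : ∀ t : ℂ, ∫⁻ s in S₀, ENNReal.ofReal (-Real.log ‖t - s‖) ∂μ ≤ ENNReal.ofReal Cμ :=
    fun t => (hC' t).trans (ENNReal.ofReal_le_ofReal (le_max_left _ _))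
  set p : ℝ := P.real Sα * μ.real S₀ with hp
  have hp0 : 0 < p := by positivity
  set τT := tau (PK (G := G) P μ) b L with hτT
  have hτ : TrSt τT := t_TR G (Env Ω G ℂ) H _ b L hL (env_mp hP)
  set c₀ : ℂ := τT T with hc₀
  set Cc : ℝ := ‖c₀‖ + 1 with hCc
  have hCc0 : 0 ≤ Cc := by positivity
  set K₀ : ℝ := Real.log (2 + 2 * (1 + (Bα * R + Cc)) ^ 2) + 2 * (|Real.log a₀| + Cμ) with hK₀
  have hK00 : 0 ≤ K₀ := by
    have : 0 ≤ Real.log (2 + 2 * (1 + (Bα * R + Cc)) ^ 2) :=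
      Real.log_nonneg (by nlinarith [sq_nonneg (1 + (Bα * R + Cc))])
    positivity
  set r : ℝ := Real.exp (-((K₀ + 2) / (2 * p))) with hr
  have hr0 : 0 < r := Real.exp_pos _
  have hr1 : r ≤ 1 := by
    rw [hr, Real.exp_le_one_iff, neg_nonpos]
    positivity
  have hlogr : Real.log r = -((K₀ + 2) / (2 * p)) := Real.log_exp _
  have hcb : ∀ ζ : Cir, ‖c₀ + r * ee ζ‖ ≤ Cc := by
    intro ζ
    refine (norm_add_le _ _).trans ?_
    rw [norm_mul, ee_norm, mul_one, Complex.norm_real, Real.norm_of_nonneg hr0.le]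
    linarith
  by_cases hcrit : ∃ ζ : Cir, ∀ δ : ℝ, 0 < δ →
      2 * (Real.log r + 1 / 2) ≤ uu τT δ (T - (c₀ + r * ee ζ) • 1)
  · obtain ⟨ζ, hζ⟩ := hcrit
    refine Pool.Agent.H21.Crit.det_hyp hL (erg_env hE) T (c₀ + r * ee ζ) (Real.log r + 1 / 2) ?_ hζ
    rw [← hτT, ← hc₀, sub_add_cancel_left, norm_neg, norm_mul, ee_norm, mul_one, Complex.norm_real,
      Real.norm_of_nonneg hr0.le, Real.exp_add, Real.exp_log hr0]
    have : (1:ℝ) < Real.exp (1 / 2) := Real.one_lt_exp_iff.2 (by norm_num)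
    nlinarith
  · exfalso
    push Not at hcrit
    -- compactness
    set U : ℕ → Set Cir := fun n =>
      {ζ | uu τT (1 / ((n:ℝ) + 1)) (T - (c₀ + r * ee ζ) • 1) < 2 * (Real.log r + 1 / 2)} with hU
    have hUo : ∀ n, IsOpen (U n) := by
      intro n
      refine isOpen_lt ?_ continuous_const
      refine (uu_cont τT (by positivity)).comp ?_
      have := ee_cont
      fun_prop
    have hUmono : Monotone U := by
      intro m n hmn ζ hζ
      have hmn' : (m:ℝ) ≤ n := Nat.cast_le.2 hmn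
      refine lt_of_le_of_lt (uu_mono τT hτ _ (by positivity) ?_) hζ
      gcongr
    obtain ⟨n, hn⟩ := isCompact_univ.elim_directed_cover U hUo (fun ζ _ => by
      obtain ⟨δ, hδ, h1⟩ := hcrit ζ
      obtain ⟨n, hn⟩ := exists_nat_one_div_lt hδ
      exact Set.mem_iUnion.2 ⟨n, lt_of_le_of_lt (uu_mono τT hτ _ (by positivity) hn.le) h1⟩)
      (directed_of_isDirected_le hUmono)
    set δ : ℝ := 1 / ((n:ℝ) + 1) with hδ'
    have hδ : 0 < δ := by positivity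
    have hup : ∀ ζ : Cir, uu τT δ (T - (c₀ + r * ee ζ) • 1) < 2 * (Real.log r + 1 / 2) :=
      fun ζ => hn (Set.mem_univ ζ)
    have hB0 : 0 ≤ max (Bα * R + Cc) 1 := le_max_of_le_right zero_le_one
    have hXX : ∀ ζ : Cir, ∃ X X' : CF (Ω := Env Ω G MM) b L,
        IsX b L A 1 (aA α R (c₀ + r * ee ζ)) (aA' α R Sα S₀ (c₀ + r * ee ζ)) ∅ X ∧
        IsX b L A 1 (aA α R (c₀ + r * ee ζ)) (aA' α R Sα S₀ (c₀ + r * ee ζ)) Set.univ X' := by
      intro ζ
      obtain ⟨X, hX, -⟩ := exists_X hL hm0 A 1 (aA_meas hαm R (c₀ + r * ee ζ))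
        (aA'_meas hαm R hSαm hS₀ (c₀ + r * ee ζ)) hB0
        (fun y => (aA_bd hR hBα hα (hcb ζ) y).trans (le_max_left _ _))
        (aA'_bd hR hBα hα (hcb ζ) Sα S₀) (MeasurableSet.empty (α := ℝ))
      obtain ⟨X', hX', -⟩ := exists_X hL hm0 A 1 (aA_meas hαm R (c₀ + r * ee ζ))
        (aA'_meas hαm R hSαm hS₀ (c₀ + r * ee ζ)) hB0
        (fun y => (aA_bd hR hBα hα (hcb ζ) y).trans (le_max_left _ _))
        (aA'_bd hR hBα hα (hcb ζ) Sα S₀) (MeasurableSet.univ (α := ℝ))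
      exact ⟨X, X', hX, hX'⟩
    choose X X' hX hX' using hXX
    have hcmp : ∀ ζ : Cir, FX P (km μ) b L δ (X' ζ) ≤ 2 * (Real.log r + 1 / 2) + K₀ := by
      intro ζ
      have h1 := comparison (P := P) (κ := km μ) hL hP (aA_meas hαm R (c₀ + r * ee ζ))
        (aA'_meas hαm R hSαm hS₀ (c₀ + r * ee ζ)) hB0
        (fun y => (aA_bd hR hBα hα (hcb ζ) y).trans (le_max_left _ _))
        (aA'_bd hR hBα hα (hcb ζ) Sα S₀) hK00
        (fun ω γ α' z hγ hα' => cmp_A hR hBα hα hCc0 ha₀ (fun ω hω => hω) hS₀ hS₀R hCμ0 hCμ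
          (hcb ζ) ω γ α' z hγ hα') hδ (hX ζ) (hX' ζ)
      have h2 : FX P (km μ) b L δ (X ζ) = uu τT δ (T - (c₀ + r * ee ζ) • 1) := by
        refine dt_pull (mk_mp (P := P) (G := G) (fst_fst_mp μ)) (T - (c₀ + r * ee ζ) • 1) (X ζ)
          (fun x => ?_) hδ
        refine op_ext (b := b) fun k => ?_
        rw [hX, pot_at, if_neg (Set.notMem_empty _), map_sub, map_smul, map_one, map_one]
        show ev b L x.1 A (b k) + aA α R (c₀ + r * ee ζ) (k⁻¹ • x.1, (x.2 k).1) • b k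
          = ev b L (mk (fun e : MM => e.1.1) x) T (b k) - (c₀ + r * ee ζ) • b k
        rw [hT]
        have e1 : (mk (fun e : MM => e.1.1) x : Env Ω G ℂ).1 = x.1 := rfl
        have e2 : (mk (fun e : MM => e.1.1) x : Env Ω G ℂ).2 k = (x.2 k).1.1 := rfl
        rw [e1, e2, hW, smul_smul, add_sub_assoc, ← sub_smul]
        congr 2
        unfold aA
        ring
      rw [h2] at h1
      have h3 := hup ζ
      linarith
    obtain ⟨hi, hlow⟩ := low_A (μ := μ) hL hP A hαm hR hBα hα hSαm hS₀ c₀ hr0 hδ hX'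
    have h4 : ∫ ζ, FX P (km μ) b L δ (X' ζ) ∂hm ≤ 2 * (Real.log r + 1 / 2) + K₀ := by
      calc ∫ ζ, FX P (km μ) b L δ (X' ζ) ∂hm
          ≤ ∫ _ : Cir, (2 * (Real.log r + 1 / 2) + K₀) ∂hm :=
            integral_mono hi (integrable_const _) hcmp
        _ = 2 * (Real.log r + 1 / 2) + K₀ := by simp
    have h5 : p * Real.log r = -((K₀ + 2) / 2) := by
      rw [hlogr]
      field_simp
    rw [← hp] at hlow
    nlinarith

end
end Pool.Agent.H21.And
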