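import Pool.Agent.H21.And16

/-!
# Random potentials: from fields to families of operators
-/

set_option autoImplicit false
set_option linter.unusedSectionVars false
open scoped ComplexConjugate InnerProductSpace Topology ENNReal
open Filter MeasureTheory

namespace Pool.Agent.H21.And
open Pool.Agent.H712R5.BO Pool.Agent.W611.RO Pool.Agent.TH322.AC Pool.Agent.TH315.LO
open Pool.Agent.H21.Smv Pool.Agent.H21.Fam

/-- a set which carries a part of bounded potential -/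
theorem exists_S {μ σ : Measure ℂ} [IsProbabilityMeasure μ] (hσμ : σ ≤ μ) (hσ0 : σ ≠ 0)
    (hσ : BP σ) {R : ℝ} (hR : ∀ᵐ z ∂μ, ‖z‖ ≤ R) :
    ∃ S₀ : Set ℂ, MeasurableSet S₀ ∧ (∀ z ∈ S₀, ‖z‖ ≤ R) ∧ 0 < μ.real S₀ ∧ BP (μ.restrict S₀) := by
  have hfin : IsFiniteMeasure σ := isFiniteMeasure_of_le μ hσμ
  have hac : σ ≪ μ := Measure.absolutelyContinuous_of_le hσμ
  set ρ := σ.rnDeriv μ with hρ
  have hρm : Measurable ρ := Measure.measurable_rnDeriv σ μ
  have hσρ : μ.withDensity ρ = σ := Measure.withDensity_rnDeriv_eq σ μ hac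
  set S : ℕ → Set ℂ := fun n => {z | ((n:ℝ≥0∞) + 1)⁻¹ ≤ ρ z ∧ ‖z‖ ≤ R} with hS
  have hSm : ∀ n, MeasurableSet (S n) := fun n =>
    (measurableSet_le measurable_const hρm).inter (measurableSet_le measurable_norm measurable_const)
  obtain ⟨n, hn⟩ : ∃ n, μ (S n) ≠ 0 := by
    by_contra hcon
    push Not at hcon
    apply hσ0
    have h1 : ∀ n, ∀ᵐ z ∂μ, z ∉ S n := fun n => measure_eq_zero_iff_ae_notMem.1 (hcon n)
    have h2 : ρ =ᵐ[μ] 0 := by
      filter_upwards [ae_all_iff.2 h1, hR] with z hz hzR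
      by_contra hne
      have hne' : ρ z ≠ 0 := hne
      obtain ⟨n, hn⟩ := ENNReal.exists_inv_nat_lt hne'
      refine hz n ⟨?_, hzR⟩
      refine le_trans ?_ hn.le
      rw [ENNReal.inv_le_inv]
      exact le_self_add
    rw [← hσρ, withDensity_congr_ae h2, withDensity_zero]
  refine ⟨S n, hSm n, fun z hz => hz.2, ?_, ?_⟩
  · exact ENNReal.toReal_pos hn (measure_ne_top _ _)
  · obtain ⟨C, hC⟩ := hσ
    refine ⟨((n:ℝ) + 1) * |C|, fun t => ?_⟩
    set f : ℂ → ℝ≥0∞ := fun s => ENNReal.ofReal (-Real.log ‖t - s‖) with hf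
    have hfm : Measurable f := by fun_prop
    have hn1 : ((n:ℝ≥0∞) + 1) ≠ 0 := by positivity
    have hn2 : ((n:ℝ≥0∞) + 1) ≠ ∞ := by finiteness
    calc ∫⁻ s in S n, f s ∂μ ≤ ∫⁻ s in S n, ((n:ℝ≥0∞) + 1) * (ρ s * f s) ∂μ := by
          refine setLIntegral_mono' (hSm n) fun s hs => ?_
          rw [← mul_assoc]
          refine le_mul_of_one_le_left bot_le ?_
          calc (1:ℝ≥0∞) = ((n:ℝ≥0∞) + 1) * ((n:ℝ≥0∞) + 1)⁻¹ := (ENNReal.mul_inv_cancel hn1 hn2).symm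
            _ ≤ ((n:ℝ≥0∞) + 1) * ρ s := by gcongr; exact hs.1
      _ ≤ ∫⁻ s, ((n:ℝ≥0∞) + 1) * (ρ s * f s) ∂μ := setLIntegral_le_lintegral _ _
      _ = ((n:ℝ≥0∞) + 1) * ∫⁻ s, ρ s * f s ∂μ := lintegral_const_mul _ (hρm.mul hfm)
      _ = ((n:ℝ≥0∞) + 1) * ∫⁻ s, f s ∂σ := by
          rw [← hσρ, lintegral_withDensity_eq_lintegral_mul _ hρm hfm]
          rfl
      _ ≤ ((n:ℝ≥0∞) + 1) * ENNReal.ofReal |C| := by
          gcongr
          exact (hC t).trans (ENNReal.ofReal_le_ofReal (le_abs_self C))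
      _ = ENNReal.ofReal (((n:ℝ) + 1) * |C|) := by
          rw [ENNReal.ofReal_mul (by positivity)]
          congr 1
          rw [ENNReal.ofReal_add (by positivity) zero_le_one, ENNReal.ofReal_natCast,
            ENNReal.ofReal_one]

section
variable {G Ω : Type} [Group G] [Countable G] [MeasurableSpace Ω] [MulAction G Ω]
  {P : Measure Ω} [IsProbabilityMeasure P] {μ : Measure ℂ} [IsProbabilityMeasure μ]
  {L : G → unitary (L2 G →L[ℂ] L2 G)}

/-- covariant families as fields -/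
theorem exists_field (hL : Reg (stb G) L) (A : Ω → (L2 G →L[ℂ] L2 G)) {C : ℝ}
    (hC : ∀ ω, ‖A ω‖ ≤ C)
    (hm : ∀ u v : G, Measurable fun ω => ⟪stb G u, A ω (stb G v)⟫_ℂ)
    (hcov : ∀ (g u v : G) (ω : Ω), ⟪stb G (g * u), A (g • ω) (stb G (g * v))⟫_ℂ
      = ⟪stb G u, A ω (stb G v)⟫_ℂ) :
    ∃ S : CF (Ω := Ω) (stb G) L, ∀ ω, ev (stb G) L ω S = A ω := by
  refine exists_CF (stb G) L A C hC (fun i y => ?_) (fun g ω => ?_)
  · have h1 : ∀ ω, ⟪stb G i, A ω y⟫_ℂ = ∑' k, ⟪stb G i, A ω (stb G k)⟫_ℂ * ⟪stb G k, y⟫_ℂ :=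
      fun ω => inner_tsum (stb G) (A ω) i y
    simp_rw [h1]
    exact Measurable.tsum fun k => (hm i k).mul_const _
  · refine op_ext (b := stb G) fun k => ?_
    show A (g • ω) ((L g : L2 G →L[ℂ] L2 G) (stb G k)) = (L g : L2 G →L[ℂ] L2 G) (A ω (stb G k))
    rw [hL]
    refine (stb G).repr.injective (lp.ext (funext fun u => ?_))
    rw [(stb G).repr_apply_apply, (stb G).repr_apply_apply, inner_L (stb G) L hL]
    have h1 := hcov g (g⁻¹ * u) k ω
    rw [mul_inv_cancel_left] at h1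
    exact h1

/-- the marks are bounded -/
theorem ae_marks {R : ℝ} (hR : ∀ᵐ z ∂μ, ‖z‖ ≤ R) :
    ∀ᵐ x ∂(PK (G := G) P μ), ∀ v : G, ‖x.2 v‖ ≤ R := by
  rw [ae_all_iff]
  intro v
  have h1 : MeasurePreserving (fun x : Env Ω G ℂ => x.2 v) (PK P μ) μ :=
    (measurePreserving_eval_infinitePi (fun _ : G => μ) v).comp
      (measurePreserving_snd (μ := P) (ν := Measure.infinitePi fun _ : G => μ))
  exact h1.quasiMeasurePreserving.ae hR

end
end Pool.Agent.H21.And
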