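import Pool.Agent.H21.And1

/-!
# Jensen's inequality for the logarithm of a positive operator
-/

set_option autoImplicit false
set_option linter.unusedSectionVars false
open scoped ComplexConjugate InnerProductSpace Topology
open Filter MeasureTheory

namespace Pool.Agent.H21.And
open Pool.Agent.H712R5.BO Pool.Agent.W611.RO Pool.Agent.TH322.AC Pool.Agent.TH315.LO

section
variable {A : Type} [CStarAlgebra A]

theorem log_inv' {a b : A} (ha : SP a) (hab : a * b = 1) : SP b ∧ CFC.log b = - CFC.log a := by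
  let _ : NormedAlgebra ℚ A := NormedAlgebra.restrictScalars ℚ ℂ A
  obtain ⟨h1, h2⟩ := ha.exp
  have h3 : star (-CFC.log a) = -CFC.log a := by rw [star_neg, h2]
  have h4 : Ex (CFC.log a) * Ex (-CFC.log a) = 1 := by
    unfold Ex
    rw [← NormedSpace.exp_add_of_commute (Commute.neg_right rfl), add_neg_cancel, NormedSpace.exp_zero]
  have h5 : b = Ex (-CFC.log a) := by
    rw [h1] at h4
    generalize Ex (-CFC.log a) = Z at h4
    obtain ⟨u, hu⟩ := ha.unit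
    rw [← hu] at hab h4
    have e1 : b = ↑u⁻¹ := by
      rw [← mul_one (↑u⁻¹ : A), ← hab, Units.inv_mul_cancel_left]
    have e2 : Z = ↑u⁻¹ := by
      rw [← mul_one (↑u⁻¹ : A), ← h4, Units.inv_mul_cancel_left]
    rw [e1, e2]
  constructor
  · rw [h5]
    exact SP.Ex _ h3
  · rw [h5, log_Ex _ h3]

theorem SP.map {B : Type} [CStarAlgebra B] (φ : A →⋆ₐ[ℂ] B) {a : A} (h : SP a) : SP (φ a) := by
  obtain ⟨W, hW, rfl⟩ := h
  exact ⟨φ W, hW.map φ, by rw [map_mul, map_star]⟩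

theorem norm_R {δ : ℝ} {X P Q Y K : A} (h : Blk δ X P Q Y K) : ‖Rr Y K‖ ≤ 1 := by
  let := CStarAlgebra.spectralOrder A
  have := CStarAlgebra.spectralOrderedRing A
  have h1 : star (Rr Y K) * Rr Y K ≤ Rr Y K := by
    conv_rhs => rw [h.RR]
    have h2 : (0 : A) ≤ algebraMap ℝ A δ * (star (K * star Y) * (K * star Y)) := by
      rw [Algebra.algebraMap_eq_smul_one, smul_mul_assoc, one_mul]
      exact smul_nonneg h.pos.le (star_mul_self_nonneg _)
    exact le_add_of_nonneg_right h2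
  have h3 := CStarAlgebra.norm_le_norm_of_nonneg_of_le (star_mul_self_nonneg (Rr Y K)) h1
  rw [CStarRing.norm_star_mul_self] at h3
  by_contra hcon
  push Not at hcon
  nlinarith

theorem norm_inv_reg {δ : ℝ} (hδ : 0 < δ) {X G : A} (hG : (algebraMap ℝ A δ + star X * X) * G = 1) :
    ‖G‖ ≤ δ⁻¹ := by
  let := CStarAlgebra.spectralOrder A
  have := CStarAlgebra.spectralOrderedRing A
  obtain ⟨hG', -⟩ := log_inv' (SP.reg X hδ) hG
  obtain ⟨W, -, hWs, hWW, -, hcom⟩ := hG'.root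
  have h1 : Commute (algebraMap ℝ A δ + star X * X) G := by
    obtain ⟨u, hu⟩ := (SP.reg X hδ).unit
    rw [← hu] at hG ⊢
    have e1 : G = ↑u⁻¹ := by
      rw [← mul_one (↑u⁻¹ : A), ← hG, Units.inv_mul_cancel_left]
    rw [e1]
    show (↑u : A) * ↑u⁻¹ = ↑u⁻¹ * ↑u
    rw [u.inv_mul, u.mul_inv]
  have h2 := hcom _ h1
  have h3 : δ • G + star (X * W) * (X * W) = 1 := by
    have e1 : star (X * W) * (X * W) = W * (star X * X) * W := by
      rw [star_mul, hWs]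
      simp only [mul_assoc]
    have e2 : δ • G = W * algebraMap ℝ A δ * W := by
      rw [← Algebra.commutes, mul_assoc, hWW, Algebra.smul_def]
    rw [e1, e2, ← add_mul, ← mul_add, ← h2.eq, mul_assoc, hWW, hG]
  have h4 : δ • G ≤ 1 := by
    rw [← h3]
    exact le_add_of_nonneg_right (star_mul_self_nonneg _)
  have h5 : (0:A) ≤ δ • G := smul_nonneg hδ.le hG'.pos.nonneg
  have h6 := CStarAlgebra.norm_le_norm_of_nonneg_of_le h5 h4
  have h7 : ‖(1:A)‖ ≤ 1 := by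
    rcases subsingleton_or_nontrivial A with hs | hs
    · rw [Subsingleton.elim (1:A) 0, norm_zero]
      exact zero_le_one
    · exact CStarRing.norm_one.le
  rw [norm_smul, Real.norm_of_nonneg hδ.le] at h6
  rw [← one_div, le_div_iff₀ hδ]
  linarith

end

section
variable {H : Type} [NormedAddCommGroup H] [InnerProductSpace ℂ H] [CompleteSpace H]

theorem SP.inner_pos {T : H →L[ℂ] H} (h : SP T) {v : H} (hv : v ≠ 0) : 0 < (⟪v, T v⟫_ℂ).re := by
  obtain ⟨W, hW, rfl⟩ := h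
  have h1 : ⟪v, (star W * W) v⟫_ℂ = ((‖W v‖ : ℂ)) ^ 2 := by
    show ⟪v, (star W) (W v)⟫_ℂ = _
    rw [ContinuousLinearMap.star_eq_adjoint, ContinuousLinearMap.adjoint_inner_right,
      inner_self_eq_norm_sq_to_K]
    rfl
  have h2 : W v ≠ 0 := by
    intro h0
    apply hv
    obtain ⟨u, rfl⟩ := hW
    have := congrArg (↑u⁻¹ : H →L[ℂ] H) h0
    rw [map_zero] at this
    have e : (↑u⁻¹ : H →L[ℂ] H) ((↑u : H →L[ℂ] H) v) = ((↑u⁻¹ : H →L[ℂ] H) * (↑u : H →L[ℂ] H)) v := rfl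
    rwa [e, u.inv_mul] at this
  rw [h1, ← Complex.ofReal_pow, Complex.ofReal_re]
  exact pow_pos (norm_pos_iff.2 h2) 2

/-- Jensen's inequality -/
theorem jensen {T : H →L[ℂ] H} (h : SP T) {v : H} (hv : ‖v‖ = 1) :
    (⟪v, CFC.log T v⟫_ℂ).re ≤ Real.log (⟪v, T v⟫_ℂ).re := by
  have hv0 : v ≠ 0 := by
    rintro rfl
    rw [norm_zero] at hv
    exact zero_ne_one hv
  set s := (⟪v, T v⟫_ℂ).re with hs
  have hs0 : 0 < s := h.inner_pos hv0
  have hsa : IsSelfAdjoint T := h.sa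
  obtain ⟨c, hc, hsp⟩ := spec_unit h
  have hle : cfc Real.log T ≤ cfc (fun x : ℝ => (Real.log s - 1) + s⁻¹ * x) T := by
    refine cfc_mono (fun x hx => ?_) ?_ ?_
    · have hx0 : 0 < x := hc.trans_le (hsp hx)
      have h1 := Real.log_le_sub_one_of_pos (div_pos hx0 hs0)
      rw [Real.log_div hx0.ne' hs0.ne'] at h1
      rw [inv_mul_eq_div]
      linarith
    · exact continuousOn_id.log fun x hx => (hc.trans_le (hsp hx)).ne'
    · fun_prop
  have e1 : cfc (fun x : ℝ => (Real.log s - 1) + s⁻¹ * x) T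
      = algebraMap ℝ (H →L[ℂ] H) (Real.log s - 1) + s⁻¹ • T := by
    rw [cfc_const_add (Real.log s - 1) (fun x => s⁻¹ * x) T (by fun_prop) hsa,
      cfc_const_mul s⁻¹ (fun x => x) T (by fun_prop), cfc_id' ℝ T hsa]
  rw [e1] at hle
  have h2 := ContinuousLinearMap.le_def _ _ |>.1 hle
  have h3 := h2.re_inner_nonneg_right v
  rw [_root_.sub_apply, _root_.add_apply, inner_sub_right, inner_add_right] at h3
  have h4 : ⟪v, (algebraMap ℝ (H →L[ℂ] H) (Real.log s - 1)) v⟫_ℂ = ((Real.log s - 1 : ℝ) : ℂ) := by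
    rw [Algebra.algebraMap_eq_smul_one]
    show ⟪v, (Real.log s - 1) • v⟫_ℂ = _
    rw [inner_smul_right_eq_smul, inner_self_eq_norm_sq_to_K, hv]
    simp
  have h5 : ⟪v, (s⁻¹ • T) v⟫_ℂ = s⁻¹ • ⟪v, T v⟫_ℂ := by
    show ⟪v, s⁻¹ • (T v)⟫_ℂ = _
    rw [inner_smul_right_eq_smul]
  rw [h4, h5] at h3
  have h6 : RCLike.re (((Real.log s - 1 : ℝ) : ℂ) + s⁻¹ • ⟪v, T v⟫_ℂ - ⟪v, (cfc Real.log T) v⟫_ℂ)
      = Real.log s - 1 + s⁻¹ * s - (⟪v, CFC.log T v⟫_ℂ).re := by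
    show (((Real.log s - 1 : ℝ) : ℂ) + s⁻¹ • ⟪v, T v⟫_ℂ - ⟪v, (cfc Real.log T) v⟫_ℂ).re = _
    rw [Complex.sub_re, Complex.add_re, Complex.ofReal_re, Complex.smul_re, smul_eq_mul]
    rfl
  rw [h6, inv_mul_cancel₀ hs0.ne'] at h3
  linarith

theorem ilow {V T : H →L[ℂ] H} (hV : SP V) (hVT : V * T = 1) {v : H} (hv : ‖v‖ = 1) :
    - Real.log (⟪v, T v⟫_ℂ).re ≤ (⟪v, CFC.log V v⟫_ℂ).re := by
  obtain ⟨h1, h2⟩ := log_inv' hV hVT
  have h3 := jensen h1 hv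
  rw [h2] at h3
  have h4 : ⟪v, (-CFC.log V) v⟫_ℂ = -⟪v, CFC.log V v⟫_ℂ := by
    show ⟪v, -(CFC.log V v)⟫_ℂ = _
    rw [inner_neg_right]
  rw [h4, Complex.neg_re] at h3
  linarith

theorem sq_root {V W : H →L[ℂ] H} (hWs : star W = W) (hWW : W * W = V) (x y : H) :
    ⟪W x, W y⟫_ℂ = ⟪x, V y⟫_ℂ := by
  rw [← hWW]
  show _ = ⟪x, W (W y)⟫_ℂ
  conv_rhs => rw [← hWs, ContinuousLinearMap.star_eq_adjoint,
    ContinuousLinearMap.adjoint_inner_right, ← ContinuousLinearMap.star_eq_adjoint, hWs]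

/-- a bound for the error in Jensen's inequality -/
theorem ilow2 {V T : H →L[ℂ] H} (hV : SP V) (hVT : V * T = 1) {v : H} (hv : ‖v‖ = 1) {C : ℝ}
    (hC : ‖V‖ ≤ C) :
    Real.log (⟪v, V v⟫_ℂ).re - C ^ 2 * ‖T v - (((⟪v, T v⟫_ℂ).re : ℝ) : ℂ) • v‖ ^ 2
      ≤ - Real.log (⟪v, T v⟫_ℂ).re := by
  have hv0 : v ≠ 0 := by
    rintro rfl
    rw [norm_zero] at hv
    exact zero_ne_one hv
  obtain ⟨hT, -⟩ := log_inv' hV hVT
  obtain ⟨W, -, hWs, hWW, -, -⟩ := hV.root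
  set u := T v with hu
  have hVu : V u = v := by
    have := congrArg (fun Z : H →L[ℂ] H => Z v) hVT
    exact this
  set a := (⟪v, u⟫_ℂ).re with ha
  set β := (⟪v, V v⟫_ℂ).re with hβ
  have hβ0 : 0 < β := hV.inner_pos hv0
  have ha0 : 0 < a := hT.inner_pos hv0
  have h1 : ‖W u‖ ^ 2 = a := by
    have e1 := sq_root hWs hWW u u
    rw [hVu] at e1
    have e2 := congrArg Complex.re e1
    rw [← inner_conj_symm u v, Complex.conj_re] at e2
    rw [ha, ← e2]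
    exact (inner_self_eq_norm_sq (𝕜 := ℂ) (W u)).symm
  have h2 : ‖W v‖ ^ 2 = β := by
    have e1 := sq_root hWs hWW v v
    rw [hβ, ← e1]
    exact (inner_self_eq_norm_sq (𝕜 := ℂ) (W v)).symm
  have h3 : ⟪W v, W u⟫_ℂ = 1 := by
    rw [sq_root hWs hWW, hVu, inner_self_eq_norm_sq_to_K, hv]
    norm_num
  have h4 : (1:ℝ) ≤ a * β := by
    have e1 := norm_inner_le_norm (𝕜 := ℂ) (W v) (W u)
    rw [h3, norm_one] at e1
    have e2 : (1:ℝ) ≤ (‖W v‖ * ‖W u‖) ^ 2 := by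
      nlinarith
    rw [mul_pow, h1, h2, mul_comm] at e2
    exact e2
  have hβC : β ≤ C := by
    have e1 : β ≤ ‖⟪v, V v⟫_ℂ‖ := Complex.re_le_norm _
    have e2 := norm_inner_le_norm (𝕜 := ℂ) v (V v)
    have e3 := V.le_opNorm v
    rw [hv, one_mul] at e2
    rw [hv, mul_one] at e3
    linarith
  have hC0 : 0 < C := hβ0.trans_le hβC
  set r := u - (a : ℂ) • v with hr
  have h5 : ‖W r‖ ^ 2 = a * (a * β - 1) := by
    have e1 : W r = W u - (a : ℂ) • W v := by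
      rw [hr, map_sub, map_smul]
    rw [e1, @norm_sub_sq ℂ, norm_smul, mul_pow, h1, h2, inner_smul_right]
    have e2 : ⟪W u, W v⟫_ℂ = 1 := by
      rw [← inner_conj_symm, h3, map_one]
    rw [e2, mul_one]
    have e3 : RCLike.re (a : ℂ) = a := Complex.ofReal_re a
    rw [e3, Complex.norm_real, Real.norm_of_nonneg ha0.le]
    ring
  have h6 : ‖W r‖ ^ 2 ≤ C * ‖r‖ ^ 2 := by
    have e1 := sq_root hWs hWW r r
    have e2 : ‖W r‖ ^ 2 = (⟪r, V r⟫_ℂ).re := by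
      rw [← e1]
      exact (inner_self_eq_norm_sq (𝕜 := ℂ) (W r)).symm
    rw [e2]
    calc (⟪r, V r⟫_ℂ).re ≤ ‖⟪r, V r⟫_ℂ‖ := Complex.re_le_norm _
      _ ≤ ‖r‖ * ‖V r‖ := norm_inner_le_norm _ _
      _ ≤ ‖r‖ * (C * ‖r‖) := by
          gcongr
          exact (V.le_opNorm r).trans (by gcongr)
      _ = C * ‖r‖ ^ 2 := by ring
  have h7 : a * β - 1 ≤ C ^ 2 * ‖r‖ ^ 2 := by
    have e1 : a * β ≤ a * C := by gcongr
    have e2 : (1:ℝ) ≤ a * C := h4.trans e1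
    have e3 : 0 ≤ a * β - 1 := by linarith
    calc a * β - 1 ≤ (a * C) * (a * β - 1) := by nlinarith
      _ = C * (a * (a * β - 1)) := by ring
      _ = C * ‖W r‖ ^ 2 := by rw [h5]
      _ ≤ C * (C * ‖r‖ ^ 2) := by gcongr
      _ = C ^ 2 * ‖r‖ ^ 2 := by ring
  have h8 := Real.log_le_sub_one_of_pos (mul_pos ha0 hβ0)
  rw [Real.log_mul ha0.ne' hβ0.ne'] at h8
  linarith

end
end Pool.Agent.H21.And
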