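import Pool.Agent.H21.And2

/-!
# Changing a covariant field on a sparse set of sites
-/

set_option autoImplicit false
set_option linter.unusedSectionVars false
open scoped ComplexConjugate InnerProductSpace Topology
open Filter MeasureTheory

namespace Pool.Agent.H21.And
open Pool.Agent.H712R5.BO Pool.Agent.W611.RO Pool.Agent.TH322.AC Pool.Agent.TH315.LO

theorem map_log' {A B : Type} [CStarAlgebra A] [CStarAlgebra B] (φ : A →⋆ₐ[ℂ] B)
    (hφ : Continuous φ) {a : A} (ha : SP a) : φ (CFC.log a) = CFC.log (φ a) := by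
  let _ : NormedAlgebra ℚ A := NormedAlgebra.restrictScalars ℚ ℂ A
  let _ : NormedAlgebra ℚ B := NormedAlgebra.restrictScalars ℚ ℂ B
  obtain ⟨h1, h2⟩ := ha.exp
  have h3 : φ a = Ex (φ (CFC.log a)) := by
    conv_lhs => rw [← h1]
    exact NormedSpace.map_exp φ hφ _
  rw [h3, log_Ex _ (by rw [← map_star, h2])]

section
variable {G Ω H : Type} [Group G] [Countable G] [MeasurableSpace Ω] [MulAction G Ω]
  [NormedAddCommGroup H] [InnerProductSpace ℂ H] [CompleteSpace H]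
  {P : Measure Ω} [IsProbabilityMeasure P] {b : HilbertBasis G ℂ H}
  {L : G → unitary (H →L[ℂ] H)}

theorem ev_cont (ω : Ω) : Continuous (ev b L ω) := by
  have h1 : ∀ x, ‖ev b L ω x‖ ≤ 1 * ‖x‖ := fun x => by
    rw [one_mul]; exact ev_norm b L ω x
  exact AddMonoidHomClass.continuous_of_bound (ev b L ω) 1 h1

theorem int_re (a : CF (Ω := Ω) b L) : Integrable (fun ω => (⟪b 1, ev b L ω a (b 1)⟫_ℂ).re) P ∧
    (tau P b L a).re = ∫ ω, (⟪b 1, ev b L ω a (b 1)⟫_ℂ).re ∂P := by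
  have h1 := ev_int P b L a (b 1) (b 1)
  refine ⟨h1.re, ?_⟩
  rw [tau_apply]
  exact (Complex.reCLM.integral_comp_comm h1).symm

theorem dt_tau {a : CF (Ω := Ω) b L} (ha : SP a) :
    Integrable (fun ω => (⟪b 1, CFC.log (ev b L ω a) (b 1)⟫_ℂ).re) P ∧
    dt (tau P b L) a = ∫ ω, (⟪b 1, CFC.log (ev b L ω a) (b 1)⟫_ℂ).re ∂P := by
  have h1 := int_re (P := P) (CFC.log a)
  have h2 : ∀ ω, ev b L ω (CFC.log a) = CFC.log (ev b L ω a) := fun ω =>
    map_log' (ev b L ω) (ev_cont ω) ha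
  simp_rw [h2] at h1
  exact h1

open Classical in
/-- the projection onto the sites `k` with `k⁻¹ ω ∈ W` -/
def IsPr (b : HilbertBasis G ℂ H) (L : G → unitary (H →L[ℂ] H)) (W : Set Ω)
    (p : CF (Ω := Ω) b L) : Prop :=
  ∀ (ω : Ω) (k : G), ev b L ω p (b k) = if k⁻¹ • ω ∈ W then b k else 0

theorem IsPr.mem {W : Set Ω} {p : CF (Ω := Ω) b L} (h : IsPr b L W p) {ω : Ω} (hω : ω ∈ W) :
    ev b L ω p (b 1) = b 1 := by
  rw [h ω 1, inv_one, one_smul, if_pos hω]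

theorem IsPr.not_mem {W : Set Ω} {p : CF (Ω := Ω) b L} (h : IsPr b L W p) {ω : Ω} (hω : ω ∉ W) :
    ev b L ω p (b 1) = 0 := by
  rw [h ω 1, inv_one, one_smul, if_neg hω]

/-- `δ + ⟨X b₁, R X b₁⟩` -/
noncomputable def sf (b : HilbertBasis G ℂ H) (L : G → unitary (H →L[ℂ] H)) (δ : ℝ)
    (X R : CF (Ω := Ω) b L) (ω : Ω) : ℝ :=
  δ + (⟪ev b L ω X (b 1), ev b L ω R (ev b L ω X (b 1))⟫_ℂ).re

theorem sf_eq (δ : ℝ) (X R : CF (Ω := Ω) b L) (ω : Ω) :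
    sf b L δ X R ω = δ + (⟪b 1, ev b L ω (star X * R * X) (b 1)⟫_ℂ).re := by
  unfold sf
  rw [map_mul, map_mul, map_star]
  show _ = δ + (⟪b 1, (star (ev b L ω X)) ((ev b L ω R) ((ev b L ω X) (b 1)))⟫_ℂ).re
  rw [ContinuousLinearMap.star_eq_adjoint, ContinuousLinearMap.adjoint_inner_right]

theorem sf_meas (δ : ℝ) (X R : CF (Ω := Ω) b L) : Measurable (sf b L δ X R) := by
  have h1 : sf b L δ X R = fun ω => δ + (⟪b 1, ev b L ω (star X * R * X) (b 1)⟫_ℂ).re := by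
    funext ω
    exact sf_eq δ X R ω
  rw [h1]
  exact measurable_const.add (Complex.measurable_re.comp (ev_meas b L _ _ _))

theorem sf_le {δ : ℝ} (X R : CF (Ω := Ω) b L) (hR : ‖R‖ ≤ 1) (ω : Ω) :
    sf b L δ X R ω ≤ δ + ‖X‖ ^ 2 := by
  unfold sf
  have h1 : ‖ev b L ω X (b 1)‖ ≤ ‖X‖ := by
    refine ((ev b L ω X).le_opNorm _).trans ?_
    rw [b.orthonormal.1 1, mul_one]
    exact ev_norm b L ω X
  have h2 : ‖ev b L ω R (ev b L ω X (b 1))‖ ≤ ‖X‖ := by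
    refine ((ev b L ω R).le_opNorm _).trans ?_
    have := ev_norm b L ω R
    calc ‖ev b L ω R‖ * ‖ev b L ω X (b 1)‖ ≤ 1 * ‖X‖ := by
          gcongr
          exact this.trans hR
      _ = ‖X‖ := one_mul _
  have h3 := Complex.re_le_norm (⟪ev b L ω X (b 1), ev b L ω R (ev b L ω X (b 1))⟫_ℂ)
  have h4 := norm_inner_le_norm (𝕜 := ℂ) (ev b L ω X (b 1)) (ev b L ω R (ev b L ω X (b 1)))
  have h5 : ‖ev b L ω X (b 1)‖ * ‖ev b L ω R (ev b L ω X (b 1))‖ ≤ ‖X‖ * ‖X‖ := by gcongr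
  nlinarith

theorem sf_ge {δ : ℝ} {X X' Pj Q Y K : CF (Ω := Ω) b L} (h : Blk δ X Pj Q Y K) (ω : Ω) :
    δ ≤ sf b L δ X' (Rr Y K) ω := by
  unfold sf
  set x := ev b L ω X' (b 1)
  have h1 : 0 ≤ (⟪x, ev b L ω (Rr Y K) x⟫_ℂ).re := by
    rw [h.RR, map_add, map_mul, map_mul, map_mul, map_star, map_star]
    have e0 : ev b L ω (algebraMap ℝ (CF (Ω := Ω) b L) δ) = (δ : ℂ) • (1 : H →L[ℂ] H) := by
      have : algebraMap ℝ (CF (Ω := Ω) b L) δ = (δ : ℂ) • (1 : CF (Ω := Ω) b L) := by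
        rw [Algebra.algebraMap_eq_smul_one, Complex.coe_smul]
      rw [this, map_smul, map_one]
    rw [e0, smul_mul_assoc, one_mul]
    show 0 ≤ (⟪x, (star (ev b L ω (Rr Y K))) ((ev b L ω (Rr Y K)) x)
      + (δ : ℂ) • (star (ev b L ω (K * star Y))) ((ev b L ω (K * star Y)) x)⟫_ℂ).re
    rw [inner_add_right, inner_smul_right, ContinuousLinearMap.star_eq_adjoint,
      ContinuousLinearMap.star_eq_adjoint,
      ContinuousLinearMap.adjoint_inner_right, ContinuousLinearMap.adjoint_inner_right,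
      inner_self_eq_norm_sq_to_K, inner_self_eq_norm_sq_to_K]
    have e1 : (((‖ev b L ω (Rr Y K) x‖ : ℂ)) ^ 2 + (δ : ℂ) * ((‖ev b L ω (K * star Y) x‖ : ℂ)) ^ 2).re
        = ‖ev b L ω (Rr Y K) x‖ ^ 2 + δ * ‖ev b L ω (K * star Y) x‖ ^ 2 := by
      rw [← Complex.ofReal_pow, ← Complex.ofReal_pow, ← Complex.ofReal_mul, ← Complex.ofReal_add,
        Complex.ofReal_re]
    have h2 := h.pos
    refine le_of_le_of_eq ?_ e1.symm
    positivity
  linarith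

theorem inner_sa {p : H →L[ℂ] H} (hp : star p = p) (x y : H) : ⟪x, p y⟫_ℂ = ⟪p x, y⟫_ℂ := by
  conv_lhs => rw [← hp, ContinuousLinearMap.star_eq_adjoint,
    ContinuousLinearMap.adjoint_inner_right]

theorem ev_alg (δ : ℝ) (ω : Ω) : ev b L ω (algebraMap ℝ (CF (Ω := Ω) b L) δ)
    = (δ : ℂ) • (1 : H →L[ℂ] H) := by
  have : algebraMap ℝ (CF (Ω := Ω) b L) δ = (δ : ℂ) • (1 : CF (Ω := Ω) b L) := by
    rw [Algebra.algebraMap_eq_smul_one, Complex.coe_smul]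
  rw [this, map_smul, map_one]

section blk
variable {δ : ℝ} {X Pj Q Y K : CF (Ω := Ω) b L} (h : Blk δ X Pj Q Y K) {W : Set Ω}
  (hPr : IsPr b L W Pj)
include h hPr

theorem Q_in {ω : Ω} (hω : ω ∈ W) : ev b L ω Q (b 1) = 0 := by
  rw [h.hQ, map_sub, map_one]
  show b 1 - ev b L ω Pj (b 1) = 0
  rw [hPr.mem hω, sub_self]

theorem Q_out {ω : Ω} (hω : ω ∉ W) : ev b L ω Q (b 1) = b 1 := by
  rw [h.hQ, map_sub, map_one]
  show b 1 - ev b L ω Pj (b 1) = b 1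
  rw [hPr.not_mem hω, sub_zero]

theorem V_in {ω : Ω} (hω : ω ∈ W) :
    (⟪b 1, ev b L ω (Vv δ X Pj Q Y K) (b 1)⟫_ℂ).re = sf b L δ X (Rr Y K) ω := by
  have hps : star (ev b L ω Pj) = ev b L ω Pj := by rw [← map_star, h.sa]
  unfold Vv
  rw [map_add, map_mul, map_mul]
  show (⟪b 1, ev b L ω Pj ((ev b L ω (algebraMap ℝ (CF (Ω := Ω) b L) δ + star X * Rr Y K * X))
    (ev b L ω Pj (b 1))) + ev b L ω Q (b 1)⟫_ℂ).re = _
  rw [Q_in h hPr hω, add_zero, inner_sa hps, hPr.mem hω, map_add, ev_alg, sf_eq]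
  show (⟪b 1, (δ : ℂ) • b 1 + _⟫_ℂ).re = _
  rw [inner_add_right, inner_smul_right, inner_self_eq_norm_sq_to_K, b.orthonormal.1 1,
    Complex.add_re]
  congr 1
  simp

theorem V_out {ω : Ω} (hω : ω ∉ W) : ev b L ω (Vv δ X Pj Q Y K) (b 1) = b 1 := by
  unfold Vv
  rw [map_add, map_mul, map_mul]
  show ev b L ω Pj ((ev b L ω (algebraMap ℝ (CF (Ω := Ω) b L) δ + star X * Rr Y K * X))
    (ev b L ω Pj (b 1))) + ev b L ω Q (b 1) = _
  rw [Q_out h hPr hω, hPr.not_mem hω, map_zero, map_zero, zero_add]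

theorem H_in {G' : CF (Ω := Ω) b L} {ω : Ω} (hω : ω ∈ W) :
    ev b L ω (Pj * G' * Pj + Q) (b 1) = ev b L ω Pj (ev b L ω G' (b 1)) := by
  rw [map_add, map_mul, map_mul]
  show ev b L ω Pj ((ev b L ω G') (ev b L ω Pj (b 1))) + ev b L ω Q (b 1) = _
  rw [Q_in h hPr hω, hPr.mem hω, add_zero]

theorem H_out {G' : CF (Ω := Ω) b L} {ω : Ω} (hω : ω ∉ W) :
    ev b L ω (Pj * G' * Pj + Q) (b 1) = b 1 := by
  rw [map_add, map_mul, map_mul]
  show ev b L ω Pj ((ev b L ω G') (ev b L ω Pj (b 1))) + ev b L ω Q (b 1) = _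
  rw [Q_out h hPr hω, hPr.not_mem hω, map_zero, map_zero, zero_add]

/-- upper bound -/
theorem log_V_le (ω : Ω) : (⟪b 1, CFC.log (ev b L ω (Vv δ X Pj Q Y K)) (b 1)⟫_ℂ).re
    ≤ W.indicator (fun ω => Real.log (sf b L δ X (Rr Y K) ω)) ω := by
  have h1 := jensen (h.spV.map (ev b L ω)) (b.orthonormal.1 1)
  by_cases hω : ω ∈ W
  · rw [V_in h hPr hω] at h1
    rwa [Set.indicator_of_mem hω]
  · rw [V_out h hPr hω, inner_self_eq_norm_sq_to_K, b.orthonormal.1 1] at h1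
    rw [Set.indicator_of_notMem hω]
    simpa using h1

/-- the inner products with the basis -/
theorem inner_P (G' : H) (ω : Ω) (k : G) [Decidable (k⁻¹ • ω ∈ W)] :
    ⟪b k, ev b L ω Pj G'⟫_ℂ = if k⁻¹ • ω ∈ W then ⟪b k, G'⟫_ℂ else 0 := by
  have hps : star (ev b L ω Pj) = ev b L ω Pj := by rw [← map_star, h.sa]
  rw [inner_sa hps, hPr ω k]
  split_ifs with h1
  · rfl
  · rw [inner_zero_left]

end blk

theorem parseval (r : H) : HasSum (fun k => ‖⟪b k, r⟫_ℂ‖ ^ 2) (‖r‖ ^ 2) := by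
  have h1 := Complex.reCLM.hasSum (b.hasSum_inner_mul_inner r r)
  have e1 : Complex.reCLM ⟪r, r⟫_ℂ = ‖r‖ ^ 2 := inner_self_eq_norm_sq (𝕜 := ℂ) r
  rw [e1] at h1
  convert h1 using 1
  funext k
  show _ = (⟪r, b k⟫_ℂ * ⟪b k, r⟫_ℂ).re
  rw [← inner_conj_symm r (b k), ← Complex.normSq_eq_conj_mul_self, Complex.ofReal_re,
    Complex.normSq_eq_norm_sq]

open Classical in
/-- the off-diagonal entries of `G` at the sites of `W` -/
noncomputable def off (b : HilbertBasis G ℂ H) (L : G → unitary (H →L[ℂ] H)) (W : Set Ω)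
    (G' : CF (Ω := Ω) b L) (ω : Ω) (k : G) : ℝ :=
  if k ≠ 1 ∧ k⁻¹ • ω ∈ W then ‖⟪b k, ev b L ω G' (b 1)⟫_ℂ‖ ^ 2 else 0

theorem off_nonneg (W : Set Ω) (G' : CF (Ω := Ω) b L) (ω : Ω) (k : G) :
    0 ≤ off b L W G' ω k := by
  unfold off
  split_ifs
  · positivity
  · exact le_rfl

theorem off_le (W : Set Ω) (G' : CF (Ω := Ω) b L) (ω : Ω) (k : G) :
    off b L W G' ω k ≤ ‖⟪b k, ev b L ω G' (b 1)⟫_ℂ‖ ^ 2 := by
  unfold off
  split_ifs
  · exact le_rfl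
  · positivity

section blk
variable {δ : ℝ} {X Pj Q Y K : CF (Ω := Ω) b L} (h : Blk δ X Pj Q Y K) {W : Set Ω}
  (hPr : IsPr b L W Pj)
include h hPr

/-- the square of the off-diagonal part -/
theorem r_sq {G' : CF (Ω := Ω) b L} (hG' : star G' = G') {ω : Ω} (hω : ω ∈ W) :
    HasSum (fun k : G => off b L W G' ω k)
    (‖ev b L ω (Pj * G' * Pj + Q) (b 1)
      - (((⟪b 1, ev b L ω (Pj * G' * Pj + Q) (b 1)⟫_ℂ).re : ℝ) : ℂ) • b 1‖ ^ 2) := by
  classical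
  rw [H_in h hPr hω]
  have h1 := parseval (b := b) (ev b L ω Pj (ev b L ω G' (b 1))
    - (((⟪b 1, ev b L ω Pj (ev b L ω G' (b 1))⟫_ℂ).re : ℝ) : ℂ) • b 1)
  convert h1 using 1
  funext k
  have hgs : star (ev b L ω G') = ev b L ω G' := by rw [← map_star, hG']
  rw [inner_sub_right, inner_smul_right, inner_P h hPr, inner_P h hPr]
  have h11 : (1 : G)⁻¹ • ω ∈ W := by rwa [inv_one, one_smul]
  rw [if_pos h11]
  unfold off
  by_cases hk : k = 1
  · subst hk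
    rw [if_neg (fun hh => hh.1 rfl), if_pos h11, inner_self_eq_norm_sq_to_K, b.orthonormal.1 1]
    have e1 : conj (⟪b 1, ev b L ω G' (b 1)⟫_ℂ) = ⟪b 1, ev b L ω G' (b 1)⟫_ℂ := by
      rw [inner_conj_symm, inner_sa hgs]
    rw [Complex.conj_eq_iff_re.1 e1]
    simp
  · have h2 : ⟪b k, b 1⟫_ℂ = 0 := b.orthonormal.2 hk
    rw [h2, mul_zero, sub_zero]
    by_cases hW : k⁻¹ • ω ∈ W
    · rw [if_pos ⟨hk, hW⟩, if_pos hW]
    · rw [if_neg (fun hh => hW hh.2), if_neg hW, norm_zero]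
      norm_num

/-- lower bound -/
theorem le_log_V {G' : CF (Ω := Ω) b L} (hG : (algebraMap ℝ (CF (Ω := Ω) b L) δ + star X * X) * G' = 1)
    {C : ℝ} (hC : ‖Vv δ X Pj Q Y K‖ ≤ C) (ω : Ω) :
    W.indicator (fun ω => Real.log (sf b L δ X (Rr Y K) ω) - C ^ 2 * ∑' k : G, off b L W G' ω k) ω
      ≤ (⟪b 1, CFC.log (ev b L ω (Vv δ X Pj Q Y K)) (b 1)⟫_ℂ).re := by
  have hVH := congrArg (ev b L ω) (h.VH hG)
  rw [map_mul, map_one] at hVH
  have h1 := ilow (h.spV.map (ev b L ω)) hVH (b.orthonormal.1 1)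
  refine le_trans ?_ h1
  by_cases hω : ω ∈ W
  · rw [Set.indicator_of_mem hω]
    have hGs : star G' = G' := (log_inv' (SP.reg X h.pos) hG).1.sa
    rw [← V_in h hPr hω, (r_sq h hPr hGs hω).tsum_eq]
    exact ilow2 (h.spV.map (ev b L ω)) hVH (b.orthonormal.1 1) ((ev_norm b L ω _).trans hC)
  · rw [Set.indicator_of_notMem hω, H_out h hPr hω, inner_self_eq_norm_sq_to_K,
      b.orthonormal.1 1]
    simp

/-- rough lower bound -/
theorem le_log_V' {G' : CF (Ω := Ω) b L} (hG : (algebraMap ℝ (CF (Ω := Ω) b L) δ + star X * X) * G' = 1)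
    (ω : Ω) : W.indicator (fun _ => Real.log δ) ω
      ≤ (⟪b 1, CFC.log (ev b L ω (Vv δ X Pj Q Y K)) (b 1)⟫_ℂ).re := by
  have hVH := congrArg (ev b L ω) (h.VH hG)
  rw [map_mul, map_one] at hVH
  have h1 := ilow (h.spV.map (ev b L ω)) hVH (b.orthonormal.1 1)
  refine le_trans ?_ h1
  have hb0 : b 1 ≠ 0 := b.orthonormal.ne_zero 1
  by_cases hω : ω ∈ W
  · rw [Set.indicator_of_mem hω, H_in h hPr hω]
    have hps : star (ev b L ω Pj) = ev b L ω Pj := by rw [← map_star, h.sa]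
    rw [inner_sa hps, hPr.mem hω]
    have hGs := (log_inv' (SP.reg X h.pos) hG).1
    have h2 : 0 < (⟪b 1, ev b L ω G' (b 1)⟫_ℂ).re := (hGs.map (ev b L ω)).inner_pos hb0
    have h3 : (⟪b 1, ev b L ω G' (b 1)⟫_ℂ).re ≤ δ⁻¹ := by
      have e1 := ev_inner_le b L G' (b 1) (b 1) ω
      rw [b.orthonormal.1 1, one_mul, one_mul] at e1
      exact (Complex.re_le_norm _).trans (e1.trans (norm_inv_reg h.pos hG))
    have h4 := Real.log_le_log h2 h3
    rw [Real.log_inv] at h4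
    linarith
  · rw [Set.indicator_of_notMem hω, H_out h hPr hω, inner_self_eq_norm_sq_to_K,
      b.orthonormal.1 1]
    simp

end blk

end
end Pool.Agent.H21.And
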