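import Pool.Agent.H21.And3

/-!
# Changing a covariant field on a sparse set of sites: the integrated inequalities
-/

set_option autoImplicit false
set_option linter.unusedSectionVars false
open scoped ComplexConjugate InnerProductSpace Topology
open Filter MeasureTheory

namespace Pool.Agent.H21.And
open Pool.Agent.H712R5.BO Pool.Agent.W611.RO Pool.Agent.TH322.AC Pool.Agent.TH315.LO

section
variable {A : Type} [CStarAlgebra A]

theorem norm_one_le : ‖(1:A)‖ ≤ 1 := by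
  rcases subsingleton_or_nontrivial A with hs | hs
  · rw [Subsingleton.elim (1:A) 0, norm_zero]
    exact zero_le_one
  · exact CStarRing.norm_one.le

theorem norm_alg_le {c : ℝ} (hc : 0 ≤ c) : ‖algebraMap ℝ A c‖ ≤ c := by
  rw [Algebra.algebraMap_eq_smul_one, norm_smul, Real.norm_of_nonneg hc]
  exact mul_le_of_le_one_right hc norm_one_le

theorem norm_proj {p : A} (h1 : star p = p) (h2 : p * p = p) : ‖p‖ ≤ 1 := by
  have h3 := CStarRing.norm_star_mul_self (x := p)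
  rw [h1, h2] at h3
  by_contra hcon
  push Not at hcon
  nlinarith

theorem norm_V {δ : ℝ} {X P Q Y K : A} (h : Blk δ X P Q Y K) :
    ‖Vv δ X P Q Y K‖ ≤ δ + ‖X‖ ^ 2 + 1 := by
  unfold Vv
  have hP := norm_proj h.sa h.idem
  have hQ := norm_proj h.sQ h.QQ
  have hR := norm_R h
  have hX := norm_nonneg X
  have h0 : ‖star X * Rr Y K * X‖ ≤ ‖X‖ ^ 2 := by
    calc ‖star X * Rr Y K * X‖ ≤ ‖star X‖ * ‖Rr Y K‖ * ‖X‖ :=
          (norm_mul_le _ _).trans (by gcongr; exact norm_mul_le _ _)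
      _ ≤ ‖X‖ * 1 * ‖X‖ := by
          rw [norm_star]
          gcongr
      _ = ‖X‖ ^ 2 := by ring
  have h1 : ‖algebraMap ℝ A δ + star X * Rr Y K * X‖ ≤ δ + ‖X‖ ^ 2 :=
    (norm_add_le _ _).trans (add_le_add (norm_alg_le h.pos.le) h0)
  have h2 : ‖P * (algebraMap ℝ A δ + star X * Rr Y K * X) * P‖ ≤ δ + ‖X‖ ^ 2 := by
    have hδ := h.pos
    calc ‖P * (algebraMap ℝ A δ + star X * Rr Y K * X) * P‖
        ≤ ‖P‖ * ‖algebraMap ℝ A δ + star X * Rr Y K * X‖ * ‖P‖ :=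
          (norm_mul_le _ _).trans (by gcongr; exact norm_mul_le _ _)
      _ ≤ 1 * (δ + ‖X‖ ^ 2) * 1 := by gcongr
      _ = δ + ‖X‖ ^ 2 := by ring
  exact (norm_add_le _ _).trans (add_le_add h2 hQ)

end

section
variable {G Ω H : Type} [Group G] [Countable G] [MeasurableSpace Ω] [MulAction G Ω]
  [NormedAddCommGroup H] [InnerProductSpace ℂ H] [CompleteSpace H]
  {P : Measure Ω} [IsProbabilityMeasure P] {b : HilbertBasis G ℂ H}
  {L : G → unitary (H →L[ℂ] H)}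

theorem off_meas (hm : ∀ g : G, Measurable fun ω : Ω => g • ω) {W : Set Ω} (hW : MeasurableSet W)
    (G' : CF (Ω := Ω) b L) (k : G) : Measurable fun ω => off b L W G' ω k := by
  classical
  unfold off
  by_cases hk : k = 1
  · have : (fun ω => if k ≠ 1 ∧ k⁻¹ • ω ∈ W then ‖⟪b k, ev b L ω G' (b 1)⟫_ℂ‖ ^ 2 else 0)
        = fun _ => 0 := by
      funext ω
      rw [if_neg (fun hh => hh.1 hk)]
    rw [this]
    exact measurable_const
  · refine Measurable.ite ?_ ?_ measurable_const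
    · have : {ω | k ≠ 1 ∧ k⁻¹ • ω ∈ W} = (fun ω : Ω => k⁻¹ • ω) ⁻¹' W := by
        ext ω
        exact ⟨fun h => h.2, fun h => ⟨hk, h⟩⟩
      rw [this]
      exact hm k⁻¹ hW
    · exact ((ev_meas b L G' _ _).norm).pow_const 2

theorem entry_sum_le (G' : CF (Ω := Ω) b L) (ω : Ω) :
    HasSum (fun k => ‖⟪b k, ev b L ω G' (b 1)⟫_ℂ‖ ^ 2) (‖ev b L ω G' (b 1)‖ ^ 2) ∧
    ‖ev b L ω G' (b 1)‖ ^ 2 ≤ ‖G'‖ ^ 2 := by
  refine ⟨parseval _, ?_⟩
  have h1 : ‖ev b L ω G' (b 1)‖ ≤ ‖G'‖ := by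
    refine ((ev b L ω G').le_opNorm _).trans ?_
    rw [b.orthonormal.1 1, mul_one]
    exact ev_norm b L ω G'
  gcongr

theorem entry_le (G' : CF (Ω := Ω) b L) (ω : Ω) (k : G) :
    ‖⟪b k, ev b L ω G' (b 1)⟫_ℂ‖ ^ 2 ≤ ‖G'‖ ^ 2 := by
  obtain ⟨h1, h2⟩ := entry_sum_le G' ω
  exact (le_hasSum h1 k fun j _ => by positivity).trans h2

theorem entry_int (G' : CF (Ω := Ω) b L) (k : G) :
    Integrable (fun ω => ‖⟪b k, ev b L ω G' (b 1)⟫_ℂ‖ ^ 2) P :=
  Integrable.of_bound ((ev_meas b L G' _ _).norm.pow_const 2).aestronglyMeasurable (‖G'‖ ^ 2)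
    (Eventually.of_forall fun ω => by
      rw [Real.norm_of_nonneg (by positivity)]
      exact entry_le G' ω k)

theorem entry_summable (G' : CF (Ω := Ω) b L) :
    Summable (fun k => ∫ ω, ‖⟪b k, ev b L ω G' (b 1)⟫_ℂ‖ ^ 2 ∂P) ∧
    ∑' k, ∫ ω, ‖⟪b k, ev b L ω G' (b 1)⟫_ℂ‖ ^ 2 ∂P ≤ ‖G'‖ ^ 2 := by
  have hnn : ∀ k, 0 ≤ ∫ ω, ‖⟪b k, ev b L ω G' (b 1)⟫_ℂ‖ ^ 2 ∂P := fun k =>
    integral_nonneg fun ω => by positivity
  have hfin : ∀ s : Finset G, ∑ k ∈ s, ∫ ω, ‖⟪b k, ev b L ω G' (b 1)⟫_ℂ‖ ^ 2 ∂P ≤ ‖G'‖ ^ 2 := by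
    intro s
    rw [← integral_finsetSum s fun k _ => entry_int G' k]
    have h1 : ∀ ω, ∑ k ∈ s, ‖⟪b k, ev b L ω G' (b 1)⟫_ℂ‖ ^ 2 ≤ ‖G'‖ ^ 2 := by
      intro ω
      obtain ⟨h2, h3⟩ := entry_sum_le G' ω
      exact (sum_le_hasSum s (fun j _ => by positivity) h2).trans h3
    calc ∫ ω, ∑ k ∈ s, ‖⟪b k, ev b L ω G' (b 1)⟫_ℂ‖ ^ 2 ∂P ≤ ∫ _, ‖G'‖ ^ 2 ∂P := by
          refine integral_mono (integrable_finsetSum s fun k _ => entry_int G' k)
            (integrable_const _) h1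
      _ = ‖G'‖ ^ 2 := by simp
  have hs := summable_of_sum_le hnn hfin
  exact ⟨hs, hs.tsum_le_of_sum_le hfin⟩

/-- the contribution of the off-diagonal entries -/
theorem off_int (hm : ∀ g : G, Measurable fun ω : Ω => g • ω) {W : Set Ω} (hW : MeasurableSet W)
    (G' : CF (Ω := Ω) b L) {c : ℝ} (hx : ∀ k : G, k ≠ 1 → ∫ ω in W, off b L W G' ω k ∂P
      ≤ c * ∫ ω, ‖⟪b k, ev b L ω G' (b 1)⟫_ℂ‖ ^ 2 ∂P) (hc : 0 ≤ c) :
    Integrable (fun ω => ∑' k, off b L W G' ω k) (P.restrict W) ∧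
    ∫ ω in W, ∑' k, off b L W G' ω k ∂P ≤ c * ‖G'‖ ^ 2 := by
  have hmeas := fun k => off_meas hm hW G' k (b := b)
  have hsum : ∀ ω, Summable fun k => off b L W G' ω k := fun ω =>
    Summable.of_nonneg_of_le (off_nonneg W G' ω) (off_le W G' ω) (entry_sum_le G' ω).1.summable
  have hint : ∀ k, Integrable (fun ω => off b L W G' ω k) (P.restrict W) := by
    intro k
    refine Integrable.of_bound (hmeas k).aestronglyMeasurable (‖G'‖ ^ 2)
      (Eventually.of_forall fun ω => ?_)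
    rw [Real.norm_of_nonneg (off_nonneg W G' ω k)]
    exact (off_le W G' ω k).trans (entry_le G' ω k)
  obtain ⟨h1, h2⟩ := entry_summable (P := P) G'
  have hx' : ∀ k : G, ∫ ω in W, off b L W G' ω k ∂P
      ≤ c * ∫ ω, ‖⟪b k, ev b L ω G' (b 1)⟫_ℂ‖ ^ 2 ∂P := by
    intro k
    by_cases hk : k = 1
    · have : ∀ ω, off b L W G' ω k = 0 := fun ω => by
        unfold off
        rw [if_neg (fun hh => hh.1 hk)]
      simp_rw [this]
      rw [integral_zero]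
      exact mul_nonneg hc (integral_nonneg fun ω => by positivity)
    · exact hx k hk
  have hnorm : ∀ k, ∫ ω in W, ‖off b L W G' ω k‖ ∂P = ∫ ω in W, off b L W G' ω k ∂P := by
    intro k
    refine integral_congr_ae (Eventually.of_forall fun ω => ?_)
    exact Real.norm_of_nonneg (off_nonneg W G' ω k)
  have hs2 : Summable fun k => ∫ ω in W, ‖off b L W G' ω k‖ ∂P := by
    simp_rw [hnorm]
    exact Summable.of_nonneg_of_le (fun k => integral_nonneg fun ω => off_nonneg W G' ω k)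
      hx' (h1.mul_left c)
  have h3 := hasSum_integral_of_summable_integral_norm hint hs2
  constructor
  · refine Integrable.of_bound (Measurable.aestronglyMeasurable (Measurable.tsum hmeas))
      (‖G'‖ ^ 2) (Eventually.of_forall fun ω => ?_)
    rw [Real.norm_of_nonneg (tsum_nonneg (off_nonneg W G' ω))]
    obtain ⟨h4, h5⟩ := entry_sum_le G' ω
    exact ((hsum ω).tsum_le_tsum (off_le W G' ω) h4.summable).trans (h4.tsum_eq.le.trans h5)
  · rw [← h3.tsum_eq]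
    calc ∑' k, ∫ ω in W, off b L W G' ω k ∂P
        ≤ ∑' k, c * ∫ ω, ‖⟪b k, ev b L ω G' (b 1)⟫_ℂ‖ ^ 2 ∂P :=
          h3.summable.tsum_le_tsum hx' (h1.mul_left c)
      _ = c * ∑' k, ∫ ω, ‖⟪b k, ev b L ω G' (b 1)⟫_ℂ‖ ^ 2 ∂P := tsum_mul_left
      _ ≤ c * ‖G'‖ ^ 2 := by gcongr

theorem sf_int {δ : ℝ} {X X' Pj Q Y K : CF (Ω := Ω) b L} (h : Blk δ X Pj Q Y K)
    (μ : Measure Ω) [IsFiniteMeasure μ] :
    Integrable (fun ω => Real.log (sf b L δ X' (Rr Y K) ω)) μ := by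
  refine Integrable.of_bound (Real.measurable_log.comp (sf_meas δ X' (Rr Y K))).aestronglyMeasurable
    (max |Real.log δ| |Real.log (δ + ‖X'‖ ^ 2)|) (Eventually.of_forall fun ω => ?_)
  have h1 := sf_ge (X' := X') h ω
  have h2 := sf_le (δ := δ) X' (Rr Y K) (norm_R h) ω
  have h0 := h.pos
  exact abs_le_max_abs_abs (Real.log_le_log h0 h1) (Real.log_le_log (h0.trans_le h1) h2)

/-- **changing a field on a sparse set of sites** -/
theorem step {δ : ℝ} {X X' Pj Q Y K G' : CF (Ω := Ω) b L} (hτ : TrSt (tau P b L))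
    (hm : ∀ g : G, Measurable fun ω : Ω => g • ω)
    (h : Blk δ X Pj Q Y K) (h' : Blk δ X' Pj Q Y K) {W : Set Ω} (hW : MeasurableSet W)
    (hPr : IsPr b L W Pj) (hG : (algebraMap ℝ (CF (Ω := Ω) b L) δ + star X * X) * G' = 1)
    {c : ℝ} (hc : 0 ≤ c) (hx : ∀ k : G, k ≠ 1 → ∫ ω in W, off b L W G' ω k ∂P
      ≤ c * ∫ ω, ‖⟪b k, ev b L ω G' (b 1)⟫_ℂ‖ ^ 2 ∂P) :
    dt (tau P b L) (algebraMap ℝ (CF (Ω := Ω) b L) δ + star X' * X')
      ≤ dt (tau P b L) (algebraMap ℝ (CF (Ω := Ω) b L) δ + star X * X)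
      + (∫ ω in W, (Real.log (sf b L δ X' (Rr Y K) ω) - Real.log (sf b L δ X (Rr Y K) ω)) ∂P)
      + (δ + ‖X‖ ^ 2 + 1) ^ 2 * (c * (δ⁻¹) ^ 2) := by
  obtain ⟨hi1, hi2⟩ := off_int hm hW G' hx hc
  have e1 := h.dt_eq _ hτ
  have e2 := h'.dt_eq _ hτ
  obtain ⟨i1, d1⟩ := dt_tau (P := P) h.spV
  obtain ⟨i2, d2⟩ := dt_tau (P := P) h'.spV
  have hint := fun X'' : CF (Ω := Ω) b L => sf_int (X' := X'') h P
  have u1 : dt (tau P b L) (Vv δ X' Pj Q Y K)
      ≤ ∫ ω in W, Real.log (sf b L δ X' (Rr Y K) ω) ∂P := by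
    rw [d2, ← integral_indicator hW]
    exact integral_mono i2 ((hint X').indicator hW) fun ω => log_V_le h' hPr ω
  have l1 : (∫ ω in W, Real.log (sf b L δ X (Rr Y K) ω) ∂P)
      - (δ + ‖X‖ ^ 2 + 1) ^ 2 * ∫ ω in W, ∑' k, off b L W G' ω k ∂P
      ≤ dt (tau P b L) (Vv δ X Pj Q Y K) := by
    rw [d1, ← integral_const_mul, ← integral_sub (hint X).restrict (hi1.const_mul _),
      ← integral_indicator hW]
    have hii : Integrable (fun ω => Real.log (sf b L δ X (Rr Y K) ω)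
        - (δ + ‖X‖ ^ 2 + 1) ^ 2 * ∑' k, off b L W G' ω k) (P.restrict W) :=
      (hint X).restrict.sub (hi1.const_mul _)
    exact integral_mono ((integrable_indicator_iff hW).2 hii) i1
      fun ω => le_log_V h hPr hG (norm_V h) ω
  have hGn : c * ‖G'‖ ^ 2 ≤ c * (δ⁻¹) ^ 2 := by
    have := norm_inv_reg h.pos hG
    gcongr
  rw [integral_sub (hint X').restrict (hint X).restrict, e1, e2]
  have hC0 : 0 ≤ (δ + ‖X‖ ^ 2 + 1) ^ 2 := by positivity
  have := mul_le_mul_of_nonneg_left (hi2.trans hGn) hC0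
  linarith

/-- rough form -/
theorem rough {δ : ℝ} {X X' Pj Q Y K G' : CF (Ω := Ω) b L} (hτ : TrSt (tau P b L))
    (h : Blk δ X Pj Q Y K) (h' : Blk δ X' Pj Q Y K) {W : Set Ω} (hW : MeasurableSet W)
    (hPr : IsPr b L W Pj) (hG : (algebraMap ℝ (CF (Ω := Ω) b L) δ + star X * X) * G' = 1) :
    dt (tau P b L) (algebraMap ℝ (CF (Ω := Ω) b L) δ + star X' * X')
      ≤ dt (tau P b L) (algebraMap ℝ (CF (Ω := Ω) b L) δ + star X * X)
      + P.real W * (Real.log (δ + ‖X'‖ ^ 2) - Real.log δ) := by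
  have e1 := h.dt_eq _ hτ
  have e2 := h'.dt_eq _ hτ
  obtain ⟨i1, d1⟩ := dt_tau (P := P) h.spV
  obtain ⟨i2, d2⟩ := dt_tau (P := P) h'.spV
  have u1 : dt (tau P b L) (Vv δ X' Pj Q Y K)
      ≤ P.real W * Real.log (δ + ‖X'‖ ^ 2) := by
    have e3 : P.real W * Real.log (δ + ‖X'‖ ^ 2)
        = ∫ ω, W.indicator (fun _ => Real.log (δ + ‖X'‖ ^ 2)) ω ∂P := by
      rw [integral_indicator hW, setIntegral_const, smul_eq_mul]
    rw [d2, e3]
    refine integral_mono i2 ((integrable_const _).indicator hW) fun ω =>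
      (log_V_le h' hPr ω).trans ?_
    refine Set.indicator_le_indicator ?_
    exact Real.log_le_log (h.pos.trans_le (sf_ge h ω)) (sf_le X' _ (norm_R h) ω)
  have l1 : P.real W * Real.log δ ≤ dt (tau P b L) (Vv δ X Pj Q Y K) := by
    have e3 : P.real W * Real.log δ = ∫ ω, W.indicator (fun _ => Real.log δ) ω ∂P := by
      rw [integral_indicator hW, setIntegral_const, smul_eq_mul]
    rw [d1, e3]
    exact integral_mono ((integrable_const _).indicator hW) i1 fun ω => le_log_V' h hPr hG ω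
  rw [e1, e2]
  linarith

end
end Pool.Agent.H21.And
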