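import Pool.Graph.R_seed8.TH315.LO.Fin

/-!
# Independent marks over an ergodic action
-/

set_option autoImplicit false
set_option linter.unusedSectionVars false
open scoped ComplexConjugate InnerProductSpace Topology
open Filter MeasureTheory ProbabilityTheory

namespace Pool.Agent.H21.And
open Pool.Agent.W611.RO

/-- the points of `Ω` with a mark in `E` at every element of `G` -/
def Env (Ω G E : Type) : Type := Ω × (G → E)

section
variable {Ω G E : Type} [Group G] [MeasurableSpace Ω] [MulAction G Ω] [MeasurableSpace E]

instance : MeasurableSpace (Env Ω G E) := inferInstanceAs (MeasurableSpace (Ω × (G → E)))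

/-- the shift of the marks -/
def sh (g : G) (m : G → E) : G → E := fun k => m (g⁻¹ * k)

instance : MulAction G (Env Ω G E) where
  smul g x := (g • x.1, sh g x.2)
  one_smul x := by
    refine Prod.ext (one_smul G x.1) (funext fun k => ?_)
    show x.2 (1⁻¹ * k) = x.2 k
    rw [inv_one, one_mul]
  mul_smul g h x := by
    refine Prod.ext (mul_smul g h x.1) (funext fun k => ?_)
    show x.2 ((g * h)⁻¹ * k) = x.2 (h⁻¹ * (g⁻¹ * k))
    rw [mul_inv_rev, mul_assoc]

theorem smul_env (g : G) (x : Env Ω G E) : g • x = (g • x.1, sh g x.2) := rfl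

/-- the marks are independent with law `κ` -/
noncomputable def PK (P : Measure Ω) (κ : Measure E) [IsProbabilityMeasure κ] :
    Measure (Env Ω G E) := P.prod (Measure.infinitePi fun _ : G => κ)

variable {P : Measure Ω} [IsProbabilityMeasure P] {κ : Measure E} [IsProbabilityMeasure κ]

instance : IsProbabilityMeasure (PK (G := G) P κ) :=
  inferInstanceAs (IsProbabilityMeasure (P.prod (Measure.infinitePi fun _ : G => κ)))

theorem sh_meas (g : G) : Measurable (sh g : (G → E) → (G → E)) := by
  rw [measurable_pi_iff]
  intro k
  exact measurable_pi_apply (g⁻¹ * k)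

theorem sh_mp (g : G) : MeasurePreserving (sh g : (G → E) → (G → E))
    (Measure.infinitePi fun _ : G => κ) (Measure.infinitePi fun _ : G => κ) := by
  classical
  refine ⟨sh_meas g, ?_⟩
  refine Measure.eq_infinitePi _ fun s t ht => ?_
  rw [Measure.map_apply (sh_meas g) (.pi s.countable_toSet fun _ _ => ht _)]
  have h1 : (sh g : (G → E) → (G → E)) ⁻¹' ((s : Set G).pi t)
      = ((s.image fun k => g⁻¹ * k : Finset G) : Set G).pi (fun k => t (g * k)) := by
    ext m
    simp only [Set.mem_preimage, Set.mem_pi, Finset.mem_coe, Finset.mem_image,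
      forall_exists_index, and_imp, forall_apply_eq_imp_iff₂, sh, mul_inv_cancel_left]
  rw [h1, Measure.infinitePi_pi _ fun k _ => ht _, Finset.prod_image]
  · refine Finset.prod_congr rfl fun k _ => ?_
    rw [mul_inv_cancel_left]
  · intro x _ y _ hxy
    exact mul_left_cancel hxy

theorem env_mp (hP : ∀ g : G, MeasurePreserving (fun ω : Ω => g • ω) P P) (g : G) :
    MeasurePreserving (fun x : Env Ω G E => g • x) (PK P κ) (PK P κ) :=
  (hP g).prod (sh_mp g)

open Classical in
/-- resampling the mark at `k` -/
noncomputable def rs (k : G) (x : (Env Ω G E) × E) : Env Ω G E :=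
  (x.1.1, Function.update x.1.2 k x.2)

theorem rs_meas (k : G) : Measurable (rs k : (Env Ω G E) × E → Env Ω G E) := by
  classical
  refine Measurable.prodMk (measurable_fst.comp measurable_fst) ?_
  rw [measurable_pi_iff]
  intro j
  by_cases hj : j = k
  · subst hj
    have : (fun x : (Env Ω G E) × E => (rs j x).2 j) = fun x => x.2 := by
      funext x
      show Function.update x.1.2 j x.2 j = x.2
      rw [Function.update_self]
    show Measurable (fun x : (Env Ω G E) × E => (rs j x).2 j)
    rw [this]
    exact measurable_snd
  · have : (fun x : (Env Ω G E) × E => (rs k x).2 j) = fun x => x.1.2 j := by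
      funext x
      show Function.update x.1.2 k x.2 j = x.1.2 j
      rw [Function.update_of_ne hj]
    show Measurable (fun x : (Env Ω G E) × E => (rs k x).2 j)
    rw [this]
    exact (measurable_pi_apply j).comp (measurable_snd.comp measurable_fst)

open Classical in
theorem upd_mp (k : G) : MeasurePreserving (fun x : (G → E) × E => Function.update x.1 k x.2)
    ((Measure.infinitePi fun _ : G => κ).prod κ) (Measure.infinitePi fun _ : G => κ) := by
  have hm : Measurable (fun x : (G → E) × E => Function.update x.1 k x.2) := by
    rw [measurable_pi_iff]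
    intro j
    by_cases hj : j = k
    · subst hj
      simp only [Function.update_self]
      exact measurable_snd
    · simp only [Function.update_of_ne hj]
      exact (measurable_pi_apply j).comp measurable_fst
  refine ⟨hm, ?_⟩
  refine Measure.eq_infinitePi _ fun s t ht => ?_
  rw [Measure.map_apply hm (.pi s.countable_toSet fun _ _ => ht _)]
  by_cases hk : k ∈ s
  · have h1 : (fun x : (G → E) × E => Function.update x.1 k x.2) ⁻¹' ((s : Set G).pi t)
        = (((s.erase k : Finset G) : Set G).pi t) ×ˢ (t k) := by
      ext ⟨m, e⟩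
      simp only [Set.mem_preimage, Set.mem_pi, Finset.mem_coe, Set.mem_prod, Finset.mem_erase]
      constructor
      · intro h
        refine ⟨fun i hi => ?_, ?_⟩
        · have := h i hi.2
          rwa [Function.update_of_ne hi.1] at this
        · have := h k hk
          rwa [Function.update_self] at this
      · rintro ⟨h1, h2⟩ i hi
        by_cases hik : i = k
        · subst hik
          rwa [Function.update_self]
        · rw [Function.update_of_ne hik]
          exact h1 i ⟨hik, hi⟩
    rw [h1, Measure.prod_prod, Measure.infinitePi_pi _ fun k _ => ht _, mul_comm,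
      ← Finset.mul_prod_erase s _ hk]
  · have h1 : (fun x : (G → E) × E => Function.update x.1 k x.2) ⁻¹' ((s : Set G).pi t)
        = ((s : Set G).pi t) ×ˢ Set.univ := by
      ext ⟨m, e⟩
      simp only [Set.mem_preimage, Set.mem_pi, Finset.mem_coe, Set.mem_prod, Set.mem_univ, and_true]
      refine forall₂_congr fun i hi => ?_
      have hik : i ≠ k := fun h => hk (h ▸ hi)
      rw [Function.update_of_ne hik]
    rw [h1, Measure.prod_prod, Measure.infinitePi_pi _ fun k _ => ht _, measure_univ, mul_one]

theorem rs_mp (k : G) : MeasurePreserving (rs k : (Env Ω G E) × E → Env Ω G E)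
    ((PK P κ).prod κ) (PK P κ) := by
  classical
  have h1 : MeasurePreserving (MeasurableEquiv.prodAssoc : (Ω × (G → E)) × E ≃ᵐ Ω × ((G → E) × E))
      ((P.prod (Measure.infinitePi fun _ : G => κ)).prod κ)
      (P.prod ((Measure.infinitePi fun _ : G => κ).prod κ)) :=
    measurePreserving_prodAssoc _ _ _
  have h2 := (MeasurePreserving.id P).prod (upd_mp (κ := κ) k)
  have h3 := h2.comp h1
  exact h3

/-- resampling -/
theorem rs_int (k : G) (f : Env Ω G E → ℝ) (hf : Integrable f (PK P κ)) :
    ∫ x, f x ∂(PK P κ) = ∫ x, ∫ e, f (rs k (x, e)) ∂κ ∂(PK P κ) := by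
  have h1 := (rs_mp (P := P) (κ := κ) k).map_eq
  have h2 : Integrable (fun z : (Env Ω G E) × E => f (rs k z)) ((PK P κ).prod κ) :=
    (rs_mp (P := P) (κ := κ) k).integrable_comp_of_integrable hf
  calc ∫ x, f x ∂(PK P κ) = ∫ z, f (rs k z) ∂((PK P κ).prod κ) := by
        conv_lhs => rw [← h1]
        rw [integral_map (rs_meas k).aemeasurable]
        rw [h1]
        exact hf.aestronglyMeasurable
    _ = ∫ x, ∫ e, f (rs k (x, e)) ∂κ ∂(PK P κ) := integral_prod _ h2

end
end Pool.Agent.H21.And
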