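import Pool.Agent.H21.And5

/-!
# Ergodicity of the action on the marked space
-/

set_option autoImplicit false
set_option linter.unusedSectionVars false
open scoped ComplexConjugate InnerProductSpace Topology symmDiff
open Filter MeasureTheory ProbabilityTheory

namespace Pool.Agent.H21.And
open Pool.Agent.W611.RO

section
variable {Ω G E : Type} [Group G] [MeasurableSpace Ω] [MulAction G Ω] [MeasurableSpace E]
  {P : Measure Ω} [IsProbabilityMeasure P] {κ : Measure E} [IsProbabilityMeasure κ]

/-- the point and the marks on `F` -/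
def rF (F : Finset G) (x : Env Ω G E) : Ω × (F → E) := (x.1, F.restrict x.2)

theorem rF_meas (F : Finset G) : Measurable (rF F : Env Ω G E → Ω × (F → E)) := by
  refine Measurable.prodMk measurable_fst ?_
  exact (Finset.measurable_restrict F).comp measurable_snd

/-- the sets which depend only on the marks on `F` -/
@[reducible] def sF (F : Finset G) : MeasurableSpace (Env Ω G E) :=
  MeasurableSpace.comap (rF F) inferInstance

theorem sF_le (F : Finset G) : (sF F : MeasurableSpace (Env Ω G E))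
    ≤ (inferInstance : MeasurableSpace (Env Ω G E)) :=
  (rF_meas F).comap_le

theorem sF_mono {F F' : Finset G} (h : F ⊆ F') :
    (sF F : MeasurableSpace (Env Ω G E)) ≤ sF F' := by
  have h1 : (rF F : Env Ω G E → Ω × (F → E))
      = (fun y : Ω × (F' → E) => (y.1, Finset.restrict₂ (π := fun _ : G => E) h y.2))
        ∘ (rF F' : Env Ω G E → Ω × (F' → E)) := rfl
  unfold sF
  rw [h1, ← MeasurableSpace.comap_comp]
  refine MeasurableSpace.comap_mono ?_
  refine Measurable.comap_le ?_
  exact Measurable.prodMk measurable_fst ((Finset.measurable_restrict₂ h).comp measurable_snd)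

/-- the cylinder sets -/
def Cyl (Ω G E : Type) [MeasurableSpace Ω] [MeasurableSpace E] : Set (Set (Env Ω G E)) :=
  {C | ∃ F : Finset G, MeasurableSet[sF F] C}

theorem ring_Cyl : IsSetRing (Cyl Ω G E) := by
  classical
  refine ⟨⟨∅, @MeasurableSet.empty _ (sF ∅)⟩, ?_, ?_⟩
  · rintro s t ⟨F, hF⟩ ⟨F', hF'⟩
    exact ⟨F ∪ F', @MeasurableSet.union _ (sF (F ∪ F')) _ _
      (sF_mono Finset.subset_union_left _ hF) (sF_mono Finset.subset_union_right _ hF')⟩
  · rintro s t ⟨F, hF⟩ ⟨F', hF'⟩
    exact ⟨F ∪ F', @MeasurableSet.diff _ (sF (F ∪ F')) _ _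
      (sF_mono Finset.subset_union_left _ hF) (sF_mono Finset.subset_union_right _ hF')⟩

theorem gen_Cyl : (inferInstance : MeasurableSpace (Env Ω G E))
    = MeasurableSpace.generateFrom (Cyl Ω G E) := by
  refine le_antisymm ?_ ?_
  · have h1 : @Measurable (Env Ω G E) Ω (MeasurableSpace.generateFrom (Cyl Ω G E)) _
        (fun x => x.1) := by
      intro s hs
      refine MeasurableSpace.measurableSet_generateFrom ⟨∅, ?_⟩
      exact ⟨Prod.fst ⁻¹' s, measurable_fst hs, rfl⟩
    have h2 : @Measurable (Env Ω G E) (G → E) (MeasurableSpace.generateFrom (Cyl Ω G E)) _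
        (fun x => x.2) := by
      refine (@measurable_pi_iff _ _ _ (MeasurableSpace.generateFrom (Cyl Ω G E)) _ _).2
        fun k s hs => ?_
      refine MeasurableSpace.measurableSet_generateFrom ⟨{k}, ?_⟩
      refine ⟨(fun y : Ω × (({k} : Finset G) → E) => y.2 ⟨k, Finset.mem_singleton_self k⟩) ⁻¹' s,
        ?_, rfl⟩
      exact ((measurable_pi_apply _).comp measurable_snd) hs
    intro s hs
    have h3 : @Measurable (Env Ω G E) (Ω × (G → E)) (MeasurableSpace.generateFrom (Cyl Ω G E)) _
        (fun x => (x.1, x.2)) := @Measurable.prodMk _ _ _ _ _ (MeasurableSpace.generateFrom _) _ _ h1 h2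
    exact h3 hs
  · refine MeasurableSpace.generateFrom_le ?_
    rintro s ⟨F, hF⟩
    exact sF_le F _ hF

theorem approx {B : Set (Env Ω G E)} (hB : MeasurableSet B) {ε : ENNReal} (hε : 0 < ε) :
    ∃ F : Finset G, ∃ C : Set (Env Ω G E), MeasurableSet[sF F] C ∧ PK P κ (C ∆ B) < ε := by
  obtain ⟨C, ⟨F, hF⟩, hC⟩ := exists_measure_symmDiff_lt_of_generateFrom_isSetRing (μ := PK P κ)
    (ring_Cyl (Ω := Ω) (G := G) (E := E)) ⟨{Set.univ}, Set.countable_singleton _, by
      rintro _ rfl
      exact ⟨∅, @MeasurableSet.univ _ (sF ∅)⟩, by simp⟩ gen_Cyl hB hε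
  exact ⟨F, C, hF, hC⟩

open Classical in
theorem sep [Infinite G] (F : Finset G) :
    ∃ g : G, Disjoint F (F.image fun k => g⁻¹ * k) := by
  obtain ⟨g, hg⟩ := Infinite.exists_notMem_finset
    ((F ×ˢ F).image fun p : G × G => (p.1 * p.2⁻¹))
  refine ⟨g⁻¹, ?_⟩
  rw [Finset.disjoint_left]
  intro j hj hj2
  rw [inv_inv] at hj2
  obtain ⟨k, hk, rfl⟩ := Finset.mem_image.1 hj2
  apply hg
  rw [Finset.mem_image]
  exact ⟨(g * k, k), Finset.mem_product.2 ⟨hj, hk⟩, by
    show g * k * k⁻¹ = g
    rw [mul_inv_cancel_right]⟩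

/-- the indicator function -/
noncomputable def ind (C : Set (Env Ω G E)) (x : Env Ω G E) : ℝ := C.indicator (fun _ => (1:ℝ)) x

theorem ind_meas {C : Set (Env Ω G E)} (hC : MeasurableSet C) : Measurable (ind C) :=
  measurable_const.indicator hC

theorem ind_mem {C : Set (Env Ω G E)} {x : Env Ω G E} (h : x ∈ C) : ind C x = 1 :=
  Set.indicator_of_mem h _

theorem ind_not {C : Set (Env Ω G E)} {x : Env Ω G E} (h : x ∉ C) : ind C x = 0 :=
  Set.indicator_of_notMem h _

theorem ind_bd (C : Set (Env Ω G E)) (x : Env Ω G E) : 0 ≤ ind C x ∧ ind C x ≤ 1 := by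
  unfold ind
  by_cases h : x ∈ C
  · rw [Set.indicator_of_mem h]
    exact ⟨zero_le_one, le_rfl⟩
  · rw [Set.indicator_of_notMem h]
    exact ⟨le_rfl, zero_le_one⟩

open Classical in
theorem mix {F : Finset G} {C : Set (Env Ω G E)} (hC : MeasurableSet[sF F] C) {g : G}
    (hd : Disjoint F (F.image fun k => g⁻¹ * k)) (ω : Ω) :
    ∫ m, ind C (ω, m) * ind C (g • ω, sh g m) ∂(Measure.infinitePi fun _ : G => κ)
      = (∫ m, ind C (ω, m) ∂(Measure.infinitePi fun _ : G => κ))
        * ∫ m, ind C (g • ω, m) ∂(Measure.infinitePi fun _ : G => κ) := by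
  obtain ⟨S, hS, rfl⟩ := hC
  set K : Measure (G → E) := Measure.infinitePi fun _ : G => κ with hK
  set F' := F.image fun k => g⁻¹ * k with hF'
  have hind : iIndepFun (fun (i : G) (m : G → E) => m i) K :=
    iIndepFun_infinitePi (P := fun _ : G => κ) (X := fun (_ : G) (e : E) => e)
      (fun _ => measurable_id)
  have h1 := hind.indepFun_finset F F' hd (fun i => measurable_pi_apply i)
  have hCm : MeasurableSet ((rF F : Env Ω G E → Ω × (F → E)) ⁻¹' S) := rF_meas F hS
  have hmk : ∀ ω : Ω, Measurable (fun m : G → E => ((ω, m) : Env Ω G E)) := fun ω =>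
    Measurable.prodMk measurable_const measurable_id
  -- the two functions
  have e1 : IndepFun (fun m : G → E => ind ((rF F : Env Ω G E → Ω × (F → E)) ⁻¹' S) (ω, m))
      (fun m : G → E => ind ((rF F : Env Ω G E → Ω × (F → E)) ⁻¹' S) (g • ω, sh g m)) K := by
    have hφ : Measurable (fun n : F → E => S.indicator (fun _ => (1:ℝ)) (ω, n)) :=
      (measurable_const.indicator hS).comp (Measurable.prodMk measurable_const measurable_id)
    have hψ : Measurable (fun n : F' → E => S.indicator (fun _ => (1:ℝ))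
        (g • ω, fun k : F => n ⟨g⁻¹ * (k : G), Finset.mem_image_of_mem _ k.2⟩)) := by
      refine (measurable_const.indicator hS).comp (Measurable.prodMk measurable_const ?_)
      rw [measurable_pi_iff]
      intro k
      exact measurable_pi_apply _
    exact h1.comp hφ hψ
  have h3 := e1.integral_fun_mul_eq_mul_integral
    ((ind_meas hCm).comp (hmk ω)).aestronglyMeasurable
    ((ind_meas hCm).comp ((hmk (g • ω)).comp (sh_meas g))).aestronglyMeasurable
  rw [h3]
  congr 1
  have h4 : Measure.map (sh g) K = K := (sh_mp (κ := κ) g).map_eq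
  have h5 : ∫ m, ind ((rF F : Env Ω G E → Ω × (F → E)) ⁻¹' S) (g • ω, m) ∂(Measure.map (sh g) K)
      = ∫ m, ind ((rF F : Env Ω G E → Ω × (F → E)) ⁻¹' S) (g • ω, sh g m) ∂K :=
    integral_map (sh_meas g).aemeasurable ((ind_meas hCm).comp (hmk (g • ω))).aestronglyMeasurable
  rw [h4] at h5
  exact h5.symm

/-- the conditional probability of `B` -/
noncomputable def bt (κ : Measure E) [IsProbabilityMeasure κ] (B : Set (Env Ω G E)) (ω : Ω) : ℝ :=
  ∫ m, ind B (ω, m) ∂(Measure.infinitePi fun _ : G => κ)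

theorem ind_int {B : Set (Env Ω G E)} (hB : MeasurableSet B) : Integrable (ind B) (PK P κ) :=
  Integrable.of_bound (ind_meas hB).aestronglyMeasurable 1 (Eventually.of_forall fun x => by
    rw [Real.norm_of_nonneg (ind_bd B x).1]
    exact (ind_bd B x).2)

theorem sec_meas {B : Set (Env Ω G E)} (hB : MeasurableSet B) (ω : Ω) :
    Measurable (fun m : G → E => ind B (ω, m)) :=
  (ind_meas hB).comp (Measurable.prodMk measurable_const measurable_id)

theorem sec_int {B : Set (Env Ω G E)} (hB : MeasurableSet B) (ω : Ω) :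
    Integrable (fun m : G → E => ind B (ω, m)) (Measure.infinitePi fun _ : G => κ) :=
  Integrable.of_bound (sec_meas hB ω).aestronglyMeasurable 1 (Eventually.of_forall fun m => by
    rw [Real.norm_of_nonneg (ind_bd B _).1]
    exact (ind_bd B _).2)

theorem bt_bd (B : Set (Env Ω G E)) (ω : Ω) : 0 ≤ bt κ B ω ∧ bt κ B ω ≤ 1 := by
  constructor
  · exact integral_nonneg fun m => (ind_bd B _).1
  · by_cases hi : Integrable (fun m : G → E => ind B (ω, m)) (Measure.infinitePi fun _ : G => κ)
    · calc bt κ B ω ≤ ∫ _ : G → E, (1:ℝ) ∂(Measure.infinitePi fun _ : G => κ) :=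
            integral_mono hi (integrable_const _) fun m => (ind_bd B _).2
        _ = 1 := by simp
    · unfold bt
      rw [integral_undef hi]
      exact zero_le_one

theorem bt_meas {B : Set (Env Ω G E)} (hB : MeasurableSet B) : Measurable (bt κ B) := by
  have h1 : StronglyMeasurable (Function.uncurry fun (ω : Ω) (m : G → E) => ind B (ω, m)) :=
    (ind_meas hB).stronglyMeasurable
  exact (h1.integral_prod_right (ν := Measure.infinitePi fun _ : G => κ)).measurable

theorem bt_int {B : Set (Env Ω G E)} (hB : MeasurableSet B) : Integrable (bt κ B) P :=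
  Integrable.of_bound (bt_meas hB).aestronglyMeasurable 1 (Eventually.of_forall fun ω => by
    rw [Real.norm_of_nonneg (bt_bd B ω).1]
    exact (bt_bd B ω).2)

theorem int_bt {B : Set (Env Ω G E)} (hB : MeasurableSet B) :
    ∫ x, ind B x ∂(PK P κ) = ∫ ω, bt κ B ω ∂P :=
  integral_prod (μ := P) (ν := Measure.infinitePi fun _ : G => κ) (ind B) (ind_int hB)

theorem int_real {B : Set (Env Ω G E)} (hB : MeasurableSet B) :
    ∫ x, ind B x ∂(PK P κ) = (PK P κ).real B := by
  unfold ind
  rw [integral_indicator hB, setIntegral_const, smul_eq_mul, mul_one]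

theorem bt_inv {B : Set (Env Ω G E)} (hB : MeasurableSet B)
    (hinv : ∀ g : G, (fun x : Env Ω G E => g • x) ⁻¹' B = B) (g : G) (ω : Ω) :
    bt κ B (g • ω) = bt κ B ω := by
  have h4 : Measure.map (sh g) (Measure.infinitePi fun _ : G => κ)
      = Measure.infinitePi fun _ : G => κ := (sh_mp (κ := κ) g).map_eq
  have h5 : ∫ m, ind B (g • ω, m) ∂(Measure.map (sh g) (Measure.infinitePi fun _ : G => κ))
      = ∫ m, ind B (g • ω, sh g m) ∂(Measure.infinitePi fun _ : G => κ) :=
    integral_map (sh_meas g).aemeasurable (sec_meas hB (g • ω)).aestronglyMeasurable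
  rw [h4] at h5
  unfold bt
  rw [h5]
  refine integral_congr_ae (Eventually.of_forall fun m => ?_)
  show ind B (g • ω, sh g m) = ind B (ω, m)
  have h6 : ((g • ω, sh g m) : Env Ω G E) ∈ B ↔ ((ω, m) : Env Ω G E) ∈ B := by
    have := hinv g
    constructor
    · intro h
      rw [← this]
      exact h
    · intro h
      rw [← this] at h
      exact h
  by_cases h7 : ((ω, m) : Env Ω G E) ∈ B
  · exact (ind_mem (h6.2 h7)).trans (ind_mem h7).symm
  · exact (ind_not (fun h => h7 (h6.1 h))).trans (ind_not h7).symm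

theorem mul_close {a b c d : ℝ} (_ha : 0 ≤ a ∧ a ≤ 1) (hb : 0 ≤ b ∧ b ≤ 1) (hc : 0 ≤ c ∧ c ≤ 1)
    (_hd : 0 ≤ d ∧ d ≤ 1) : a * b ≤ c * d + (|c - a| + |d - b|) := by
  have h1 : a * b - c * d = (a - c) * b + c * (b - d) := by ring
  have h2 : (a - c) * b ≤ |c - a| := by
    calc (a - c) * b ≤ |(a - c) * b| := le_abs_self _
      _ = |a - c| * b := by rw [abs_mul, abs_of_nonneg hb.1]
      _ ≤ |a - c| * 1 := by gcongr; exact hb.2
      _ = |c - a| := by rw [mul_one, abs_sub_comm]
  have h3 : c * (b - d) ≤ |d - b| := by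
    calc c * (b - d) ≤ |c * (b - d)| := le_abs_self _
      _ = c * |b - d| := by rw [abs_mul, abs_of_nonneg hc.1]
      _ ≤ 1 * |b - d| := by gcongr; exact hc.2
      _ = |d - b| := by rw [one_mul, abs_sub_comm]
  linarith

theorem bt_sq [Infinite G] (hP : ∀ g : G, MeasurePreserving (fun ω : Ω => g • ω) P P)
    {B : Set (Env Ω G E)} (hB : MeasurableSet B)
    (hinv : ∀ g : G, (fun x : Env Ω G E => g • x) ⁻¹' B = B) :
    ∫ ω, bt κ B ω ∂P ≤ ∫ ω, bt κ B ω * bt κ B ω ∂P := by
  classical
  refine le_of_forall_pos_le_add fun ε' hε' => ?_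
  set ε : ℝ := ε' / 4 with hε
  have hε0 : 0 < ε := by positivity
  obtain ⟨F, C, hCF, hC⟩ := approx (P := P) (κ := κ) hB (ENNReal.ofReal_pos.2 hε0)
  have hCm : MeasurableSet C := sF_le F _ hCF
  obtain ⟨g, hg⟩ := sep F
  have hmp := env_mp (κ := κ) hP g
  set d : Env Ω G E → ℝ := fun x => |ind C x - ind B x| with hd
  have hdm : Measurable d := ((ind_meas hCm).sub (ind_meas hB)).abs
  have hdi : Integrable d (PK P κ) := ((ind_int hCm).sub (ind_int hB)).abs
  have hd2 : ∫ x, d x ∂(PK P κ) ≤ ε := by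
    have h1 : d = ind (C ∆ B) := by
      funext x
      show |ind C x - ind B x| = ind (C ∆ B) x
      by_cases h1 : x ∈ C <;> by_cases h2 : x ∈ B
      · rw [ind_mem h1, ind_mem h2, ind_not, sub_self, abs_zero]
        rw [Set.mem_symmDiff]
        tauto
      · rw [ind_mem h1, ind_not h2, ind_mem, sub_zero, abs_one]
        rw [Set.mem_symmDiff]
        tauto
      · rw [ind_not h1, ind_mem h2, ind_mem, zero_sub, abs_neg, abs_one]
        rw [Set.mem_symmDiff]
        tauto
      · rw [ind_not h1, ind_not h2, ind_not, sub_self, abs_zero]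
        rw [Set.mem_symmDiff]
        tauto
    rw [h1, int_real (hCm.symmDiff hB)]
    exact (ENNReal.toReal_mono ENNReal.ofReal_ne_top hC.le).trans
      (ENNReal.toReal_ofReal hε0.le).le
  have hdg : ∫ x, d (g • x) ∂(PK P κ) = ∫ x, d x ∂(PK P κ) := by
    have h1 := hmp.map_eq
    conv_rhs => rw [← h1]
    rw [integral_map hmp.measurable.aemeasurable]
    exact hdm.aestronglyMeasurable
  have hdgi : Integrable (fun x => d (g • x)) (PK P κ) := hmp.integrable_comp_of_integrable hdi
  have hprod : ∀ D : Set (Env Ω G E), MeasurableSet D →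
      Integrable (fun x => ind D x * ind D (g • x)) (PK P κ) := by
    intro D hD
    refine Integrable.of_bound ((ind_meas hD).mul
      ((ind_meas hD).comp hmp.measurable)).aestronglyMeasurable 1 (Eventually.of_forall fun x => ?_)
    have h1 := ind_bd D x
    have h2 := ind_bd D (g • x)
    rw [Real.norm_of_nonneg (mul_nonneg h1.1 h2.1)]
    exact mul_le_one₀ h1.2 h2.1 h2.2
  -- first comparison
  have s1 : ∫ x, ind B x ∂(PK P κ) ≤ ∫ x, ind C x * ind C (g • x) ∂(PK P κ) + 2 * ε := by
    have e1 : ∀ x, ind B x = ind B x * ind B (g • x) := by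
      intro x
      have h6 : g • x ∈ B ↔ x ∈ B := by
        have := hinv g
        constructor
        · intro h
          rw [← this]
          exact h
        · intro h
          rw [← this] at h
          exact h
      unfold ind
      by_cases h7 : x ∈ B
      · rw [Set.indicator_of_mem h7, Set.indicator_of_mem (h6.2 h7), mul_one]
      · rw [Set.indicator_of_notMem h7, zero_mul]
    calc ∫ x, ind B x ∂(PK P κ) ≤ ∫ x, (ind C x * ind C (g • x) + (d x + d (g • x))) ∂(PK P κ) := by
          refine integral_mono (ind_int hB) ((hprod C hCm).add (hdi.add hdgi)) fun x => ?_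
          show ind B x ≤ ind C x * ind C (g • x) + (d x + d (g • x))
          rw [e1 x]
          exact mul_close (ind_bd B x) (ind_bd B (g • x)) (ind_bd C x) (ind_bd C (g • x))
      _ = ∫ x, ind C x * ind C (g • x) ∂(PK P κ) + (∫ x, d x ∂(PK P κ) + ∫ x, d (g • x) ∂(PK P κ)) := by
          rw [← integral_add hdi hdgi]
          exact integral_add (hprod C hCm) (hdi.add hdgi)
      _ ≤ _ := by
          rw [hdg]
          linarith
  -- independence
  have s2 : ∫ x, ind C x * ind C (g • x) ∂(PK P κ) = ∫ ω, bt κ C ω * bt κ C (g • ω) ∂P := by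
    have h1 := integral_prod (μ := P) (ν := Measure.infinitePi fun _ : G => κ)
      (fun x : Env Ω G E => ind C x * ind C (g • x)) (hprod C hCm)
    refine h1.trans (integral_congr_ae (Eventually.of_forall fun ω => ?_))
    exact mix hCF hg ω
  -- second comparison
  set d' : Ω → ℝ := fun ω => |bt κ C ω - bt κ B ω| with hd'
  have hd'i : Integrable d' P := ((bt_int hCm).sub (bt_int hB)).abs
  have hd'2 : ∫ ω, d' ω ∂P ≤ ε := by
    have h1 := integral_prod (μ := P) (ν := Measure.infinitePi fun _ : G => κ)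
      (fun x : Ω × (G → E) => d (x : Env Ω G E)) hdi
    refine le_trans ?_ (h1.symm.le.trans hd2)
    refine integral_mono hd'i ?_ fun ω => ?_
    · exact Integrable.integral_prod_left hdi
    · show |bt κ C ω - bt κ B ω| ≤ ∫ m, |ind C (ω, m) - ind B (ω, m)|
        ∂(Measure.infinitePi fun _ : G => κ)
      unfold bt
      rw [← integral_sub (sec_int hCm ω) (sec_int hB ω)]
      exact abs_integral_le_integral_abs
  have hd'g : ∫ ω, d' (g • ω) ∂P = ∫ ω, d' ω ∂P := by
    have h1 := (hP g).map_eq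
    conv_rhs => rw [← h1]
    rw [integral_map (hP g).measurable.aemeasurable]
    exact ((bt_meas hCm).sub (bt_meas hB)).abs.aestronglyMeasurable
  have hd'gi : Integrable (fun ω => d' (g • ω)) P := (hP g).integrable_comp_of_integrable hd'i
  have hbb : ∀ D : Set (Env Ω G E), MeasurableSet D →
      Integrable (fun ω => bt κ D ω * bt κ D (g • ω)) P := by
    intro D hD
    refine Integrable.of_bound ((bt_meas hD).mul
      ((bt_meas hD).comp (hP g).measurable)).aestronglyMeasurable 1
      (Eventually.of_forall fun ω => ?_)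
    have h1 := bt_bd (κ := κ) D ω
    have h2 := bt_bd (κ := κ) D (g • ω)
    rw [Real.norm_of_nonneg (mul_nonneg h1.1 h2.1)]
    exact mul_le_one₀ h1.2 h2.1 h2.2
  have s3 : ∫ ω, bt κ C ω * bt κ C (g • ω) ∂P
      ≤ ∫ ω, bt κ B ω * bt κ B (g • ω) ∂P + 2 * ε := by
    calc ∫ ω, bt κ C ω * bt κ C (g • ω) ∂P
        ≤ ∫ ω, (bt κ B ω * bt κ B (g • ω) + (d' ω + d' (g • ω))) ∂P := by
          refine integral_mono (hbb C hCm) ((hbb B hB).add (hd'i.add hd'gi)) fun ω => ?_
          show bt κ C ω * bt κ C (g • ω) ≤ bt κ B ω * bt κ B (g • ω) + (d' ω + d' (g • ω))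
          have h1 := mul_close (bt_bd (κ := κ) C ω) (bt_bd (κ := κ) C (g • ω))
            (bt_bd (κ := κ) B ω) (bt_bd (κ := κ) B (g • ω))
          have h2 : d' ω = |bt κ B ω - bt κ C ω| := abs_sub_comm _ _
          have h3 : d' (g • ω) = |bt κ B (g • ω) - bt κ C (g • ω)| := abs_sub_comm _ _
          rw [h2, h3]
          exact h1
      _ = ∫ ω, bt κ B ω * bt κ B (g • ω) ∂P + (∫ ω, d' ω ∂P + ∫ ω, d' (g • ω) ∂P) := by
          rw [← integral_add hd'i hd'gi]
          exact integral_add (hbb B hB) (hd'i.add hd'gi)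
      _ ≤ _ := by
          rw [hd'g]
          linarith
  have s4 : ∫ ω, bt κ B ω * bt κ B (g • ω) ∂P = ∫ ω, bt κ B ω * bt κ B ω ∂P := by
    refine integral_congr_ae (Eventually.of_forall fun ω => ?_)
    show bt κ B ω * bt κ B (g • ω) = bt κ B ω * bt κ B ω
    rw [bt_inv hB hinv]
  rw [← int_bt hB]
  linarith

/-- **the action on the marked space is ergodic** -/
theorem erg_env [Infinite G] (hP : Erg G P) : Erg G (PK (G := G) P κ) := by
  refine ⟨env_mp hP.mp, fun B hB hinv => ?_⟩
  have h1 := bt_sq (κ := κ) hP.mp hB hinv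
  have hb := bt_bd (κ := κ) B
  have hsq : Integrable (fun ω => bt κ B ω * bt κ B ω) P := by
    refine Integrable.of_bound ((bt_meas hB).mul (bt_meas hB)).aestronglyMeasurable 1
      (Eventually.of_forall fun ω => ?_)
    rw [Real.norm_of_nonneg (mul_nonneg (hb ω).1 (hb ω).1)]
    exact mul_le_one₀ (hb ω).2 (hb ω).1 (hb ω).2
  have h2 : ∀ᵐ ω ∂P, bt κ B ω - bt κ B ω * bt κ B ω = 0 := by
    have hnn : 0 ≤ fun ω => bt κ B ω - bt κ B ω * bt κ B ω := fun ω => by
      have := hb ω
      show 0 ≤ bt κ B ω - bt κ B ω * bt κ B ω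
      nlinarith
    have h3 : ∫ ω, (bt κ B ω - bt κ B ω * bt κ B ω) ∂P = 0 := by
      refine le_antisymm ?_ (integral_nonneg hnn)
      rw [integral_sub (bt_int hB) hsq]
      linarith
    exact (integral_eq_zero_iff_of_nonneg hnn ((bt_int hB).sub hsq)).1 h3
  set B₀ : Set Ω := {ω | bt κ B ω = 1} with hB₀
  have hB₀m : MeasurableSet B₀ := (bt_meas hB) (measurableSet_singleton 1)
  have hB₀i : ∀ g : G, (fun ω : Ω => g • ω) ⁻¹' B₀ = B₀ := by
    intro g
    ext ω
    show bt κ B (g • ω) = 1 ↔ bt κ B ω = 1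
    rw [bt_inv hB hinv]
  rcases hP.erg B₀ hB₀m hB₀i with h3 | h3
  · left
    have h4 : ∀ᵐ ω ∂P, bt κ B ω = 0 := by
      have h5 : ∀ᵐ ω ∂P, ω ∉ B₀ := measure_eq_zero_iff_ae_notMem.1 h3
      filter_upwards [h2, h5] with ω h6 h7
      have h8 : bt κ B ω * (1 - bt κ B ω) = 0 := by linarith
      rcases mul_eq_zero.1 h8 with h9 | h9
      · exact h9
      · exact absurd (show bt κ B ω = 1 by linarith) h7
    have h5 : (PK P κ).real B = 0 := by
      rw [← int_real hB, int_bt hB, integral_congr_ae h4]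
      simp
    exact (measureReal_eq_zero_iff).1 h5
  · right
    have h4 : ∀ᵐ ω ∂P, bt κ B ω = 1 := by
      have h5 : ∀ᵐ ω ∂P, ω ∉ B₀ᶜ := measure_eq_zero_iff_ae_notMem.1 h3
      filter_upwards [h5] with ω h7
      exact not_not.1 h7
    have h5 : (PK P κ).real B = 1 := by
      rw [← int_real hB, int_bt hB, integral_congr_ae h4]
      simp
    rw [← measureReal_eq_zero_iff, measureReal_compl hB, h5]
    simp

end
end Pool.Agent.H21.And
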