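import Pool.Agent.H21.And4
import Pool.Agent.H21.And6

/-!
# Fields over the marked space
-/

set_option autoImplicit false
set_option linter.unusedSectionVars false
open scoped ComplexConjugate InnerProductSpace Topology
open Filter MeasureTheory

namespace Pool.Agent.H21.And
open Pool.Agent.H712R5.BO Pool.Agent.W611.RO Pool.Agent.TH322.AC Pool.Agent.TH315.LO

section
variable {G Ω H : Type} [Group G] [Countable G] [MeasurableSpace Ω] [MulAction G Ω]
  [NormedAddCommGroup H] [InnerProductSpace ℂ H] [CompleteSpace H]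
  {P : Measure Ω} [IsProbabilityMeasure P] {b : HilbertBasis G ℂ H}
  {L : G → unitary (H →L[ℂ] H)}

theorem op_ext {S T : H →L[ℂ] H} (h : ∀ k, S (b k) = T (b k)) : S = T := by
  refine ContinuousLinearMap.ext_on (s := Set.range b) ?_ ?_
  · exact (Submodule.dense_iff_topologicalClosure_eq_top.mpr b.dense_span)
  · rintro _ ⟨k, rfl⟩
    exact h k

theorem cf_ext {S T : CF (Ω := Ω) b L} (h : ∀ ω, ev b L ω S = ev b L ω T) : S = T := by
  apply Subtype.ext
  apply BoundedContinuousFunction.ext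
  intro ω
  exact h ω

theorem cf_norm_le {S : CF (Ω := Ω) b L} {C : ℝ} (hC : 0 ≤ C) (h : ∀ ω, ‖ev b L ω S‖ ≤ C) :
    ‖S‖ ≤ C :=
  (BoundedContinuousFunction.norm_le hC).2 h

/-- the diagonal operator with the values `a (k⁻¹ ω)` -/
def IsD (b : HilbertBasis G ℂ H) (L : G → unitary (H →L[ℂ] H)) (a : Ω → ℂ)
    (X : CF (Ω := Ω) b L) : Prop := ∀ (ω : Ω) (k : G), ev b L ω X (b k) = a (k⁻¹ • ω) • b k

theorem exists_D (hL : Reg b L) (hm : ∀ g : G, Measurable fun ω : Ω => g • ω) {a : Ω → ℂ}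
    (ha : Measurable a) {B : ℝ} (hB : ∀ ω, ‖a ω‖ ≤ B) :
    ∃ X : CF (Ω := Ω) b L, IsD b L a X ∧ IsW b 1 a (fun ω => ev b L ω X) := by
  obtain ⟨X, hX⟩ := Pool.Agent.W721.RO.t_WRD Pool.Agent.W515.RO.t_UNI G Ω H b L hL hm 1 a B ha hB
  refine ⟨X, fun ω k => ?_, hX⟩
  have h1 := hX ω k
  rw [one_mul, inv_one, mul_one] at h1
  exact h1

theorem IsD.norm_le {a : Ω → ℂ} {X : CF (Ω := Ω) b L} (h : IsD b L a X) {B : ℝ} (hB0 : 0 ≤ B)
    (hB : ∀ ω, ‖a ω‖ ≤ B) : ‖X‖ ≤ B := by
  refine cf_norm_le hB0 fun ω => ?_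
  refine ContinuousLinearMap.opNorm_le_bound _ hB0 fun x => ?_
  have h1 := parseval (b := b) (ev b L ω X x)
  have h2 := parseval (b := b) x
  have h3 : ∀ k, ⟪b k, ev b L ω X x⟫_ℂ = a (k⁻¹ • ω) * ⟪b k, x⟫_ℂ := by
    intro k
    have hs : star (ev b L ω X) (b k) = conj (a (k⁻¹ • ω)) • b k := by
      refine b.repr.injective ?_
      refine lp.ext (funext fun j => ?_)
      rw [b.repr_apply_apply, b.repr_apply_apply, ContinuousLinearMap.star_eq_adjoint,
        ContinuousLinearMap.adjoint_inner_right, h ω j, inner_smul_left, inner_smul_right]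
      by_cases hjk : j = k
      · rw [hjk]
      · have : ⟪b j, b k⟫_ℂ = 0 := b.orthonormal.2 hjk
        rw [this, mul_zero, mul_zero]
    have h4 : ⟪b k, ev b L ω X x⟫_ℂ = ⟪star (ev b L ω X) (b k), x⟫_ℂ := by
      rw [ContinuousLinearMap.star_eq_adjoint, ContinuousLinearMap.adjoint_inner_left]
    rw [h4, hs, inner_smul_left, Complex.conj_conj]
  have h5 : ‖ev b L ω X x‖ ^ 2 ≤ (B * ‖x‖) ^ 2 := by
    rw [mul_pow]
    refine hasSum_le (fun k => ?_) h1 (h2.mul_left (B ^ 2))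
    rw [h3, norm_mul, mul_pow]
    gcongr
    exact hB _
  exact le_of_sq_le_sq h5 (by positivity)

end


section
variable {G Ω H : Type} [Group G] [Countable G] [MeasurableSpace Ω] [MulAction G Ω]
  [NormedAddCommGroup H] [InnerProductSpace ℂ H] [CompleteSpace H]
  {P : Measure Ω} [IsProbabilityMeasure P] {b : HilbertBasis G ℂ H}
  {L : G → unitary (H →L[ℂ] H)}

/-- projections onto random sets of sites -/
theorem exists_Pr (hL : Reg b L) (hm : ∀ g : G, Measurable fun ω : Ω => g • ω) {W : Set Ω}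
    (hW : MeasurableSet W) : ∃ p : CF (Ω := Ω) b L, IsPr b L W p ∧ star p = p ∧ p * p = p := by
  classical
  obtain ⟨p, hp, -⟩ := exists_D (a := W.indicator fun _ => (1:ℂ)) hL hm
    (measurable_const.indicator hW) (B := 1) (fun ω => by
      by_cases h : ω ∈ W
      · rw [Set.indicator_of_mem h, norm_one]
      · rw [Set.indicator_of_notMem h, norm_zero]
        exact zero_le_one)
  have h1 : ∀ (ω : Ω) (k : G), ev b L ω p (b k) = if k⁻¹ • ω ∈ W then b k else 0 := by
    intro ω k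
    rw [hp ω k]
    split_ifs with h
    · rw [Set.indicator_of_mem h, one_smul]
    · rw [Set.indicator_of_notMem h, zero_smul]
  refine ⟨p, fun ω k => ?_, ?_, ?_⟩
  · rw [h1]
  · refine cf_ext fun ω => ?_
    rw [map_star]
    refine op_ext (b := b) fun k => ?_
    refine b.repr.injective ?_
    refine lp.ext (funext fun j => ?_)
    rw [b.repr_apply_apply, b.repr_apply_apply, ContinuousLinearMap.star_eq_adjoint,
      ContinuousLinearMap.adjoint_inner_right, h1, h1]
    by_cases hjk : j = k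
    · subst hjk
      split_ifs with h
      · rfl
      · rw [inner_zero_left, inner_zero_right]
    · have h2 : ⟪b j, b k⟫_ℂ = 0 := b.orthonormal.2 hjk
      split_ifs <;> simp [h2]
  · refine cf_ext fun ω => ?_
    rw [map_mul]
    refine op_ext (b := b) fun k => ?_
    show ev b L ω p (ev b L ω p (b k)) = ev b L ω p (b k)
    rw [h1]
    split_ifs with h
    · rw [h1, if_pos h]
    · rw [map_zero]

/-- the blocks -/
theorem exists_blk {δ : ℝ} (hδ : 0 < δ) (X p : CF (Ω := Ω) b L) (hs : star p = p)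
    (hp : p * p = p) : ∃ K : CF (Ω := Ω) b L, Blk δ X p (1 - p) (X * (1 - p)) K := by
  obtain ⟨u, hu⟩ := (SP.reg (X * (1 - p)) hδ).unit
  exact ⟨↑u⁻¹, hδ, hs, hp, rfl, rfl, by rw [← hu, u.mul_inv]⟩

/-- the values of inverses -/
theorem ev_inv {Ω' : Type} [MeasurableSpace Ω'] [MulAction G Ω'] {S G' : CF (Ω := Ω') b L}
    (hS : IsUnit S) (h : S * G' = 1)
    {x y : Ω'} (hxy : ev b L x S = ev b L y S) : ev b L x G' = ev b L y G' := by
  have h1 := congrArg (ev b L x) h
  have h2 := congrArg (ev b L y) h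
  rw [map_mul, map_one] at h1 h2
  rw [← hxy] at h2
  obtain ⟨u, hu⟩ := hS.map (ev b L x)
  rw [← hu] at h1 h2
  calc ev b L x G' = ↑u⁻¹ * (↑u * ev b L x G') := by rw [Units.inv_mul_cancel_left]
    _ = ↑u⁻¹ * (↑u * ev b L y G') := by rw [h1, h2]
    _ = ev b L y G' := by rw [Units.inv_mul_cancel_left]

end

section
variable {G Ω H E : Type} [Group G] [Countable G] [MeasurableSpace Ω] [MulAction G Ω]
  [NormedAddCommGroup H] [InnerProductSpace ℂ H] [CompleteSpace H] [MeasurableSpace E]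
  {P : Measure Ω} [IsProbabilityMeasure P] {b : HilbertBasis G ℂ H}
  {L : G → unitary (H →L[ℂ] H)}

/-- the field, as a field over the marked space -/
theorem exists_up (S : CF (Ω := Ω) b L) :
    ∃ T : CF (Ω := Env Ω G E) b L, ∀ x, ev b L x T = ev b L x.1 S := by
  refine exists_CF b L (fun x : Env Ω G E => ev b L x.1 S) ‖S‖ (fun x => ev_norm b L x.1 S)
    (fun i y => (ev_meas b L S (b i) y).comp measurable_fst) (fun g x => ?_)
  exact ev_cov b L S g x.1

/-- the trace, along measure preserving maps -/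
theorem dt_pull {Ω₁ Ω₂ : Type} [MeasurableSpace Ω₁] [MulAction G Ω₁] [MeasurableSpace Ω₂]
    [MulAction G Ω₂] {P₁ : Measure Ω₁} [IsProbabilityMeasure P₁] {P₂ : Measure Ω₂}
    [IsProbabilityMeasure P₂] {π : Ω₂ → Ω₁} (hπ : MeasurePreserving π P₂ P₁)
    (S₁ : CF (Ω := Ω₁) b L) (S₂ : CF (Ω := Ω₂) b L) (h : ∀ x, ev b L x S₂ = ev b L (π x) S₁)
    {δ : ℝ} (hδ : 0 < δ) :
    dt (tau P₂ b L) (algebraMap ℝ (CF (Ω := Ω₂) b L) δ + star S₂ * S₂)
      = dt (tau P₁ b L) (algebraMap ℝ (CF (Ω := Ω₁) b L) δ + star S₁ * S₁) := by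
  obtain ⟨i1, e1⟩ := dt_tau (P := P₁) (SP.reg S₁ hδ)
  obtain ⟨i2, e2⟩ := dt_tau (P := P₂) (SP.reg S₂ hδ)
  have h1 : ∀ x, ev b L x (algebraMap ℝ (CF (Ω := Ω₂) b L) δ + star S₂ * S₂)
      = ev b L (π x) (algebraMap ℝ (CF (Ω := Ω₁) b L) δ + star S₁ * S₁) := by
    intro x
    rw [map_add, map_add, map_mul, map_mul, map_star, map_star, h, ev_alg, ev_alg]
  rw [e1, e2]
  simp_rw [h1]
  conv_rhs => rw [← hπ.map_eq]
  rw [integral_map hπ.measurable.aemeasurable]
  rw [hπ.map_eq]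
  exact i1.aestronglyMeasurable

end
end Pool.Agent.H21.And
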