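import Pool.Agent.H21.And7

/-!
# Resampling a small proportion of the marks
-/

set_option autoImplicit false
set_option linter.unusedSectionVars false
open scoped ComplexConjugate InnerProductSpace Topology
open Filter MeasureTheory

namespace Pool.Agent.H21.And
open Pool.Agent.H712R5.BO Pool.Agent.W611.RO Pool.Agent.TH322.AC Pool.Agent.TH315.LO

/-- the uniform distribution on `[0, 1)` -/
noncomputable def Un : Measure ℝ := volume.restrict (Set.Ico (0:ℝ) 1)

instance : IsProbabilityMeasure Un := ⟨by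
  unfold Un
  rw [Measure.restrict_apply MeasurableSet.univ, Set.univ_inter, Real.volume_Ico]
  norm_num⟩

theorem Un_Ico {q q' : ℝ} (h0 : 0 ≤ q) (h1 : q ≤ q') (h2 : q' ≤ 1) :
    Un.real (Set.Ico q q') = q' - q := by
  unfold Un
  rw [measureReal_restrict_apply measurableSet_Ico,
    Set.inter_eq_left.2 (Set.Ico_subset_Ico h0 h2), Real.volume_real_Ico_of_le h1]

theorem Un_Ici {q : ℝ} (h0 : 0 ≤ q) (h1 : q ≤ 1) : Un.real (Set.Ici q) = 1 - q := by
  unfold Un
  have h2 : Set.Ici q ∩ Set.Ico 0 1 = Set.Ico q 1 := by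
    ext x
    simp only [Set.mem_inter_iff, Set.mem_Ici, Set.mem_Ico]
    constructor
    · rintro ⟨h2, h3, h4⟩
      exact ⟨h2, h4⟩
    · rintro ⟨h2, h3⟩
      exact ⟨h2, h0.trans h2, h3⟩
  rw [measureReal_restrict_apply measurableSet_Ici, h2, Real.volume_real_Ico_of_le h1]

theorem Un_Iio : Un.real (Set.Iio (0:ℝ)) = 0 := by
  unfold Un
  have h2 : Set.Iio (0:ℝ) ∩ Set.Ico 0 1 = ∅ := by
    ext x
    simp only [Set.mem_inter_iff, Set.mem_Iio, Set.mem_Ico, Set.mem_empty_iff_false, iff_false]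
    rintro ⟨h2, h3, h4⟩
    linarith
  rw [measureReal_restrict_apply measurableSet_Iio, h2, measureReal_empty]

section
variable {M : Type} [MeasurableSpace M] {κ : Measure M} [IsProbabilityMeasure κ]

theorem slice {f : M × ℝ → ℝ} (hf : Measurable f) {C : ℝ} (hC : ∀ e, ‖f e‖ ≤ C) {q : ℝ}
    (hq : ∀ (m : M) (u : ℝ), q ≤ u → f (m, u) = f (m, q)) {J : Set ℝ} (hJ : MeasurableSet J)
    (hJq : J ⊆ Set.Ici q) :
    ∫ e, J.indicator (fun _ => (1:ℝ)) e.2 * f e ∂(κ.prod Un) = Un.real J * ∫ m, f (m, q) ∂κ := by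
  have hi : Integrable (fun e : M × ℝ => J.indicator (fun _ => (1:ℝ)) e.2 * f e) (κ.prod Un) := by
    refine Integrable.of_bound (((measurable_const.indicator hJ).comp measurable_snd).mul
      hf).aestronglyMeasurable C (Eventually.of_forall fun e => ?_)
    rw [norm_mul]
    have h1 : ‖J.indicator (fun _ => (1:ℝ)) e.2‖ ≤ 1 := by
      by_cases h : e.2 ∈ J
      · rw [Set.indicator_of_mem h, norm_one]
      · rw [Set.indicator_of_notMem h, norm_zero]
        exact zero_le_one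
    calc ‖J.indicator (fun _ => (1:ℝ)) e.2‖ * ‖f e‖ ≤ 1 * C := by
          gcongr
          exact hC e
      _ = C := one_mul C
  rw [integral_prod _ hi, ← integral_const_mul]
  refine integral_congr_ae (Eventually.of_forall fun m => ?_)
  show ∫ u, J.indicator (fun _ => (1:ℝ)) u * f (m, u) ∂Un = Un.real J * f (m, q)
  have h1 : ∀ u, J.indicator (fun _ => (1:ℝ)) u * f (m, u)
      = J.indicator (fun _ => f (m, q)) u := by
    intro u
    by_cases h : u ∈ J
    · rw [Set.indicator_of_mem h, Set.indicator_of_mem h, one_mul, hq m u (hJq h)]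
    · rw [Set.indicator_of_notMem h, Set.indicator_of_notMem h, zero_mul]
  simp_rw [h1]
  rw [integral_indicator hJ, setIntegral_const, smul_eq_mul]

end

section
variable {Ω G M : Type} [Group G] [MeasurableSpace Ω] [MulAction G Ω] [MeasurableSpace M]
  {P : Measure Ω} [IsProbabilityMeasure P] {κ : Measure M} [IsProbabilityMeasure κ]

theorem rs_self (k : G) (x : Env Ω G (M × ℝ)) (e : M × ℝ) : (rs k (x, e)).2 k = e := by
  classical
  show Function.update x.2 k e k = e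
  rw [Function.update_self]

theorem rs_ne {k j : G} (h : j ≠ k) (x : Env Ω G (M × ℝ)) (e : M × ℝ) :
    (rs k (x, e)).2 j = x.2 j := by
  classical
  show Function.update x.2 k e j = x.2 j
  rw [Function.update_of_ne h]

/-- the indicator of the set of `x` whose mark at `j` has its second coordinate in `J` -/
noncomputable def iJ (J : Set ℝ) (j : G) (x : Env Ω G (M × ℝ)) : ℝ :=
  J.indicator (fun _ => (1:ℝ)) (x.2 j).2

theorem iJ_meas {J : Set ℝ} (hJ : MeasurableSet J) (j : G) :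
    Measurable (iJ J j : Env Ω G (M × ℝ) → ℝ) :=
  (measurable_const.indicator hJ).comp
    (measurable_snd.comp ((measurable_pi_apply j).comp measurable_snd))

theorem iJ_bd (J : Set ℝ) (j : G) (x : Env Ω G (M × ℝ)) : 0 ≤ iJ J j x ∧ iJ J j x ≤ 1 := by
  unfold iJ
  by_cases h : (x.2 j).2 ∈ J
  · rw [Set.indicator_of_mem h]
    exact ⟨zero_le_one, le_rfl⟩
  · rw [Set.indicator_of_notMem h]
    exact ⟨le_rfl, zero_le_one⟩

theorem iJ_norm (J : Set ℝ) (j : G) (x : Env Ω G (M × ℝ)) : ‖iJ J j x‖ ≤ 1 := by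
  rw [Real.norm_of_nonneg (iJ_bd J j x).1]
  exact (iJ_bd J j x).2

theorem prod_bd {h : Env Ω G (M × ℝ) → ℝ} {C : ℝ} (hC : ∀ x, ‖h x‖ ≤ C) (J : Set ℝ) (j : G)
    (x : Env Ω G (M × ℝ)) : ‖iJ J j x * h x‖ ≤ C := by
  rw [norm_mul]
  calc ‖iJ J j x‖ * ‖h x‖ ≤ 1 * C := by
        gcongr
        · exact iJ_norm J j x
        · exact hC x
    _ = C := one_mul C

theorem resample {h : Env Ω G (M × ℝ) → ℝ} (hm : Measurable h) {C : ℝ} (hC : ∀ x, ‖h x‖ ≤ C)
    {q : ℝ} (j : G) (hq : ∀ (x : Env Ω G (M × ℝ)) (m : M) (u : ℝ), q ≤ u →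
      h (rs j (x, (m, u))) = h (rs j (x, (m, q)))) {J : Set ℝ} (hJ : MeasurableSet J)
    (hJq : J ⊆ Set.Ici q) :
    ∫ x, iJ J j x * h x ∂(PK P (κ.prod Un))
      = Un.real J * ∫ x, ∫ m, h (rs j (x, (m, q))) ∂κ ∂(PK P (κ.prod Un)) := by
  have hi : Integrable (fun x : Env Ω G (M × ℝ) => iJ J j x * h x) (PK P (κ.prod Un)) :=
    Integrable.of_bound ((iJ_meas hJ j).mul hm).aestronglyMeasurable C
      (Eventually.of_forall (prod_bd hC J j))
  rw [rs_int j _ hi, ← integral_const_mul]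
  refine integral_congr_ae (Eventually.of_forall fun x => ?_)
  have h1 := slice (κ := κ) (f := fun e => h (rs j (x, e)))
    (hm.comp ((rs_meas j).comp (Measurable.prodMk measurable_const measurable_id)))
    (fun e => hC _) (hq x) hJ hJq
  refine Eq.trans ?_ h1
  refine integral_congr_ae (Eventually.of_forall fun e => ?_)
  show iJ J j (rs j (x, e)) * _ = _
  unfold iJ
  rw [rs_self]

/-- the marks at two different sites -/
theorem two_sites {g : Env Ω G (M × ℝ) → ℝ} (hm : Measurable g) {C : ℝ} (hC : ∀ x, ‖g x‖ ≤ C)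
    (hg0 : ∀ x, 0 ≤ g x)
    {q : ℝ} {k : G} (hk : k ≠ 1) (hq : ∀ (j : G) (x : Env Ω G (M × ℝ)) (m : M) (u : ℝ), q ≤ u →
      g (rs j (x, (m, u))) = g (rs j (x, (m, q)))) {J : Set ℝ} (hJ : MeasurableSet J)
    (hJq : J ⊆ Set.Ici q) :
    Un.real (Set.Ici q) ^ 2 * ∫ x, iJ J 1 x * (iJ J k x * g x) ∂(PK P (κ.prod Un))
      ≤ Un.real J ^ 2 * ∫ x, g x ∂(PK P (κ.prod Un)) := by
  set Θ : Set ℝ := Set.Ici q with hΘ
  have hΘm : MeasurableSet Θ := measurableSet_Ici
  have hind : ∀ (i j : G) (_ : i ≠ j) (I : Set ℝ) (x : Env Ω G (M × ℝ)) (e : M × ℝ),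
      iJ I i (rs j (x, e)) = iJ I i x := by
    intro i j hij I x e
    unfold iJ
    rw [rs_ne hij]
  -- first site
  have a1 := resample (P := P) (κ := κ) (h := fun x => iJ J k x * g x) ((iJ_meas hJ k).mul hm)
    (prod_bd hC J k) (1 : G) (fun x m u hu => by
      show iJ J k _ * g _ = iJ J k _ * g _
      rw [hind k 1 hk, hind k 1 hk, hq 1 x m u hu]) hJ hJq
  have a2 := resample (P := P) (κ := κ) (h := fun x => iJ J k x * g x) ((iJ_meas hJ k).mul hm)
    (prod_bd hC J k) (1 : G) (fun x m u hu => by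
      show iJ J k _ * g _ = iJ J k _ * g _
      rw [hind k 1 hk, hind k 1 hk, hq 1 x m u hu]) hΘm le_rfl
  -- second site
  have a3 := resample (P := P) (κ := κ) (h := fun x => iJ Θ 1 x * g x) ((iJ_meas hΘm 1).mul hm)
    (prod_bd hC Θ 1) k (fun x m u hu => by
      show iJ Θ 1 _ * g _ = iJ Θ 1 _ * g _
      rw [hind 1 k hk.symm, hind 1 k hk.symm, hq k x m u hu]) hJ hJq
  have a4 := resample (P := P) (κ := κ) (h := fun x => iJ Θ 1 x * g x) ((iJ_meas hΘm 1).mul hm)
    (prod_bd hC Θ 1) k (fun x m u hu => by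
      show iJ Θ 1 _ * g _ = iJ Θ 1 _ * g _
      rw [hind 1 k hk.symm, hind 1 k hk.symm, hq k x m u hu]) hΘm le_rfl
  have e1 : ∫ x, iJ Θ 1 x * (iJ J k x * g x) ∂(PK P (κ.prod Un))
      = ∫ x, iJ J k x * (iJ Θ 1 x * g x) ∂(PK P (κ.prod Un)) := by
    refine integral_congr_ae (Eventually.of_forall fun x => ?_)
    show iJ Θ 1 x * (iJ J k x * g x) = iJ J k x * (iJ Θ 1 x * g x)
    ring
  have e2 : ∫ x, iJ Θ k x * (iJ Θ 1 x * g x) ∂(PK P (κ.prod Un))
      ≤ ∫ x, g x ∂(PK P (κ.prod Un)) := by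
    refine integral_mono ?_ ?_ fun x => ?_
    · exact Integrable.of_bound ((iJ_meas hΘm k).mul ((iJ_meas hΘm 1).mul hm)).aestronglyMeasurable
        C (Eventually.of_forall (prod_bd (prod_bd hC Θ 1) Θ k))
    · exact Integrable.of_bound hm.aestronglyMeasurable C (Eventually.of_forall hC)
    · show iJ Θ k x * (iJ Θ 1 x * g x) ≤ g x
      have h1 := iJ_bd Θ k x
      have h2 := iJ_bd Θ 1 x
      have h3 := hg0 x
      have h4 : 0 ≤ iJ Θ 1 x * g x := mul_nonneg h2.1 h3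
      have h5 : iJ Θ 1 x * g x ≤ g x := mul_le_of_le_one_left h3 h2.2
      exact (mul_le_of_le_one_left h4 h1.2).trans h5
  set u := Un.real Θ with hu
  set v := Un.real J with hv
  have hv0 : 0 ≤ v := measureReal_nonneg
  have hu0 : 0 ≤ u := measureReal_nonneg
  set X1 := ∫ x, iJ J 1 x * (iJ J k x * g x) ∂(PK P (κ.prod Un))
  set X2 := ∫ x, iJ Θ 1 x * (iJ J k x * g x) ∂(PK P (κ.prod Un))
  set Y1 := ∫ x, ∫ m, iJ J k (rs 1 (x, (m, q))) * g (rs 1 (x, (m, q))) ∂κ ∂(PK P (κ.prod Un))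
  set X4 := ∫ x, iJ Θ k x * (iJ Θ 1 x * g x) ∂(PK P (κ.prod Un))
  set Y2 := ∫ x, ∫ m, iJ Θ 1 (rs k (x, (m, q))) * g (rs k (x, (m, q))) ∂κ ∂(PK P (κ.prod Un))
  have b1 : u * X1 = v * X2 := by
    rw [a1, a2]; ring
  have b2 : u * X2 = v * X4 := by
    rw [e1, a3, a4]; ring
  calc u ^ 2 * X1 = u * (u * X1) := by ring
    _ = v * (u * X2) := by rw [b1]; ring
    _ = v ^ 2 * X4 := by rw [b2]; ring
    _ ≤ v ^ 2 * ∫ x, g x ∂(PK P (κ.prod Un)) := by gcongr

end
end Pool.Agent.H21.And
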