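import Pool.Agent.H21.And8

/-!
# Resampling a small proportion of the marks: the main inequality
-/

set_option autoImplicit false
set_option linter.unusedSectionVars false
open scoped ComplexConjugate InnerProductSpace Topology
open Filter MeasureTheory

namespace Pool.Agent.H21.And
open Pool.Agent.H712R5.BO Pool.Agent.W611.RO Pool.Agent.TH322.AC Pool.Agent.TH315.LO

section
variable {H : Type} [NormedAddCommGroup H] [InnerProductSpace ℂ H] [CompleteSpace H]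

/-- a quadratic function of one variable -/
theorem quad {R : H →L[ℂ] H} (hR : star R = R) (hnn : ∀ v, 0 ≤ (⟪v, R v⟫_ℂ).re) {w : H}
    (hw : 0 < (⟪w, R w⟫_ℂ).re) (v : H) {δ : ℝ} (hδ : 0 < δ) :
    ∃ (γ α : ℝ) (z₀ : ℂ), 0 < γ ∧ 0 < α ∧ ∀ z : ℂ,
      δ + (⟪v + z • w, R (v + z • w)⟫_ℂ).re = γ + α * ‖z - z₀‖ ^ 2 := by
  set α := (⟪w, R w⟫_ℂ).re with hα
  set β := ⟪w, R v⟫_ℂ with hβ
  have hα' : ⟪w, R w⟫_ℂ = (α : ℂ) := by
    have e1 : conj (⟪w, R w⟫_ℂ) = ⟪w, R w⟫_ℂ := by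
      rw [inner_conj_symm, inner_sa hR]
    exact (Complex.conj_eq_iff_re.1 e1).symm
  have hvw : ⟪v, R w⟫_ℂ = conj β := by
    rw [hβ, inner_conj_symm, inner_sa hR]
  have key : ∀ z : ℂ, (⟪v + z • w, R (v + z • w)⟫_ℂ).re
      = (⟪v, R v⟫_ℂ).re + 2 * (conj z * β).re + α * ‖z‖ ^ 2 := by
    intro z
    rw [map_add, map_smul, inner_add_left, inner_add_right, inner_add_right, inner_smul_left,
      inner_smul_right, inner_smul_left, inner_smul_right, hvw, hα', ← hβ]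
    have e1 : conj z * (z * (α : ℂ)) = ((α * ‖z‖ ^ 2 : ℝ) : ℂ) := by
      rw [← mul_assoc, ← Complex.normSq_eq_conj_mul_self, Complex.normSq_eq_norm_sq]
      push_cast
      ring
    have e2 : (z * conj β).re = (conj z * β).re := by
      rw [← Complex.conj_re (z * conj β), map_mul, Complex.conj_conj]
    rw [e1, Complex.add_re, Complex.add_re, Complex.add_re, e2, Complex.ofReal_re]
    ring
  set z₀ : ℂ := -(β / α) with hz₀
  set γ : ℝ := δ + (⟪v, R v⟫_ℂ).re - ‖β‖ ^ 2 / α with hγ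
  have hsq : ∀ z : ℂ, δ + (⟪v + z • w, R (v + z • w)⟫_ℂ).re = γ + α * ‖z - z₀‖ ^ 2 := by
    intro z
    rw [key, hγ]
    have e1 : ‖z - z₀‖ ^ 2 = ‖z‖ ^ 2 + 2 * (conj z * β).re / α + ‖β‖ ^ 2 / α ^ 2 := by
      have e2 : z - z₀ = z + ((α⁻¹ : ℝ) : ℂ) * β := by
        rw [hz₀, sub_neg_eq_add, div_eq_mul_inv]
        push_cast
        ring
      rw [e2, ← Complex.normSq_eq_norm_sq, ← Complex.normSq_eq_norm_sq z,
        ← Complex.normSq_eq_norm_sq β, Complex.normSq_add, map_mul, map_mul, Complex.conj_ofReal,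
        Complex.normSq_ofReal]
      have e3 : (z * (((α⁻¹ : ℝ) : ℂ) * conj β)).re = α⁻¹ * (conj z * β).re := by
        have e4 : z * (((α⁻¹ : ℝ) : ℂ) * conj β) = ((α⁻¹ : ℝ) : ℂ) * (z * conj β) := by ring
        rw [e4, Complex.re_ofReal_mul, ← Complex.conj_re (z * conj β), map_mul, Complex.conj_conj]
      rw [e3]
      field_simp
      ring
    rw [e1]
    field_simp
    ring
  refine ⟨γ, α, z₀, ?_, hw, hsq⟩
  have h1 := hsq z₀
  rw [sub_self, norm_zero] at h1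
  have h2 := hnn (v + z₀ • w)
  nlinarith

end

section
variable {G Ω H : Type} [Group G] [Countable G] [MeasurableSpace Ω] [MulAction G Ω]
  [NormedAddCommGroup H] [InnerProductSpace ℂ H] [CompleteSpace H]
  {P : Measure Ω} [IsProbabilityMeasure P] {b : HilbertBasis G ℂ H}
  {L : G → unitary (H →L[ℂ] H)}

theorem R_form {δ : ℝ} {X Pj Q Y K : CF (Ω := Ω) b L} (h : Blk δ X Pj Q Y K) (ω : Ω) (v : H) :
    (⟪v, ev b L ω (Rr Y K) v⟫_ℂ).re
      = ‖ev b L ω (Rr Y K) v‖ ^ 2 + δ * ‖ev b L ω (K * star Y) v‖ ^ 2 := by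
  have e0 : ⟪v, ev b L ω (Rr Y K) v⟫_ℂ = (((‖ev b L ω (Rr Y K) v‖ ^ 2
      + δ * ‖ev b L ω (K * star Y) v‖ ^ 2 : ℝ)) : ℂ) := by
    conv_lhs => rw [h.RR, map_add, map_mul, map_mul, map_mul, map_star, map_star, ev_alg,
      smul_mul_assoc, one_mul]
    show ⟪v, (star (ev b L ω (Rr Y K))) ((ev b L ω (Rr Y K)) v)
      + (δ : ℂ) • (star (ev b L ω (K * star Y))) ((ev b L ω (K * star Y)) v)⟫_ℂ = _
    rw [inner_add_right, inner_smul_right, ContinuousLinearMap.star_eq_adjoint,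
      ContinuousLinearMap.star_eq_adjoint,
      ContinuousLinearMap.adjoint_inner_right, ContinuousLinearMap.adjoint_inner_right,
      inner_self_eq_norm_sq_to_K, inner_self_eq_norm_sq_to_K]
    push_cast
    rfl
  rw [e0, Complex.ofReal_re]

theorem R_pos {δ : ℝ} {X Pj Q Y K : CF (Ω := Ω) b L} (h : Blk δ X Pj Q Y K) (ω : Ω) {v : H}
    (hv : v ≠ 0) : 0 < (⟪v, ev b L ω (Rr Y K) v⟫_ℂ).re := by
  rw [R_form h]
  have hδ := h.pos
  by_contra hcon
  push Not at hcon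
  have h1 : ‖ev b L ω (Rr Y K) v‖ ^ 2 = 0 := by
    refine le_antisymm ?_ (by positivity)
    have : 0 ≤ δ * ‖ev b L ω (K * star Y) v‖ ^ 2 := by positivity
    linarith
  have h2 : δ * ‖ev b L ω (K * star Y) v‖ ^ 2 = 0 := by
    refine le_antisymm ?_ (by positivity)
    have : 0 ≤ ‖ev b L ω (Rr Y K) v‖ ^ 2 := by positivity
    linarith
  have h3 : ev b L ω (Rr Y K) v = 0 := norm_eq_zero.1 (pow_eq_zero_iff two_ne_zero |>.1 h1)
  have h4 : ev b L ω (K * star Y) v = 0 := by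
    rcases mul_eq_zero.1 h2 with h5 | h5
    · exact absurd h5 hδ.ne'
    · exact norm_eq_zero.1 (pow_eq_zero_iff two_ne_zero |>.1 h5)
  have h5 : ev b L ω (Rr Y K) v = v - ev b L ω Y (ev b L ω (K * star Y) v) := by
    unfold Rr
    rw [map_sub, map_one, mul_assoc, map_mul]
    rfl
  rw [h3, h4, map_zero, sub_zero] at h5
  exact hv h5.symm

end
end Pool.Agent.H21.And
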