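import Pool.Agent.H21.Pl

/-!
# Exceptional parameters of analytic families have capacity zero

If `Y : ℂ → A` is entire and `Good τ (Y t₀)` for one `t₀`, then `Good τ (Y t)` for almost all `t` with
respect to every finite measure with bounded logarithmic potential.
-/

set_option autoImplicit false
set_option linter.unusedSectionVars false
open scoped ComplexConjugate InnerProductSpace Topology
open Filter MeasureTheory

namespace Pool.Agent.H21.Cap
open Pool.Agent.H712R5.BO Pool.Agent.W611.RO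
open Pool.Agent.H21.Smv

section
variable {A : Type} [CStarAlgebra A]

theorem uu_ge (τ : A →L[ℂ] ℂ) (hτ : TrSt τ) (X : A) {δ : ℝ} (hδ : 0 < δ) :
    Real.log δ ≤ uu τ δ X := by
  unfold uu
  rw [Pool.Agent.TH322.AC.log_cfc X hδ]
  have hsa : IsSelfAdjoint (star X * X) := IsSelfAdjoint.star_mul_self X
  have hc2 : ContinuousOn (fun x : ℝ => Real.log (δ + x)) (spectrum ℝ (star X * X)) :=
    (Pool.Agent.TH322.AC.cont_log hδ _).mono (Pool.Agent.TH322.AC.spec_le X le_rfl)
  let := CStarAlgebra.spectralOrder A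
  have := CStarAlgebra.spectralOrderedRing A
  have h1 : algebraMap ℝ A (Real.log δ) ≤ cfc (fun x : ℝ => Real.log (δ + x)) (star X * X) := by
    rw [← cfc_const (Real.log δ) (star X * X) hsa]
    refine cfc_mono (fun x hx => ?_) (by fun_prop) hc2
    have h2 := Pool.Agent.TH322.AC.spec_le X le_rfl hx
    exact Real.log_le_log hδ (by linarith [h2.1])
  have h3 := (t_D1 A τ hτ).1 _ _ h1
  rwa [D7_algMap τ hτ] at h3

theorem uu_abs (τ : A →L[ℂ] ℂ) (hτ : TrSt τ) (X : A) {δ C : ℝ} (hδ : 0 < δ) (hC : ‖X‖ ≤ C) :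
    |uu τ δ X| ≤ |Real.log δ| + |Real.log (δ + C ^ 2)| := by
  have h1 := uu_ge τ hτ X hδ
  have h2 := uu_le τ hτ X hδ hC
  rw [abs_le]
  constructor
  · have := neg_abs_le (Real.log δ)
    have := abs_nonneg (Real.log (δ + C ^ 2))
    linarith
  · have := le_abs_self (Real.log (δ + C ^ 2))
    have := abs_nonneg (Real.log δ)
    linarith

/-- The sub-mean value property for functions analytic on a larger disc. -/
theorem smv_ball (τ : A →L[ℂ] ℂ) (hτ : TrSt τ) (Ψ : ℂ → A) {R : ℝ} (hR : 1 < R)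
    (hΨ : DifferentiableOn ℂ Ψ (Metric.ball 0 R)) {δ : ℝ} (hδ : 0 < δ) :
    uu τ δ (Ψ 0) ≤ ∫ θ, uu τ δ (Ψ (ee θ)) ∂hm := by
  -- the power series
  obtain ⟨R', hR'1, hR'2⟩ := exists_between hR
  obtain ⟨r, hr1, hr2⟩ := exists_between hR'1
  have hR'0 : 0 < R' := by linarith
  lift R' to NNReal using hR'0.le
  lift r to NNReal using (by linarith)
  have hd : DifferentiableOn ℂ Ψ (Metric.closedBall 0 R') :=
    hΨ.mono (Metric.closedBall_subset_ball hR'2)
  have hps := hd.hasFPowerSeriesOnBall (by exact_mod_cast hR'0)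
  set p := cauchyPowerSeries Ψ 0 R' with hp
  have hunif : TendstoUniformlyOn (fun n y => p.partialSum n (y - 0)) Ψ atTop
      (Metric.ball (0:ℂ) r) := hps.tendstoUniformlyOn' (by exact_mod_cast hr2)
  have hpd : ∀ n, Differentiable ℂ (fun z => p.partialSum n z) := by
    intro n
    unfold FormalMultilinearSeries.partialSum
    have h1 : (fun z : ℂ => ∑ k ∈ Finset.range n, (p k) fun _ : Fin k => z)
        = fun z : ℂ => ∑ k ∈ Finset.range n, z ^ k • p.coeff k := by
      funext z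
      refine Finset.sum_congr rfl fun k _ => ?_
      rw [FormalMultilinearSeries.apply_eq_pow_smul_coeff]
    rw [h1]
    fun_prop
  have hpt : ∀ z ∈ Metric.ball (0:ℂ) r, Tendsto (fun n => p.partialSum n z) atTop (𝓝 (Ψ z)) := by
    intro z hz
    have := hunif.tendsto_at hz
    simpa using this
  have hmem : ∀ θ, ee θ ∈ Metric.ball (0:ℂ) r := fun θ => by
    rw [mem_ball_zero_iff, ee_norm]
    exact hr1
  have hcont : ContinuousOn Ψ (Metric.closedBall 0 1) :=
    (hΨ.mono (Metric.closedBall_subset_ball hR)).continuousOn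
  have hmem1 : ∀ θ, ee θ ∈ Metric.closedBall (0:ℂ) 1 := fun θ => by
    rw [mem_closedBall_zero_iff, ee_norm]
  -- bounds
  obtain ⟨C, hC⟩ := (isCompact_closedBall (0:ℂ) 1).exists_bound_of_continuousOn hcont
  have hbd : ∀ᶠ n in atTop, ∀ θ, ‖p.partialSum n (ee θ)‖ ≤ C + 1 := by
    have h1 := Metric.tendstoUniformlyOn_iff.1 hunif 1 one_pos
    filter_upwards [h1] with n hn θ
    have h2 := hn (ee θ) (hmem θ)
    rw [sub_zero, dist_eq_norm] at h2
    have h3 : p.partialSum n (ee θ) = Ψ (ee θ) - (Ψ (ee θ) - p.partialSum n (ee θ)) := by abel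
    rw [h3]
    refine (norm_sub_le _ _).trans (add_le_add (hC _ (hmem1 θ)) h2.le)
  have hlim1 : Tendsto (fun n => uu τ δ (p.partialSum n 0)) atTop (𝓝 (uu τ δ (Ψ 0))) :=
    ((uu_cont τ hδ).tendsto _).comp (hpt 0 (Metric.mem_ball_self (by linarith)))
  have hlim2 : Tendsto (fun n => ∫ θ, uu τ δ (p.partialSum n (ee θ)) ∂hm) atTop
      (𝓝 (∫ θ, uu τ δ (Ψ (ee θ)) ∂hm)) := by
    refine tendsto_integral_filter_of_norm_le_const
      (Eventually.of_forall fun n =>
        ((uu_cont τ hδ).comp ((hpd n).continuous.comp ee_cont)).aestronglyMeasurable)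
      ⟨|Real.log δ| + |Real.log (δ + (C + 1) ^ 2)|, ?_⟩ ?_
    · filter_upwards [hbd] with n hn
      refine Eventually.of_forall fun θ => ?_
      rw [Real.norm_eq_abs]
      exact uu_abs τ hτ _ hδ (hn θ)
    · refine Eventually.of_forall fun θ => ?_
      exact ((uu_cont τ hδ).tendsto _).comp (hpt (ee θ) (hmem θ))
  exact le_of_tendsto_of_tendsto' hlim1 hlim2 fun n => smv τ hτ _ (hpd n) hδ

/-! ### logarithmic potentials -/

/-- the logarithmic potential of the restriction of `ν` to `K` -/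
noncomputable def pot (ν : Measure ℂ) (K : Set ℂ) (t : ℂ) : ℝ := ∫ s in K, Real.log ‖t - s‖ ∂ν

theorem pot_int (ν : Measure ℂ) [IsFiniteMeasure ν] {K : Set ℂ} (hK : IsCompact K) {t : ℂ}
    (ht : t ∉ K) : IntegrableOn (fun s => Real.log ‖t - s‖) K ν := by
  refine ContinuousOn.integrableOn_compact hK ?_
  refine ContinuousOn.log (by fun_prop) fun s hs => ?_
  rw [norm_ne_zero_iff, sub_ne_zero]
  rintro rfl
  exact ht hs

/-- a local branch -/
theorem branch (ν : Measure ℂ) [IsFiniteMeasure ν] {K : Set ℂ} (hK : IsCompact K) {t : ℂ}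
    (ht : t ∉ K) : ∃ d : ℝ, 0 < d ∧ ∃ F : ℂ → ℂ, DifferentiableOn ℂ F (Metric.ball 0 d) ∧
      F 0 = (pot ν K t : ℂ) ∧
      ∀ z ∈ Metric.ball (0:ℂ) d, t + z ∉ K ∧ (F z).re = pot ν K (t + z) := by
  obtain ⟨e, he, hball⟩ := Metric.isOpen_iff.1 hK.isClosed.isOpen_compl t ht
  have hKe : ∀ s ∈ K, e ≤ ‖t - s‖ := by
    intro s hs
    by_contra hlt
    push Not at hlt
    have : s ∈ Metric.ball t e := by
      rw [Metric.mem_ball, dist_eq_norm, norm_sub_rev]
      exact hlt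
    exact hball this hs
  have hne : ∀ s ∈ K, t - s ≠ 0 := fun s hs h => by
    have := hKe s hs
    rw [h, norm_zero] at this
    linarith
  have hw : ∀ s ∈ K, ∀ z ∈ Metric.ball (0:ℂ) (e / 2), ‖z / (t - s)‖ ≤ 1 / 2 := by
    intro s hs z hz
    rw [mem_ball_zero_iff] at hz
    rw [norm_div, div_le_iff₀ (by linarith [hKe s hs])]
    linarith [hKe s hs]
  refine ⟨e / 2, by linarith, fun z => (pot ν K t : ℂ) + ∫ s in K,
    Complex.log (1 + z / (t - s)) ∂ν, ?_, ?_, ?_⟩
  · intro z hz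
    refine DifferentiableAt.differentiableWithinAt ?_
    refine DifferentiableAt.const_add _ ?_
    have hKm : MeasurableSet K := hK.isClosed.measurableSet
    have hd := hasDerivAt_integral_of_dominated_loc_of_deriv_le (μ := ν.restrict K)
      (F := fun z s => Complex.log (1 + z / (t - s)))
      (F' := fun z s => (1 / (t - s)) / (1 + z / (t - s))) (x₀ := z)
      (s := Metric.ball (0:ℂ) (e / 2)) (bound := fun _ => 2 / e)
      (Metric.isOpen_ball.mem_nhds hz) ?_ ?_ ?_ ?_ ?_ ?_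
    · exact hd.2.differentiableAt
    · refine Eventually.of_forall fun x => ?_
      refine Measurable.aestronglyMeasurable ?_
      fun_prop
    · refine Integrable.of_bound (C := 3 / 4) ?_ ?_
      · refine Measurable.aestronglyMeasurable ?_
        fun_prop
      · rw [ae_restrict_iff' hKm]
        refine Eventually.of_forall fun s hs => ?_
        have h1 := hw s hs z hz
        refine (Complex.norm_log_one_add_half_le_self h1).trans ?_
        linarith
    · refine Measurable.aestronglyMeasurable ?_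
      fun_prop
    · rw [ae_restrict_iff' hKm]
      refine Eventually.of_forall fun s hs x hx => ?_
      have h1 := hw s hs x hx
      have h2 : (1:ℝ) / 2 ≤ ‖1 + x / (t - s)‖ := by
        have := norm_sub_norm_le (1:ℂ) (-(x / (t - s)))
        rw [sub_neg_eq_add, norm_neg, norm_one] at this
        linarith
      rw [norm_div, norm_div, norm_one]
      calc 1 / ‖t - s‖ / ‖1 + x / (t - s)‖ ≤ 1 / e / (1 / 2) := by
            gcongr
            exact hKe s hs
        _ = 2 / e := by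
            field_simp
    · exact integrable_const _
    · rw [ae_restrict_iff' hKm]
      refine Eventually.of_forall fun s hs x hx => ?_
      have h1 := hw s hs x hx
      have h3 : HasDerivAt (fun x : ℂ => 1 + x / (t - s)) (1 / (t - s)) x := by
        simpa using ((hasDerivAt_id x).div_const (t - s)).const_add 1
      refine h3.clog ?_
      refine Complex.mem_slitPlane_of_norm_lt_one ?_
      linarith
  · simp
  · intro z hz
    have hzK : t + z ∉ K := by
      refine fun hmem => hball ?_ hmem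
      rw [Metric.mem_ball, dist_eq_norm, add_sub_cancel_left]
      rw [mem_ball_zero_iff] at hz
      linarith
    refine ⟨hzK, ?_⟩
    have hKm : MeasurableSet K := hK.isClosed.measurableSet
    have hint : IntegrableOn (fun s => Complex.log (1 + z / (t - s))) K ν := by
      refine Integrable.of_bound (C := 3 / 4) ?_ ?_
      · refine Measurable.aestronglyMeasurable ?_
        fun_prop
      · rw [ae_restrict_iff' hKm]
        refine Eventually.of_forall fun s hs => ?_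
        have h1 := hw s hs z hz
        refine (Complex.norm_log_one_add_half_le_self h1).trans ?_
        linarith
    rw [Complex.add_re, Complex.ofReal_re]
    have h4 : (∫ s in K, Complex.log (1 + z / (t - s)) ∂ν).re
        = ∫ s in K, (Complex.log (1 + z / (t - s))).re ∂ν := (integral_re hint).symm
    rw [h4]
    unfold pot
    have hre : Integrable (fun s => (Complex.log (1 + z / (t - s))).re) (ν.restrict K) := hint.re
    rw [← integral_add (pot_int ν hK ht) hre]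
    refine setIntegral_congr_fun hKm fun s hs => ?_
    show Real.log ‖t - s‖ + (Complex.log (1 + z / (t - s))).re = Real.log ‖t + z - s‖
    have h5 := hne s hs
    have h6 : (1:ℂ) + z / (t - s) = (t + z - s) / (t - s) := by
      field_simp
      ring
    have h7 : t + z - s ≠ 0 := by
      rw [sub_ne_zero]
      rintro rfl
      exact hzK hs
    rw [Complex.log_re, h6, norm_div, Real.log_div (norm_ne_zero_iff.2 h7) (norm_ne_zero_iff.2 h5)]
    ring

theorem pot_cont (ν : Measure ℂ) [IsFiniteMeasure ν] {K : Set ℂ} (hK : IsCompact K) {t : ℂ}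
    (ht : t ∉ K) : ContinuousAt (pot ν K) t := by
  obtain ⟨d, hd, F, hF, -, h2⟩ := branch ν hK ht
  have h1 : ContinuousAt (fun z => (F z).re) 0 :=
    Complex.continuous_re.continuousAt.comp
      (hF.continuousOn.continuousAt (Metric.isOpen_ball.mem_nhds (Metric.mem_ball_self hd)))
  have h3 : ContinuousAt (fun z => pot ν K (t + z)) 0 := by
    refine h1.congr ?_
    filter_upwards [Metric.isOpen_ball.mem_nhds (Metric.mem_ball_self hd)] with z hz
    exact (h2 z hz).2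
  have h4 : pot ν K = (fun z => pot ν K (t + z)) ∘ fun s => s - t := by
    funext s
    simp
  rw [h4]
  refine ContinuousAt.comp ?_ (by fun_prop)
  simpa using h3

/-- lower bound -/
theorem pot_ge (ν : Measure ℂ) [IsFiniteMeasure ν] {C : ℝ} (hC : 0 ≤ C)
    (hν : ∀ t : ℂ, ∫⁻ s, ENNReal.ofReal (-Real.log ‖t - s‖) ∂ν ≤ ENNReal.ofReal C) {K : Set ℂ}
    (hK : IsCompact K) {t : ℂ} (ht : t ∉ K) : -C ≤ pot ν K t := by
  unfold pot
  rw [integral_eq_lintegral_pos_part_sub_lintegral_neg_part (pot_int ν hK ht)]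
  have h1 : ∫⁻ s in K, ENNReal.ofReal (-Real.log ‖t - s‖) ∂ν ≤ ENNReal.ofReal C :=
    (setLIntegral_le_lintegral _ _).trans (hν t)
  have h2 : (∫⁻ s in K, ENNReal.ofReal (-Real.log ‖t - s‖) ∂ν).toReal ≤ C := by
    have := ENNReal.toReal_mono ENNReal.ofReal_ne_top h1
    rwa [ENNReal.toReal_ofReal hC] at this
  have h3 : 0 ≤ (∫⁻ s in K, ENNReal.ofReal (Real.log ‖t - s‖) ∂ν).toReal := ENNReal.toReal_nonneg
  linarith

/-- continuous functions on the circle with large mean -/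
theorem eq_of_mean (g : Cir → ℝ) (hg : Continuous g) (m : ℝ) (h1 : ∀ θ, g θ ≤ m)
    (h2 : m ≤ ∫ θ, g θ ∂hm) (θ : Cir) : g θ = m := by
  have hint : Integrable g hm :=
    hg.integrable_of_hasCompactSupport (HasCompactSupport.of_compactSpace _)
  have h3 : ∫ θ, (m - g θ) ∂hm = 0 := by
    refine le_antisymm ?_ (integral_nonneg fun θ => sub_nonneg.2 (h1 θ))
    rw [integral_sub (integrable_const _) hint, integral_const]
    simp only [probReal_univ, one_smul]
    linarith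
  have h4 := (integral_eq_zero_iff_of_nonneg (fun θ => sub_nonneg.2 (h1 θ))
    ((integrable_const m).sub hint)).1 h3
  have h5 := (Continuous.ae_eq_iff_eq hm (continuous_const.sub hg) continuous_zero).1 h4
  have h6 : m - g θ = 0 := congrFun h5 θ
  linarith

/-- **The exceptional set has capacity zero.** -/
theorem polar {τ : A →L[ℂ] ℂ} (hτ : TrSt τ) (Y : ℂ → A) (hY : Differentiable ℂ Y) (t₀ : ℂ)
    (hG : Good τ (Y t₀)) (ν : Measure ℂ) [IsFiniteMeasure ν] {C : ℝ} (hC : 0 ≤ C)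
    (hν : ∀ t : ℂ, ∫⁻ s, ENNReal.ofReal (-Real.log ‖t - s‖) ∂ν ≤ ENNReal.ofReal C) :
    ∀ᵐ t ∂ν, Good τ (Y t) := by
  by_contra hcon
  have hEm : MeasurableSet {t : ℂ | ¬ Good τ (Y t)} := (good_meas hτ Y hY.continuous).compl
  have hE0 : 0 < ν {t : ℂ | ¬ Good τ (Y t)} := pos_iff_ne_zero.2 fun h => hcon h
  obtain ⟨K, hKE, hK, hKν⟩ := hEm.exists_lt_isCompact hE0
  have ht₀K : t₀ ∉ K := fun h => hKE h hG
  set m : ℝ := ν.real K with hm'
  have hm0 : 0 < m := ENNReal.toReal_pos hKν.ne' (measure_ne_top _ _)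
  obtain ⟨Rk, hRk⟩ := hK.isBounded.exists_norm_le
  have hRk0 : 0 ≤ |Rk| := abs_nonneg _
  have hRk' : ∀ s ∈ K, ‖s‖ ≤ |Rk| := fun s hs => (hRk s hs).trans (le_abs_self _)
  have hKm : MeasurableSet K := hK.isClosed.measurableSet
  -- the radius
  obtain ⟨R, hR1, hR2, hR3⟩ : ∃ R : ℝ, |Rk| + 1 < R ∧ ‖t₀‖ < R ∧
      pot ν K t₀ + 1 ≤ m * Real.log (R - |Rk|) := by
    have h1 : Tendsto (fun R : ℝ => m * Real.log (R - |Rk|)) atTop atTop :=
      (Real.tendsto_log_atTop.comp (tendsto_atTop_add_const_right _ (-|Rk|)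
        tendsto_id)).const_mul_atTop hm0
    obtain ⟨R, hR⟩ := ((h1.eventually_ge_atTop (pot ν K t₀ + 1)).and
      ((eventually_gt_atTop (|Rk| + 1)).and (eventually_gt_atTop ‖t₀‖))).exists
    exact ⟨R, hR.2.1, hR.2.2, hR.1⟩
  -- the bound of `Y`
  obtain ⟨M, hM0, hM⟩ : ∃ M : ℝ, 0 ≤ M ∧ ∀ t, ‖t‖ ≤ R → ‖Y t‖ ≤ M := by
    obtain ⟨M, hM⟩ := (isCompact_closedBall (0:ℂ) R).exists_bound_of_continuousOn
      hY.continuous.continuousOn
    exact ⟨|M|, abs_nonneg _, fun t ht => (hM t (by rwa [mem_closedBall_zero_iff])).trans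
      (le_abs_self _)⟩
  obtain ⟨c, κ, hc, hκ, hdet⟩ := hG.ne_zero hτ
  set h₀ : ℝ := Real.log ‖c‖ with hh₀
  set ε : ℝ := κ - h₀ with hε
  have hε0 : 0 < ε := by rw [hε]; linarith
  -- the slope
  obtain ⟨β, hβ0, hβ1, hβ2⟩ : ∃ β : ℝ, 0 < β ∧ M * Real.exp (-(h₀ + β)) ≤ 1 ∧
      M * Real.exp (-(h₀ + β)) ≤ ε / 8 := by
    have h1 : Tendsto (fun β : ℝ => M * Real.exp (-(h₀ + β))) atTop (𝓝 (M * 0)) :=
      (Real.tendsto_exp_atBot.comp (tendsto_neg_atTop_atBot.comp
        (tendsto_atTop_add_const_left _ h₀ tendsto_id))).const_mul M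
    rw [mul_zero] at h1
    have h2 := (h1.eventually (gt_mem_nhds (show (0:ℝ) < 1 by norm_num))).and
      ((h1.eventually (gt_mem_nhds (show (0:ℝ) < ε / 8 by linarith))).and
        (eventually_gt_atTop (0:ℝ)))
    obtain ⟨β, hβ⟩ := h2.exists
    exact ⟨β, hβ.2.2, hβ.1.le, hβ.2.1.le⟩
  set H : ℂ → ℝ := fun t => h₀ + β * (pot ν K t - pot ν K t₀) with hH
  have hHt₀ : H t₀ = h₀ := by rw [hH]; simp
  set h₁ : ℝ := h₀ + β * (-C - pot ν K t₀) with hh₁
  set h₂ : ℝ := h₀ + β * (m * Real.log (R + |Rk| + 1) - pot ν K t₀) with hh₂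
  have hH1 : ∀ t, t ∉ K → h₁ ≤ H t := by
    intro t ht
    have := pot_ge ν hC hν hK ht
    rw [hh₁, hH]
    dsimp only
    gcongr
  have hH2 : ∀ t, t ∉ K → ‖t‖ ≤ R → H t ≤ h₂ := by
    intro t ht htR
    rw [hh₂, hH]
    have h3 : pot ν K t ≤ m * Real.log (R + |Rk| + 1) := by
      have h4 : pot ν K t ≤ ∫ _s in K, Real.log (R + |Rk| + 1) ∂ν := by
        refine setIntegral_mono_on (pot_int ν hK ht) (integrable_const _) hKm fun s hs => ?_
        refine Real.log_le_log ?_ ?_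
        · rw [norm_pos_iff, sub_ne_zero]
          rintro rfl
          exact ht hs
        · refine (norm_sub_le _ _).trans ?_
          linarith [hRk' s hs]
      rwa [setIntegral_const, smul_eq_mul] at h4
    dsimp only
    gcongr
  have hH3 : ∀ t, ‖t‖ = R → h₀ + β ≤ H t := by
    intro t htR
    have ht : t ∉ K := fun h => by
      have := hRk' t h
      linarith
    rw [hH]
    have h3 : m * Real.log (R - |Rk|) ≤ pot ν K t := by
      have h4 : ∫ _s in K, Real.log (R - |Rk|) ∂ν ≤ pot ν K t := by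
        refine setIntegral_mono_on (integrable_const _) (pot_int ν hK ht) hKm fun s hs => ?_
        refine Real.log_le_log (by linarith) ?_
        have := norm_sub_norm_le t s
        linarith [hRk' s hs]
      rwa [setIntegral_const, smul_eq_mul] at h4
    have h5 : β * 1 ≤ β * (pot ν K t - pot ν K t₀) := by
      gcongr
      linarith
    dsimp only
    linarith
  have hHc : ∀ t, t ∉ K → ContinuousAt H t := by
    intro t ht
    rw [hH]
    exact continuousAt_const.add (continuousAt_const.mul ((pot_cont ν hK ht).sub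
      continuousAt_const))
  -- the functions
  set g : ℝ → ℂ × (ℝ × Cir) → ℝ := fun δ x =>
    uu τ δ (((Real.exp (-x.2.1) : ℝ) : ℂ) • Y x.1 - ee x.2.2 • (1 : A)) with hg
  have hgc : ∀ δ : ℝ, 0 < δ → Continuous (g δ) := by
    intro δ hδ
    rw [hg]
    refine (uu_cont τ hδ).comp ?_
    refine Continuous.sub ?_ ?_
    · refine Continuous.smul ?_ (hY.continuous.comp continuous_fst)
      exact Complex.continuous_ofReal.comp (Real.continuous_exp.comp
        (continuous_fst.comp continuous_snd).neg)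
    · exact (ee_cont.comp (continuous_snd.comp continuous_snd)).smul continuous_const
  -- compactness near `K`
  have hcomp : IsCompact (K ×ˢ (Set.Icc h₁ h₂ ×ˢ (Set.univ : Set Cir))) :=
    hK.prod (isCompact_Icc.prod isCompact_univ)
  obtain ⟨n, hn⟩ : ∃ n : ℕ, K ×ˢ (Set.Icc h₁ h₂ ×ˢ (Set.univ : Set Cir))
      ⊆ {x | g (1 / ((n : ℝ) + 1)) x < ε} := by
    refine hcomp.elim_directed_cover (fun n : ℕ => {x | g (1 / ((n : ℝ) + 1)) x < ε})
      (fun n => isOpen_lt (hgc _ (by positivity)) continuous_const) ?_ ?_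
    · rintro ⟨t, h, φ⟩ ⟨ht, -⟩
      rw [Set.mem_iUnion]
      have hbad : ¬ Good τ (((Real.exp (-h) : ℝ) : ℂ) • Y t) := fun hg' =>
        hKE ht (hg'.of_smul hτ (by exact_mod_cast (Real.exp_pos _).ne'))
      unfold Good at hbad
      push Not at hbad
      obtain ⟨δ, hδ, hlt⟩ := hbad (ee φ) (ε / 2) (by
        rw [ee_norm]
        exact Real.one_lt_exp_iff.2 (by linarith))
      obtain ⟨n, hn⟩ := exists_nat_one_div_lt hδ
      refine ⟨n, ?_⟩
      have h5 := uu_mono τ hτ (((Real.exp (-h) : ℝ) : ℂ) • Y t - ee φ • (1 : A))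
        (show (0:ℝ) < 1 / ((n : ℝ) + 1) by positivity) hn.le
      show uu τ (1 / ((n : ℝ) + 1)) (((Real.exp (-h) : ℝ) : ℂ) • Y t - ee φ • (1 : A)) < ε
      linarith
    · refine directed_of_isDirected_le ?_
      intro a b hab x hx
      have hx' : g (1 / ((a : ℝ) + 1)) x < ε := hx
      have h5 : g (1 / ((b : ℝ) + 1)) x ≤ g (1 / ((a : ℝ) + 1)) x := by
        refine uu_mono τ hτ _ (by positivity) ?_
        have : (a:ℝ) ≤ b := by exact_mod_cast hab
        exact one_div_le_one_div_of_le (by positivity) (by linarith)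
      exact lt_of_le_of_lt h5 hx'
  set δ : ℝ := min (1 / ((n : ℝ) + 1)) (ε / 2) with hδ
  have hδ0 : 0 < δ := by
    rw [hδ]
    refine lt_min (by positivity) (by linarith)
  have hδ1 : δ ≤ 1 / ((n : ℝ) + 1) := min_le_left _ _
  have hδ2 : δ ≤ ε / 2 := min_le_right _ _
  have hsub : K ×ˢ (Set.Icc h₁ h₂ ×ˢ (Set.univ : Set Cir)) ⊆ {x | g δ x < ε} := by
    intro x hx
    have h5 : g (1 / ((n : ℝ) + 1)) x < ε := hn hx
    exact lt_of_le_of_lt (uu_mono τ hτ _ hδ0 hδ1) h5
  obtain ⟨U, V, hUo, -, hKU, hV, hUV⟩ := generalized_tube_lemma hK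
    (isCompact_Icc.prod isCompact_univ) (isOpen_lt (hgc δ hδ0) continuous_const) hsub
  -- the function on the complement of `K`
  set f : ℂ × Cir → ℝ := fun x => g δ (x.1, H x.1, x.2) with hf
  have hfU : ∀ t φ, t ∈ U → t ∉ K → ‖t‖ ≤ R → f (t, φ) < ε := by
    intro t φ htU htK htR
    exact hUV ⟨htU, hV ⟨⟨hH1 t htK, hH2 t htK htR⟩, Set.mem_univ _⟩⟩
  have hfR : ∀ t φ, ‖t‖ = R → f (t, φ) ≤ ε := by
    intro t φ htR
    have h3 := hH3 t htR
    set a : ℝ := M * Real.exp (-(h₀ + β)) with ha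
    have ha0 : 0 ≤ a := by positivity
    have h4 : ‖((Real.exp (-(H t)) : ℝ) : ℂ) • Y t - ee φ • (1 : A)‖ ≤ 1 + a := by
      have h5 : ‖(1 : A)‖ ≤ 1 := by
        rcases subsingleton_or_nontrivial A with hA | hA
        · rw [Subsingleton.elim (1 : A) 0, norm_zero]; exact zero_le_one
        · exact CStarRing.norm_one.le
      have h6 : ‖ee φ • (1 : A)‖ ≤ 1 := by
        rw [norm_smul, ee_norm, one_mul]
        exact h5
      have h7 : ‖((Real.exp (-(H t)) : ℝ) : ℂ) • Y t‖ ≤ a := by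
        rw [norm_smul, Complex.norm_real, Real.norm_eq_abs, abs_of_pos (Real.exp_pos _), ha,
          mul_comm]
        refine mul_le_mul (hM t htR.le) (Real.exp_le_exp.2 (by linarith)) (Real.exp_pos _).le hM0
      refine (norm_sub_le _ _).trans ?_
      linarith
    have h8 : f (t, φ) ≤ Real.log (δ + (1 + a) ^ 2) := uu_le τ hτ _ hδ0 h4
    have h9 : δ + (1 + a) ^ 2 ≤ 1 + ε := by nlinarith
    have h10 : Real.log (δ + (1 + a) ^ 2) ≤ ε := by
      have := Real.log_le_sub_one_of_pos (show 0 < δ + (1 + a) ^ 2 by positivity)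
      linarith
    exact h8.trans h10
  -- the value at `t₀`
  obtain ⟨φ₀, hφ₀⟩ : ∃ φ₀ : Cir, (‖c‖ : ℂ) * ee φ₀ = c :=
    ⟨((Complex.arg c / (2 * Real.pi) : ℝ) : Cir), by
      rw [ee_coe]
      exact Complex.norm_mul_exp_arg_mul_I c⟩
  have hf₀ : 2 * ε ≤ f (t₀, φ₀) := by
    have hc0 : 0 < ‖c‖ := norm_pos_iff.2 hc
    have e1 : ((Real.exp (-(H t₀)) : ℝ) : ℂ) • Y t₀ - ee φ₀ • (1 : A)
        = ((‖c‖⁻¹ : ℝ) : ℂ) • (Y t₀ - c • (1 : A)) := by
      have e2 : Real.exp (-(H t₀)) = ‖c‖⁻¹ := by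
        rw [hHt₀, hh₀, Real.exp_neg, Real.exp_log hc0]
      rw [e2, smul_sub, smul_smul]
      congr 2
      calc ee φ₀ = ((‖c‖⁻¹ : ℝ) : ℂ) * ((‖c‖ : ℂ) * ee φ₀) := by
            rw [← mul_assoc, ← Complex.ofReal_mul, inv_mul_cancel₀ hc0.ne', Complex.ofReal_one,
              one_mul]
        _ = ((‖c‖⁻¹ : ℝ) : ℂ) * c := by rw [hφ₀]
    have e3 : f (t₀, φ₀) = uu τ δ (((‖c‖⁻¹ : ℝ) : ℂ) • (Y t₀ - c • (1 : A))) := by
      rw [← e1]
    rw [e3, uu_smul τ hτ _ hδ0 _ (by exact_mod_cast (inv_pos.2 hc0).ne')]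
    have e4 : ‖((‖c‖⁻¹ : ℝ) : ℂ)‖ = ‖c‖⁻¹ := by
      rw [Complex.norm_real, Real.norm_eq_abs, abs_of_pos (inv_pos.2 hc0)]
    rw [e4, Real.log_inv]
    have e5 := hdet (δ / ‖c‖⁻¹ ^ 2) (by positivity)
    linarith
  -- the maximum
  set X₀ : Set (ℂ × Cir) := (Metric.closedBall 0 R \ U) ×ˢ (Set.univ : Set Cir) with hX₀
  have hX₀c : IsCompact X₀ :=
    ((isCompact_closedBall (0:ℂ) R).diff hUo).prod isCompact_univ
  have ht₀U : t₀ ∉ U := fun h => by
    have := hfU t₀ φ₀ h ht₀K hR2.le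
    linarith
  have hx₀ : (t₀, φ₀) ∈ X₀ := ⟨⟨by rw [mem_closedBall_zero_iff]; exact hR2.le, ht₀U⟩,
    Set.mem_univ _⟩
  have hfc : ContinuousOn f X₀ := by
    rintro ⟨t, φ⟩ ⟨⟨-, htU⟩, -⟩
    have htK : t ∉ K := fun h => htU (hKU h)
    refine ContinuousAt.continuousWithinAt ?_
    have hin1 : ContinuousAt (fun x : ℂ × Cir => H x.1) (t, φ) :=
      ContinuousAt.comp (f := fun x : ℂ × Cir => x.1) (g := H) (hHc t htK) continuousAt_fst
    have hin : ContinuousAt (fun x : ℂ × Cir => (x.1, (H x.1, x.2))) (t, φ) :=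
      continuousAt_fst.prodMk (hin1.prodMk continuousAt_snd)
    exact ContinuousAt.comp (g := g δ) (f := fun x : ℂ × Cir => (x.1, (H x.1, x.2)))
      (hgc δ hδ0).continuousAt hin
  obtain ⟨x₁, hx₁, hmax⟩ := hX₀c.exists_isMaxOn ⟨_, hx₀⟩ hfc
  set μ : ℝ := f x₁ with hμ
  have hμ0 : 2 * ε ≤ μ := hf₀.trans (hmax hx₀)
  have hle : ∀ t φ, t ∉ K → ‖t‖ ≤ R → f (t, φ) ≤ μ := by
    intro t φ htK htR
    by_cases htU : t ∈ U
    · have := hfU t φ htU htK htR
      linarith
    · exact hmax ⟨⟨by rw [mem_closedBall_zero_iff]; exact htR, htU⟩, Set.mem_univ _⟩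
  set S : Set (ℂ × Cir) := {x ∈ X₀ | f x = μ} with hS
  have hSc : IsCompact S := by
    refine hX₀c.of_isClosed_subset ?_ (fun x hx => hx.1)
    have := hfc.preimage_isClosed_of_isClosed hX₀c.isClosed (isClosed_singleton (x := μ))
    exact this
  obtain ⟨⟨t₁, φ₁⟩, hS₁, hre⟩ := hSc.exists_isMaxOn ⟨x₁, hx₁, rfl⟩
    (f := fun x : ℂ × Cir => x.1.re) (by fun_prop)
  obtain ⟨⟨⟨ht₁R, ht₁U⟩, -⟩, hft₁⟩ := hS₁
  rw [mem_closedBall_zero_iff] at ht₁R
  have ht₁K : t₁ ∉ K := fun h => ht₁U (hKU h)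
  have ht₁R' : ‖t₁‖ < R := by
    refine lt_of_le_of_ne ht₁R fun h => ?_
    have h3 := hfR t₁ φ₁ h
    have h4 : f (t₁, φ₁) = μ := hft₁
    linarith
  obtain ⟨d, hd, F, hFd, hF0, hF⟩ := branch ν hK ht₁K
  -- the circle
  set ρ : ℝ := min (d / 2) (R - ‖t₁‖) with hρ
  have hρ0 : 0 < ρ := lt_min (by linarith) (by linarith)
  have hρ1 : ρ ≤ d / 2 := min_le_left _ _
  have hρ2 : ρ ≤ R - ‖t₁‖ := min_le_right _ _
  set Gf : ℂ → ℂ := fun z => (h₀ : ℂ) + β * (F ((ρ : ℂ) * z) - pot ν K t₀) with hGf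
  set Ψ : ℂ → A := fun z => Complex.exp (-(Gf z)) • Y (t₁ + ρ * z) - ee φ₁ • (1 : A) with hΨ
  have hsc : ∀ z ∈ Metric.ball (0:ℂ) 2, (ρ : ℂ) * z ∈ Metric.ball (0:ℂ) d := by
    intro z hz
    rw [mem_ball_zero_iff] at hz ⊢
    rw [norm_mul, Complex.norm_real, Real.norm_eq_abs, abs_of_pos hρ0]
    calc ρ * ‖z‖ < ρ * 2 := mul_lt_mul_of_pos_left hz hρ0
      _ ≤ d := by linarith
  have hGd : DifferentiableOn ℂ Gf (Metric.ball 0 2) := by
    rw [hGf]
    have h3 : DifferentiableOn ℂ (fun z : ℂ => F ((ρ : ℂ) * z)) (Metric.ball 0 2) :=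
      hFd.comp (by fun_prop) hsc
    exact (differentiableOn_const _).add ((differentiableOn_const _).mul
      (h3.sub (differentiableOn_const _)))
  have hΨd : DifferentiableOn ℂ Ψ (Metric.ball 0 2) := by
    rw [hΨ]
    have h3 : Differentiable ℂ fun z : ℂ => Y (t₁ + ρ * z) := hY.comp (by fun_prop)
    exact ((hGd.neg.cexp).smul h3.differentiableOn).sub_const _
  have hGre : ∀ z ∈ Metric.ball (0:ℂ) 2, (Gf z).re = H (t₁ + ρ * z) := by
    intro z hz
    have h3 := (hF _ (hsc z hz)).2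
    rw [hGf, hH]
    dsimp only
    rw [Complex.add_re, Complex.ofReal_re, Complex.re_ofReal_mul, Complex.sub_re,
      Complex.ofReal_re, h3]
  -- the values
  have hval : ∀ z ∈ Metric.ball (0:ℂ) 2, ∃ φ : Cir, uu τ δ (Ψ z) = f (t₁ + ρ * z, φ) := by
    intro z hz
    set θ₁ : Cir := (((Gf z).im / (2 * Real.pi) : ℝ) : Cir) with hθ₁
    refine ⟨φ₁ + θ₁, ?_⟩
    have e1 : Complex.exp (-(Gf z)) = ee (-θ₁) * ((Real.exp (-(H (t₁ + ρ * z))) : ℝ) : ℂ) := by
      have e2 : ee (-θ₁) = Complex.exp (((-(Gf z).im : ℝ) : ℂ) * Complex.I) := by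
        rw [← ee_coe]
        congr 1
        rw [hθ₁, ← AddCircle.coe_neg]
        congr 1
        ring
      rw [e2, ← hGre z hz, Complex.ofReal_exp, ← Complex.exp_add]
      congr 1
      nth_rewrite 1 [← Complex.re_add_im (Gf z)]
      push_cast
      ring
    have e3 : Ψ z = ee (-θ₁) • (((Real.exp (-(H (t₁ + ρ * z))) : ℝ) : ℂ) • Y (t₁ + ρ * z)
        - ee (φ₁ + θ₁) • (1 : A)) := by
      rw [hΨ]
      dsimp only
      rw [e1, smul_sub, smul_smul, smul_smul, ← ee_add]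
      congr 3
      abel
    rw [e3, uu_smul τ hτ _ hδ0 _ (ee_ne _), ee_norm, Real.log_one]
    simp only [mul_zero, zero_add, one_pow, div_one]
    rfl
  have hcirc : ∀ θ, ee θ ∈ Metric.ball (0:ℂ) 2 := fun θ => by
    rw [mem_ball_zero_iff, ee_norm]
    norm_num
  have hpt : ∀ θ, t₁ + ρ * ee θ ∉ K ∧ ‖t₁ + ρ * ee θ‖ ≤ R := by
    intro θ
    refine ⟨(hF _ (hsc _ (hcirc θ))).1, (norm_add_le _ _).trans ?_⟩
    rw [norm_mul, ee_norm, mul_one, Complex.norm_real, Real.norm_eq_abs, abs_of_pos hρ0]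
    linarith
  have h0 : uu τ δ (Ψ 0) = μ := by
    have h3 : f (t₁, φ₁) = μ := hft₁
    rw [← h3]
    have h4 : Gf 0 = ((H t₁ : ℝ) : ℂ) := by
      rw [hGf, hH]
      dsimp only
      rw [mul_zero, hF0]
      push_cast
      ring
    have h5 : Ψ 0 = ((Real.exp (-(H t₁)) : ℝ) : ℂ) • Y t₁ - ee φ₁ • (1 : A) := by
      rw [hΨ]
      dsimp only
      rw [h4, mul_zero, add_zero]
      push_cast
      rfl
    rw [h5]
  have hmean := smv_ball τ hτ Ψ (by norm_num : (1:ℝ) < 2) hΨd hδ0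
  rw [h0] at hmean
  have hΨc : Continuous fun θ : Cir => uu τ δ (Ψ (ee θ)) := by
    refine (uu_cont τ hδ0).comp ?_
    exact hΨd.continuousOn.comp_continuous ee_cont hcirc
  have hall := eq_of_mean (fun θ => uu τ δ (Ψ (ee θ))) hΨc μ (fun θ => by
    obtain ⟨φ, hφ⟩ := hval (ee θ) (hcirc θ)
    rw [hφ]
    exact hle _ _ (hpt θ).1 (hpt θ).2) hmean 0
  obtain ⟨φ, hφ⟩ := hval (ee 0) (hcirc 0)
  have hall : uu τ δ (Ψ (ee 0)) = μ := hall
  rw [hφ] at hall
  have hee0 : ee (0 : Cir) = 1 := by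
    unfold ee
    simp
  have hnU : t₁ + ρ * ee 0 ∉ U := fun h => by
    have := hfU _ φ h (hpt 0).1 (hpt 0).2
    linarith
  have hmem : (t₁ + ρ * ee 0, φ) ∈ S :=
    ⟨⟨⟨by rw [mem_closedBall_zero_iff]; exact (hpt 0).2, hnU⟩, Set.mem_univ _⟩, hall⟩
  have hfin := hre hmem
  simp only [hee0, mul_one, Set.mem_ofPred_eq, Complex.add_re, Complex.ofReal_re] at hfin
  linarith

end
end Pool.Agent.H21.Cap
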