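import Pool.Agent.H21.DAbs

/-!
# Determinant criterion and moment criterion

Criteria for the existence of hyperinvariant subspaces of almost all values of an element of a
disintegrated tracial C*-algebra: if the determinant of `T - c` is larger than `|τ(T) - c|` for some
`c` (the Brown measure of `T` is not a point mass), in particular if `τ(T^n) ≠ τ(T)^n` for some `n`.
-/

set_option autoImplicit false
set_option linter.unusedSectionVars false
open scoped ComplexConjugate InnerProductSpace Topology BoundedContinuousFunction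
open Filter MeasureTheory

namespace Pool.Agent.H21.DCrit
open Pool.Agent.H712R5.BO Pool.Agent.W611.RO Pool.Agent.TH322.AC
open Pool.Agent.H21.DAbs
open Pool.Agent.TH315.LO (logdet_pow logdet_mul logdet_star hyp_shift)

/-- hyperinvariant subspaces of an operator in the bicommutant -/
theorem hyp_of_comm {H : Type} [NormedAddCommGroup H] [NormedSpace ℂ H] (T Y : H →L[ℂ] H)
    (h : ∀ Q : H →L[ℂ] H, Q * T = T * Q → Q * Y = Y * Q) (hY : HasHyp Y) : HasHyp T := by
  obtain ⟨V, h1, h2, h3, h4⟩ := hY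
  exact ⟨V, h1, h2, h3, fun R hR x hx => h4 R (h R hR) x hx⟩

section
variable {A : Type} [CStarAlgebra A]

/-- the determinants of exponentials -/
theorem exp_logdet (τ : A →L[ℂ] ℂ) (hτ : TrSt τ) (X : A) (hX : τ X = 0) (k : ℕ) {δ : ℝ}
    (hδ : 0 < δ) :
    0 ≤ (τ (CFC.log (algebraMap ℝ A δ
      + star (NormedSpace.exp X ^ k) * NormedSpace.exp X ^ k))).re := by
  let := CStarAlgebra.spectralOrder A
  have := CStarAlgebra.spectralOrderedRing A
  let _ : NormedAlgebra ℚ A := NormedAlgebra.restrictScalars ℚ ℂ A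
  have hB2 : P_B2 := t_B2 t_B2a t_B1
  have hB13 : P_B13 := t_B13 hB2
  obtain ⟨-, hmono⟩ := t_D1 A τ hτ
  have e1 : NormedSpace.exp X ^ k = NormedSpace.exp (k • X) := (NormedSpace.exp_nsmul k X).symm
  rw [e1]
  set Y : A := NormedSpace.exp (k • X) with hY
  have hu : IsUnit Y := NormedSpace.isUnit_exp _
  have hpos : IsStrictlyPositive (star Y * Y) := ⟨star_mul_self_nonneg _, hu.star.mul hu⟩
  have hle : star Y * Y ≤ algebraMap ℝ A δ + star Y * Y := by
    have h1 : (0 : A) ≤ algebraMap ℝ A δ := by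
      have := algebraMap_mono A hδ.le
      rwa [map_zero] at this
    exact le_add_of_nonneg_left h1
  have h2 := hmono _ _ hpos hle
  have h3 := hB13 A τ hτ (k • X)
  have h4 : τ (k • X) = 0 := by
    rw [map_nsmul, hX, smul_zero]
  rw [h4, Complex.zero_re, mul_zero] at h3
  have h5 : (τ (CFC.log (star Y * Y))).re = 0 := h3
  linarith

theorem exp_moments (τ : A →L[ℂ] ℂ) (S : A) (h : ∀ z w : ℂ,
    τ (NormedSpace.exp (z • S)) = τ (NormedSpace.exp (w • S))) (n : ℕ) (z : ℂ) :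
    τ (NormedSpace.exp (z • S) * S ^ (n + 1)) = 0 := by
  let _ : NormedAlgebra ℚ A := NormedAlgebra.restrictScalars ℚ ℂ A
  have hd : ∀ (n : ℕ) (z : ℂ), HasDerivAt (fun z : ℂ => τ (NormedSpace.exp (z • S) * S ^ n))
      (τ (NormedSpace.exp (z • S) * S ^ (n + 1))) z := by
    intro n z
    have h1 := (hasDerivAt_exp_smul_const (𝕂 := ℂ) S z).mul_const (S ^ n)
    have h2 := τ.hasFDerivAt.comp_hasDerivAt z h1
    rw [mul_assoc, ← pow_succ'] at h2
    exact h2
  induction n generalizing z with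
  | zero =>
    have h1 := hd 0 z
    have h2 : (fun z : ℂ => τ (NormedSpace.exp (z • S) * S ^ 0))
        = fun _ => τ (NormedSpace.exp ((0:ℂ) • S)) := by
      funext z
      rw [pow_zero, mul_one]
      exact h z 0
    rw [h2] at h1
    exact h1.unique (hasDerivAt_const z _)
  | succ n ih =>
    have h1 := hd (n + 1) z
    have h2 : (fun z : ℂ => τ (NormedSpace.exp (z • S) * S ^ (n + 1))) = fun _ => 0 := by
      funext z
      exact ih z
    rw [h2] at h1
    exact h1.unique (hasDerivAt_const z _)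

/-- an exponential of trace smaller than one -/
theorem exists_small (τ : A →L[ℂ] ℂ) (S : A) (n : ℕ) (hn : 1 ≤ n)
    (h : τ (S ^ n) ≠ 0) : ∃ z : ℂ, ‖τ (NormedSpace.exp (z • S))‖ < 1 := by
  let _ : NormedAlgebra ℚ A := NormedAlgebra.restrictScalars ℚ ℂ A
  by_contra hcon
  push Not at hcon
  have hd : Differentiable ℂ (fun z : ℂ => τ (NormedSpace.exp (z • S))) := by
    intro z
    exact (τ.hasFDerivAt.comp_hasDerivAt z
      (hasDerivAt_exp_smul_const (𝕂 := ℂ) S z)).differentiableAt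
  have h0 : ∀ z : ℂ, τ (NormedSpace.exp (z • S)) ≠ 0 := by
    intro z hz
    have := hcon z
    rw [hz, norm_zero] at this
    linarith
  have hb : Bornology.IsBounded (Set.range fun z : ℂ => (τ (NormedSpace.exp (z • S)))⁻¹) := by
    rw [isBounded_iff_forall_norm_le]
    refine ⟨1, ?_⟩
    rintro _ ⟨z, rfl⟩
    show ‖(τ (NormedSpace.exp (z • S)))⁻¹‖ ≤ 1
    rw [norm_inv]
    exact inv_le_one_of_one_le₀ (hcon z)
  have hc : ∀ z w : ℂ, τ (NormedSpace.exp (z • S)) = τ (NormedSpace.exp (w • S)) := by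
    intro z w
    have h1 := (hd.inv h0).apply_eq_apply_of_bounded hb z w
    exact inv_injective h1
  obtain ⟨m, rfl⟩ := Nat.exists_eq_add_of_le hn
  have h2 := exp_moments τ S hc m 0
  rw [zero_smul, NormedSpace.exp_zero, one_mul, add_comm] at h2
  exact h h2

/-- the moments of `S - τ(S)` -/
theorem exists_moment (τ : A →L[ℂ] ℂ) (hτ1 : τ 1 = 1) (S : A) (n : ℕ)
    (h : τ (S ^ n) ≠ τ S ^ n) : ∃ j : ℕ, 1 ≤ j ∧ τ ((S - τ S • (1 : A)) ^ j) ≠ 0 := by
  by_contra hcon
  push Not at hcon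
  apply h
  set m : ℂ := τ S with hm
  set S₀ : A := S - m • (1 : A) with hS₀
  have hS : S = S₀ + algebraMap ℂ A m := by
    rw [hS₀, Algebra.algebraMap_eq_smul_one, sub_add_cancel]
  have hcomm : Commute S₀ (algebraMap ℂ A m) := (Algebra.commutes m S₀).symm
  rw [hS, hcomm.add_pow, map_sum, Finset.sum_eq_single 0]
  · rw [pow_zero, one_mul, Nat.sub_zero, Nat.choose_zero_right, Nat.cast_one, mul_one,
      ← map_pow, Algebra.algebraMap_eq_smul_one, map_smul, hτ1, smul_eq_mul, mul_one]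
  · intro j _ hj
    have h1 := hcon j (Nat.one_le_iff_ne_zero.2 hj)
    have e1 : S₀ ^ j * algebraMap ℂ A m ^ (n - j) * ((n.choose j : ℕ) : A)
        = ((n.choose j : ℂ) * m ^ (n - j)) • S₀ ^ j := by
      rw [← map_pow, Algebra.algebraMap_eq_smul_one, mul_smul_comm, mul_one, ← nsmul_eq_mul',
        mul_smul, Nat.cast_smul_eq_nsmul]
    rw [e1, map_smul, h1, smul_zero]
  · intro h0
    exact absurd (Finset.mem_range.2 (Nat.succ_pos n)) h0

end

section
variable {Y : Type} [MeasurableSpace Y] {ν : Measure Y} [IsProbabilityMeasure ν] {J : Type}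
  [Countable J] {H : Y → Type}
  [∀ y, NormedAddCommGroup (H y)] [∀ y, InnerProductSpace ℂ (H y)] [∀ y, CompleteSpace (H y)]
  {A : Type} [CStarAlgebra A] {τ : A →L[ℂ] ℂ} {e : ∀ y, A →⋆ₐ[ℂ] (H y →L[ℂ] H y)}
  {w : J → ∀ y, H y} {v : ∀ y, H y}

theorem e_sub_smul (S : A) (μ : ℂ) (y : Y) : e y (S - μ • (1 : A)) = e y S - μ • 1 := by
  rw [map_sub, map_smul, map_one]

/-- determinant larger than the modulus of the trace -/
theorem det_hyp0 (D : DT ν τ e w v) (S : A) (κ : ℝ) (hτS : ‖τ S‖ < Real.exp κ)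
    (hdet : ∀ δ : ℝ, 0 < δ → 2 * κ ≤ (τ (CFC.log (algebraMap ℝ A δ + star S * S))).re) :
    ∀ᵐ y ∂ν, HasHyp (e y S) := by
  have hτ : TrSt τ := D.tr
  have hl0 : 0 < Real.exp (-κ) := Real.exp_pos _
  have hsm : ‖τ (((Real.exp (-κ) : ℝ) : ℂ) • S)‖ < 1 := by
    rw [map_smul, smul_eq_mul, norm_mul, Complex.norm_real, Real.norm_eq_abs, abs_of_pos hl0]
    calc Real.exp (-κ) * ‖τ S‖ < Real.exp (-κ) * Real.exp κ :=
          mul_lt_mul_of_pos_left hτS hl0
      _ = 1 := by rw [← Real.exp_add, neg_add_cancel, Real.exp_zero]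
  have hdet2 : ∀ (k : ℕ) (δ : ℝ), 1 ≤ k → 0 < δ →
      0 ≤ (τ (CFC.log (algebraMap ℝ A δ
        + star ((((Real.exp (-κ) : ℝ) : ℂ) • S) ^ k)
          * (((Real.exp (-κ) : ℝ) : ℂ) • S) ^ k))).re := by
    intro k δ _ hδ
    rw [logdet_smul τ hτ S hδ hl0 k, Real.log_exp]
    have h1 := logdet_pow τ hτ S (2 * κ) hdet k
      (δ / (Real.exp (-κ) ^ 2) ^ k) (by positivity)
    linarith
  have hmain := dabs D _ hsm hdet2
  filter_upwards [hmain] with y hy
  rw [map_smul] at hy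
  exact Pool.Agent.W253.RO.hasHyp_of_smul _ _ hy

/-- **Determinant criterion.** -/
theorem det_hyp (D : DT ν τ e w v) (S : A) (c : ℂ) (κ : ℝ) (hτS : ‖τ S - c‖ < Real.exp κ)
    (hdet : ∀ δ : ℝ, 0 < δ → 2 * κ ≤ (τ (CFC.log (algebraMap ℝ A δ
      + star (S - c • (1 : A)) * (S - c • (1 : A))))).re) :
    ∀ᵐ y ∂ν, HasHyp (e y S) := by
  have h1 := det_hyp0 D (S - c • (1 : A)) κ (by
    rw [map_sub, map_smul, D.tr.one, smul_eq_mul, mul_one]
    exact hτS) hdet
  filter_upwards [h1] with y hy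
  rw [e_sub_smul] at hy
  exact hyp_shift _ _ hy

/-- **Moment criterion.** -/
theorem moment_hyp (D : DT ν τ e w v) (S : A) (n : ℕ) (h : τ (S ^ n) ≠ τ S ^ n) :
    ∀ᵐ y ∂ν, HasHyp (e y S) := by
  have hτ : TrSt τ := D.tr
  obtain ⟨j, hj1, hj⟩ := exists_moment τ hτ.one S n h
  set S₀ : A := S - τ S • (1 : A) with hS₀
  obtain ⟨z, hz⟩ := exists_small τ S₀ j hj1 hj
  have hτ00 : τ S₀ = 0 := by
    rw [hS₀, map_sub, map_smul, hτ.one, smul_eq_mul, mul_one, sub_self]
  have hτ0 : τ (z • S₀) = 0 := by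
    rw [map_smul, hτ00, smul_zero]
  have hmain := dabs D (NormedSpace.exp (z • S₀)) hz
    (fun k δ _ hδ => exp_logdet τ hτ (z • S₀) hτ0 k hδ)
  filter_upwards [hmain] with y hy
  refine hyp_of_comm _ _ (fun Q hQ => ?_) hy
  let _ : NormedAlgebra ℚ (H y →L[ℂ] H y) := NormedAlgebra.restrictScalars ℚ ℂ (H y →L[ℂ] H y)
  let _ : NormedAlgebra ℚ A := NormedAlgebra.restrictScalars ℚ ℂ A
  have e1 : e y (NormedSpace.exp (z • S₀)) = NormedSpace.exp (z • e y S₀) := by
    rw [NormedSpace.map_exp (e y) (Pool.Agent.W338.RO.e_cont (e y)), map_smul]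
  have hc : Commute Q (e y S) := hQ
  have hc2 : Commute Q (z • e y S₀) := by
    rw [hS₀, e_sub_smul]
    exact (hc.sub_right ((Commute.one_right Q).smul_right _)).smul_right z
  rw [e1]
  exact (hc2.exp_right).eq

end
end Pool.Agent.H21.DCrit
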