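import Pool.Agent.H21.DCrit

/-!
# Random operators on the coset spaces of an equivariant field of subgroups: the algebra

`G` is a countable group acting on `Ω`, `N ω ≤ G` a field of subgroups with `N (k ω) = k (N ω) k⁻¹`;
the Hilbert spaces are `ℓ²(G / N ω)`.
-/

set_option autoImplicit false
set_option linter.unusedSectionVars false
open scoped ComplexConjugate InnerProductSpace Topology ENNReal
open Filter MeasureTheory

namespace Pool.Agent.H21.Net
open Pool.Agent.H712R5.BO Pool.Agent.W611.RO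
open Pool.Agent.H21.DAbs

noncomputable instance lpC {I : Type} {A : I → Type} [∀ i, Nontrivial (A i)]
    [∀ i, CStarAlgebra (A i)] : CStarAlgebra (lp A ∞) where

section
variable {G Ω : Type} [Group G] [MulAction G Ω]

/-- the Hilbert space `ℓ²(G / N ω)` -/
abbrev Hil (N : Ω → Subgroup G) (ω : Ω) : Type := L2 (G ⧸ N ω)

/-- the basis vector at the coset of `g` -/
noncomputable def bv (N : Ω → Subgroup G) (g : G) (ω : Ω) : Hil N ω :=
  stb (G ⧸ N ω) ((g : G) : G ⧸ N ω)

theorem bv_norm (N : Ω → Subgroup G) (g : G) (ω : Ω) : ‖bv N g ω‖ = 1 :=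
  (stb (G ⧸ N ω)).orthonormal.1 _

theorem bv_inner (N : Ω → Subgroup G) (g h : G) (ω : Ω) [Decidable (g⁻¹ * h ∈ N ω)] :
    ⟪bv N g ω, bv N h ω⟫_ℂ = if g⁻¹ * h ∈ N ω then 1 else 0 := by
  classical
  unfold bv
  rw [orthonormal_iff_ite.1 (stb (G ⧸ N ω)).orthonormal]
  by_cases hh : g⁻¹ * h ∈ N ω
  · rw [if_pos hh, if_pos (QuotientGroup.eq.2 hh)]
  · rw [if_neg hh, if_neg fun h2 => hh (QuotientGroup.eq.1 h2)]

instance (N : Ω → Subgroup G) (ω : Ω) : Nontrivial (Hil N ω) :=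
  ⟨⟨bv N 1 ω, 0, fun h => by
    have := bv_norm N 1 ω
    rw [h, norm_zero] at this
    exact zero_ne_one this⟩⟩

/-- a vector orthogonal to all `bv` vanishes -/
theorem bv_total (N : Ω → Subgroup G) (ω : Ω) (x : Hil N ω) (h : ∀ g, ⟪x, bv N g ω⟫_ℂ = 0) :
    x = 0 := by
  refine lp.ext (funext fun c => ?_)
  obtain ⟨g, rfl⟩ := QuotientGroup.mk_surjective c
  rw [← stb_coord, ← inner_conj_symm]
  have := h g
  unfold bv at this
  rw [this, map_zero]
  rfl

variable [Countable G] [MeasurableSpace Ω]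

/-- measurable equivariant fields of subgroups -/
structure SubField (N : Ω → Subgroup G) : Prop where
  meas : ∀ g : G, MeasurableSet {ω | g ∈ N ω}
  equi : ∀ (k g : G) (ω : Ω), g ∈ N (k • ω) ↔ k⁻¹ * g * k ∈ N ω

variable {N : Ω → Subgroup G}

/-- the bijection `G / N ω → G / N (k ω)`, `x ↦ x k⁻¹` -/
noncomputable def sig (hN : SubField N) (k : G) (ω : Ω) : (G ⧸ N ω) ≃ (G ⧸ N (k • ω)) :=
  Quotient.congr (Equiv.mulRight k⁻¹) (by
    intro a b
    have h1 : (QuotientGroup.leftRel (N ω)) a b ↔ a⁻¹ * b ∈ N ω := QuotientGroup.leftRel_apply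
    have h2 : (QuotientGroup.leftRel (N (k • ω))) (Equiv.mulRight k⁻¹ a) (Equiv.mulRight k⁻¹ b)
      ↔ (a * k⁻¹)⁻¹ * (b * k⁻¹) ∈ N (k • ω) := QuotientGroup.leftRel_apply
    have h3 := hN.equi k ((a * k⁻¹)⁻¹ * (b * k⁻¹)) ω
    have h4 : k⁻¹ * ((a * k⁻¹)⁻¹ * (b * k⁻¹)) * k = a⁻¹ * b := by group
    rw [h4] at h3
    exact h1.trans (h3.symm.trans h2.symm))

theorem sig_mk (hN : SubField N) (k g : G) (ω : Ω) :
    sig hN k ω ((g * k : G) : G ⧸ N ω) = ((g : G) : G ⧸ N (k • ω)) := by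
  have h1 : sig hN k ω ((g * k : G) : G ⧸ N ω) = ((g * k * k⁻¹ : G) : G ⧸ N (k • ω)) := rfl
  rw [h1, mul_inv_cancel_right]

/-- the basis of `ℓ²(G / N (k ω))` indexed by `G / N ω` -/
noncomputable def shb (hN : SubField N) (k : G) (ω : Ω) :
    HilbertBasis (G ⧸ N ω) ℂ (Hil N (k • ω)) :=
  HilbertBasis.mk (v := fun c => stb (G ⧸ N (k • ω)) (sig hN k ω c))
    ((stb (G ⧸ N (k • ω))).orthonormal.comp _ (sig hN k ω).injective) (by
      have h1 : Set.range (fun c => stb (G ⧸ N (k • ω)) (sig hN k ω c))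
          = Set.range (stb (G ⧸ N (k • ω))) := by
        ext x
        constructor
        · rintro ⟨c, rfl⟩
          exact ⟨_, rfl⟩
        · rintro ⟨c, rfl⟩
          exact ⟨(sig hN k ω).symm c, by
            show stb (G ⧸ N (k • ω)) (sig hN k ω ((sig hN k ω).symm c)) = _
            rw [Equiv.apply_symm_apply]⟩
      rw [h1, (stb (G ⧸ N (k • ω))).dense_span])

/-- the unitary `ℓ²(G / N ω) → ℓ²(G / N (k ω))` -/
noncomputable def U (hN : SubField N) (k : G) (ω : Ω) : Hil N ω ≃ₗᵢ[ℂ] Hil N (k • ω) :=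
  (shb hN k ω).repr.symm

theorem U_stb (hN : SubField N) (k : G) (ω : Ω) (c : G ⧸ N ω) :
    U hN k ω (stb (G ⧸ N ω) c) = stb (G ⧸ N (k • ω)) (sig hN k ω c) := by
  classical
  have h1 : (shb hN k ω) c = stb (G ⧸ N (k • ω)) (sig hN k ω c) := by
    unfold shb
    rw [HilbertBasis.coe_mk]
  rw [← h1]
  unfold U
  have h2 : (stb (G ⧸ N ω) c : Hil N ω) = lp.single 2 c (1 : ℂ) := by
    refine lp.ext (funext fun i => ?_)
    rw [stb_apply, lp.single_apply, Pi.single_apply]
  rw [h2]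
  exact HilbertBasis.repr_symm_single _ _

theorem U_bv (hN : SubField N) (k g : G) (ω : Ω) :
    U hN k ω (bv N (g * k) ω) = bv N g (k • ω) := by
  unfold bv
  rw [U_stb, sig_mk]

/-- coefficients -/
noncomputable def cf (A : ∀ ω, Hil N ω →L[ℂ] Hil N ω) (g h : G) (ω : Ω) : ℂ :=
  ⟪bv N g ω, A ω (bv N h ω)⟫_ℂ

/-- sums over a coset space -/
theorem tsum_quot (K : Subgroup G) (enc : G → ℕ) (henc : Function.Injective enc)
    [DecidablePred fun g : G => ∀ h, enc h < enc g → h⁻¹ * g ∉ K] (F : G ⧸ K → ℂ) :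
    ∑' c, F c = ∑' g : G, if ∀ h, enc h < enc g → h⁻¹ * g ∉ K then F (g : G ⧸ K) else 0 := by
  let S : Set G := {g | ∀ h, enc h < enc g → h⁻¹ * g ∉ K}
  have hb : Function.Bijective (fun g : S => ((g : G) : G ⧸ K)) := by
    constructor
    · rintro ⟨g, hg⟩ ⟨h, hh⟩ hgh
      have h1 : g⁻¹ * h ∈ K := QuotientGroup.eq.1 hgh
      have h2 : h⁻¹ * g ∈ K := by
        have := K.inv_mem h1
        rwa [mul_inv_rev, inv_inv] at this
      apply Subtype.ext
      rcases lt_trichotomy (enc g) (enc h) with h3 | h3 | h3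
      · exact absurd h1 (hh g h3)
      · exact henc h3
      · exact absurd h2 (hg h h3)
    · intro c
      obtain ⟨g₀, rfl⟩ := QuotientGroup.mk_surjective c
      have hex : ∃ n, ∃ g : G, enc g = n ∧ ((g : G) : G ⧸ K) = (g₀ : G ⧸ K) := ⟨_, g₀, rfl, rfl⟩
      classical
      obtain ⟨g, hg1, hg2⟩ := Nat.find_spec hex
      refine ⟨⟨g, fun h hh hK => ?_⟩, hg2⟩
      rw [hg1] at hh
      exact Nat.find_min hex hh ⟨h, rfl, by
        rw [← hg2]
        exact QuotientGroup.eq.2 hK⟩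
  calc ∑' c, F c = ∑' g : S, F ((g : G) : G ⧸ K) :=
        ((Equiv.ofBijective _ hb).tsum_eq F).symm
    _ = ∑' g : G, S.indicator (fun g : G => F (g : G ⧸ K)) g :=
        tsum_subtype S (fun g : G => F (g : G ⧸ K))
    _ = _ := by
        refine tsum_congr fun g => ?_
        by_cases h : g ∈ S
        · rw [Set.indicator_of_mem h]
          exact (if_pos h).symm
        · rw [Set.indicator_of_notMem h]
          exact (if_neg h).symm

/-- the first element of its coset -/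
def Fst (N : Ω → Subgroup G) (enc : G → ℕ) (g : G) : Set Ω :=
  {ω | ∀ h, enc h < enc g → h⁻¹ * g ∉ N ω}

theorem Fst_meas (hN : SubField N) (enc : G → ℕ) (g : G) : MeasurableSet (Fst N enc g) := by
  have h1 : Fst N enc g = ⋂ h : G, ⋂ _ : enc h < enc g, {ω | h⁻¹ * g ∈ N ω}ᶜ := by
    ext ω
    simp [Fst]
  rw [h1]
  exact MeasurableSet.iInter fun h => MeasurableSet.iInter fun _ => (hN.meas _).compl

/-- an encoding -/
theorem exists_enc (G : Type) [Countable G] : ∃ enc : G → ℕ, Function.Injective enc := by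
  obtain ⟨f, hf⟩ := exists_injective_nat G
  exact ⟨f, hf⟩

theorem cf_mul (A B : ∀ ω, Hil N ω →L[ℂ] Hil N ω) (enc : G → ℕ) (henc : Function.Injective enc)
    (g h : G) (ω : Ω) :
    ⟪bv N g ω, A ω (B ω (bv N h ω))⟫_ℂ
      = ∑' x : G, (Fst N enc x).indicator (fun ω => cf A g x ω * cf B x h ω) ω := by
  classical
  have h2 : ⟪bv N g ω, A ω (B ω (bv N h ω))⟫_ℂ = ⟪star (A ω) (bv N g ω), B ω (bv N h ω)⟫_ℂ := by
    rw [ContinuousLinearMap.star_eq_adjoint, ContinuousLinearMap.adjoint_inner_left]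
  rw [h2, ← (stb (G ⧸ N ω)).tsum_inner_mul_inner, tsum_quot (N ω) enc henc]
  refine tsum_congr fun x => ?_
  by_cases hx : ω ∈ Fst N enc x
  · rw [Set.indicator_of_mem hx]
    have hx' : ∀ h, enc h < enc x → h⁻¹ * x ∉ N ω := hx
    rw [if_pos hx', ContinuousLinearMap.star_eq_adjoint, ContinuousLinearMap.adjoint_inner_left]
    rfl
  · rw [Set.indicator_of_notMem hx]
    have hx' : ¬ ∀ h, enc h < enc x → h⁻¹ * x ∉ N ω := hx
    rw [if_neg hx']

/-- the C*-algebra of all bounded fields -/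
def FA (N : Ω → Subgroup G) : Type := lp (fun ω => Hil N ω →L[ℂ] Hil N ω) ∞

noncomputable instance instFA (N : Ω → Subgroup G) : CStarAlgebra (FA N) :=
  inferInstanceAs (CStarAlgebra (lp (fun ω => Hil N ω →L[ℂ] Hil N ω) ∞))

/-- the underlying element -/
def toLp (A : FA N) : lp (fun ω => Hil N ω →L[ℂ] Hil N ω) ∞ := A

/-- the value of a field at `ω` -/
noncomputable def vl (A : FA N) (ω : Ω) : Hil N ω →L[ℂ] Hil N ω := toLp A ω

theorem vl_mul (A B : FA N) (ω : Ω) : vl (A * B) ω = vl A ω * vl B ω := rfl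
theorem vl_add (A B : FA N) (ω : Ω) : vl (A + B) ω = vl A ω + vl B ω := rfl
theorem vl_sub (A B : FA N) (ω : Ω) : vl (A - B) ω = vl A ω - vl B ω := rfl
theorem vl_star (A : FA N) (ω : Ω) : vl (star A) ω = star (vl A ω) := rfl
theorem vl_one (ω : Ω) : vl (1 : FA N) ω = 1 := rfl
theorem vl_zero (ω : Ω) : vl (0 : FA N) ω = 0 := rfl
theorem vl_alg (r : ℂ) (ω : Ω) : vl (algebraMap ℂ (FA N) r) ω = algebraMap ℂ _ r := rfl
theorem vl_norm (A : FA N) (ω : Ω) : ‖vl A ω‖ ≤ ‖A‖ :=
  lp.norm_apply_le_norm ENNReal.top_ne_zero (toLp A) ω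

theorem vl_cont (ω : Ω) : Continuous (fun A : FA N => vl A ω) := by
  have h : ∀ a b : FA N, ‖vl a ω - vl b ω‖ ≤ 1 * ‖a - b‖ := by
    intro a b
    rw [one_mul]
    exact vl_norm (a - b) ω
  exact (LipschitzWith.of_dist_le_mul (K := 1) fun a b => by
    rw [dist_eq_norm, dist_eq_norm]; exact h a b).continuous

/-- the algebra of bounded measurable covariant fields -/
noncomputable def KF (hN : SubField N) : StarSubalgebra ℂ (FA N) where
  carrier := {A | (∀ g h, Measurable (cf (vl A) g h)) ∧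
    ∀ (k : G) (ω : Ω) (x : Hil N ω), vl A (k • ω) (U hN k ω x) = U hN k ω (vl A ω x)}
  mul_mem' := by
    rintro A B ⟨hA1, hA2⟩ ⟨hB1, hB2⟩
    refine ⟨fun g h => ?_, fun k ω x => ?_⟩
    · obtain ⟨enc, henc⟩ := exists_enc G
      have h1 : cf (vl (A * B)) g h = fun ω => ∑' x : G,
          (Fst N enc x).indicator (fun ω => cf (vl A) g x ω * cf (vl B) x h ω) ω := by
        funext ω
        exact cf_mul (vl A) (vl B) enc henc g h ω
      rw [h1]
      exact Measurable.tsum fun x => ((hA1 g x).mul (hB1 x h)).indicator (Fst_meas hN enc x)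
    · show vl A (k • ω) (vl B (k • ω) (U hN k ω x)) = U hN k ω (vl A ω (vl B ω x))
      rw [hB2, hA2]
  add_mem' := by
    rintro A B ⟨hA1, hA2⟩ ⟨hB1, hB2⟩
    refine ⟨fun g h => ?_, fun k ω x => ?_⟩
    · have h1 : cf (vl (A + B)) g h
          = fun ω => cf (vl A) g h ω + cf (vl B) g h ω := by
        funext ω
        show ⟪bv N g ω, (vl A ω + vl B ω) (bv N h ω)⟫_ℂ = _
        rw [_root_.add_apply, inner_add_right]
        rfl
      rw [h1]
      exact (hA1 g h).add (hB1 g h)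
    · show (vl A (k • ω) + vl B (k • ω)) (U hN k ω x) = U hN k ω ((vl A ω + vl B ω) x)
      rw [_root_.add_apply, _root_.add_apply, map_add, hA2, hB2]
  algebraMap_mem' := by
    intro r
    classical
    refine ⟨fun g h => ?_, fun k ω x => ?_⟩
    · have h1 : (fun ω : Ω => ⟪bv N g ω, (algebraMap ℂ (Hil N ω →L[ℂ] Hil N ω) r) (bv N h ω)⟫_ℂ)
          = {ω | g⁻¹ * h ∈ N ω}.indicator (fun _ => r) := by
        funext ω
        rw [Algebra.algebraMap_eq_smul_one]
        show ⟪bv N g ω, r • bv N h ω⟫_ℂ = _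
        rw [inner_smul_right, bv_inner]
        by_cases hh : g⁻¹ * h ∈ N ω
        · rw [if_pos hh, Set.indicator_of_mem (show ω ∈ {ω | g⁻¹ * h ∈ N ω} from hh), mul_one]
        · rw [if_neg hh, Set.indicator_of_notMem (show ω ∉ {ω | g⁻¹ * h ∈ N ω} from hh), mul_zero]
      show Measurable (fun ω : Ω =>
        ⟪bv N g ω, (algebraMap ℂ (Hil N ω →L[ℂ] Hil N ω) r) (bv N h ω)⟫_ℂ)
      rw [h1]
      exact measurable_const.indicator (hN.meas _)
    · show (algebraMap ℂ (Hil N (k • ω) →L[ℂ] Hil N (k • ω)) r) (U hN k ω x)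
        = U hN k ω ((algebraMap ℂ (Hil N ω →L[ℂ] Hil N ω) r) x)
      rw [Algebra.algebraMap_eq_smul_one, Algebra.algebraMap_eq_smul_one]
      show r • (U hN k ω x) = U hN k ω (r • x)
      rw [map_smul]
  star_mem' := by
    rintro A ⟨hA1, hA2⟩
    refine ⟨fun g h => ?_, fun k ω x => ?_⟩
    · have h1 : cf (vl (star A)) g h = fun ω => conj (cf (vl A) h g ω) := by
        funext ω
        show ⟪bv N g ω, star (vl A ω) (bv N h ω)⟫_ℂ = conj ⟪bv N h ω, vl A ω (bv N g ω)⟫_ℂ
        rw [ContinuousLinearMap.star_eq_adjoint, ContinuousLinearMap.adjoint_inner_right,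
          inner_conj_symm]
      rw [h1]
      exact Complex.continuous_conj.measurable.comp (hA1 h g)
    · show star (vl A (k • ω)) (U hN k ω x) = U hN k ω (star (vl A ω) x)
      refine ext_inner_left ℂ fun y => ?_
      obtain ⟨z, rfl⟩ := (U hN k ω).surjective y
      rw [ContinuousLinearMap.star_eq_adjoint, ContinuousLinearMap.star_eq_adjoint,
        ContinuousLinearMap.adjoint_inner_right, hA2, LinearIsometryEquiv.inner_map_map,
        LinearIsometryEquiv.inner_map_map, ContinuousLinearMap.adjoint_inner_right]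

end
end Pool.Agent.H21.Net
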