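import Pool.Agent.H21.Net

/-!
# Random operators on the coset spaces of an equivariant field of subgroups: trace and zero-one law
-/

set_option autoImplicit false
set_option linter.unusedSectionVars false
open scoped ComplexConjugate InnerProductSpace Topology ENNReal
open Filter MeasureTheory

namespace Pool.Agent.H21.Net
open Pool.Agent.H712R5.BO Pool.Agent.W611.RO
open Pool.Agent.H21.DAbs

section
variable {G Ω : Type} [Group G] [MulAction G Ω] [Countable G] [MeasurableSpace Ω]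
variable {N : Ω → Subgroup G}

theorem first_bij (K : Subgroup G) (enc : G → ℕ) (henc : Function.Injective enc) :
    Function.Bijective (fun g : {g : G | ∀ h, enc h < enc g → h⁻¹ * g ∉ K} =>
      ((g : G) : G ⧸ K)) := by
  constructor
  · rintro ⟨g, hg⟩ ⟨h, hh⟩ hgh
    have h1 : g⁻¹ * h ∈ K := QuotientGroup.eq.1 hgh
    have h2 : h⁻¹ * g ∈ K := by
      have := K.inv_mem h1
      rwa [mul_inv_rev, inv_inv] at this
    apply Subtype.ext
    rcases lt_trichotomy (enc g) (enc h) with h3 | h3 | h3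
    · exact absurd h1 (hh g h3)
    · exact henc h3
    · exact absurd h2 (hg h h3)
  · intro c
    obtain ⟨g₀, rfl⟩ := QuotientGroup.mk_surjective c
    have hex : ∃ n, ∃ g : G, enc g = n ∧ ((g : G) : G ⧸ K) = (g₀ : G ⧸ K) := ⟨_, g₀, rfl, rfl⟩
    classical
    obtain ⟨g, hg1, hg2⟩ := Nat.find_spec hex
    refine ⟨⟨g, fun h hh hK => ?_⟩, hg2⟩
    rw [hg1] at hh
    exact Nat.find_min hex hh ⟨h, rfl, by
      rw [← hg2]
      exact QuotientGroup.eq.2 hK⟩

theorem hasSum_quot {E : Type} [AddCommMonoid E] [TopologicalSpace E] (K : Subgroup G)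
    (enc : G → ℕ) (henc : Function.Injective enc) {F : G ⧸ K → E} {a : E} (h : HasSum F a) :
    HasSum ({g : G | ∀ h, enc h < enc g → h⁻¹ * g ∉ K}.indicator fun g : G => F (g : G ⧸ K)) a := by
  rw [← hasSum_subtype_iff_indicator]
  exact (Equiv.hasSum_iff (Equiv.ofBijective _ (first_bij K enc henc))).2 h

instance isClosed_KF (hN : SubField N) :
    IsClosed ((KF hN : StarSubalgebra ℂ (FA N)) : Set (FA N)) := by
  rw [← isSeqClosed_iff_isClosed]
  intro s A hs hlim
  have hpt : ∀ ω : Ω, Tendsto (fun n => vl (s n) ω) atTop (𝓝 (vl A ω)) := fun ω =>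
    ((vl_cont ω).tendsto A).comp hlim
  refine ⟨fun g h => ?_, fun k ω x => ?_⟩
  · refine measurable_of_tendsto_metrizable (fun n => (hs n).1 g h) ?_
    rw [tendsto_pi_nhds]
    intro ω
    have h1 : Continuous (fun C : Hil N ω →L[ℂ] Hil N ω => ⟪bv N g ω, C (bv N h ω)⟫_ℂ) :=
      continuous_const.inner (continuous_id.clm_apply continuous_const)
    exact (h1.tendsto _).comp (hpt ω)
  · have c1 : Continuous (fun C : Hil N (k • ω) →L[ℂ] Hil N (k • ω) => C (U hN k ω x)) :=
      continuous_id.clm_apply continuous_const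
    have c2 : Continuous (fun C : Hil N ω →L[ℂ] Hil N ω => U hN k ω (C x)) :=
      (U hN k ω).continuous.comp (continuous_id.clm_apply continuous_const)
    have h1 := (c1.tendsto _).comp (hpt (k • ω))
    have h2 := (c2.tendsto _).comp (hpt ω)
    refine tendsto_nhds_unique h1 (h2.congr fun n => ?_)
    exact ((hs n).2 k ω x).symm

noncomputable instance CSK (hN : SubField N) : CStarAlgebra (KF hN) :=
  StarSubalgebra.cstarAlgebra (KF hN)

/-- the value at `ω` -/
noncomputable def ev (hN : SubField N) (ω : Ω) : KF hN →⋆ₐ[ℂ] (Hil N ω →L[ℂ] Hil N ω) where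
  toFun := fun A => vl (A : FA N) ω
  map_one' := rfl
  map_mul' := fun _ _ => rfl
  map_zero' := rfl
  map_add' := fun _ _ => rfl
  commutes' := fun _ => rfl
  map_star' := fun _ => rfl

theorem ev_norm (hN : SubField N) (ω : Ω) (A : KF hN) : ‖ev hN ω A‖ ≤ ‖A‖ :=
  vl_norm (A : FA N) ω

/-- coefficients of elements of the algebra -/
noncomputable def co (hN : SubField N) (A : KF hN) (g h : G) (ω : Ω) : ℂ :=
  ⟪bv N g ω, ev hN ω A (bv N h ω)⟫_ℂ

theorem co_meas (hN : SubField N) (A : KF hN) (g h : G) : Measurable (co hN A g h) :=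
  A.2.1 g h

theorem ev_cov (hN : SubField N) (A : KF hN) (k : G) (ω : Ω) (x : Hil N ω) :
    ev hN (k • ω) A (U hN k ω x) = U hN k ω (ev hN ω A x) :=
  A.2.2 k ω x

theorem co_cov (hN : SubField N) (A : KF hN) (k g h : G) (ω : Ω) :
    co hN A g h (k • ω) = co hN A (g * k) (h * k) ω := by
  unfold co
  rw [← U_bv hN k g ω, ← U_bv hN k h ω, ev_cov, LinearIsometryEquiv.inner_map_map]

theorem co_le (hN : SubField N) (A : KF hN) (g h : G) (ω : Ω) : ‖co hN A g h ω‖ ≤ ‖A‖ := by
  calc ‖co hN A g h ω‖ ≤ ‖bv N g ω‖ * ‖ev hN ω A (bv N h ω)‖ := norm_inner_le_norm _ _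
    _ ≤ ‖bv N g ω‖ * (‖ev hN ω A‖ * ‖bv N h ω‖) := by
        gcongr
        exact (ev hN ω A).le_opNorm _
    _ = ‖ev hN ω A‖ := by rw [bv_norm, bv_norm, one_mul, mul_one]
    _ ≤ ‖A‖ := ev_norm hN ω A

theorem co_int (P : Measure Ω) [IsProbabilityMeasure P] (hN : SubField N) (A : KF hN) (g h : G) :
    Integrable (co hN A g h) P :=
  Integrable.of_bound (co_meas hN A g h).aestronglyMeasurable ‖A‖
    (Eventually.of_forall fun ω => co_le hN A g h ω)

/-- the trace -/
noncomputable def tauN (P : Measure Ω) [IsProbabilityMeasure P] (hN : SubField N) :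
    KF hN →L[ℂ] ℂ :=
  LinearMap.mkContinuous
    { toFun := fun A => ∫ ω, co hN A 1 1 ω ∂P
      map_add' := by
        intro A B
        rw [← integral_add (co_int P hN A _ _) (co_int P hN B _ _)]
        refine integral_congr_ae (Eventually.of_forall (fun ω => ?_))
        simp only [co, map_add, _root_.add_apply, inner_add_right]
      map_smul' := by
        intro c A
        rw [RingHom.id_apply, smul_eq_mul, ← integral_const_mul]
        refine integral_congr_ae (Eventually.of_forall (fun ω => ?_))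
        simp only [co]
        rw [map_smul, _root_.smul_apply, inner_smul_right] }
    1 (by
      intro A
      have h3 := norm_integral_le_of_norm_le_const (μ := P)
        (Eventually.of_forall fun ω => co_le hN A 1 1 ω)
      simpa using h3)

theorem tauN_apply (P : Measure Ω) [IsProbabilityMeasure P] (hN : SubField N) (A : KF hN) :
    tauN P hN A = ∫ ω, co hN A 1 1 ω ∂P := rfl

theorem co_star (hN : SubField N) (A : KF hN) (g h : G) (ω : Ω) :
    co hN (star A) g h ω = conj (co hN A h g ω) := by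
  unfold co
  rw [map_star, ContinuousLinearMap.star_eq_adjoint, ContinuousLinearMap.adjoint_inner_right,
    inner_conj_symm]

theorem co_star_mul (hN : SubField N) (A : KF hN) (g : G) (ω : Ω) :
    co hN (star A * A) g g ω = ((‖ev hN ω A (bv N g ω)‖ ^ 2 : ℝ) : ℂ) := by
  unfold co
  rw [map_mul, map_star]
  show ⟪bv N g ω, star (ev hN ω A) (ev hN ω A (bv N g ω))⟫_ℂ = _
  rw [ContinuousLinearMap.star_eq_adjoint, ContinuousLinearMap.adjoint_inner_right,
    inner_self_eq_norm_sq_to_K]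
  push_cast
  rfl

theorem co_mul (hN : SubField N) (A B : KF hN) (enc : G → ℕ) (henc : Function.Injective enc)
    (g h : G) (ω : Ω) : co hN (A * B) g h ω
      = ∑' x : G, (Fst N enc x).indicator (fun ω => co hN A g x ω * co hN B x h ω) ω :=
  cf_mul (fun ω => ev hN ω A) (fun ω => ev hN ω B) enc henc g h ω

/-- square sums of the coefficients -/
theorem sum_sq (hN : SubField N) (A : KF hN) (enc : G → ℕ) (henc : Function.Injective enc)
    (h : G) (ω : Ω) : HasSum (fun x : G => (Fst N enc x).indicator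
      (fun ω => ‖co hN A x h ω‖ ^ 2) ω) (‖ev hN ω A (bv N h ω)‖ ^ 2) := by
  classical
  have h0 := (stb (G ⧸ N ω)).hasSum_inner_mul_inner (ev hN ω A (bv N h ω)) (ev hN ω A (bv N h ω))
  have h1 : ∀ c : G ⧸ N ω, ⟪ev hN ω A (bv N h ω), stb (G ⧸ N ω) c⟫_ℂ
      * ⟪stb (G ⧸ N ω) c, ev hN ω A (bv N h ω)⟫_ℂ
      = ((‖⟪stb (G ⧸ N ω) c, ev hN ω A (bv N h ω)⟫_ℂ‖ ^ 2 : ℝ) : ℂ) := by
    intro c
    rw [← inner_conj_symm, Complex.conj_mul']
    push_cast
    rfl
  simp_rw [h1] at h0
  have h2 : ⟪ev hN ω A (bv N h ω), ev hN ω A (bv N h ω)⟫_ℂ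
      = ((‖ev hN ω A (bv N h ω)‖ ^ 2 : ℝ) : ℂ) := by
    rw [inner_self_eq_norm_sq_to_K]
    push_cast
    rfl
  rw [h2] at h0
  have h3 : HasSum (fun c : G ⧸ N ω => ‖⟪stb (G ⧸ N ω) c, ev hN ω A (bv N h ω)⟫_ℂ‖ ^ 2)
      (‖ev hN ω A (bv N h ω)‖ ^ 2) := by
    exact_mod_cast h0
  have h4 := hasSum_quot (N ω) enc henc h3
  have h5 : (fun x : G => (Fst N enc x).indicator (fun ω => ‖co hN A x h ω‖ ^ 2) ω)
      = ({g : G | ∀ h, enc h < enc g → h⁻¹ * g ∉ N ω}.indicator
        fun g : G => ‖⟪stb (G ⧸ N ω) (g : G ⧸ N ω), ev hN ω A (bv N h ω)⟫_ℂ‖ ^ 2) := by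
    funext x
    by_cases hx : ω ∈ Fst N enc x
    · rw [Set.indicator_of_mem hx, Set.indicator_of_mem (show x ∈
        {g : G | ∀ h, enc h < enc g → h⁻¹ * g ∉ N ω} from hx)]
      rfl
    · rw [Set.indicator_of_notMem hx, Set.indicator_of_notMem (show x ∉
        {g : G | ∀ h, enc h < enc g → h⁻¹ * g ∉ N ω} from hx)]
  rw [h5]
  exact h4

theorem ev_bv_le (hN : SubField N) (A : KF hN) (g : G) (ω : Ω) :
    ‖ev hN ω A (bv N g ω)‖ ≤ ‖A‖ := by
  calc ‖ev hN ω A (bv N g ω)‖ ≤ ‖ev hN ω A‖ * ‖bv N g ω‖ := (ev hN ω A).le_opNorm _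
    _ = ‖ev hN ω A‖ := by rw [bv_norm, mul_one]
    _ ≤ ‖A‖ := ev_norm hN ω A

/-- one term of the trace of a product -/
noncomputable def tm (hN : SubField N) (enc : G → ℕ) (A B : KF hN) (x : G) (ω : Ω) : ℂ :=
  (Fst N enc x).indicator (fun ω => co hN A 1 x ω * co hN B x 1 ω) ω

theorem tm_meas (hN : SubField N) (enc : G → ℕ) (A B : KF hN) (x : G) :
    Measurable (tm hN enc A B x) :=
  ((co_meas hN A 1 x).mul (co_meas hN B x 1)).indicator (Fst_meas hN enc x)

theorem tm_le (hN : SubField N) (enc : G → ℕ) (henc : Function.Injective enc) (A B : KF hN)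
    (s : Finset G) (ω : Ω) : ∑ x ∈ s, ‖tm hN enc A B x ω‖ ≤ (‖A‖ ^ 2 + ‖B‖ ^ 2) / 2 := by
  have hA := sum_sq hN (star A) enc henc 1 ω
  have hB := sum_sq hN B enc henc 1 ω
  have h1 : ∀ x, ‖tm hN enc A B x ω‖ ≤ ((Fst N enc x).indicator
      (fun ω => ‖co hN (star A) x 1 ω‖ ^ 2) ω + (Fst N enc x).indicator
      (fun ω => ‖co hN B x 1 ω‖ ^ 2) ω) / 2 := by
    intro x
    unfold tm
    by_cases hx : ω ∈ Fst N enc x
    · rw [Set.indicator_of_mem hx, Set.indicator_of_mem hx, Set.indicator_of_mem hx, norm_mul,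
        co_star, Complex.norm_conj]
      nlinarith [sq_nonneg (‖co hN A 1 x ω‖ - ‖co hN B x 1 ω‖)]
    · rw [Set.indicator_of_notMem hx, Set.indicator_of_notMem hx, Set.indicator_of_notMem hx]
      simp
  have h2 : ∀ (C : KF hN), ∑ x ∈ s, (Fst N enc x).indicator (fun ω => ‖co hN C x 1 ω‖ ^ 2) ω
      ≤ ‖C‖ ^ 2 := by
    intro C
    have h3 := sum_sq hN C enc henc 1 ω
    refine (sum_le_hasSum s (fun x _ => ?_) h3).trans ?_
    · exact Set.indicator_nonneg (fun _ _ => by positivity) _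
    · exact pow_le_pow_left₀ (norm_nonneg _) (ev_bv_le hN C 1 ω) 2
  calc ∑ x ∈ s, ‖tm hN enc A B x ω‖ ≤ ∑ x ∈ s, ((Fst N enc x).indicator
      (fun ω => ‖co hN (star A) x 1 ω‖ ^ 2) ω + (Fst N enc x).indicator
      (fun ω => ‖co hN B x 1 ω‖ ^ 2) ω) / 2 := Finset.sum_le_sum fun x _ => h1 x
    _ = (∑ x ∈ s, (Fst N enc x).indicator (fun ω => ‖co hN (star A) x 1 ω‖ ^ 2) ω
        + ∑ x ∈ s, (Fst N enc x).indicator (fun ω => ‖co hN B x 1 ω‖ ^ 2) ω) / 2 := by
        rw [← Finset.sum_div, Finset.sum_add_distrib]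
    _ ≤ (‖A‖ ^ 2 + ‖B‖ ^ 2) / 2 := by
        have h4 := h2 (star A)
        have h5 := h2 B
        rw [norm_star] at h4
        linarith

theorem mass (P : Measure Ω) [IsProbabilityMeasure P] (hN : SubField N) (enc : G → ℕ)
    (henc : Function.Injective enc) (A B : KF hN) :
    HasSum (fun x : G => ∫ ω, tm hN enc A B x ω ∂P) (tauN P hN (A * B)) := by
  have hint : ∀ x, Integrable (tm hN enc A B x) P := fun x =>
    Integrable.of_bound (tm_meas hN enc A B x).aestronglyMeasurable ((‖A‖ ^ 2 + ‖B‖ ^ 2) / 2)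
      (Eventually.of_forall fun ω => by
        have := tm_le hN enc henc A B {x} ω
        rwa [Finset.sum_singleton] at this)
  have hsum : Summable fun x => ∫ ω, ‖tm hN enc A B x ω‖ ∂P := by
    refine summable_of_sum_le (fun x => integral_nonneg fun ω => norm_nonneg _)
      (c := (‖A‖ ^ 2 + ‖B‖ ^ 2) / 2) fun s => ?_
    rw [← integral_finsetSum s fun x _ => (hint x).norm]
    calc ∫ ω, ∑ x ∈ s, ‖tm hN enc A B x ω‖ ∂P ≤ ∫ _ω, (‖A‖ ^ 2 + ‖B‖ ^ 2) / 2 ∂P :=
          integral_mono (integrable_finsetSum s fun x _ => (hint x).norm) (integrable_const _)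
            fun ω => tm_le hN enc henc A B s ω
      _ = (‖A‖ ^ 2 + ‖B‖ ^ 2) / 2 := by simp
  have h1 := hasSum_integral_of_summable_integral_norm hint hsum
  have h2 : tauN P hN (A * B) = ∫ ω, ∑' x, tm hN enc A B x ω ∂P := by
    rw [tauN_apply]
    refine integral_congr_ae (Eventually.of_forall fun ω => ?_)
    exact co_mul hN A B enc henc 1 1 ω
  rw [h2]
  exact h1

theorem t_trace (P : Measure Ω) [IsProbabilityMeasure P] (hN : SubField N)
    (hmp : ∀ g : G, MeasurePreserving (fun ω : Ω => g • ω) P P) (A B : KF hN) :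
    tauN P hN (A * B) = tauN P hN (B * A) := by
  obtain ⟨enc, henc⟩ := exists_enc G
  set enc' : G → ℕ := fun g => enc g⁻¹ with henc'
  have hinj' : Function.Injective enc' := fun a b hab => inv_injective (henc hab)
  have h1 := mass P hN enc henc A B
  have h2 := mass P hN enc' hinj' B A
  have h3 : ∀ x, ∫ ω, tm hN enc A B x ω ∂P = ∫ ω, tm hN enc' B A x⁻¹ ω ∂P := by
    intro x
    have e1 : ∫ ω, tm hN enc A B x ω ∂P = ∫ η, tm hN enc A B x (x⁻¹ • η) ∂P := by
      have e2 := integral_map (μ := P) (φ := fun ω : Ω => x⁻¹ • ω) (hmp x⁻¹).measurable.aemeasurable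
        (f := tm hN enc A B x) (by
          rw [(hmp x⁻¹).map_eq]
          exact (tm_meas hN enc A B x).aestronglyMeasurable)
      rw [(hmp x⁻¹).map_eq] at e2
      exact e2
    rw [e1]
    refine integral_congr_ae (Eventually.of_forall fun η => ?_)
    have hiff : x⁻¹ • η ∈ Fst N enc x ↔ η ∈ Fst N enc' x⁻¹ := by
      have key : ∀ h, h⁻¹ * x ∈ N (x⁻¹ • η) ↔ x * h⁻¹ ∈ N η := by
        intro h
        rw [hN.equi]
        have : (x⁻¹)⁻¹ * (h⁻¹ * x) * x⁻¹ = x * h⁻¹ := by group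
        rw [this]
      constructor
      · intro h4 h' hh'
        have h5 := h4 h'⁻¹ (by
          have : enc h'⁻¹ < enc (x⁻¹)⁻¹ := hh'
          rwa [inv_inv] at this)
        rw [key, inv_inv] at h5
        intro h6
        apply h5
        have := (N η).inv_mem h6
        rwa [mul_inv_rev, inv_inv, inv_inv] at this
      · intro h4 h hh
        rw [key]
        have h5 := h4 h⁻¹ (by
          show enc (h⁻¹)⁻¹ < enc (x⁻¹)⁻¹
          rwa [inv_inv, inv_inv])
        intro h6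
        apply h5
        have := (N η).inv_mem h6
        rw [mul_inv_rev, inv_inv] at this
        rwa [inv_inv]
    have e3 : co hN A 1 x (x⁻¹ • η) = co hN A x⁻¹ 1 η := by
      rw [co_cov, one_mul, mul_inv_cancel]
    have e4 : co hN B x 1 (x⁻¹ • η) = co hN B 1 x⁻¹ η := by
      rw [co_cov, one_mul, mul_inv_cancel]
    show tm hN enc A B x (x⁻¹ • η) = tm hN enc' B A x⁻¹ η
    unfold tm
    by_cases hx : x⁻¹ • η ∈ Fst N enc x
    · rw [Set.indicator_of_mem hx, Set.indicator_of_mem (hiff.1 hx), e3, e4, mul_comm]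
    · rw [Set.indicator_of_notMem hx, Set.indicator_of_notMem fun h => hx (hiff.2 h)]
  simp_rw [h3] at h1
  have h4 : HasSum (fun x : G => ∫ ω, tm hN enc' B A x ω ∂P) (tauN P hN (A * B)) :=
    (Equiv.hasSum_iff (Equiv.inv G)).1 h1
  exact h4.unique h2

theorem t_TrSt (P : Measure Ω) [IsProbabilityMeasure P] (hN : SubField N)
    (hmp : ∀ g : G, MeasurePreserving (fun ω : Ω => g • ω) P P) : TrSt (tauN P hN) := by
  refine ⟨?_, ?_, ?_, t_trace P hN hmp⟩
  · rw [tauN_apply]
    have h1 : ∀ ω, co hN (1 : KF hN) 1 1 ω = 1 := by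
      intro ω
      unfold co
      rw [map_one]
      show ⟪bv N 1 ω, bv N 1 ω⟫_ℂ = 1
      rw [inner_self_eq_norm_sq_to_K, bv_norm]
      simp
    simp_rw [h1]
    simp
  · intro A
    rw [tauN_apply]
    have h1 : ∀ ω, co hN (star A * A) 1 1 ω = ((‖ev hN ω A (bv N 1 ω)‖ ^ 2 : ℝ) : ℂ) :=
      fun ω => co_star_mul hN A 1 ω
    simp_rw [h1]
    rw [integral_complex_ofReal, Complex.ofReal_re]
    exact integral_nonneg fun ω => sq_nonneg _
  · intro A
    rw [tauN_apply, tauN_apply, ← integral_conj]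
    refine integral_congr_ae (Eventually.of_forall fun ω => ?_)
    exact co_star hN A 1 1 ω

theorem nsq_meas (hN : SubField N) (A : KF hN) (g : G) :
    Measurable fun ω => ‖ev hN ω A (bv N g ω)‖ ^ 2 := by
  have h1 : ∀ ω, ‖ev hN ω A (bv N g ω)‖ ^ 2 = (co hN (star A * A) g g ω).re := by
    intro ω
    rw [co_star_mul, Complex.ofReal_re]
  simp_rw [h1]
  exact Complex.continuous_re.measurable.comp (co_meas hN _ g g)

theorem nsq_int (P : Measure Ω) [IsProbabilityMeasure P] (hN : SubField N)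
    (hmp : ∀ g : G, MeasurePreserving (fun ω : Ω => g • ω) P P) (A : KF hN) (g : G) :
    Integrable (fun ω => ‖ev hN ω A (bv N g ω)‖ ^ 2) P ∧
      ∫ ω, ‖ev hN ω A (bv N g ω)‖ ^ 2 ∂P = (n2 (tauN P hN) A) ^ 2 := by
  have hτ := t_TrSt P hN hmp
  have h1 : ∀ ω, ‖ev hN ω A (bv N g ω)‖ ^ 2 = (co hN (star A * A) g g ω).re := by
    intro ω
    rw [co_star_mul, Complex.ofReal_re]
  have h2 : ∀ ω, co hN (star A * A) g g ω = co hN (star A * A) 1 1 (g • ω) := by
    intro ω
    rw [co_cov, one_mul]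
  have h3 : Integrable (co hN (star A * A) g g) P := co_int P hN _ g g
  constructor
  · simp_rw [h1]
    exact h3.re
  · simp_rw [h1]
    have h4 : ∫ ω, (co hN (star A * A) g g ω).re ∂P = (∫ ω, co hN (star A * A) g g ω ∂P).re :=
      integral_re h3
    have h5 : ∫ ω, co hN (star A * A) g g ω ∂P = tauN P hN (star A * A) := by
      simp_rw [h2]
      rw [tauN_apply]
      have e2 := integral_map (μ := P) (φ := fun ω : Ω => g • ω) (hmp g).measurable.aemeasurable
        (f := co hN (star A * A) 1 1) (by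
          rw [(hmp g).map_eq]
          exact (co_meas hN (star A * A) 1 1).aestronglyMeasurable)
      rw [(hmp g).map_eq] at e2
      exact e2.symm
    rw [h4, h5]
    unfold n2
    rw [Real.sq_sqrt (hτ.pos A)]

/-! ### zero-one law -/

/-- the set where the sequence converges strongly to a scalar -/
def SS (hN : SubField N) (B : ℕ → KF hN) : Set Ω :=
  {ω | ∃ c : ℂ, ∀ x : Hil N ω, Tendsto (fun i => ev hN ω (B i) x) atTop (𝓝 (c • x))}

theorem q_lim (hN : SubField N) (B : ℕ → KF hN) (ω : Ω) (c : ℂ)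
    (h : Tendsto (fun i => ev hN ω (B i) (bv N 1 ω)) atTop (𝓝 (c • bv N 1 ω))) :
    Tendsto (fun i => co hN (B i) 1 1 ω) atTop (𝓝 c) := by
  have h1 : Tendsto (fun i => ⟪bv N 1 ω, ev hN ω (B i) (bv N 1 ω)⟫_ℂ) atTop
      (𝓝 ⟪bv N 1 ω, c • bv N 1 ω⟫_ℂ) := Tendsto.inner tendsto_const_nhds h
  have h2 : ⟪bv N 1 ω, c • bv N 1 ω⟫_ℂ = c := by
    rw [inner_smul_right, inner_self_eq_norm_sq_to_K, bv_norm]
    simp
  rw [h2] at h1
  exact h1

theorem SS_eq (hN : SubField N) (B : ℕ → KF hN) (R : ℝ) (hR : ∀ i, ‖B i‖ ≤ R) :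
    SS hN B = {ω | ∃ c, Tendsto (fun i => co hN (B i) 1 1 ω) atTop (𝓝 c)} ∩
      ⋂ g : G, {ω | Tendsto (fun i => ‖ev hN ω (B i) (bv N g ω)
        - co hN (B i) 1 1 ω • bv N g ω‖) atTop (𝓝 0)} := by
  ext ω
  constructor
  · rintro ⟨c, hc⟩
    have hq := q_lim hN B ω c (hc (bv N 1 ω))
    refine ⟨⟨c, hq⟩, ?_⟩
    rw [Set.mem_iInter]
    intro g
    show Tendsto (fun i => ‖ev hN ω (B i) (bv N g ω) - co hN (B i) 1 1 ω • bv N g ω‖) atTop (𝓝 0)
    have h1 := ((hc (bv N g ω)).sub (hq.smul_const (bv N g ω))).norm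
    simpa using h1
  · rintro ⟨⟨c, hc⟩, h2⟩
    refine ⟨c, Pool.Agent.W545.RO.conv_all (stb (G ⧸ N ω)) _ R
      (fun i => le_trans (ev_norm hN ω (B i)) (hR i)) c fun k => ?_⟩
    obtain ⟨g, rfl⟩ := QuotientGroup.mk_surjective k
    rw [Set.mem_iInter] at h2
    have h3 : Tendsto (fun i => ‖ev hN ω (B i) (bv N g ω)
      - co hN (B i) 1 1 ω • bv N g ω‖) atTop (𝓝 0) := h2 g
    have h4 := tendsto_zero_iff_norm_tendsto_zero.2 h3
    have h5 := h4.add (hc.smul_const (bv N g ω))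
    simpa [bv] using h5

theorem SS_meas (hN : SubField N) (B : ℕ → KF hN) (R : ℝ) (hR : ∀ i, ‖B i‖ ≤ R) :
    MeasurableSet (SS hN B) := by
  rw [SS_eq hN B R hR]
  refine MeasurableSet.inter ?_ (MeasurableSet.iInter fun g => ?_)
  · exact measurableSet_exists_tendsto fun i => co_meas hN (B i) 1 1
  · refine measurableSet_tendsto (𝓝 0) fun i => ?_
    have h1 : ∀ ω, ‖ev hN ω (B i) (bv N g ω) - co hN (B i) 1 1 ω • bv N g ω‖
        = Real.sqrt (‖ev hN ω (B i) (bv N g ω)‖ ^ 2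
          - 2 * (co hN (B i) 1 1 ω * conj (co hN (B i) g g ω)).re
          + ‖co hN (B i) 1 1 ω‖ ^ 2) := by
      intro ω
      have h2 := @norm_sub_sq ℂ _ _ _ _ (ev hN ω (B i) (bv N g ω))
        (co hN (B i) 1 1 ω • bv N g ω)
      have h3 : ⟪ev hN ω (B i) (bv N g ω), co hN (B i) 1 1 ω • bv N g ω⟫_ℂ
          = co hN (B i) 1 1 ω * conj (co hN (B i) g g ω) := by
        rw [inner_smul_right, ← inner_conj_symm]
        rfl
      rw [h3, norm_smul, bv_norm, mul_one] at h2
      rw [← Real.sqrt_sq (norm_nonneg (ev hN ω (B i) (bv N g ω)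
        - co hN (B i) 1 1 ω • bv N g ω)), h2]
      rfl
    simp_rw [h1]
    refine Real.continuous_sqrt.measurable.comp ?_
    refine ((nsq_meas hN (B i) g).sub ?_).add ?_
    · exact (Complex.continuous_re.measurable.comp ((co_meas hN (B i) 1 1).mul
        (Complex.continuous_conj.measurable.comp (co_meas hN (B i) g g)))).const_mul 2
    · exact (co_meas hN (B i) 1 1).norm.pow_const 2

theorem conv_smul (hN : SubField N) (B : ℕ → KF hN) (ω : Ω) (c : ℂ) (g : G)
    (h : ∀ x : Hil N ω, Tendsto (fun i => ev hN ω (B i) x) atTop (𝓝 (c • x)))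
    (x : Hil N (g • ω)) :
    Tendsto (fun i => ev hN (g • ω) (B i) x) atTop (𝓝 (c • x)) := by
  obtain ⟨y, rfl⟩ := (U hN g ω).surjective x
  have e2 : ∀ i, ev hN (g • ω) (B i) (U hN g ω y) = U hN g ω (ev hN ω (B i) y) := fun i =>
    ev_cov hN (B i) g ω y
  simp_rw [e2]
  rw [← map_smul]
  exact ((U hN g ω).continuous.tendsto _).comp (h y)

theorem SS_inv (hN : SubField N) (B : ℕ → KF hN) (g : G) (ω : Ω) :
    g • ω ∈ SS hN B ↔ ω ∈ SS hN B := by
  constructor
  · rintro ⟨c, hc⟩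
    refine ⟨c, ?_⟩
    have h2 := fun x => conv_smul hN B (g • ω) c g⁻¹ hc x
    rw [inv_smul_smul] at h2
    exact h2
  · rintro ⟨c, hc⟩
    exact ⟨c, fun x => conv_smul hN B ω c g hc x⟩

open Classical in
/-- the limit on `SS`, zero outside -/
noncomputable def cc (hN : SubField N) (B : ℕ → KF hN) (ω : Ω) : ℂ :=
  if h : ω ∈ SS hN B then h.choose else 0

theorem cc_spec (hN : SubField N) (B : ℕ → KF hN) (ω : Ω) (h : ω ∈ SS hN B) (x : Hil N ω) :
    Tendsto (fun i => ev hN ω (B i) x) atTop (𝓝 (cc hN B ω • x)) := by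
  have h1 : cc hN B ω = h.choose := by
    unfold cc
    rw [dif_pos h]
  rw [h1]
  exact h.choose_spec x

theorem cc_uniq (hN : SubField N) (B : ℕ → KF hN) (ω : Ω) (c : ℂ)
    (h : ∀ x : Hil N ω, Tendsto (fun i => ev hN ω (B i) x) atTop (𝓝 (c • x))) :
    cc hN B ω = c :=
  tendsto_nhds_unique (q_lim hN B ω _ (cc_spec hN B ω ⟨c, h⟩ (bv N 1 ω)))
    (q_lim hN B ω c (h (bv N 1 ω)))

theorem cc_inv (hN : SubField N) (B : ℕ → KF hN) (g : G) (ω : Ω) :
    cc hN B (g • ω) = cc hN B ω := by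
  by_cases h : ω ∈ SS hN B
  · exact cc_uniq hN B (g • ω) _ fun x =>
      conv_smul hN B ω _ g (fun y => cc_spec hN B ω h y) x
  · have h' : g • ω ∉ SS hN B := fun h2 => h ((SS_inv hN B g ω).1 h2)
    unfold cc
    rw [dif_neg h, dif_neg h']

theorem cc_meas (hN : SubField N) (B : ℕ → KF hN) (R : ℝ) (hR : ∀ i, ‖B i‖ ≤ R) :
    Measurable (cc hN B) := by
  refine measurable_of_tendsto_metrizable
    (f := fun i => (SS hN B).indicator (co hN (B i) 1 1))
    (fun i => (co_meas hN (B i) 1 1).indicator (SS_meas hN B R hR)) ?_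
  rw [tendsto_pi_nhds]
  intro ω
  by_cases h : ω ∈ SS hN B
  · simp only [Set.indicator_of_mem h]
    exact q_lim hN B ω _ (cc_spec hN B ω h (bv N 1 ω))
  · simp only [Set.indicator_of_notMem h]
    have h1 : cc hN B ω = 0 := by
      unfold cc
      rw [dif_neg h]
    rw [h1]
    exact tendsto_const_nhds

theorem t_zo (P : Measure Ω) [IsProbabilityMeasure P] (hN : SubField N) (hE : Erg G P)
    (B : ℕ → KF hN) (R : ℝ) (hR : ∀ i, ‖B i‖ ≤ R) :
    (∀ᵐ ω ∂P, ¬ ∃ c : ℂ, ∀ x : Hil N ω, Tendsto (fun i => ev hN ω (B i) x) atTop (𝓝 (c • x))) ∨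
    (∃ c : ℂ, ∀ᵐ ω ∂P, ∀ x : Hil N ω,
      Tendsto (fun i => ev hN ω (B i) x) atTop (𝓝 (c • x))) := by
  have hS := hE.erg (SS hN B) (SS_meas hN B R hR) (fun g => by
    ext ω
    exact SS_inv hN B g ω)
  rcases hS with h0 | h1
  · left
    rw [ae_iff]
    simp only [not_not]
    exact h0
  · right
    have hae : ∀ᵐ ω ∂P, ω ∈ SS hN B := by
      rw [ae_iff]
      exact h1
    obtain ⟨c, hc⟩ := exists_eventuallyEq_const_of_forall_separating (l := ae P)
      (f := cc hN B) MeasurableSet (fun U hU => by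
        have h2 := hE.erg (cc hN B ⁻¹' U) (cc_meas hN B R hR hU) (fun g => by
          ext ω
          simp only [Set.mem_preimage, cc_inv])
        rcases h2 with h2 | h2
        · right
          rw [ae_iff]
          simp only [not_not]
          exact h2
        · left
          rw [ae_iff]
          exact h2)
    refine ⟨c, ?_⟩
    filter_upwards [hae, hc] with ω hω hcω x
    have := cc_spec hN B ω hω x
    rw [hcω] at this
    exact this

/-- the disintegration of the trace -/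
theorem t_DT (P : Measure Ω) [IsProbabilityMeasure P] (hN : SubField N) (hE : Erg G P) :
    DT P (tauN P hN) (fun ω => ev hN ω) (fun (g : G) ω => bv N g ω) (fun ω => bv N 1 ω) where
  tr := t_TrSt P hN hE.mp
  unit := fun ω => bv_norm N 1 ω
  total := fun ω x h => bv_total N ω x h
  meas := fun A => by
    have h1 : (fun ω => ‖ev hN ω A (bv N 1 ω)‖)
        = fun ω => Real.sqrt (‖ev hN ω A (bv N 1 ω)‖ ^ 2) := funext fun ω =>
      (Real.sqrt_sq (norm_nonneg _)).symm
    rw [h1]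
    exact Real.continuous_sqrt.measurable.comp (nsq_meas hN A 1)
  trace := fun A => ⟨co_int P hN A 1 1, tauN_apply P hN A⟩
  norms := fun A g => ⟨(nsq_int P hN hE.mp A g).1, (nsq_int P hN hE.mp A g).2.le⟩
  zo := fun B R hR => t_zo P hN hE B R hR

end
end Pool.Agent.H21.Net
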