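import Pool.Agent.H21.Smv

/-!
# Propagation of nondegenerate determinants in analytic families

If `Y : ℂ → A` is entire and for some `c` the determinant of `Y(0) - c` is larger than `|c|`, then for
almost all `θ` there is a `c` such that the determinant of `Y(e^{iθ}) - c` is larger than `|c|`.
-/

set_option autoImplicit false
set_option linter.unusedSectionVars false
open scoped ComplexConjugate InnerProductSpace Topology
open Filter MeasureTheory

namespace Pool.Agent.H21.Smv
open Pool.Agent.H712R5.BO Pool.Agent.W611.RO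

section
variable {A : Type} [CStarAlgebra A]

theorem uu_mono (τ : A →L[ℂ] ℂ) (hτ : TrSt τ) (X : A) {δ δ' : ℝ} (hδ : 0 < δ) (h : δ ≤ δ') :
    uu τ δ X ≤ uu τ δ' X := Pool.Agent.TH322.AC.logdet_mono τ hτ X hδ h

theorem uu_le (τ : A →L[ℂ] ℂ) (hτ : TrSt τ) (X : A) {δ C : ℝ} (hδ : 0 < δ) (hC : ‖X‖ ≤ C) :
    uu τ δ X ≤ Real.log (δ + C ^ 2) := Pool.Agent.TH322.AC.logdet_le τ hτ X hδ hC

theorem uu_cont (τ : A →L[ℂ] ℂ) {δ : ℝ} (hδ : 0 < δ) : Continuous (uu τ δ) := by
  rw [continuous_iff_continuousAt]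
  intro X₀
  set R : ℝ := ‖X₀‖ + 1 with hR
  have h1 : ContinuousOn (fun X : A => cfc (fun x : ℝ => Real.log (δ + x)) (star X * X))
      (Metric.ball 0 R) := by
    refine ContinuousOn.cfc' (s := Set.Icc 0 (R ^ 2)) isCompact_Icc _ (by fun_prop)
      (fun X hX => ?_) (fun X _ => IsSelfAdjoint.star_mul_self X)
      (Pool.Agent.TH322.AC.cont_log hδ _)
    rw [mem_ball_zero_iff] at hX
    exact Pool.Agent.TH322.AC.spec_le X hX.le
  have h2 : ContinuousAt (fun X : A => cfc (fun x : ℝ => Real.log (δ + x)) (star X * X)) X₀ :=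
    h1.continuousAt (Metric.isOpen_ball.mem_nhds (by rw [mem_ball_zero_iff]; linarith))
  have h3 : uu τ δ = fun X : A =>
      (τ (cfc (fun x : ℝ => Real.log (δ + x)) (star X * X))).re := by
    funext X
    unfold uu
    rw [Pool.Agent.TH322.AC.log_cfc X hδ]
  rw [h3]
  exact Complex.continuous_re.continuousAt.comp (τ.continuous.continuousAt.comp h2)

theorem uu_smul (τ : A →L[ℂ] ℂ) (hτ : TrSt τ) (X : A) {δ : ℝ} (hδ : 0 < δ) (z : ℂ) (hz : z ≠ 0) :
    uu τ δ (z • X) = 2 * Real.log ‖z‖ + uu τ (δ / ‖z‖ ^ 2) X := by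
  have hl : 0 < ‖z‖ := norm_pos_iff.2 hz
  have h1 := Pool.Agent.TH322.AC.logdet_smul τ hτ X hδ hl 1
  simp only [pow_one, Nat.cast_one, mul_one] at h1
  unfold uu
  rw [← h1]
  congr 3
  rw [star_smul, star_smul, smul_mul_smul_comm, smul_mul_smul_comm]
  congr 2
  have e1 : star z * z = ((‖z‖ ^ 2 : ℝ) : ℂ) := by
    push_cast
    exact Complex.conj_mul' z
  have e2 : star (‖z‖ : ℂ) * (‖z‖ : ℂ) = ((‖z‖ ^ 2 : ℝ) : ℂ) := by
    have : star (‖z‖ : ℂ) = (‖z‖ : ℂ) := Complex.conj_ofReal _
    rw [this]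
    push_cast
    ring
  rw [e1, e2]

/-- the determinant of `Y - c` is larger than `|c|` for some `c` -/
def Good (τ : A →L[ℂ] ℂ) (Y : A) : Prop :=
  ∃ (c : ℂ) (κ : ℝ), ‖c‖ < Real.exp κ ∧ ∀ δ : ℝ, 0 < δ → 2 * κ ≤ uu τ δ (Y - c • (1 : A))

theorem Good.smul {τ : A →L[ℂ] ℂ} (hτ : TrSt τ) {Y : A} (h : Good τ Y) {z : ℂ} (hz : z ≠ 0) :
    Good τ (z • Y) := by
  obtain ⟨c, κ, h1, h2⟩ := h
  have hl : 0 < ‖z‖ := norm_pos_iff.2 hz
  refine ⟨z * c, Real.log ‖z‖ + κ, ?_, fun δ hδ => ?_⟩
  · rw [norm_mul, Real.exp_add, Real.exp_log hl]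
    exact mul_lt_mul_of_pos_left h1 hl
  · have e1 : z • Y - (z * c) • (1 : A) = z • (Y - c • (1 : A)) := by
      rw [smul_sub, smul_smul]
    rw [e1, uu_smul τ hτ _ hδ z hz]
    have := h2 (δ / ‖z‖ ^ 2) (by positivity)
    linarith

theorem Good.of_smul {τ : A →L[ℂ] ℂ} (hτ : TrSt τ) {Y : A} {z : ℂ} (hz : z ≠ 0)
    (h : Good τ (z • Y)) : Good τ Y := by
  have h1 := h.smul hτ (inv_ne_zero hz)
  rwa [smul_smul, inv_mul_cancel₀ hz, one_smul] at h1

/-- the number `c` may be taken different from zero -/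
theorem Good.ne_zero {τ : A →L[ℂ] ℂ} (hτ : TrSt τ) {Y : A} (h : Good τ Y) :
    ∃ (c : ℂ) (κ : ℝ), c ≠ 0 ∧ Real.log ‖c‖ < κ ∧
      ∀ δ : ℝ, 0 < δ → 2 * κ ≤ uu τ δ (Y - c • (1 : A)) := by
  obtain ⟨c, κ, h1, h2⟩ := h
  by_cases hc : c = 0
  · subst hc
    simp_rw [zero_smul, sub_zero] at h2
    set ρ : ℝ := Real.exp (κ - 1) with hρ
    have hρ0 : 0 < ρ := Real.exp_pos _
    set K : ℕ → Set Cir := fun n =>
      {θ | 2 * κ ≤ uu τ (1 / ((n : ℝ) + 1)) (Y - ((ρ : ℂ) * ee θ) • (1 : A))} with hK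
    have hcont : ∀ δ : ℝ, 0 < δ → Continuous fun θ : Cir =>
        uu τ δ (Y - ((ρ : ℂ) * ee θ) • (1 : A)) := by
      intro δ hδ
      refine (uu_cont τ hδ).comp ?_
      exact continuous_const.sub ((continuous_const.mul ee_cont).smul continuous_const)
    have hKc : ∀ n, IsClosed (K n) := fun n =>
      isClosed_le continuous_const (hcont _ (by positivity))
    have hKn : ∀ n, (K n).Nonempty := by
      intro n
      have hδ : (0:ℝ) < 1 / ((n : ℝ) + 1) := by positivity
      by_contra hne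
      rw [Set.not_nonempty_iff_eq_empty] at hne
      have hlt : ∀ θ : Cir, uu τ (1 / ((n : ℝ) + 1)) (Y - ((ρ : ℂ) * ee θ) • (1 : A)) < 2 * κ := by
        intro θ
        by_contra hcon
        push Not at hcon
        have : θ ∈ K n := hcon
        rw [hne] at this
        exact this
      have h3 := smv τ hτ (fun w => Y - ((ρ : ℂ) * w) • (1 : A)) (by fun_prop) hδ
      simp only [mul_zero, zero_smul, sub_zero] at h3
      have h4 := h2 _ hδ
      obtain ⟨θ₀, -, hθ₀⟩ := isCompact_univ.exists_isMaxOn (Set.univ_nonempty (α := Cir))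
        (hcont _ hδ).continuousOn
      have h5 : ∫ θ, uu τ (1 / ((n : ℝ) + 1)) (Y - ((ρ : ℂ) * ee θ) • (1 : A)) ∂hm
          ≤ ∫ _θ : Cir, uu τ (1 / ((n : ℝ) + 1)) (Y - ((ρ : ℂ) * ee θ₀) • (1 : A)) ∂hm := by
        refine integral_mono ?_ (integrable_const _) fun θ => hθ₀ (Set.mem_univ θ)
        exact (hcont _ hδ).integrable_of_hasCompactSupport (HasCompactSupport.of_compactSpace _)
      rw [integral_const] at h5
      simp only [probReal_univ, one_smul] at h5
      linarith [hlt θ₀]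
    have hdec : ∀ n, K (n + 1) ⊆ K n := by
      intro n θ hθ
      have h3 : 2 * κ ≤ uu τ (1 / (((n + 1 : ℕ) : ℝ) + 1)) (Y - ((ρ : ℂ) * ee θ) • (1 : A)) := hθ
      refine h3.trans (uu_mono τ hτ _ (by positivity) ?_)
      push_cast
      exact one_div_le_one_div_of_le (by positivity) (by linarith)
    obtain ⟨θ, hθ⟩ := IsCompact.nonempty_iInter_of_sequence_nonempty_isCompact_isClosed K hdec hKn
      (hKc 0).isCompact hKc
    rw [Set.mem_iInter] at hθ
    refine ⟨(ρ : ℂ) * ee θ, κ, mul_ne_zero (by exact_mod_cast hρ0.ne') (ee_ne θ), ?_,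
      fun δ hδ => ?_⟩
    · rw [norm_mul, ee_norm, mul_one, Complex.norm_real, Real.norm_eq_abs, abs_of_pos hρ0, hρ,
        Real.log_exp]
      linarith
    · obtain ⟨n, hn⟩ := exists_nat_one_div_lt hδ
      have h3 : 2 * κ ≤ uu τ (1 / ((n : ℝ) + 1)) (Y - ((ρ : ℂ) * ee θ) • (1 : A)) := hθ n
      exact h3.trans (uu_mono τ hτ _ (by positivity) hn.le)
  · refine ⟨c, κ, hc, ?_, h2⟩
    rw [Real.log_lt_iff_lt_exp (norm_pos_iff.2 hc)]
    exact h1

/-! ### real parts of entire functions on the circle -/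

/-- every multiple of `q` is, in its real part, the boundary value of an entire function whose value at
`0` is the mean -/
def RePart (q : C(Cir, ℂ)) : Prop := ∀ z : ℂ, ∃ h : ℂ → ℂ, Differentiable ℂ h ∧
  (∀ θ, (h (ee θ)).re = (z * q θ).re) ∧ (h 0).re = ∫ θ, (z * q θ).re ∂hm

theorem int_fourier (k : ℤ) (hk : k ≠ 0) (z : ℂ) : ∫ θ, (z * fourier k θ).re ∂hm = 0 := by
  refine integral_eq_zero_of_add_right_eq_neg (μ := hm) (g := (((1 : ℝ) / 2 / k : ℝ) : Cir)) ?_
  intro θ
  rw [fourier_add_half_inv_index hk (by norm_num) θ]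
  simp

theorem fourier_ee (k : ℕ) (θ : Cir) : (fourier (k : ℤ) θ : ℂ) = ee θ ^ k := by
  unfold ee
  rw [fourier_apply, fourier_apply, one_smul]
  induction k with
  | zero => simp
  | succ k ih =>
    rw [pow_succ, ← ih]
    push_cast
    rw [add_smul, one_smul, AddCircle.toCircle_add, Circle.coe_mul]

theorem RePart.four (k : ℤ) : RePart (fourier k) := by
  intro z
  obtain ⟨n, rfl | rfl⟩ := k.eq_nat_or_neg
  · refine ⟨fun w => z * w ^ n, by fun_prop, fun θ => by rw [fourier_ee], ?_⟩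
    by_cases hn : n = 0
    · subst hn
      simp
    · rw [int_fourier _ (by exact_mod_cast hn)]
      simp [hn]
  · refine ⟨fun w => conj z * w ^ n, by fun_prop, fun θ => ?_, ?_⟩
    · rw [fourier_neg, fourier_ee]
      have h1 : conj z * ee θ ^ n = conj (z * conj (ee θ ^ n)) := by
        rw [map_mul, Complex.conj_conj]
      show (conj z * ee θ ^ n).re = _
      rw [h1, Complex.conj_re]
    · by_cases hn : n = 0
      · subst hn
        simp
      · rw [int_fourier _ (by simpa using hn)]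
        simp [hn]

theorem RePart.add {p q : C(Cir, ℂ)} (hp : RePart p) (hq : RePart q) : RePart (p + q) := by
  intro z
  obtain ⟨h1, a1, a2, a3⟩ := hp z
  obtain ⟨h2, b1, b2, b3⟩ := hq z
  have hi : ∀ f : C(Cir, ℂ), Integrable (fun θ => (z * f θ).re) hm := fun f =>
    (Complex.continuous_re.comp (continuous_const.mul f.continuous)).integrable_of_hasCompactSupport
      (HasCompactSupport.of_compactSpace _)
  refine ⟨h1 + h2, a1.add b1, fun θ => ?_, ?_⟩
  · rw [Pi.add_apply, Complex.add_re, a2, b2, ContinuousMap.add_apply, mul_add, Complex.add_re]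
  · rw [Pi.add_apply, Complex.add_re, a3, b3, ← integral_add (hi p) (hi q)]
    refine integral_congr_ae (Eventually.of_forall fun θ => ?_)
    simp [mul_add]

theorem RePart.smul {p : C(Cir, ℂ)} (hp : RePart p) (c : ℂ) : RePart (c • p) := by
  intro z
  obtain ⟨h1, a1, a2, a3⟩ := hp (z * c)
  refine ⟨h1, a1, fun θ => ?_, ?_⟩
  · rw [a2, ContinuousMap.smul_apply, smul_eq_mul, mul_assoc]
  · rw [a3]
    refine integral_congr_ae (Eventually.of_forall fun θ => ?_)
    simp [mul_assoc]

theorem RePart.span {q : C(Cir, ℂ)} (hq : q ∈ Submodule.span ℂ (Set.range (@fourier 1))) :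
    RePart q := by
  induction hq using Submodule.span_induction with
  | mem x hx =>
    obtain ⟨k, rfl⟩ := hx
    exact RePart.four k
  | zero =>
    intro z
    exact ⟨fun _ => 0, by fun_prop, fun θ => by simp, by simp⟩
  | add x y _ _ hx hy => exact hx.add hy
  | smul c x _ hx => exact hx.smul c

theorem approx (f : Cir → ℝ) (hf : Integrable f hm) {ε : ℝ} (hε : 0 < ε) :
    ∃ h : ℂ → ℂ, Differentiable ℂ h ∧ ∫ θ, |(h (ee θ)).re - f θ| ∂hm ≤ ε ∧
      (h 0).re = ∫ θ, (h (ee θ)).re ∂hm := by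
  have hf' : Integrable (fun θ => (f θ : ℂ)) hm := hf.ofReal
  obtain ⟨g, hg1, hg2⟩ := hf'.exists_boundedContinuous_integral_sub_le (half_pos hε)
  set g' : C(Cir, ℂ) := g.toContinuousMap with hg'
  have hcl : g' ∈ closure ((Submodule.span ℂ (Set.range (@fourier 1)) : Submodule ℂ C(Cir, ℂ)) :
      Set C(Cir, ℂ)) := by
    have h1 : (Submodule.span ℂ (Set.range (@fourier 1))).topologicalClosure = ⊤ :=
      span_fourier_closure_eq_top
    have h2 : g' ∈ (Submodule.span ℂ (Set.range (@fourier 1))).topologicalClosure := by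
      rw [h1]; trivial
    exact h2
  obtain ⟨q, hq1, hq2⟩ := Metric.mem_closure_iff.1 hcl (ε / 2) (half_pos hε)
  obtain ⟨h, h1, h2, h3⟩ := RePart.span (q := q) hq1 1
  simp_rw [one_mul] at h2 h3
  refine ⟨h, h1, ?_, by rw [h3]; simp_rw [h2]⟩
  have hint : ∀ q : C(Cir, ℂ), Integrable (fun θ => q θ) hm := fun q =>
    q.continuous.integrable_of_hasCompactSupport (HasCompactSupport.of_compactSpace _)
  have hb : ∀ θ, |(h (ee θ)).re - f θ| ≤ ε / 2 + ‖(f θ : ℂ) - g θ‖ := by
    intro θ
    rw [h2]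
    have e1 : (q θ).re - f θ = (q θ - g' θ).re - ((f θ : ℂ) - g θ).re := by
      have : g' θ = g θ := rfl
      rw [this, Complex.sub_re, Complex.sub_re, Complex.ofReal_re]
      ring
    rw [e1]
    refine (abs_sub _ _).trans (add_le_add ?_ (Complex.abs_re_le_norm _))
    refine (Complex.abs_re_le_norm _).trans ?_
    have h4 : ‖(q - g') θ‖ ≤ ‖q - g'‖ := (q - g').norm_coe_le_norm θ
    rw [dist_eq_norm, norm_sub_rev] at hq2
    exact h4.trans hq2.le
  have hn : Integrable (fun θ => ‖(f θ : ℂ) - g θ‖) hm := (hf'.sub hg2).norm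
  calc ∫ θ, |(h (ee θ)).re - f θ| ∂hm ≤ ∫ θ, (ε / 2 + ‖(f θ : ℂ) - g θ‖) ∂hm := by
        refine integral_mono ?_ ((integrable_const _).add hn) hb
        have h5 : (fun θ => |(h (ee θ)).re - f θ|) = fun θ => ‖(q θ).re - f θ‖ := by
          funext θ
          rw [h2, Real.norm_eq_abs]
        rw [h5]
        exact ((hint q).re.sub hf).norm
    _ = ε / 2 + ∫ θ, ‖(f θ : ℂ) - g θ‖ ∂hm := by
        rw [integral_add (integrable_const _) hn]
        simp
    _ ≤ ε := by linarith

/-- **Propagation.** -/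
theorem prop (τ : A →L[ℂ] ℂ) (hτ : TrSt τ) (Y : ℂ → A) (hY : Differentiable ℂ Y)
    (hG : Good τ (Y 0)) : ∀ᵐ θ ∂hm, Good τ (Y (ee θ)) := by
  classical
  obtain ⟨c, κ, hc, hκ, hdet⟩ := hG.ne_zero hτ
  by_contra hcon
  set B : Set Cir := {θ | ¬ Good τ (Y (ee θ))} with hB
  have hB0 : hm B ≠ 0 := fun h => hcon h
  set B' : Set Cir := toMeasurable hm B with hB'
  have hB'm : MeasurableSet B' := measurableSet_toMeasurable _ _
  have hBB : B ⊆ B' := subset_toMeasurable _ _
  set β : ℝ := hm.real B' with hβ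
  have hβ0 : 0 < β := by
    rw [hβ, measureReal_def, measure_toMeasurable]
    exact ENNReal.toReal_pos hB0 (measure_ne_top _ _)
  have hβ1 : β ≤ 1 := by
    rw [hβ]
    exact measureReal_le_one
  -- the bound of `Y`
  obtain ⟨C, hC0, hC⟩ : ∃ C : ℝ, 0 < C ∧ ∀ θ, ‖Y (ee θ)‖ ≤ C := by
    obtain ⟨C, hC⟩ := (isCompact_univ (X := Cir)).exists_bound_of_continuousOn
      (f := fun θ => Y (ee θ)) (hY.continuous.comp ee_cont).continuousOn
    exact ⟨|C| + 1, by positivity, fun θ => (hC θ (Set.mem_univ θ)).trans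
      ((le_abs_self C).trans (by linarith))⟩
  set l : ℝ := Real.log ‖c‖ with hl
  set η : ℝ := κ - l with hη
  have hη0 : 0 < η := by rw [hη]; linarith
  -- the level
  obtain ⟨M, hM0, hM⟩ : ∃ M : ℝ, 0 ≤ M ∧ C * Real.exp (-M) ≤ η / 8 := by
    have h1 : Tendsto (fun M : ℝ => C * Real.exp (-M)) atTop (𝓝 (C * 0)) :=
      (Real.tendsto_exp_atBot.comp tendsto_neg_atTop_atBot).const_mul C
    rw [mul_zero] at h1
    have h2 := (h1.eventually (gt_mem_nhds (show (0:ℝ) < η / 8 by linarith))).and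
      (eventually_ge_atTop (0:ℝ))
    obtain ⟨M, hM, hM'⟩ := h2.exists
    exact ⟨M, hM', hM.le⟩
  set M' : ℝ := (l - M * (1 - β)) / β with hM'
  set f : Cir → ℝ := fun θ => if θ ∈ B' then M' else M with hf
  have hfm : Measurable f := Measurable.ite hB'm measurable_const measurable_const
  have hfi : Integrable f hm := Integrable.of_bound hfm.aestronglyMeasurable (|M'| + |M|)
    (Eventually.of_forall fun θ => by
      rw [Real.norm_eq_abs, hf]
      dsimp only
      split_ifs
      · linarith [abs_nonneg M]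
      · linarith [abs_nonneg M'])
  have hfint : ∫ θ, f θ ∂hm = l := by
    have h1 : f = fun θ => B'.indicator (fun _ => M' - M) θ + M := by
      funext θ
      rw [hf]
      dsimp only
      by_cases hθ : θ ∈ B'
      · rw [if_pos hθ, Set.indicator_of_mem hθ]; ring
      · rw [if_neg hθ, Set.indicator_of_notMem hθ]; ring
    rw [h1, integral_add ((integrable_const _).indicator hB'm) (integrable_const _),
      integral_indicator_const _ hB'm, integral_const]
    simp only [probReal_univ, smul_eq_mul]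
    rw [← hβ, hM']
    field_simp
    ring
  obtain ⟨h₀, hd₀, hap₀, hmean₀⟩ := approx f hfi (show (0:ℝ) < η / 8 by linarith)
  have hcontre : ∀ h : ℂ → ℂ, Differentiable ℂ h → Continuous fun θ : Cir => (h (ee θ)).re :=
    fun h hh => Complex.continuous_re.comp (hh.continuous.comp ee_cont)
  have hintre : ∀ h : ℂ → ℂ, Differentiable ℂ h → Integrable (fun θ : Cir => (h (ee θ)).re) hm :=
    fun h hh => (hcontre h hh).integrable_of_hasCompactSupport (HasCompactSupport.of_compactSpace _)
  -- the shifted function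
  set s : ℂ := Complex.log c - h₀ 0 with hs
  have hsre : |s.re| ≤ η / 8 := by
    have h1 : s.re = l - ∫ θ, (h₀ (ee θ)).re ∂hm := by
      rw [hs, Complex.sub_re, Complex.log_re, hmean₀]
    rw [h1, ← hfint, ← integral_sub hfi (hintre h₀ hd₀), ← Real.norm_eq_abs]
    refine (norm_integral_le_integral_norm _).trans (le_trans (le_of_eq ?_) hap₀)
    refine integral_congr_ae (Eventually.of_forall fun θ => ?_)
    show ‖f θ - (h₀ (ee θ)).re‖ = |(h₀ (ee θ)).re - f θ|
    rw [Real.norm_eq_abs, abs_sub_comm]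
  set h : ℂ → ℂ := fun w => h₀ w + s with hh
  have hhd : Differentiable ℂ h := hd₀.add_const s
  have hh0 : Complex.exp (h 0) = c := by
    rw [hh]
    dsimp only
    rw [hs, add_sub_cancel, Complex.exp_log hc]
  set p : Cir → ℝ := fun θ => (h (ee θ)).re with hp
  have hpc : Continuous p := hcontre h hhd
  have hpi : Integrable p hm := hintre h hhd
  have hap : ∫ θ, |p θ - f θ| ∂hm ≤ η / 4 := by
    have h1 : ∀ θ, |p θ - f θ| ≤ |(h₀ (ee θ)).re - f θ| + η / 8 := by
      intro θ
      have e1 : p θ - f θ = ((h₀ (ee θ)).re - f θ) + s.re := by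
        rw [hp, hh]
        dsimp only
        rw [Complex.add_re]
        ring
      rw [e1]
      exact (abs_add_le _ _).trans (by linarith)
    have h2 : Integrable (fun θ => |(h₀ (ee θ)).re - f θ|) hm := ((hintre h₀ hd₀).sub hfi).abs
    calc ∫ θ, |p θ - f θ| ∂hm ≤ ∫ θ, (|(h₀ (ee θ)).re - f θ| + η / 8) ∂hm :=
          integral_mono (hpi.sub hfi).abs (h2.add (integrable_const _)) h1
      _ = ∫ θ, |(h₀ (ee θ)).re - f θ| ∂hm + η / 8 := by
          rw [integral_add h2 (integrable_const _)]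
          simp
      _ ≤ η / 4 := by linarith
  -- the entire function
  set Ψ : ℂ → A := fun w => Y w - Complex.exp (h w) • (1 : A) with hΨ
  have hΨd : Differentiable ℂ Ψ := hY.sub (hhd.cexp.smul_const _)
  have hΨ0 : Ψ 0 = Y 0 - c • (1 : A) := by
    rw [hΨ]
    dsimp only
    rw [hh0]
  have hsmv : ∀ δ : ℝ, 0 < δ → 2 * κ ≤ ∫ θ, uu τ δ (Ψ (ee θ)) ∂hm := by
    intro δ hδ
    have h1 := smv τ hτ Ψ hΨd hδ
    rw [hΨ0] at h1
    exact (hdet δ hδ).trans h1
  have hucont : ∀ δ : ℝ, 0 < δ → Continuous fun θ : Cir => uu τ δ (Ψ (ee θ)) := fun δ hδ =>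
    (uu_cont τ hδ).comp (hΨd.continuous.comp ee_cont)
  have hΨn : ∀ θ, ‖Ψ (ee θ)‖ ≤ C + Real.exp (p θ) := by
    intro θ
    refine (norm_sub_le _ _).trans (add_le_add (hC θ) ?_)
    rw [norm_smul, Complex.norm_exp]
    have h1 : ‖(1 : A)‖ ≤ 1 := by
      rcases subsingleton_or_nontrivial A with hA | hA
      · rw [Subsingleton.elim (1 : A) 0, norm_zero]; exact zero_le_one
      · exact CStarRing.norm_one.le
    exact mul_le_of_le_one_right (Real.exp_pos _).le h1
  -- the bad set
  set dn : ℕ → ℝ := fun n => 1 / ((n : ℝ) + 1) with hdn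
  have hdn0 : ∀ n, 0 < dn n := fun n => by rw [hdn]; positivity
  have hdn1 : ∀ n, dn n ≤ 1 := fun n => by
    rw [hdn]
    dsimp only
    rw [div_le_one (by positivity)]
    have : (0:ℝ) ≤ n := Nat.cast_nonneg n
    linarith
  have hdna : ∀ m n, m ≤ n → dn n ≤ dn m := fun m n hmn => by
    rw [hdn]
    have : (m:ℝ) ≤ n := by exact_mod_cast hmn
    exact one_div_le_one_div_of_le (by positivity) (by linarith)
  set S : Set Cir := ⋂ k : ℕ, ⋃ n : ℕ,
    {θ | uu τ (dn n) (Ψ (ee θ)) < 2 * p θ + 1 / ((k : ℝ) + 1)} with hS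
  have hSm : MeasurableSet S := MeasurableSet.iInter fun k => MeasurableSet.iUnion fun n =>
    (isOpen_lt (hucont _ (hdn0 n)) ((continuous_const.mul hpc).add continuous_const)).measurableSet
  have hBS : B ⊆ S := by
    intro θ hθ
    rw [hS, Set.mem_iInter]
    intro k
    rw [Set.mem_iUnion]
    by_contra hne
    push Not at hne
    apply hθ
    refine ⟨Complex.exp (h (ee θ)), p θ + 1 / ((k : ℝ) + 1) / 2, ?_, fun δ hδ => ?_⟩
    · rw [Complex.norm_exp]
      exact Real.exp_lt_exp.2 (by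
        have : (0:ℝ) < 1 / ((k : ℝ) + 1) / 2 := by positivity
        linarith)
    · obtain ⟨n, hn⟩ := exists_nat_one_div_lt hδ
      have h3 : ¬ uu τ (dn n) (Ψ (ee θ)) < 2 * p θ + 1 / ((k : ℝ) + 1) := hne n
      push Not at h3
      have h4 := uu_mono τ hτ (Ψ (ee θ)) (hdn0 n) hn.le
      have h5 : uu τ (dn n) (Ψ (ee θ)) ≤ uu τ δ (Y (ee θ) - Complex.exp (h (ee θ)) • (1 : A)) := h4
      linarith
  have haeS : ∀ᵐ θ ∂hm, θ ∈ B' → θ ∈ S := by
    have h1 : hm (B' ∩ Sᶜ) = 0 := by
      rw [hB', Measure.measure_toMeasurable_inter hSm.compl (measure_ne_top _ _)]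
      have : B ∩ Sᶜ = ∅ := by
        rw [← Set.disjoint_iff_inter_eq_empty]
        exact Set.disjoint_compl_right_iff_subset.2 hBS
      rw [this, measure_empty]
    rw [ae_iff]
    have h2 : {a | ¬ (a ∈ B' → a ∈ S)} = B' ∩ Sᶜ := by
      ext a
      simp only [Set.mem_ofPred_eq, Classical.not_imp, Set.mem_inter_iff, Set.mem_compl_iff]
    rw [h2]
    exact h1
  -- the majorants
  set Gn : ℕ → Cir → ℝ := fun n θ => if θ ∈ B' then max (uu τ (dn n) (Ψ (ee θ))) (2 * p θ)
    else Real.log (dn n + (C + Real.exp (p θ)) ^ 2) with hGn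
  set G : Cir → ℝ := fun θ => if θ ∈ B' then 2 * p θ
    else Real.log ((C + Real.exp (p θ)) ^ 2) with hGdef
  have hle : ∀ n θ, uu τ (dn n) (Ψ (ee θ)) ≤ Gn n θ := by
    intro n θ
    rw [hGn]
    dsimp only
    split_ifs
    · exact le_max_left _ _
    · exact uu_le τ hτ _ (hdn0 n) (hΨn θ)
  obtain ⟨K₀, hK₀⟩ := (isCompact_univ (X := Cir)).exists_bound_of_continuousOn hpc.continuousOn
  have hK₀' : ∀ θ, |p θ| ≤ K₀ := fun θ => hK₀ θ (Set.mem_univ θ)
  have hK₀0 : 0 ≤ K₀ := (abs_nonneg _).trans (hK₀' 0)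
  set K : ℝ := Real.log (1 + (C + Real.exp K₀) ^ 2) + 2 * K₀ with hK
  have hlog0 : 0 ≤ Real.log (1 + (C + Real.exp K₀) ^ 2) :=
    Real.log_nonneg (by have := sq_nonneg (C + Real.exp K₀); linarith)
  have hup : ∀ n θ, Real.log (dn n + (C + Real.exp (p θ)) ^ 2)
      ≤ Real.log (1 + (C + Real.exp K₀) ^ 2) := by
    intro n θ
    refine Real.log_le_log (by have := hdn0 n; positivity) (add_le_add (hdn1 n) ?_)
    refine pow_le_pow_left₀ (by positivity) ?_ 2
    exact add_le_add le_rfl (Real.exp_le_exp.2 ((le_abs_self _).trans (hK₀' θ)))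
  have hGnb : ∀ n θ, |Gn n θ| ≤ K := by
    intro n θ
    have hp1 := abs_le.1 (hK₀' θ)
    rw [hGn, abs_le]
    dsimp only
    split_ifs with hθ
    · constructor
      · have := le_max_right (uu τ (dn n) (Ψ (ee θ))) (2 * p θ)
        rw [hK]; linarith [hp1.1]
      · refine max_le ?_ (by rw [hK]; linarith [hp1.2])
        have := (uu_le τ hτ _ (hdn0 n) (hΨn θ)).trans (hup n θ)
        rw [hK]; linarith
    · constructor
      · have h1 : 2 * p θ ≤ Real.log (dn n + (C + Real.exp (p θ)) ^ 2) := by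
          rw [Real.le_log_iff_exp_le (by have := hdn0 n; positivity)]
          have : Real.exp (2 * p θ) = Real.exp (p θ) ^ 2 := by
            rw [← Real.exp_nat_mul]; norm_num
          rw [this]
          have := hdn0 n
          have := Real.exp_pos (p θ)
          nlinarith
        rw [hK]; linarith [hp1.1]
      · rw [hK]
        linarith [hup n θ]
  have hGnm : ∀ n, Measurable (Gn n) := by
    intro n
    refine Measurable.ite hB'm ?_ ?_
    · exact ((hucont _ (hdn0 n)).measurable.max (continuous_const.mul hpc).measurable)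
    · exact Real.measurable_log.comp ((continuous_const.add
        ((continuous_const.add (Real.continuous_exp.comp hpc)).pow 2)).measurable)
  have hGlim : ∀ᵐ θ ∂hm, Tendsto (fun n => Gn n θ) atTop (𝓝 (G θ)) := by
    filter_upwards [haeS] with θ hθ
    by_cases hθB : θ ∈ B'
    · have h1 : G θ = 2 * p θ := if_pos hθB
      have h2 : (fun n => Gn n θ) = fun n => max (uu τ (dn n) (Ψ (ee θ))) (2 * p θ) := by
        funext n
        exact if_pos hθB
      rw [h1, h2, Metric.tendsto_atTop]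
      intro ε hε
      have h3 := hθ hθB
      rw [hS, Set.mem_iInter] at h3
      obtain ⟨k, hk⟩ := exists_nat_one_div_lt hε
      obtain ⟨n, hn⟩ := Set.mem_iUnion.1 (h3 k)
      have hn' : uu τ (dn n) (Ψ (ee θ)) < 2 * p θ + 1 / ((k : ℝ) + 1) := hn
      refine ⟨n, fun m hm => ?_⟩
      have h4 := uu_mono τ hτ (Ψ (ee θ)) (hdn0 m) (hdna n m hm)
      rw [Real.dist_eq, abs_lt]
      constructor
      · have := le_max_right (uu τ (dn m) (Ψ (ee θ))) (2 * p θ)
        linarith
      · have : max (uu τ (dn m) (Ψ (ee θ))) (2 * p θ) < 2 * p θ + ε :=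
          max_lt (by linarith) (by linarith)
        linarith
    · have h1 : G θ = Real.log ((C + Real.exp (p θ)) ^ 2) := if_neg hθB
      have h2 : (fun n => Gn n θ) = fun n => Real.log (dn n + (C + Real.exp (p θ)) ^ 2) := by
        funext n
        exact if_neg hθB
      rw [h1, h2]
      have h3 : Tendsto dn atTop (𝓝 0) := tendsto_one_div_add_atTop_nhds_zero_nat
      have h4 := h3.add_const ((C + Real.exp (p θ)) ^ 2)
      rw [zero_add] at h4
      have hpos : (C + Real.exp (p θ)) ^ 2 ≠ 0 := by positivity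
      exact (Real.continuousAt_log hpos).tendsto.comp h4
  have hGint : Tendsto (fun n => ∫ θ, Gn n θ ∂hm) atTop (𝓝 (∫ θ, G θ ∂hm)) :=
    tendsto_integral_of_dominated_convergence (fun _ => K)
      (fun n => (hGnm n).aestronglyMeasurable) (integrable_const _)
      (fun n => Eventually.of_forall fun θ => by rw [Real.norm_eq_abs]; exact hGnb n θ) hGlim
  have hmain : 2 * κ ≤ ∫ θ, G θ ∂hm := by
    refine ge_of_tendsto' hGint fun n => (hsmv (dn n) (hdn0 n)).trans ?_
    refine integral_mono ?_ ?_ (hle n)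
    · exact (hucont _ (hdn0 n)).integrable_of_hasCompactSupport (HasCompactSupport.of_compactSpace _)
    · exact Integrable.of_bound (hGnm n).aestronglyMeasurable K
        (Eventually.of_forall fun θ => by rw [Real.norm_eq_abs]; exact hGnb n θ)
  -- the upper bound of the limit
  have hGle : ∀ θ, G θ ≤ 2 * f θ + 2 * |p θ - f θ| + 2 * (C * Real.exp (-M)) := by
    intro θ
    have hCM : 0 ≤ C * Real.exp (-M) := by positivity
    by_cases hθB : θ ∈ B'
    · have h1 : G θ = 2 * p θ := if_pos hθB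
      rw [h1]
      have := le_abs_self (p θ - f θ)
      linarith
    · have h1 : G θ = Real.log ((C + Real.exp (p θ)) ^ 2) := if_neg hθB
      have h2 : f θ = M := if_neg hθB
      rw [h1, h2, Real.log_pow]
      have h3 : C + Real.exp (p θ) ≤ Real.exp (|p θ - M| + (M + C * Real.exp (-M))) := by
        have e1 : Real.exp (p θ) ≤ Real.exp |p θ - M| * Real.exp M := by
          rw [← Real.exp_add]
          exact Real.exp_le_exp.2 (by linarith [le_abs_self (p θ - M)])
        have e2 : C ≤ Real.exp |p θ - M| * C := by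
          have : 1 ≤ Real.exp |p θ - M| := Real.one_le_exp (abs_nonneg _)
          nlinarith
        have e3 : C + Real.exp M ≤ Real.exp (M + C * Real.exp (-M)) := by
          have e4 : C + Real.exp M = Real.exp M * (C * Real.exp (-M) + 1) := by
            rw [mul_add, mul_one, mul_left_comm, ← Real.exp_add, add_neg_cancel, Real.exp_zero,
              mul_one]
          rw [e4, Real.exp_add]
          exact mul_le_mul_of_nonneg_left (Real.add_one_le_exp _) (Real.exp_pos _).le
        calc C + Real.exp (p θ) ≤ Real.exp |p θ - M| * C + Real.exp |p θ - M| * Real.exp M :=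
              add_le_add e2 e1
          _ = Real.exp |p θ - M| * (C + Real.exp M) := by ring
          _ ≤ Real.exp |p θ - M| * Real.exp (M + C * Real.exp (-M)) :=
              mul_le_mul_of_nonneg_left e3 (Real.exp_pos _).le
          _ = _ := by rw [← Real.exp_add]
      have h4 := Real.log_le_log (by positivity) h3
      rw [Real.log_exp] at h4
      push_cast
      linarith
  have hfin : ∫ θ, G θ ∂hm ≤ 2 * l + 2 * (η / 4) + 2 * (η / 8) := by
    have hGi : Integrable G hm := by
      refine Integrable.of_bound (C := K) ?_ ?_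
      · exact aestronglyMeasurable_of_tendsto_ae atTop (fun n => (hGnm n).aestronglyMeasurable)
          hGlim
      · filter_upwards [hGlim] with θ hθ
        exact le_of_tendsto hθ.norm (Eventually.of_forall fun n => by
          rw [Real.norm_eq_abs]; exact hGnb n θ)
    have hai : Integrable (fun θ => |p θ - f θ|) hm := (hpi.sub hfi).abs
    have hi1 : Integrable (fun θ => 2 * f θ + 2 * |p θ - f θ|) hm :=
      (hfi.const_mul 2).add (hai.const_mul 2)
    calc ∫ θ, G θ ∂hm ≤ ∫ θ, (2 * f θ + 2 * |p θ - f θ| + 2 * (C * Real.exp (-M))) ∂hm :=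
          integral_mono hGi (hi1.add (integrable_const _)) hGle
      _ = 2 * l + 2 * ∫ θ, |p θ - f θ| ∂hm + 2 * (C * Real.exp (-M)) := by
          rw [integral_add hi1 (integrable_const _), integral_add (hfi.const_mul 2)
            (hai.const_mul 2), integral_const_mul, integral_const_mul, hfint]
          simp
      _ ≤ _ := by linarith
  linarith

end
end Pool.Agent.H21.Smv
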