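import Pool.Agent.H21.DCrit
import Pool.Graph.R_seed8.W116.RO.Mono
import Pool.Graph.R_seed8.W636.RO.M1
import Pool.Graph.R_seed8.W405.RO.M2

/-!
# The sub-mean value property of regularized determinants

For an entire function `Ψ` with values in a tracial C*-algebra, `τ log (δ + |Ψ(0)|²)` is at most the mean
of `τ log (δ + |Ψ(e^{iθ})|²)`.
-/

set_option autoImplicit false
set_option linter.unusedSectionVars false
open scoped ComplexConjugate InnerProductSpace Topology
open Filter MeasureTheory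

namespace Pool.Agent.H21.Smv
open Pool.Agent.H712R5.BO Pool.Agent.W611.RO

/-- the circle `ℝ/ℤ` with its Haar probability measure -/
abbrev Cir : Type := UnitAddCircle

noncomputable abbrev hm : Measure Cir := AddCircle.haarAddCircle

/-- `e^{2πiθ}` -/
noncomputable def ee (θ : Cir) : ℂ := fourier 1 θ

theorem ee_cont : Continuous ee := (fourier 1 : C(Cir, ℂ)).continuous

theorem ee_norm (θ : Cir) : ‖ee θ‖ = 1 := by
  unfold ee
  rw [fourier_apply]
  exact Circle.norm_coe _

theorem ee_ne (θ : Cir) : ee θ ≠ 0 := by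
  intro h
  have := ee_norm θ
  rw [h, norm_zero] at this
  exact zero_ne_one this

theorem ee_add (θ η : Cir) : ee (θ + η) = ee θ * ee η := by
  unfold ee
  rw [fourier_apply, fourier_apply, fourier_apply, one_smul, one_smul, one_smul,
    AddCircle.toCircle_add, Circle.coe_mul]

theorem ee_coe (t : ℝ) : ee ((t / (2 * Real.pi) : ℝ) : Cir) = Complex.exp (t * Complex.I) := by
  unfold ee
  rw [fourier_coe_apply]
  congr 1
  have hpi : (Real.pi : ℂ) ≠ 0 := by exact_mod_cast Real.pi_ne_zero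
  push_cast
  field_simp

section
variable {A : Type} [CStarAlgebra A]

/-- `τ log (δ + |X|²)` -/
noncomputable def uu (τ : A →L[ℂ] ℂ) (δ : ℝ) (X : A) : ℝ :=
  (τ (CFC.log (algebraMap ℝ A δ + star X * X))).re

/-- the C*-algebra of continuous functions on the circle -/
def CA (A : Type) [CStarAlgebra A] : Type := C(Cir, A)

noncomputable instance instCA (A : Type) [CStarAlgebra A] : CStarAlgebra (CA A) :=
  inferInstanceAs (CStarAlgebra C(Cir, A))

/-- the underlying function -/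
def toC (f : CA A) : C(Cir, A) := f

/-- continuous functions as elements of `CA` -/
def ofC (f : C(Cir, A)) : CA A := f

/-- evaluation -/
noncomputable def evC (θ : Cir) : CA A →⋆ₐ[ℂ] A where
  toFun := fun f => toC f θ
  map_one' := rfl
  map_mul' := fun _ _ => rfl
  map_zero' := rfl
  map_add' := fun _ _ => rfl
  commutes' := fun _ => rfl
  map_star' := fun _ => rfl

theorem evC_ofC (f : C(Cir, A)) (θ : Cir) : evC θ (ofC f) = f θ := rfl

theorem evC_cont (f : CA A) : Continuous fun θ => evC θ f := (toC f).continuous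

theorem evC_norm (f : CA A) (θ : Cir) : ‖evC θ f‖ ≤ ‖f‖ := (toC f).norm_coe_le_norm θ

theorem evC_ext {f g : CA A} (h : ∀ θ, evC θ f = evC θ g) : f = g :=
  ContinuousMap.ext h

theorem ofC_norm_le (f : C(Cir, A)) {C : ℝ} (hC : 0 ≤ C) (h : ∀ θ, ‖f θ‖ ≤ C) :
    ‖(ofC f : CA A)‖ ≤ C := (ContinuousMap.norm_le f hC).2 h

theorem tau_int (τ : A →L[ℂ] ℂ) (f : CA A) : Integrable (fun θ => τ (evC θ f)) hm :=
  (τ.continuous.comp (evC_cont f)).integrable_of_hasCompactSupport
    (HasCompactSupport.of_compactSpace _)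

/-- the trace on the continuous functions on the circle -/
noncomputable def tauC (τ : A →L[ℂ] ℂ) : CA A →L[ℂ] ℂ :=
  LinearMap.mkContinuous
    { toFun := fun f => ∫ θ, τ (evC θ f) ∂hm
      map_add' := by
        intro f g
        rw [← integral_add (tau_int τ f) (tau_int τ g)]
        refine integral_congr_ae (Eventually.of_forall fun θ => ?_)
        simp only [map_add]
      map_smul' := by
        intro c f
        rw [RingHom.id_apply, smul_eq_mul, ← integral_const_mul]
        refine integral_congr_ae (Eventually.of_forall fun θ => ?_)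
        simp only [map_smul, smul_eq_mul] }
    ‖τ‖ (by
      intro f
      have h1 : ∀ θ, ‖τ (evC θ f)‖ ≤ ‖τ‖ * ‖f‖ := fun θ =>
        (τ.le_opNorm _).trans (mul_le_mul_of_nonneg_left (evC_norm f θ) (norm_nonneg _))
      have h3 := norm_integral_le_of_norm_le_const (μ := hm)
        (Eventually.of_forall h1)
      simpa using h3)

theorem tauC_apply (τ : A →L[ℂ] ℂ) (f : CA A) : tauC τ f = ∫ θ, τ (evC θ f) ∂hm := rfl

theorem tauC_TrSt (τ : A →L[ℂ] ℂ) (hτ : TrSt τ) : TrSt (tauC τ) := by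
  refine ⟨?_, fun f => ?_, fun f => ?_, fun f g => ?_⟩
  · rw [tauC_apply]
    have h1 : ∀ θ : Cir, τ (evC θ (1 : CA A)) = 1 := fun θ => by rw [map_one]; exact hτ.one
    simp_rw [h1]
    simp
  · rw [tauC_apply]
    have h1 : (∫ θ, τ (evC θ (star f * f)) ∂hm).re = ∫ θ, (τ (evC θ (star f * f))).re ∂hm :=
      (integral_re (tau_int τ (star f * f))).symm
    rw [h1]
    refine integral_nonneg fun θ => ?_
    rw [map_mul, map_star]
    exact hτ.pos _
  · rw [tauC_apply, tauC_apply, ← integral_conj]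
    refine integral_congr_ae (Eventually.of_forall fun θ => ?_)
    show τ (evC θ (star f)) = conj (τ (evC θ f))
    rw [map_star]
    exact hτ.herm _
  · rw [tauC_apply, tauC_apply]
    refine integral_congr_ae (Eventually.of_forall fun θ => ?_)
    show τ (evC θ (f * g)) = τ (evC θ (g * f))
    have h1 : evC θ (f * g) = evC θ f * evC θ g := map_mul _ _ _
    have h2 : evC θ (g * f) = evC θ g * evC θ f := map_mul _ _ _
    rw [h1, h2]
    exact hτ.tr _ _

theorem sa_low (S : A) (δ : ℝ) : IsSelfAdjoint (algebraMap ℝ A δ + star S * S) :=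
  Pool.Agent.W116.RO.Mono.sa δ S

theorem cont_low (S : A) {δ : ℝ} (hδ : 0 < δ) :
    ContinuousOn Real.log (spectrum ℝ (algebraMap ℝ A δ + star S * S)) := by
  apply Real.continuousOn_log.mono
  intro x hx
  have h1 : δ ≤ x := Pool.Agent.W116.RO.Mono.spec δ S hx
  rw [Set.mem_compl_iff, Set.mem_singleton_iff]
  linarith

theorem ev_logC (f : CA A) {δ : ℝ} (hδ : 0 < δ) (θ : Cir) :
    evC θ (CFC.log (algebraMap ℝ (CA A) δ + star f * f))
      = CFC.log (algebraMap ℝ A δ + star (evC θ f) * evC θ f) := by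
  unfold CFC.log
  have h0 : evC θ (algebraMap ℝ (CA A) δ + star f * f)
      = algebraMap ℝ A δ + star (evC θ f) * evC θ f := by
    rw [map_add, map_mul, map_star]
    have h1 : evC θ (algebraMap ℝ (CA A) δ) = algebraMap ℝ A δ := by
      rw [Algebra.algebraMap_eq_smul_one, Algebra.algebraMap_eq_smul_one]
      rfl
    rw [h1]
  have hcont : Continuous (evC θ : CA A →⋆ₐ[ℂ] A) :=
    AddMonoidHomClass.continuous_of_bound (evC θ : CA A →⋆ₐ[ℂ] A) 1 fun a => by
      rw [one_mul]; exact evC_norm a θ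
  rw [StarAlgHom.map_cfc (evC θ : CA A →⋆ₐ[ℂ] A) Real.log _
    (cont_low _ hδ) hcont (sa_low _ δ) (by rw [h0]; exact sa_low _ δ), h0]

theorem uu_C (τ : A →L[ℂ] ℂ) {δ : ℝ} (hδ : 0 < δ) (f : CA A) :
    uu (tauC τ) δ f = ∫ θ, uu τ δ (evC θ f) ∂hm := by
  unfold uu
  rw [tauC_apply]
  have h1 := (integral_re (tau_int τ (CFC.log (algebraMap ℝ (CA A) δ + star f * f)))).symm
  refine (h1.trans ?_)
  refine integral_congr_ae (Eventually.of_forall fun θ => ?_)
  show (τ (evC θ (CFC.log (algebraMap ℝ (CA A) δ + star f * f)))).re = _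
  rw [ev_logC f hδ θ]

/-- `w ↦ (θ ↦ Ψ(w e^{2πiθ}))` -/
noncomputable def lift (Ψ : ℂ → A) (hΨ : Continuous Ψ) (w : ℂ) : CA A :=
  ofC ⟨fun θ => Ψ (w * ee θ), hΨ.comp (continuous_const.mul ee_cont)⟩

theorem lift_ev (Ψ : ℂ → A) (hΨ : Continuous Ψ) (w : ℂ) (θ : Cir) :
    evC θ (lift Ψ hΨ w) = Ψ (w * ee θ) := rfl

theorem lift_diff (Ψ : ℂ → A) (hΨ : Differentiable ℂ Ψ) :
    Differentiable ℂ (lift Ψ hΨ.continuous) := by
  -- Taylor coefficients
  obtain ⟨a, hs⟩ : ∃ a : ℕ → A, ∀ z : ℂ, HasSum (fun n => z ^ n • a n) (Ψ z) := by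
    refine ⟨fun n => ((n.factorial : ℂ)⁻¹) • iteratedDeriv n Ψ 0, fun z => ?_⟩
    have h1 := Complex.hasSum_taylorSeries_of_entire hΨ 0 z
    simp_rw [sub_zero] at h1
    have h2 : (fun n : ℕ => z ^ n • ((n.factorial : ℂ)⁻¹) • iteratedDeriv n Ψ 0)
        = fun n : ℕ => ((n.factorial : ℂ)⁻¹) • z ^ n • iteratedDeriv n Ψ 0 := by
      funext n
      rw [smul_comm]
    rw [h2]
    exact h1
  -- the coefficient functions
  set f : ℕ → CA A := fun n => ofC ⟨fun θ => ee θ ^ n • a n,
    (ee_cont.pow n).smul continuous_const⟩ with hf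
  have hfe : ∀ n θ, evC θ (f n) = ee θ ^ n • a n := fun n θ => rfl
  have hfn : ∀ n, ‖f n‖ ≤ ‖a n‖ := by
    intro n
    refine ofC_norm_le _ (norm_nonneg _) fun θ => ?_
    show ‖ee θ ^ n • a n‖ ≤ ‖a n‖
    rw [norm_smul, norm_pow, ee_norm, one_pow, one_mul]
  -- bounds
  have hb : ∀ R : ℝ, 0 < R → Summable fun n => R ^ n * ‖a n‖ := by
    intro R hR
    have h1 := (hs ((2 * R : ℝ) : ℂ)).summable.tendsto_atTop_zero
    obtain ⟨C, hC⟩ := (Metric.isBounded_range_of_tendsto _ h1).exists_norm_le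
    have h2 : ∀ n, R ^ n * ‖a n‖ ≤ C * (1 / 2) ^ n := by
      intro n
      have h3 := hC _ ⟨n, rfl⟩
      simp only [norm_smul, norm_pow, Complex.norm_real, Real.norm_eq_abs,
        abs_of_pos (show (0:ℝ) < 2 * R by linarith)] at h3
      have h4 : (2 * R) ^ n = R ^ n * 2 ^ n := by rw [mul_comm 2 R, mul_pow]
      rw [h4] at h3
      have h5 : (0:ℝ) < 2 ^ n := by positivity
      rw [one_div, inv_pow, ← div_eq_mul_inv, le_div_iff₀ h5]
      calc R ^ n * ‖a n‖ * 2 ^ n = R ^ n * 2 ^ n * ‖a n‖ := by ring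
        _ ≤ C := h3
    exact Summable.of_nonneg_of_le (fun n => by positivity) h2
      ((summable_geometric_of_lt_one (by norm_num) (by norm_num)).mul_left C)
  have hsumm : ∀ w : ℂ, Summable fun n => w ^ n • f n := by
    intro w
    refine Summable.of_norm_bounded (hb (‖w‖ + 1) (by positivity)) fun n => ?_
    rw [norm_smul, norm_pow]
    have h1 : ‖w‖ ^ n ≤ (‖w‖ + 1) ^ n := pow_le_pow_left₀ (norm_nonneg _) (by linarith) n
    exact mul_le_mul h1 (hfn n) (norm_nonneg _) (by positivity)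
  have heq : lift Ψ hΨ.continuous = fun w => ∑' n, w ^ n • f n := by
    funext w
    refine evC_ext fun θ => ?_
    rw [lift_ev]
    have hcont : Continuous (evC θ : CA A →⋆ₐ[ℂ] A) :=
      AddMonoidHomClass.continuous_of_bound (evC θ : CA A →⋆ₐ[ℂ] A) 1 fun a => by
        rw [one_mul]; exact evC_norm a θ
    have h1 := (hsumm w).hasSum.map (evC θ : CA A →⋆ₐ[ℂ] A) hcont
    have h2 := hs (w * ee θ)
    have h3 : (⇑(evC θ : CA A →⋆ₐ[ℂ] A) ∘ fun n => w ^ n • f n)
        = fun n => (w * ee θ) ^ n • a n := by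
      funext n
      show evC θ (w ^ n • f n) = _
      rw [map_smul, hfe, smul_smul, mul_pow]
    rw [h3] at h1
    exact h2.unique h1
  rw [heq]
  intro w
  have h1 := Complex.differentiableOn_tsum_of_summable_norm (F := fun n (w : ℂ) => w ^ n • f n)
    (U := Metric.ball (0:ℂ) (‖w‖ + 1)) (hb (‖w‖ + 1) (by positivity))
    (fun n => by fun_prop) Metric.isOpen_ball (fun n z hz => by
      rw [norm_smul, norm_pow]
      have h1 : ‖z‖ ^ n ≤ (‖w‖ + 1) ^ n := by
        rw [mem_ball_zero_iff] at hz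
        exact pow_le_pow_left₀ (norm_nonneg _) hz.le n
      exact mul_le_mul h1 (hfn n) (norm_nonneg _) (by positivity))
  exact h1.differentiableAt (Metric.isOpen_ball.mem_nhds (by
    rw [mem_ball_zero_iff]; linarith))

/-- **Sub-mean value property.** -/
theorem smv (τ : A →L[ℂ] ℂ) (hτ : TrSt τ) (Ψ : ℂ → A) (hΨ : Differentiable ℂ Ψ) {δ : ℝ}
    (hδ : 0 < δ) : uu τ δ (Ψ 0) ≤ ∫ θ, uu τ δ (Ψ (ee θ)) ∂hm := by
  have h := Pool.Agent.W116.RO.Mono.t_MONO Pool.Agent.W636.RO.t_M1 Pool.Agent.W405.RO.t_M2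
    (CA A) (tauC τ) (tauC_TrSt τ hτ) (lift Ψ hΨ.continuous) (lift_diff Ψ hΨ) (by
      intro δ t w hδ
      show uu (tauC τ) δ (lift Ψ hΨ.continuous (Complex.exp (t * Complex.I) * w))
        = uu (tauC τ) δ (lift Ψ hΨ.continuous w)
      rw [uu_C τ hδ, uu_C τ hδ]
      simp_rw [lift_ev]
      have h1 : ∀ θ : Cir, Complex.exp (t * Complex.I) * w * ee θ
          = w * ee (θ + ((t / (2 * Real.pi) : ℝ) : Cir)) := by
        intro θ
        rw [ee_add, ee_coe]
        ring
      simp_rw [h1]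
      exact integral_add_right_eq_self (μ := hm) (fun θ => uu τ δ (Ψ (w * ee θ)))
        ((t / (2 * Real.pi) : ℝ) : Cir)) δ hδ
  have h2 : uu (tauC τ) δ (lift Ψ hΨ.continuous 0) ≤ uu (tauC τ) δ (lift Ψ hΨ.continuous 1) := h
  rw [uu_C τ hδ, uu_C τ hδ] at h2
  simp_rw [lift_ev, zero_mul, one_mul] at h2
  simpa using h2

end
end Pool.Agent.H21.Smv
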